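import Pool.Agent.Lib.MP_084b88_gt.SK.SpecW

/-!
# MP_084b88_gt, project SK, module NSW: the weighted null forms at a point
-/

set_option autoImplicit false

open MeasureTheory Set Real Filter Topology
open scoped Pointwise InnerProductSpace

namespace Pool.Agent.Lib.MP_084b88_gt.SK

open Pool.Agent.Lib.MP_084b88_gt.CW Pool.Agent.Lib.MP_084b88_gt.SY Pool.Agent.Lib.MP_084b88_gt.AY

namespace NSWM

/-- The item with weight exponents. -/
def it (x : NW) (p1 p2 m1 m2 : ℕ) : NI := ⟨x.φ, x.j, x.p0, x.pX, p1, p2, x.k, x.l, x.mx, m1, m2, x.nX, 0, 0⟩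

/-- The monomial without weights. -/
def m0 (D1 D2 : ℝ) (j p0 pX k l mx nX : ℕ) (d : Dt) : ℝ := mX D1 D2 j p0 pX 0 0 k l mx 0 0 nX 0 0 d

/-- The bracket. -/
def K0 (D1 D2 : ℝ) (x : NW) (D : ℕ) (d : Dt) : ℝ :=
  (d.a * hor x.φ d.b + hor1 x.φ d.b * (1 - d.a * d.b)) * m0 D1 D2 x.j x.p0 x.pX x.k x.l x.mx x.nX d +
    hor x.φ d.b * (-(d.a * ((x.j : ℝ) + x.p0 + x.pX + D) * m0 D1 D2 x.j x.p0 x.pX x.k x.l x.mx x.nX d) -
      x.j * d.e * m0 D1 D2 (x.j - 1) x.p0 x.pX x.k x.l x.mx x.nX d +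
      x.p0 * d.e * m0 D1 D2 x.j (x.p0 - 1) x.pX x.k x.l x.mx x.nX d +
      x.k * (d.e + d.gt - d.a * d.gs) * m0 D1 D2 x.j x.p0 x.pX (x.k - 1) x.l x.mx x.nX d +
      x.nX * ((D1 * d.x1 + D2 * d.x2) - d.a * (D1 * d.y1 + D2 * d.y2)) *
        m0 D1 D2 x.j x.p0 x.pX x.k x.l x.mx (x.nX - 1) d)

theorem mX_eq (D1 D2 : ℝ) (j p0 pX p1 p2 k l mx m1 m2 nX : ℕ) (d : Dt) :
    mX D1 D2 j p0 pX p1 p2 k l mx m1 m2 nX 0 0 d =
      ((d.y1 - d.b * d.x1) ^ p1 * (d.y2 - d.b * d.x2) ^ p2 * (d.x1 ^ m1 * d.x2 ^ m2)) *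
        m0 D1 D2 j p0 pX k l mx nX d := by
  unfold m0 mX; simp only [pow_zero, mul_one]; ring

theorem it_eq (D1 D2 : ℝ) (x : NW) (p1 p2 m1 m2 : ℕ) (d : Dt) :
    NXf D1 D2 (fun b => hor x.φ b) (fun b => hor1 x.φ b) x.j x.p0 x.pX p1 p2 x.k x.l x.mx m1 m2 x.nX 0 0 d =
      ((d.y1 - d.b * d.x1) ^ p1 * (d.y2 - d.b * d.x2) ^ p2 * (d.x1 ^ m1 * d.x2 ^ m2)) *
        K0 D1 D2 x (p1 + p2) d := by
  unfold NXf dX K0
  simp only [mX_eq, Nat.cast_zero, zero_mul]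
  push_cast
  ring

theorem mwM_val (iso : Bool) (D1 D2 : ℝ) (d : Dt) (j p0 pX k l mx nX : ℕ) :
    (mwM j p0 pX k l mx nX).val (rhoW iso D1 D2 d) = m0 D1 D2 j p0 pX k l mx nX d := by
  unfold mwM m0 mX
  simp only [NIM.pwm_val, dlE, Ex.val, rhoW, Int.cast_one, Int.cast_neg, pow_zero, mul_one]
  ring

theorem nwE_val (iso : Bool) (D1 D2 : ℝ) (d : Dt) (x : NW) : (nwE x).val (rhoW iso D1 D2 d) =
    (wtE x.w).val (rhoW iso D1 D2 d) * K0 D1 D2 x (wdg x.w) d := by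
  obtain ⟨φ, j, p0, pX, k, l, mx, nX, w⟩ := x
  have hz : ∀ (n : ℕ) (u w : ℝ), n = 0 → (n : ℝ) * u * w = 0 := by
    intro n u w h; rw [h]; simp
  have hs : ∀ n : ℕ, n ≠ 0 → ((Int.ofNat (Nat.succ (n - 1)) : ℤ) : ℝ) = (n : ℝ) := by
    intro n h
    have : Nat.succ (n - 1) = n := by omega
    rw [this]; simp
  have hs' : ∀ n : ℕ, n ≠ 0 → ((Int.negSucc (n - 1) : ℤ) : ℝ) = -(n : ℝ) := by
    intro n h
    have : (n - 1) + 1 = n := by omega
    rw [Int.cast_negSucc, this]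
  simp only [nwE, Ex.val]
  rw [NIM.gd_val (rhoW iso D1 D2 d) j _ _ (-(j : ℝ) * d.e * m0 D1 D2 (j - 1) p0 pX k l mx nX d)
    (fun h => by simp only [Ex.val]; rw [mwM_val, hs' j h]; rfl) (fun h => by rw [h]; simp)]
  rw [NIM.gd_val (rhoW iso D1 D2 d) p0 _ _ ((p0 : ℝ) * d.e * m0 D1 D2 j (p0 - 1) pX k l mx nX d)
    (fun h => by simp only [Ex.val]; rw [mwM_val, hs p0 h]; rfl) (hz _ _ _)]
  rw [NIM.gd_val (rhoW iso D1 D2 d) k _ _ ((k : ℝ) * (d.e + d.gt - d.a * d.gs) *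
      m0 D1 D2 j p0 pX (k - 1) l mx nX d)
    (fun h => by
      simp only [Ex.val, alE]; rw [mwM_val, hs k h]
      simp only [rhoW, Int.cast_neg, Int.cast_one]; ring) (hz _ _ _)]
  rw [NIM.gd_val (rhoW iso D1 D2 d) nX _ _ ((nX : ℝ) * ((D1 * d.x1 + D2 * d.x2) - d.a * (D1 * d.y1 + D2 * d.y2)) *
      m0 D1 D2 j p0 pX k l mx (nX - 1) d)
    (fun h => by
      simp only [Ex.val, alE]; rw [mwM_val, hs nX h]
      simp only [rhoW, Int.cast_neg, Int.cast_one]; ring) (hz _ _ _)]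
  have e1 : ((Int.subNatNat 1 (Nat.add (Nat.add (Nat.add j p0) pX) (wdg w)) : ℤ) : ℝ) =
      1 - ((j : ℝ) + p0 + pX + wdg w) := by
    change ((Int.subNatNat 1 (j + p0 + pX + wdg w) : ℤ) : ℝ) = _
    rw [Int.subNatNat_eq_coe]; push_cast; ring
  rw [mwM_val, NIM.horE_val, NIM.horDE_val, NIM.tl_eq, e1]
  have r0 : rhoW iso D1 D2 d 0 = d.a := rfl
  have r1 : rhoW iso D1 D2 d 1 = d.b := rfl
  simp only [Ex.val, r0, r1, Int.cast_neg, Int.cast_one, Int.cast_zero]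
  unfold K0 hor1
  ring

/-- The items of a weighted null form. -/
def its (iso : Bool) (x : NW) : List NI :=
  match x.w with
  | 1 => it x 0 0 2 0 :: (if iso then [it x 0 0 0 2] else [])
  | 2 => it x 1 0 1 0 :: (if iso then [it x 0 1 0 1] else [])
  | 3 => it x 2 0 0 0 :: (if iso then [it x 0 2 0 0] else [])
  | 4 => if iso then [] else [it x 0 0 0 2]
  | 5 => if iso then [] else [it x 0 1 0 1]
  | 6 => if iso then [] else [it x 0 2 0 0]
  | _ => [it x 0 0 0 0]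

theorem nsV_it (D1 D2 : ℝ) (x : NW) (p1 p2 m1 m2 : ℕ) (d : Dt) : nsV D1 D2 [it x p1 p2 m1 m2] d =
    ((d.y1 - d.b * d.x1) ^ p1 * (d.y2 - d.b * d.x2) ^ p2 * (d.x1 ^ m1 * d.x2 ^ m2)) *
        K0 D1 D2 x (p1 + p2) d := by
  rw [← it_eq]; simp [nsV, it]

theorem nsV_cons (D1 D2 : ℝ) (x : NI) (l : List NI) (d : Dt) :
    nsV D1 D2 (x :: l) d = nsV D1 D2 [x] d + nsV D1 D2 l d := by simp [nsV]

theorem nsV_nil (D1 D2 : ℝ) (d : Dt) : nsV D1 D2 [] d = 0 := by simp [nsV]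

theorem its_val (iso : Bool) (D1 D2 : ℝ) (x : NW) (d : Dt) :
    (nwE x).val (rhoW iso D1 D2 d) = nsV D1 D2 (its iso x) d := by
  rw [nwE_val]
  obtain ⟨φ, j, p0, pX, k, l, mx, nX, w⟩ := x
  have g0 : rhoW iso D1 D2 d 1 = d.b := rfl
  have g8 : rhoW iso D1 D2 d 8 = 1 := rfl
  have g9 : rhoW iso D1 D2 d 9 = d.y1 ^ 2 + if iso then d.y2 ^ 2 else 0 := rfl
  have g10 : rhoW iso D1 D2 d 10 = d.x1 ^ 2 + if iso then d.x2 ^ 2 else 0 := rfl
  have g11 : rhoW iso D1 D2 d 11 = d.x1 * d.y1 + if iso then d.x2 * d.y2 else 0 := rfl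
  have g12 : rhoW iso D1 D2 d 12 = if iso then 0 else d.y2 ^ 2 := rfl
  have g13 : rhoW iso D1 D2 d 13 = if iso then 0 else d.x2 ^ 2 := rfl
  have g14 : rhoW iso D1 D2 d 14 = if iso then 0 else d.x2 * d.y2 := rfl
  rcases w with _ | _ | _ | _ | _ | _ | _ | w
  · have h1 : wtE 0 = Ex.v 8 := rfl
    have h2 : wdg 0 = 0 := rfl
    simp only [its, h1, h2, Ex.val, g8]
    rw [nsV_it]; simp
  · have h1 : wtE 1 = Ex.v 10 := rfl
    have h2 : wdg 1 = 0 := rfl
    simp only [its, zero_add, h1, h2, Ex.val, g10]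
    rw [nsV_cons, nsV_it]
    cases iso
    · simp only [Bool.false_eq_true, if_false, nsV_nil, Nat.reduceAdd, zero_add, add_zero]; ring
    · simp only [if_true, nsV_it, Nat.reduceAdd, zero_add, add_zero]; ring
  · have h1 : wtE 2 = subE (Ex.v 11) (Ex.mul (Ex.v 1) (Ex.v 10)) := rfl
    have h2 : wdg 2 = 1 := rfl
    simp only [its, Nat.reduceAdd, h1, h2, Ex.val, subE, g0, g10, g11, Int.cast_neg, Int.cast_one]
    rw [nsV_cons, nsV_it]
    cases iso
    · simp only [Bool.false_eq_true, if_false, nsV_nil, Nat.reduceAdd, zero_add, add_zero]; ring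
    · simp only [if_true, nsV_it, Nat.reduceAdd, zero_add, add_zero]; ring
  · have h1 : wtE 3 = Ex.add (Ex.v 9) (subE (Ex.mul (sqE 1) (Ex.v 10)) (smE 2 (Ex.mul (Ex.v 1) (Ex.v 11)))) := rfl
    have h2 : wdg 3 = 2 := rfl
    simp only [its, Nat.reduceAdd, h1, h2, Ex.val, subE, smE, sqE, g0, g9, g10, g11, Int.cast_neg, Int.cast_one,
      Int.cast_ofNat]
    rw [nsV_cons, nsV_it]
    cases iso
    · simp only [Bool.false_eq_true, if_false, nsV_nil, Nat.reduceAdd, zero_add, add_zero]; ring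
    · simp only [if_true, nsV_it, Nat.reduceAdd, zero_add, add_zero]; ring
  · have h1 : wtE 4 = Ex.v 13 := rfl
    have h2 : wdg 4 = 0 := rfl
    simp only [its, Nat.reduceAdd, h1, h2, Ex.val, g13]
    cases iso
    · simp only [Bool.false_eq_true, if_false, nsV_it, Nat.reduceAdd, zero_add, add_zero]; ring
    · simp only [if_true, nsV_nil]; ring
  · have h1 : wtE 5 = subE (Ex.v 14) (Ex.mul (Ex.v 1) (Ex.v 13)) := rfl
    have h2 : wdg 5 = 1 := rfl
    simp only [its, Nat.reduceAdd, h1, h2, Ex.val, subE, g0, g13, g14, Int.cast_neg, Int.cast_one]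
    cases iso
    · simp only [Bool.false_eq_true, if_false, nsV_it, Nat.reduceAdd, zero_add, add_zero]; ring
    · simp only [if_true, nsV_nil]; ring
  · have h1 : wtE 6 = Ex.add (Ex.v 12) (subE (Ex.mul (sqE 1) (Ex.v 13)) (smE 2 (Ex.mul (Ex.v 1) (Ex.v 14)))) := rfl
    have h2 : wdg 6 = 2 := rfl
    simp only [its, Nat.reduceAdd, h1, h2, Ex.val, subE, smE, sqE, g0, g12, g13, g14, Int.cast_neg, Int.cast_one,
      Int.cast_ofNat]
    cases iso
    · simp only [Bool.false_eq_true, if_false, nsV_it, Nat.reduceAdd, zero_add, add_zero]; ring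
    · simp only [if_true, nsV_nil]; ring
  · have h1 : wtE (w + 7) = Ex.v 8 := rfl
    have h2 : wdg (w + 7) = 0 := rfl
    have h3 : its iso ⟨φ, j, p0, pX, k, l, mx, nX, w + 7⟩ = [it ⟨φ, j, p0, pX, k, l, mx, nX, w + 7⟩ 0 0 0 0] := rfl
    change (wtE (w + 7)).val (rhoW iso D1 D2 d) * K0 D1 D2 ⟨φ, j, p0, pX, k, l, mx, nX, w + 7⟩ (wdg (w + 7)) d =
      nsV D1 D2 (its iso ⟨φ, j, p0, pX, k, l, mx, nX, w + 7⟩) d
    rw [h1, h2, h3, nsV_it]
    simp [Ex.val, g8]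

theorem its_cond (iso : Bool) (x : NW) (h : nwC x) : ∀ y ∈ its iso x, niC y := by
  obtain ⟨φ, j, p0, pX, k, l, mx, nX, w⟩ := x
  have key : ∀ (p1 p2 m1 m2 w : ℕ), nwC ⟨φ, j, p0, pX, k, l, mx, nX, w⟩ → p1 + p2 = wdg w →
      niC (it ⟨φ, j, p0, pX, k, l, mx, nX, w⟩ p1 p2 m1 m2) := by
    intro p1 p2 m1 m2 w hC hw
    unfold nwC at hC
    unfold niC it
    simp only [add_zero] at hC ⊢
    rw [← hw] at hC
    rcases hC with hC | ⟨a1, a2, a3⟩ | ⟨a1, a2, a3, a4⟩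
    · exact Or.inl (by omega)
    · exact Or.inr (Or.inl ⟨a1, by omega, a3⟩)
    · exact Or.inr (Or.inr ⟨a1, by omega, a3, a4⟩)
  intro y hy
  rcases w with _ | _ | _ | _ | _ | _ | _ | w
  · simp only [its, List.mem_singleton] at hy
    subst hy; exact key _ _ _ _ _ h rfl
  · cases iso <;> simp only [its, zero_add, List.mem_cons, List.not_mem_nil, or_false, if_true, if_false,
      Bool.false_eq_true] at hy
    · subst hy; exact key _ _ _ _ _ h rfl
    · rcases hy with rfl | rfl <;> exact key _ _ _ _ _ h rfl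
  · cases iso <;> simp only [its, Nat.reduceAdd, List.mem_cons, List.not_mem_nil, or_false, if_true, if_false,
      Bool.false_eq_true] at hy
    · subst hy; exact key _ _ _ _ _ h rfl
    · rcases hy with rfl | rfl <;> exact key _ _ _ _ _ h rfl
  · cases iso <;> simp only [its, Nat.reduceAdd, List.mem_cons, List.not_mem_nil, or_false, if_true, if_false,
      Bool.false_eq_true] at hy
    · subst hy; exact key _ _ _ _ _ h rfl
    · rcases hy with rfl | rfl <;> exact key _ _ _ _ _ h rfl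
  · cases iso <;> simp only [its, Nat.reduceAdd, List.mem_cons, List.not_mem_nil, or_false, if_true, if_false,
      Bool.false_eq_true] at hy
    subst hy; exact key _ _ _ _ _ h rfl
  · cases iso <;> simp only [its, Nat.reduceAdd, List.mem_cons, List.not_mem_nil, or_false, if_true, if_false,
      Bool.false_eq_true] at hy
    subst hy; exact key _ _ _ _ _ h rfl
  · cases iso <;> simp only [its, Nat.reduceAdd, List.mem_cons, List.not_mem_nil, or_false, if_true, if_false,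
      Bool.false_eq_true] at hy
    subst hy; exact key _ _ _ _ _ h rfl
  · have h3 : its iso ⟨φ, j, p0, pX, k, l, mx, nX, w + 7⟩ = [it ⟨φ, j, p0, pX, k, l, mx, nX, w + 7⟩ 0 0 0 0] := rfl
    change y ∈ its iso ⟨φ, j, p0, pX, k, l, mx, nX, w + 7⟩ at hy
    rw [h3, List.mem_singleton] at hy
    subst hy; exact key _ _ _ _ _ h rfl

end NSWM

open NSWM in
theorem specNSW : SpecNSW := by
  intro hNQA iso D1 D2 ns h
  induction ns with
  | nil => exact Nul_congr Nul_zero fun d => by simp [nwsE, Ex.val]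
  | cons x l ih =>
    have h1 := ih fun y hy => h y (List.mem_cons_of_mem _ hy)
    have h2 := nsV_nul hNQA D1 D2 (its iso x) (its_cond iso x (h x List.mem_cons_self))
    refine Nul_congr (Nul_add h2 h1) fun d => ?_
    have : nwsE (x :: l) = Ex.add (nwE x) (nwsE l) := rfl
    rw [this]; simp only [Ex.val]; rw [its_val]

end Pool.Agent.Lib.MP_084b88_gt.SK
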