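import Pool.Agent.Lib.MP_084b88_gt.SK.SpecV
import Pool.Agent.Lib.MP_084b88_gt.SK.NSW

/-!
# MP_084b88_gt, project SK, modules XGV, XGW: generators from the vertex form
-/

set_option autoImplicit false

open MeasureTheory Set Real Filter Topology
open scoped Pointwise InnerProductSpace

namespace Pool.Agent.Lib.MP_084b88_gt.SK

open Pool.Agent.Lib.MP_084b88_gt.CW Pool.Agent.Lib.MP_084b88_gt.SY Pool.Agent.Lib.MP_084b88_gt.AY

namespace XGWM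

/-- Derivative of `E2f`. -/
noncomputable def E1f (κ0 u0 u1 u2 u3 x : ℝ) : ℝ :=
  (κ0 - u0 + 149 / 1024) * x + (-u1 - 1 / 2) * x ^ 3 / 3 + (-u2 - 1 / 8) * x ^ 5 / 5 + (-u3 - 1 / 16) * x ^ 7 / 7

theorem E2f_deriv (κ0 u0 u1 u2 u3 x : ℝ) : HasDerivAt (E2f κ0 u0 u1 u2 u3) (E1f κ0 u0 u1 u2 u3 x) x := by
  unfold E2f E1f
  have h := ((((hasDerivAt_pow 2 x).const_mul ((κ0 - u0 + 149 / 1024))).div_const 2).add
    (((hasDerivAt_pow 4 x).const_mul (-u1 - 1 / 2)).div_const 12)).add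
    (((hasDerivAt_pow 6 x).const_mul (-u2 - 1 / 8)).div_const 30)
  have h2 := h.add (((hasDerivAt_pow 8 x).const_mul (-u3 - 1 / 16)).div_const 56)
  refine h2.congr_deriv ?_
  norm_num
  ring

theorem E1f_deriv (κ0 u0 u1 u2 u3 x : ℝ) : HasDerivAt (E1f κ0 u0 u1 u2 u3)
    (etl 3 κ0 (fun y => u0 + u1 * y + u2 * y ^ 2 + u3 * y ^ 3) x) x := by
  rw [KQEM.etl3]
  unfold E1f
  have h := ((((hasDerivAt_id x).const_mul ((κ0 - u0 + 149 / 1024)))).add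
    (((hasDerivAt_pow 3 x).const_mul (-u1 - 1 / 2)).div_const 3)).add
    (((hasDerivAt_pow 5 x).const_mul (-u2 - 1 / 8)).div_const 5)
  have h2 := h.add (((hasDerivAt_pow 7 x).const_mul (-u3 - 1 / 16)).div_const 7)
  refine h2.congr_deriv ?_
  norm_num
  ring

theorem mtE_valW (iso : Bool) (D1 D2 : ℝ) (d : Dt) (l : List MT) (hl : ∀ x ∈ l, x.r = 0 ∧ x.s = 0) :
    (mtE l).val (rhoW iso D1 D2 d) = mtV l (D1 * d.x1 + D2 * d.x2) d.x1 d.x2 d.gt := by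
  induction l with
  | nil => simp [mtE, mtV, Ex.val]
  | cons t l ih =>
    have ih' := ih fun x hx => hl x (List.mem_cons_of_mem _ hx)
    obtain ⟨h1, h2⟩ := hl t List.mem_cons_self
    have : mtE (t :: l) = Ex.add (Ex.mul (Ex.c t.c)
      (pwm (Ex.v 4) t.g (pwm (Ex.v 7) t.q (pwm (Ex.v 9) t.r (pwm (Ex.v 11) t.s (Ex.c 1)))))) (mtE l) := rfl
    rw [this]
    simp only [Ex.val, NIM.pwm_val, ih']
    simp only [mtV, List.map_cons, List.sum_cons, rhoW, Int.cast_one, h1, h2, pow_zero]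
    ring

theorem mwE_val (iso : Bool) (D1 D2 : ℝ) (d : Dt) (l : List MW) :
    (mwE l).val (rhoW iso D1 D2 d) = mwV iso l (D1 * d.x1 + D2 * d.x2) d.x1 d.x2 d.gt := by
  induction l with
  | nil => simp [mwE, mwV, Ex.val]
  | cons t l ih =>
    have : mwE (t :: l) = Ex.add (Ex.mul (Ex.c t.c)
      (pwm (Ex.v 4) t.g (pwm (Ex.v 7) t.q (Ex.v (wix t.w))))) (mwE l) := rfl
    rw [this]
    simp only [Ex.val, NIM.pwm_val, ih]
    have hw : rhoW iso D1 D2 d (wix t.w) = wx iso d.x1 d.x2 t.w := by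
      obtain ⟨_, _, _, w⟩ := t
      rcases w with _ | _ | w
      · rfl
      · rfl
      · rfl
    rw [hw]
    have r4 : rhoW iso D1 D2 d 4 = d.gt := rfl
    have r7 : rhoW iso D1 D2 d 7 = D1 * d.x1 + D2 * d.x2 := rfl
    simp only [mwV, List.map_cons, List.sum_cons, r4, r7]
    ring

theorem mwV_cont (iso : Bool) (l : List MW) (D1 D2 : ℝ) :
    Continuous fun x : ℝ × ℝ × ℝ => mwV iso l (D1 * x.1 + D2 * x.2.1) x.1 x.2.1 x.2.2 := by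
  induction l with
  | nil => simpa [mwV] using continuous_const
  | cons t l ih =>
    have h1 : (fun x : ℝ × ℝ × ℝ => mwV iso (t :: l) (D1 * x.1 + D2 * x.2.1) x.1 x.2.1 x.2.2) = fun x =>
      (t.c : ℝ) * (x.2.2 ^ t.g * (D1 * x.1 + D2 * x.2.1) ^ t.q * wx iso x.1 x.2.1 t.w) +
        mwV iso l (D1 * x.1 + D2 * x.2.1) x.1 x.2.1 x.2.2 := by
      funext x; simp [mwV]
    rw [h1]
    have hw : Continuous fun x : ℝ × ℝ × ℝ => wx iso x.1 x.2.1 t.w := by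
      obtain ⟨_, _, _, w⟩ := t
      rcases w with _ | _ | w
      · exact continuous_const
      · cases iso
        · simp only [wx, Bool.false_eq_true, if_false]; fun_prop
        · simp only [wx, if_true]; fun_prop
      · cases iso
        · simp only [wx, Bool.false_eq_true, if_false]; fun_prop
        · simp only [wx, if_true]; fun_prop
    exact Continuous.add (by fun_prop) ih

/-- **The value of the kernel expression.** -/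
theorem krV_val (iso : Bool) (p : KW) (D1 D2 : ℝ) (d : Dt) (c1 c2 rc rs aS aR κ0 u0 u1 u2 u3 : ℝ)
    (hPh : ∀ x ∈ p.kp.Ph, x.r = 0 ∧ x.s = 0) (hM2 : ∀ x ∈ p.kp.M2, x.r = 0 ∧ x.s = 0)
    (hiso : iso = true → rs = rc ∧ p.kp.rs = p.kp.rc)
    (h : LnR p.kp ⟨c1, c2, rc, rs, aS, aR, κ0, u0, u1, u2, u3⟩) :
    (krV p).val (rhoW iso D1 D2 d) = c1 * c2 * KR 3 rc rs aS aR (E2f κ0 u0 u1 u2 u3)
      (fun x1 x2 γ => psQ rc rs x1 x2 * (mtV p.kp.Ph (D1 * x1 + D2 * x2) x1 x2 γ / c2))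
      (fun x1 x2 γ => 3 * mwV iso p.M (D1 * x1 + D2 * x2) x1 x2 γ / (c1 * c2))
      (fun x1 x2 γ => 6 * mtV p.kp.M2 (D1 * x1 + D2 * x2) x1 x2 γ / (c1 * c2)) d := by
  have hc1 : c1 ≠ 0 := h.hc1.ne'
  have hc2 : c2 ≠ 0 := h.hc2.ne'
  have e0 : (p.kp.c1 : ℝ) = c1 := h.e0
  have e1 : (p.kp.rc : ℝ) = c1 * rc := h.e1
  have e2 : (p.kp.rs : ℝ) = c1 * rs := h.e2
  have g1 : (p.kp.h1 : ℝ) = c2 * aS / 48 := h.g1
  have g2 : (p.kp.h2 : ℝ) = c2 * aR / 960 := h.g2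
  have g3 : (p.kp.h3 : ℝ) = c2 * aR / 7168 := h.g3
  have k0 : (p.kp.t0 : ℝ) = c2 * aR * (κ0 - u0 + 149 / 1024) := h.k0
  have k1 : (p.kp.t1 : ℝ) = c2 * aR * (-u1 - 1 / 2) / 6 := h.k1
  have k2 : (p.kp.t2 : ℝ) = c2 * aR * (-u2 - 1 / 8) / 15 := h.k2
  have k3 : (p.kp.t3 : ℝ) = c2 * aR * (-u3 - 1 / 16) / 28 := h.k3
  have hps : (psW p.kp).val (rhoW iso D1 D2 d) = c1 * psQ rc rs d.x1 d.x2 := by
    simp only [psW, subE, smE, Ex.val, rhoW, Int.cast_neg, Int.cast_one, e0, e1, e2]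
    unfold psQ
    cases iso
    · simp only [Bool.false_eq_true, if_false]; ring
    · obtain ⟨q1, q2⟩ := hiso rfl
      subst q1
      simp only [if_true]; ring
  have hv : rhoW iso D1 D2 d 10 + rhoW iso D1 D2 d 13 = d.x1 ^ 2 + d.x2 ^ 2 := by
    simp only [rhoW]
    cases iso
    · simp
    · simp
  have hhr : (hrE p.kp).val (rhoW iso D1 D2 d) = c2 * (hdk 3 aS aR d.a d.e +
      aR * (E2f κ0 u0 u1 u2 u3 (d.a + d.e) + E2f κ0 u0 u1 u2 u3 (d.a - d.e) - 2 * E2f κ0 u0 u1 u2 u3 d.a)) := by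
    rw [KQEM.hdk3]
    unfold E2f
    have r0 : rhoW iso D1 D2 d 0 = d.a := rfl
    have r2 : rhoW iso D1 D2 d 2 = d.e := rfl
    simp only [hrE, e2E, q1E, q2E, q3E, sqE, smE, Ex.val, r0, r2, g1, g2, g3, k0, k1, k2, k3]
    push_cast
    ring
  have r0 : rhoW iso D1 D2 d 0 = d.a := rfl
  have r2 : rhoW iso D1 D2 d 2 = d.e := rfl
  have r4 : rhoW iso D1 D2 d 4 = d.gt := rfl
  have r8 : rhoW iso D1 D2 d 8 = 1 := rfl
  have hv' : ∀ z : ℝ, z + -1 * (rhoW iso D1 D2 d 10 + rhoW iso D1 D2 d 13) = z - (d.x1 ^ 2 + d.x2 ^ 2) := by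
    intro z; rw [hv]; ring
  unfold KR mlt
  simp only [krV, smE, subE, sqE, Ex.val, hps, hhr, mtE_valW iso D1 D2 d p.kp.Ph hPh, mtE_valW iso D1 D2 d p.kp.M2 hM2,
    mwE_val, r0, r2, r4, r8]
  push_cast
  rw [hv']
  generalize mtV p.kp.Ph (D1 * d.x1 + D2 * d.x2) d.x1 d.x2 d.gt = Ph
  generalize mtV p.kp.M2 (D1 * d.x1 + D2 * d.x2) d.x1 d.x2 d.gt = M2
  generalize mwV iso p.M (D1 * d.x1 + D2 * d.x2) d.x1 d.x2 d.gt = M1
  generalize psQ rc rs d.x1 d.x2 = ps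
  generalize hdk 3 aS aR d.a d.e + aR * (E2f κ0 u0 u1 u2 u3 (d.a + d.e) + E2f κ0 u0 u1 u2 u3 (d.a - d.e) -
    2 * E2f κ0 u0 u1 u2 u3 d.a) = hh
  field_simp
  ring

theorem tlW_val (iso : Bool) (c1' rc' rs' t : ℤ) (c1 c2 rc rs aR D1 D2 : ℝ) (d : Dt)
    (hiso : iso = true → rs = rc ∧ rs' = rc') (e0 : (c1' : ℝ) = c1) (e1 : (rc' : ℝ) = c1 * rc)
    (e2 : (rs' : ℝ) = c1 * rs) (ht : (t : ℝ) = c2 * aR / (3 * 10 ^ 8)) :
    (tlW c1' rc' rs' t).val (rhoW iso D1 D2 d) = c1 * c2 * (aR * TLM.TLd rc rs d) := by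
  unfold TLM.TLd TLM.TLp
  simp only [tlW, h2E, h3E, h4E, h5E, pW, qW, cW, ad3, abE, subE, smE, Ex.val]
  have r0 : rhoW iso D1 D2 d 0 = d.a := rfl
  have r1 : rhoW iso D1 D2 d 1 = d.b := rfl
  have r8 : rhoW iso D1 D2 d 8 = 1 := rfl
  simp only [r0, r1, r8]
  push_cast
  simp only [e0, e1, e2, ht, rhoW]
  cases iso
  · simp only [Bool.false_eq_true, if_false]; ring
  · obtain ⟨q1, q2⟩ := hiso rfl
    subst q1
    simp only [if_true]; ring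

theorem TLd_sw (rc rs : ℝ) (d : Dt) : TLM.TLd rc rs d.sw = TLM.TLd rc rs d := by
  unfold TLM.TLd TLM.TLp Dt.sw
  ring

/-- Monotonicity of the kernel in `Φ`. -/
theorem KR_mono (rc rs aS aR : ℝ) (E2 : ℝ → ℝ) (Φ Φ' μ1 μ2 : ℝ → ℝ → ℝ → ℝ) (d : Dt) (h : |d.a| + |d.e| ≤ 1)
    (hΦ : Φ' d.x1 d.x2 d.gt ≤ Φ d.x1 d.x2 d.gt) :
    KR 3 rc rs aS aR E2 Φ' μ1 μ2 d ≤ KR 3 rc rs aS aR E2 Φ μ1 μ2 d := by
  unfold KR mlt
  have h1 := FinM.cir_nonneg h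
  have h2 := mul_le_mul_of_nonneg_right hΦ h1
  nlinarith

end XGWM

open XGWM in
theorem specXGV : SpecXGV := by
  intro hKRJ hGVK hNQA hTLM iso p t ns hpos hns hPr hMr g c1 c2 hiso hq ht hrc hrs hrc' hrs' haS haR hPh
  have hc1 : 0 < c1 := hq.hc1
  have hc2 : 0 < c2 := hq.hc2
  have hc : 0 < c1 * c2 := mul_pos hc1 hc2
  refine hGVK g fun D1 D2 P hP => ?_
  refine hKRJ 3 g.rc g.rs g.aS g.aR (8488263 / 10 ^ 7)
    (fun y => (10008 / 10000 : ℝ) + (-(51625 / 100000 : ℝ)) * y + (-(14486 / 1000000 : ℝ)) * y ^ 2 +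
      (-(24545 / 100000 : ℝ)) * y ^ 3)
    (E1f (8488263 / 10 ^ 7) (10008 / 10000) (-(51625 / 100000)) (-(14486 / 1000000)) (-(24545 / 100000)))
    (E2f (8488263 / 10 ^ 7) (10008 / 10000) (-(51625 / 100000)) (-(14486 / 1000000)) (-(24545 / 100000)))
    (fun x1 x2 γ : ℝ => psQ g.rc g.rs x1 x2 * (g.C * γ ^ 2 + g.l * (γ * (D1 * x1 + D2 * x2)) +
          g.m * (D1 * x1 + D2 * x2) ^ 2 + g.eps - g.k * (x1 ^ 2 + x2 ^ 2 + 3 * γ ^ 2 - 3 / 4) ^ 2))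
    (fun x1 x2 γ => 3 * mwV iso p.M (D1 * x1 + D2 * x2) x1 x2 γ / (c1 * c2))
    (fun x1 x2 γ => 6 * mtV p.kp.M2 (D1 * x1 + D2 * x2) x1 x2 γ / (c1 * c2))
    (fun d => 1 / (c1 * c2) * (nwsE ns).val (rhoW iso D1 D2 d)) (fun d => g.aR * TLM.TLd g.rc g.rs d)
    (by norm_num) hrc hrs haS haR k0_lt UC_ge' (E2f_deriv _ _ _ _ _) (E1f_deriv _ _ _ _ _) ?_ ?_ ?_
    (Nul_smul (specNSW hNQA iso D1 D2 ns hns) _) ?_ ?_ P hP
  · unfold psQ; fun_prop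
  · exact (continuous_const.mul (mwV_cont iso p.M D1 D2)).div_const _
  · exact (continuous_const.mul (GVCM.mtV_cont p.kp.M2 D1 D2)).div_const _
  · obtain ⟨N1, hN⟩ := hTLM g.rc g.rs hrc' hrc hrs' hrs
    exact ⟨N1, fun n hn d hd => mul_le_mul_of_nonneg_left (hN n hn d hd) haR⟩
  · intro d hd
    have hs := sw_dom hd
    have h1 := hpos D1 D2 d hd
    have v1 := krV_val iso p D1 D2 d c1 c2 g.rc g.rs g.aS g.aR _ _ _ _ _ hPr hMr hiso hq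
    have v2 := krV_val iso p D1 D2 d.sw c1 c2 g.rc g.rs g.aS g.aR _ _ _ _ _ hPr hMr hiso hq
    have t1 := tlW_val iso p.kp.c1 p.kp.rc p.kp.rs t c1 c2 g.rc g.rs g.aR D1 D2 d hiso hq.e0 hq.e1 hq.e2 ht
    have t2 := tlW_val iso p.kp.c1 p.kp.rc p.kp.rs t c1 c2 g.rc g.rs g.aR D1 D2 d.sw hiso hq.e0 hq.e1 hq.e2 ht
    rw [TLd_sw] at t2
    simp only [gV, smE, Ex.val, v1, v2, t1, t2] at h1
    have m1 := KR_mono g.rc g.rs g.aS g.aR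
      (E2f (8488263 / 10 ^ 7) (10008 / 10000) (-(51625 / 100000)) (-(14486 / 1000000)) (-(24545 / 100000)))
      (fun x1 x2 γ : ℝ => psQ g.rc g.rs x1 x2 * (g.C * γ ^ 2 + g.l * (γ * (D1 * x1 + D2 * x2)) +
          g.m * (D1 * x1 + D2 * x2) ^ 2 + g.eps - g.k * (x1 ^ 2 + x2 ^ 2 + 3 * γ ^ 2 - 3 / 4) ^ 2))
      (fun x1 x2 γ => psQ g.rc g.rs x1 x2 * (mtV p.kp.Ph (D1 * x1 + D2 * x2) x1 x2 γ / c2))
      (fun x1 x2 γ => 3 * mwV iso p.M (D1 * x1 + D2 * x2) x1 x2 γ / (c1 * c2))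
      (fun x1 x2 γ => 6 * mtV p.kp.M2 (D1 * x1 + D2 * x2) x1 x2 γ / (c1 * c2)) d hd.ae
      (mul_le_mul_of_nonneg_left (hPh _ d.x1 d.x2 d.gt hd.x1 hd.x2 hd.gt) (GVCM.psQ_nonneg hrc hrs hd.x2))
    have m2 := KR_mono g.rc g.rs g.aS g.aR
      (E2f (8488263 / 10 ^ 7) (10008 / 10000) (-(51625 / 100000)) (-(14486 / 1000000)) (-(24545 / 100000)))
      (fun x1 x2 γ : ℝ => psQ g.rc g.rs x1 x2 * (g.C * γ ^ 2 + g.l * (γ * (D1 * x1 + D2 * x2)) +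
          g.m * (D1 * x1 + D2 * x2) ^ 2 + g.eps - g.k * (x1 ^ 2 + x2 ^ 2 + 3 * γ ^ 2 - 3 / 4) ^ 2))
      (fun x1 x2 γ => psQ g.rc g.rs x1 x2 * (mtV p.kp.Ph (D1 * x1 + D2 * x2) x1 x2 γ / c2))
      (fun x1 x2 γ => 3 * mwV iso p.M (D1 * x1 + D2 * x2) x1 x2 γ / (c1 * c2))
      (fun x1 x2 γ => 6 * mtV p.kp.M2 (D1 * x1 + D2 * x2) x1 x2 γ / (c1 * c2)) d.sw hs.ae
      (mul_le_mul_of_nonneg_left (hPh _ d.sw.x1 d.sw.x2 d.sw.gt hs.x1 hs.x2 hs.gt) (GVCM.psQ_nonneg hrc hrs hs.x2))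
    generalize KR 3 g.rc g.rs g.aS g.aR
      (E2f (8488263 / 10 ^ 7) (10008 / 10000) (-(51625 / 100000)) (-(14486 / 1000000)) (-(24545 / 100000)))
      (fun x1 x2 γ => psQ g.rc g.rs x1 x2 * (mtV p.kp.Ph (D1 * x1 + D2 * x2) x1 x2 γ / c2))
      (fun x1 x2 γ => 3 * mwV iso p.M (D1 * x1 + D2 * x2) x1 x2 γ / (c1 * c2))
      (fun x1 x2 γ => 6 * mtV p.kp.M2 (D1 * x1 + D2 * x2) x1 x2 γ / (c1 * c2)) d = k1 at h1 m1
    generalize KR 3 g.rc g.rs g.aS g.aR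
      (E2f (8488263 / 10 ^ 7) (10008 / 10000) (-(51625 / 100000)) (-(14486 / 1000000)) (-(24545 / 100000)))
      (fun x1 x2 γ => psQ g.rc g.rs x1 x2 * (mtV p.kp.Ph (D1 * x1 + D2 * x2) x1 x2 γ / c2))
      (fun x1 x2 γ => 3 * mwV iso p.M (D1 * x1 + D2 * x2) x1 x2 γ / (c1 * c2))
      (fun x1 x2 γ => 6 * mtV p.kp.M2 (D1 * x1 + D2 * x2) x1 x2 γ / (c1 * c2)) d.sw = k2 at h1 m2
    generalize (nwsE ns).val (rhoW iso D1 D2 d) = n1 at h1 ⊢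
    generalize (nwsE ns).val (rhoW iso D1 D2 d.sw) = n2 at h1 ⊢
    generalize TLM.TLd g.rc g.rs d = tl at h1 ⊢
    refine le_trans ?_ (add_le_add (add_le_add (add_le_add (add_le_add m1 m2) le_rfl) le_rfl) le_rfl)
    have e : k1 + k2 + 1 / (c1 * c2) * n1 + 1 / (c1 * c2) * n2 + g.aR * tl =
        (((2 : ℤ) : ℝ) * (c1 * c2 * k1 + n1) + c1 * c2 * (g.aR * tl) +
          (((2 : ℤ) : ℝ) * (c1 * c2 * k2 + n2) + c1 * c2 * (g.aR * tl))) / (2 * (c1 * c2)) := by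
      have h3 := hc1.ne'
      have h4 := hc2.ne'
      field_simp
      push_cast
      ring
    rw [e]
    exact div_nonneg h1 (by positivity)

/-- The kernel without `μ2`. -/
theorem krW_eq (iso : Bool) (D1 D2 : ℝ) (d : Dt) (p : KW) :
    (krW p).val (rhoW iso D1 D2 d) = (krV ⟨{p.kp with M2 := []}, p.M⟩).val (rhoW iso D1 D2 d) := by
  have h : (mtE ([] : List MT)).val (rhoW iso D1 D2 d) = 0 := by simp [mtE, Ex.val]
  have h2 : psW { p.kp with M2 := [] } = psW p.kp := rfl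
  have h3 : hrE { p.kp with M2 := [] } = hrE p.kp := rfl
  simp only [krW, krV, smE, subE, Ex.val, h, h2, h3]
  ring

theorem specXGW : SpecXGW := by
  intro hKRJ hGVK hNQA hTLM iso p t ns hpos hns hPr g c1 c2 hiso hq ht hrc hrs hrc' hrs' haS haR hPh
  refine specXGV hKRJ hGVK hNQA hTLM iso ⟨{p.kp with M2 := []}, p.M⟩ t ns ?_ hns hPr (by simp) g c1 c2 hiso
    ⟨hq.hc1, hq.hc2, hq.e0, hq.e1, hq.e2, hq.g1, hq.g2, hq.g3, hq.k0, hq.k1, hq.k2, hq.k3⟩ ht hrc hrs hrc' hrs' haS haR hPh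
  intro D1 D2 d hd
  have h := hpos D1 D2 d hd
  simp only [gW, smE, Ex.val] at h
  rw [krW_eq, krW_eq] at h
  simp only [gV, smE, Ex.val]
  exact h

end Pool.Agent.Lib.MP_084b88_gt.SK
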