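import Pool.Agent.Lib.MP_084b88_gt.SK.XGR
import Pool.Agent.Lib.MP_084b88_gt.SK.XGW
import Pool.Agent.Lib.MP_084b88_gt.AY.AllR
import Pool.Agent.Lib.MP_084b88_gt.AY.KRJ
import Pool.Agent.Lib.MP_084b88_gt.AY.TLM
import Pool.Agent.Lib.MP_084b88_gt.SY.HHA
import Pool.Agent.Lib.MP_084b88_gt.SY.HHB

/-!
# MP_084b88_gt, project SK, module AXG: XGR and XGV without hypotheses (text of helper43)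
-/

set_option autoImplicit false

open MeasureTheory Set Real

namespace Pool.Agent.Lib.MP_084b88_gt.SK

open Pool.Agent.Lib.MP_084b88_gt.CW Pool.Agent.Lib.MP_084b88_gt.SY Pool.Agent.Lib.MP_084b88_gt.LG
open Pool.Agent.Lib.MP_084b88_gt.AY

theorem aKRJ : SpecKRJ := specKRJ allTIN allSMT allKEB allTTE allDAT allWB2

theorem aTLM (rc rs : ℝ) (h1 : -1 ≤ rc) (h2 : rc ≤ 4 / 5) (h3 : -1 ≤ rs) (h4 : rs ≤ 4 / 5) :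
    ∃ N1 : ℕ, ∀ n : ℕ, N1 ≤ n → ∀ d : Dt, Dom (1 / 3) (1 / 2) 1 d →
      TLM.TLd rc rs d ≤ ∑ k ∈ Finset.Ico 3 n, tcf k * (mu (k + 1) * TTd (k + 1) rc rs d) :=
  TLM.tlm allSMT specHHA (specHHB specHHA) rc rs h1 h2 h3 h4

/-- XGR without hypotheses. -/
theorem aXGR : ∀ (kp : KP) (t : ℤ) (ns : List NI), PosG (Ex.add (krE kp) (nsE ns)) (tlE kp.c1 kp.rc kp.rs t) →
    (∀ x ∈ ns, niC x) → ∀ (g : GP) (c1 c2 : ℝ),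
    LnR kp ⟨c1, c2, g.rc, g.rs, g.aS, g.aR, 8488263 / 10 ^ 7, 10008 / 10000, -(51625 / 100000),
      -(14486 / 1000000), -(24545 / 100000)⟩ →
    (t : ℝ) = c2 * g.aR / (3 * 10 ^ 8) →
    g.rc ≤ 4 / 5 → g.rs ≤ 4 / 5 → -1 ≤ g.rc → -1 ≤ g.rs → 0 ≤ g.aS → 0 ≤ g.aR →
    (∀ X x1 x2 γ : ℝ, 1 / 2 ≤ x1 ^ 2 + x2 ^ 2 → x1 ^ 2 + x2 ^ 2 ≤ 1 → |γ| ≤ 1 / 3 →
      psQ g.rc g.rs x1 x2 * (mtV kp.Ph X x1 x2 γ / c2) + mtV kp.Pe X x1 x2 γ / (c1 * c2) ≤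
        psQ g.rc g.rs x1 x2 * (g.C * γ ^ 2 + g.l * (γ * X) + g.m * X ^ 2 + g.eps -
          g.k * (x1 ^ 2 + x2 ^ 2 + 3 * γ ^ 2 - 3 / 4) ^ 2)) →
    GV8 g :=
  specXGR aKRJ allGVK allNQA fun rc rs h1 h2 h3 h4 => aTLM rc rs h1 h2 h3 h4

/-- XGV without hypotheses. -/
theorem aXGV : ∀ (iso : Bool) (p : KW) (t : ℤ) (ns : List NW),
    (∀ (D1 D2 : ℝ) (d : Dt), Dom (1 / 3) (1 / 2) 1 d →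
      0 ≤ (gV p ns t).val (rhoW iso D1 D2 d) + (gV p ns t).val (rhoW iso D1 D2 d.sw)) →
    (∀ x ∈ ns, nwC x) → (∀ x ∈ p.kp.Ph, x.r = 0 ∧ x.s = 0) → (∀ x ∈ p.kp.M2, x.r = 0 ∧ x.s = 0) →
    ∀ (g : GP) (c1 c2 : ℝ), (iso = true → g.rs = g.rc ∧ p.kp.rs = p.kp.rc) →
    LnR p.kp ⟨c1, c2, g.rc, g.rs, g.aS, g.aR, 8488263 / 10 ^ 7, 10008 / 10000, -(51625 / 100000),
      -(14486 / 1000000), -(24545 / 100000)⟩ →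
    (t : ℝ) = c2 * g.aR / (3 * 10 ^ 8) →
    g.rc ≤ 4 / 5 → g.rs ≤ 4 / 5 → -1 ≤ g.rc → -1 ≤ g.rs → 0 ≤ g.aS → 0 ≤ g.aR →
    (∀ X x1 x2 γ : ℝ, 1 / 2 ≤ x1 ^ 2 + x2 ^ 2 → x1 ^ 2 + x2 ^ 2 ≤ 1 → |γ| ≤ 1 / 3 →
      mtV p.kp.Ph X x1 x2 γ / c2 ≤ g.C * γ ^ 2 + g.l * (γ * X) + g.m * X ^ 2 + g.eps -
          g.k * (x1 ^ 2 + x2 ^ 2 + 3 * γ ^ 2 - 3 / 4) ^ 2) →
    GV8 g :=
  specXGV aKRJ allGVK allNQA fun rc rs h1 h2 h3 h4 => aTLM rc rs h1 h2 h3 h4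

end Pool.Agent.Lib.MP_084b88_gt.SK
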