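import Pool.Agent.Lib.MP_084b88_gt.SK.SpecH

/-!
# MP_084b88_gt, project SK: a fast parity check (`pyE` by tables)
-/

set_option autoImplicit false

namespace Pool.Agent.Lib.MP_084b88_gt.SK

/-- `pyE` with tables. -/
noncomputable def pyG (s : List ℕ) (e : Ex) : ℕ :=
  @Ex.rec (fun _ => ℕ) (fun i => Nat.succ (nth 0 s i))
    (fun c => @Int.rec (fun _ => ℕ) (fun m => @Nat.rec (fun _ => ℕ) 0 (fun _ _ => 1) m) (fun _ => 1) c)
    (fun _ _ x y => Nat.lor x y)
    (fun _ _ x y => Nat.land (Nat.shiftRight 4242072576 (Nat.mul 2 (Nat.add (Nat.mul 4 x) y))) 3)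
    (fun _ n x => @Nat.rec (fun _ => ℕ) 1
      (fun _ _ => Nat.land (Nat.shiftRight 58580 (Nat.mul 2 (Nat.add (Nat.mul 4 (Nat.land n 1)) x))) 3) n) e

namespace PYGM

theorem lor_cadd : ∀ x < 4, ∀ y < 4, Nat.lor x y = cadd x y ∧ cadd x y < 4 := by decide

theorem mul_tab : ∀ x < 4, ∀ y < 4, Nat.land (Nat.shiftRight 4242072576 (Nat.mul 2 (Nat.add (Nat.mul 4 x) y))) 3 =
    (if x = 0 ∨ y = 0 then 0 else if 3 ≤ x ∨ 3 ≤ y then 3 else if x = y then 1 else 2) ∧
    (if x = 0 ∨ y = 0 then 0 else if 3 ≤ x ∨ 3 ≤ y then 3 else if x = y then 1 else 2) < 4 := by decide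

theorem pow_tab : ∀ p < 2, ∀ x < 4, Nat.land (Nat.shiftRight 58580 (Nat.mul 2 (Nat.add (Nat.mul 4 p) x))) 3 =
    (if x = 0 then 0 else if 3 ≤ x then 3 else if p = 0 then 1 else x) ∧
    (if x = 0 then 0 else if 3 ≤ x then 3 else if p = 0 then 1 else x) < 4 := by decide

theorem main (s : List ℕ) (hs : ∀ i, nth 0 s i ≤ 1) (e : Ex) : pyG s e = pyE s e ∧ pyE s e < 4 := by
  induction e with
  | v i =>
    have h1 : pyG s (.v i) = Nat.succ (nth 0 s i) := rfl
    have h2 : pyE s (.v i) = 1 + nth 0 s i := rfl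
    rw [h1, h2]
    have := hs i
    constructor
    · omega
    · omega
  | c n =>
    have h2 : pyE s (.c n) = if n = 0 then 0 else 1 := rfl
    rw [h2]
    cases n with
    | ofNat m =>
      cases m with
      | zero => exact ⟨rfl, by decide⟩
      | succ m => exact ⟨rfl, by split_ifs <;> decide⟩
    | negSucc m => exact ⟨rfl, by split_ifs <;> decide⟩
  | add x y ihx ihy =>
    have h1 : pyG s (.add x y) = Nat.lor (pyG s x) (pyG s y) := rfl
    have h2 : pyE s (.add x y) = cadd (pyE s x) (pyE s y) := rfl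
    rw [h1, h2, ihx.1, ihy.1]
    exact lor_cadd _ ihx.2 _ ihy.2
  | mul x y ihx ihy =>
    have h1 : pyG s (.mul x y) =
      Nat.land (Nat.shiftRight 4242072576 (Nat.mul 2 (Nat.add (Nat.mul 4 (pyG s x)) (pyG s y)))) 3 := rfl
    have h2 : pyE s (.mul x y) = if pyE s x = 0 ∨ pyE s y = 0 then 0 else
      if 3 ≤ pyE s x ∨ 3 ≤ pyE s y then 3 else if pyE s x = pyE s y then 1 else 2 := rfl
    rw [h1, h2, ihx.1, ihy.1]
    exact mul_tab _ ihx.2 _ ihy.2
  | pow x n ih =>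
    have h2 : pyE s (.pow x n) = if n = 0 then 1 else if pyE s x = 0 then 0 else if 3 ≤ pyE s x then 3 else
      if n % 2 = 0 then 1 else pyE s x := rfl
    rw [h2]
    cases n with
    | zero => exact ⟨rfl, by simp⟩
    | succ n =>
      have h1 : pyG s (.pow x (n + 1)) =
        Nat.land (Nat.shiftRight 58580 (Nat.mul 2 (Nat.add (Nat.mul 4 (Nat.land (n + 1) 1)) (pyG s x)))) 3 := rfl
      have h3 : Nat.land (n + 1) 1 = (n + 1) % 2 := Nat.and_one_is_mod (n + 1)
      rw [h1, ih.1, h3, if_neg (Nat.succ_ne_zero n)]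
      exact pow_tab _ (Nat.mod_lt _ (by decide)) _ ih.2

theorem sgX_le : ∀ i, nth 0 sgX i ≤ 1 := by
  intro i
  by_cases h : i < 12
  · interval_cases i <;> decide
  · obtain ⟨k, rfl⟩ := Nat.exists_eq_add_of_le (not_lt.1 h)
    rw [add_comm]
    exact Nat.zero_le _

end PYGM

/-- The parity check by tables. -/
theorem pyX_of (G : Ex) (h : pyG sgX G = 1) : pyE sgX G = 1 := by
  rw [← (PYGM.main sgX PYGM.sgX_le G).1]; exact h

end Pool.Agent.Lib.MP_084b88_gt.SK
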