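import Pool.Agent.Lib.MP_084b88_gt.SK.SpecH

/-!
# MP_084b88_gt, project SK: the sum of squares with coupling items is nonnegative on the domain
-/

set_option autoImplicit false

open MeasureTheory Set Real Filter Topology
open scoped Pointwise InnerProductSpace

namespace Pool.Agent.Lib.MP_084b88_gt.SK

open Pool.Agent.Lib.MP_084b88_gt.CW Pool.Agent.Lib.MP_084b88_gt.SY Pool.Agent.Lib.MP_084b88_gt.AY

namespace SnxM

open MvPolynomial CplM

/-- The atoms on the domain. -/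
theorem atom_nonneg (ρ : ℕ → ℝ) (h : DomR ρ) (i : ℕ) : 0 ≤ (nth (Ex.c 1) atoms2 i).val (vE eX ρ) := by
  obtain ⟨ha1, ha2⟩ := pm_nonneg h.ae
  obtain ⟨hb1, hb2⟩ := pm_nonneg h.bf
  have hgt : ρ 4 ^ 2 ≤ 1 / 9 := by
    have := h.gt
    nlinarith [sq_abs (ρ 4), abs_nonneg (ρ 4)]
  have hgs : ρ 5 ^ 2 ≤ 1 / 9 := by
    have := h.gs
    nlinarith [sq_abs (ρ 5), abs_nonneg (ρ 5)]
  have hx1 := h.x1
  have hx2 := h.x2
  have hy1 := h.y1
  have hy2 := h.y2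
  have hA := FinM.cir_nonneg h.ae
  have hB := FinM.cir_nonneg h.bf
  have hA2 := FinM.cir2_nonneg h.ae
  have hB2 := FinM.cir2_nonneg h.bf
  have e0 : vE eX ρ 0 = ρ 0 := rfl
  have e1 : vE eX ρ 1 = ρ 1 := rfl
  have e2 : vE eX ρ 2 = ρ 2 := rfl
  have e3 : vE eX ρ 3 = ρ 3 := rfl
  have e4 : vE eX ρ 4 = ρ 4 := rfl
  have e5 : vE eX ρ 5 = ρ 5 := rfl
  have e8 : vE eX ρ 8 = ρ 8 := rfl
  have e9 : vE eX ρ 9 = ρ 9 := rfl
  have e10 : vE eX ρ 10 = ρ 10 := rfl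
  have e11 : vE eX ρ 11 = ρ 11 := rfl
  rcases Nat.lt_or_ge i 16 with hi | hi
  · interval_cases i
    · change 0 ≤ (cirE 0 2).val (vE eX ρ)
      simp only [cirE, subE, sqE, Ex.val, e0, e2]; push_cast; linarith
    · change 0 ≤ (cirE 1 3).val (vE eX ρ)
      simp only [cirE, subE, sqE, Ex.val, e1, e3]; push_cast; linarith
    · change 0 ≤ (subE (Ex.pow (cirE 0 2) 2) (smE 4 (Ex.mul (sqE 0) (sqE 2)))).val (vE eX ρ)
      simp only [cirE, subE, smE, sqE, Ex.val, e0, e2]; push_cast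
      have : (1 + -1 * (ρ 0 ^ 2 + ρ 2 ^ 2)) ^ 2 + -1 * (4 * (ρ 0 ^ 2 * ρ 2 ^ 2)) =
        (1 - ρ 0 ^ 2 - ρ 2 ^ 2) ^ 2 - 4 * (ρ 0 ^ 2 * ρ 2 ^ 2) := by ring
      rw [this]; exact hA2
    · change 0 ≤ (subE (Ex.pow (cirE 1 3) 2) (smE 4 (Ex.mul (sqE 1) (sqE 3)))).val (vE eX ρ)
      simp only [cirE, subE, smE, sqE, Ex.val, e1, e3]; push_cast
      have : (1 + -1 * (ρ 1 ^ 2 + ρ 3 ^ 2)) ^ 2 + -1 * (4 * (ρ 1 ^ 2 * ρ 3 ^ 2)) =
        (1 - ρ 1 ^ 2 - ρ 3 ^ 2) ^ 2 - 4 * (ρ 1 ^ 2 * ρ 3 ^ 2) := by ring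
      rw [this]; exact hB2
    · change 0 ≤ (subE (Ex.c 1) (smE 9 (sqE 4))).val (vE eX ρ)
      simp only [subE, smE, sqE, Ex.val, e4]; push_cast; linarith
    · change 0 ≤ (subE (Ex.c 1) (smE 9 (sqE 5))).val (vE eX ρ)
      simp only [subE, smE, sqE, Ex.val, e5]; push_cast; linarith
    · change 0 ≤ (subE (smE 2 (Ex.add (sqE 9) (sqE 11))) (Ex.c 1)).val (vE eX ρ)
      simp only [subE, smE, sqE, Ex.val, e9, e11]; push_cast; linarith
    · change 0 ≤ (cirE 9 11).val (vE eX ρ)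
      simp only [cirE, subE, sqE, Ex.val, e9, e11]; push_cast; linarith
    · change 0 ≤ (subE (smE 2 (Ex.add (sqE 8) (sqE 10))) (Ex.c 1)).val (vE eX ρ)
      simp only [subE, smE, sqE, Ex.val, e8, e10]; push_cast; linarith
    · change 0 ≤ (cirE 8 10).val (vE eX ρ)
      simp only [cirE, subE, sqE, Ex.val, e8, e10]; push_cast; linarith
    · change 0 ≤ (cplE 9 11 8 10 1).val (vE eX ρ)
      simp only [cplE, subE, smE, Ex.val, e1, e8, e9, e10, e11]; push_cast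
      have := h.b1
      have e : (ρ 9 * ρ 10 + -1 * (ρ 11 * ρ 8)) ^ 2 = (ρ 9 * ρ 10 - ρ 11 * ρ 8) ^ 2 := by ring
      have e' : (ρ 8 + -1 * (ρ 1 * ρ 9)) ^ 2 + (ρ 10 + -1 * (ρ 1 * ρ 11)) ^ 2 =
        (ρ 8 - ρ 1 * ρ 9) ^ 2 + (ρ 10 - ρ 1 * ρ 11) ^ 2 := by ring
      rw [e, e']; linarith
    · change 0 ≤ (cplE 8 10 9 11 0).val (vE eX ρ)
      simp only [cplE, subE, smE, Ex.val, e0, e8, e9, e10, e11]; push_cast
      have := h.a1
      have e : (ρ 8 * ρ 11 + -1 * (ρ 10 * ρ 9)) ^ 2 = (ρ 9 * ρ 10 - ρ 11 * ρ 8) ^ 2 := by ring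
      have e' : (ρ 9 + -1 * (ρ 0 * ρ 8)) ^ 2 + (ρ 11 + -1 * (ρ 0 * ρ 10)) ^ 2 =
        (ρ 9 - ρ 0 * ρ 8) ^ 2 + (ρ 11 - ρ 0 * ρ 10) ^ 2 := by ring
      rw [e, e']; linarith
    · change 0 ≤ (subE (Ex.c 1) (Ex.pow (Ex.add (Ex.v 0) (Ex.v 2)) 2)).val (vE eX ρ)
      simp only [subE, Ex.val, e0, e2]; push_cast; linarith
    · change 0 ≤ (subE (Ex.c 1) (Ex.pow (subE (Ex.v 0) (Ex.v 2)) 2)).val (vE eX ρ)
      simp only [subE, Ex.val, e0, e2]; push_cast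
      have : (ρ 0 + -1 * ρ 2) ^ 2 = (ρ 0 - ρ 2) ^ 2 := by ring
      rw [this]; linarith
    · change 0 ≤ (subE (Ex.c 1) (Ex.pow (Ex.add (Ex.v 1) (Ex.v 3)) 2)).val (vE eX ρ)
      simp only [subE, Ex.val, e1, e3]; push_cast; linarith
    · change 0 ≤ (subE (Ex.c 1) (Ex.pow (subE (Ex.v 1) (Ex.v 3)) 2)).val (vE eX ρ)
      simp only [subE, Ex.val, e1, e3]; push_cast
      have : (ρ 1 + -1 * ρ 3) ^ 2 = (ρ 1 - ρ 3) ^ 2 := by ring
      rw [this]; linarith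
  · obtain ⟨k, rfl⟩ := Nat.exists_eq_add_of_le hi
    rw [add_comm]
    change 0 ≤ (Ex.c 1).val (vE eX ρ)
    simp [Ex.val]

theorem mu_nonneg (ρ : ℕ → ℝ) (h : DomR ρ) (l : List ℕ) : 0 ≤ (muE2 l).val (vE eX ρ) := by
  induction l with
  | nil => simp [muE2, Ex.val]
  | cons i l ih =>
    have : muE2 (i :: l) = Ex.mul (nth (Ex.c 1) atoms2 i) (muE2 l) := rfl
    rw [this]
    exact mul_nonneg (atom_nonneg ρ h i) ih

theorem sq_le_one {x y : ℝ} (h : |x| + |y| ≤ 1) : x ^ 2 ≤ 1 := by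
  have h2 := abs_nonneg x
  have h3 := abs_nonneg y
  nlinarith [sq_abs x]

theorem rF_pos' {p : Pm} {n ra rb ro : ℕ} (hp : PN p n ra rb ro) (i : ℕ) : 0 < rF p.rs i :=
  lt_of_le_of_lt (Nat.zero_le _) (SosM.dF_lt hp.ok i)

/-- One coupling item is nonnegative. -/
theorem ci_nonneg' {p : Pm} {ra rb ro : ℕ} (hp : PN p 12 ra rb ro) (ρ : ℕ → ℝ) (hd : DomR ρ) (x : CI)
    (h2 : ev ρ (p.mP x.m2) = 2 * (muE2 x.ids).val (vE eX ρ)) (hn : ev ρ (p.mP x.mn) = -(muE2 x.ids).val (vE eX ρ))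
    (hb : ∀ y ∈ x.bl, cbC p.rs p.S x.kd y = true) (hps : ∀ y ∈ x.bl, PsdOK p.b p.o y.rows) :
    0 ≤ ev ρ (p.sosP x.mbs) := by
  have e1 : p.sosP x.mbs = p.mP x.m2 * (x.bl.map fun y => p.insP ⟨y.z1, y.rows⟩ + p.insP ⟨y.z2, y.rows⟩).sum +
      p.mP x.mn * (x.bl.map fun y => p.insP ⟨y.w, y.rows⟩).sum := by
    have e2 : ∀ l : List CB, ((l.flatMap fun y => [(⟨y.z1, y.rows⟩ : Ins), ⟨y.z2, y.rows⟩]).map p.insP).sum =
        (l.map fun y => p.insP ⟨y.z1, y.rows⟩ + p.insP ⟨y.z2, y.rows⟩).sum := by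
      intro l
      induction l with
      | nil => rfl
      | cons y l ih =>
        rw [List.flatMap_cons, List.map_append, List.sum_append, ih, List.map_cons, List.sum_cons]
        simp
    unfold Pm.sosP CI.mbs Pm.mbP
    rw [List.map_cons, List.map_cons, List.map_nil, List.sum_cons, List.sum_cons, List.sum_nil, add_zero]
    rw [e2, List.map_map]
    rfl
  have hmu := mu_nonneg ρ hd x.ids
  rw [e1, map_add, map_mul, map_mul, h2, hn, map_list_sum, map_list_sum, List.map_map, List.map_map]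
  set μ := (muE2 x.ids).val (vE eX ρ) with hμ
  have key : 0 ≤ (x.bl.map fun y => 2 * ev ρ (p.insP ⟨y.z1, y.rows⟩ + p.insP ⟨y.z2, y.rows⟩) -
      ev ρ (p.insP ⟨y.w, y.rows⟩)).sum := by
    refine List.sum_nonneg fun v hv => ?_
    obtain ⟨y, hy, rfl⟩ := List.mem_map.1 hv
    have hc := hb y hy
    have hpy := hps y hy
    unfold cbC at hc
    rw [Bool.and_eq_true, Bool.and_eq_true] at hc
    obtain ⟨⟨c1, c2⟩, c3⟩ := hc
    have hr := rF_pos' hp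
    have hl := hp.hl
    have hlA : (zv p ρ y.rows.length y.A).length = y.rows.length := by simp [zv]
    have hlB : (zv p ρ y.rows.length y.B).length = y.rows.length := by simp [zv]
    have ha := sq_le_one hd.ae
    have hb' := sq_le_one hd.bf
    have hx1 := hd.x1
    have hy1 := hd.y1
    have hb1 := hd.b1
    have ha1 := hd.a1
    rw [map_add, insP_ev, insP_ev, insP_ev]
    simp only
    rw [zv_cmb p hr 8 9 y.A y.B y.z1 c1, zv_cmb p hr 10 11 y.A y.B y.z2 c2, ev_vr, ev_vr, ev_vr, ev_vr, hl]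
    rw [if_pos (by norm_num), if_pos (by norm_num), if_pos (by norm_num), if_pos (by norm_num)]
    cases hk : x.kd with
    | true =>
      rw [hk] at c3
      rw [zv_cmb p hr 1 12 y.A y.B y.w c3, ev_vr, ev_vr, hl, if_pos (by norm_num), if_neg (by norm_num)]
      refine cpl_gen hpy _ _ hlA hlB (ρ 8) (ρ 10) (ρ 9) (ρ 11) (ρ 1) 1 (by linarith) (by linarith) ?_
      simp only [one_mul]
      exact hb1
    | false =>
      rw [hk] at c3
      rw [zv_cmb p hr 12 0 y.A y.B y.w c3, ev_vr, ev_vr, hl, if_neg (by norm_num), if_pos (by norm_num)]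
      refine cpl_gen hpy _ _ hlA hlB (ρ 8) (ρ 10) (ρ 9) (ρ 11) 1 (ρ 0) (by linarith) (by linarith) ?_
      simp only [one_mul]
      have e : (ρ 0 * ρ 8 - ρ 9) ^ 2 + (ρ 0 * ρ 10 - ρ 11) ^ 2 = (ρ 9 - ρ 0 * ρ 8) ^ 2 + (ρ 11 - ρ 0 * ρ 10) ^ 2 := by ring
      rw [e]
      exact ha1
  have e7 : 2 * μ * (x.bl.map (ev ρ ∘ fun y => p.insP ⟨y.z1, y.rows⟩ + p.insP ⟨y.z2, y.rows⟩)).sum +
      -μ * (x.bl.map (ev ρ ∘ fun y => p.insP ⟨y.w, y.rows⟩)).sum =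
      μ * (x.bl.map fun y => 2 * ev ρ (p.insP ⟨y.z1, y.rows⟩ + p.insP ⟨y.z2, y.rows⟩) -
        ev ρ (p.insP ⟨y.w, y.rows⟩)).sum := by
    generalize x.bl = l
    induction l with
    | nil => simp
    | cons y l ih =>
      simp only [List.map_cons, List.sum_cons, Function.comp_apply] at ih ⊢
      linear_combination ih
  rw [e7]
  exact mul_nonneg hmu key

end SnxM

open SnxM

/-- **SNX.** -/
theorem specSNX : SpecSNX := by
  intro p ra rb ro hp ml cl hml hcl hcb hps hpc ρ hd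
  rw [CplM.sosP_append, map_add]
  refine add_nonneg ?_ ?_
  · refine sos_nonneg p (ml.map Prod.snd) ρ (fun x hx => ?_) (fun x hx y hy => ?_)
    · obtain ⟨y, hy, rfl⟩ := List.mem_map.1 hx
      rw [hml y hy ρ]
      exact mu_nonneg ρ hd y.1
    · obtain ⟨z, hz, rfl⟩ := List.mem_map.1 hx
      exact hps z hz y hy
  · unfold cbs at hcb
    rw [List.all_eq_true] at hcb
    have : ∀ l : List CI, (∀ x ∈ l, x ∈ cl) → 0 ≤ ev ρ (p.sosP (l.flatMap CI.mbs)) := by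
      intro l
      induction l with
      | nil => intro _; simp [Pm.sosP]
      | cons x l ih =>
        intro hl
        rw [List.flatMap_cons, CplM.sosP_append, map_add]
        have hx := hl x List.mem_cons_self
        refine add_nonneg ?_ (ih fun y hy => hl y (List.mem_cons_of_mem _ hy))
        obtain ⟨h3, h4⟩ := hcl x hx ρ
        have h5 := hcb x hx
        rw [List.all_eq_true] at h5
        exact ci_nonneg' hp ρ hd x h3 h4 h5 (hpc x hx)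
    exact this cl fun x hx => hx

end Pool.Agent.Lib.MP_084b88_gt.SK
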