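import Pool.Agent.Lib.MP_084b88_gt.SK.SpecH

/-!
# MP_084b88_gt, project SK: the tail is symmetric
-/

set_option autoImplicit false

namespace Pool.Agent.Lib.MP_084b88_gt.SK

open Pool.Agent.Lib.MP_084b88_gt.CW Pool.Agent.Lib.MP_084b88_gt.SY Pool.Agent.Lib.MP_084b88_gt.AY

/-- **TLS.** -/
theorem specTLS : SpecTLS := by
  intro c1 rc rs t D1 D2 d
  simp only [tlE, h2E, h3E, h4E, h5E, pE, qE, cE, ad3, abE, sqE, subE, smE, Ex.val, rho, Dt.sw]
  push_cast
  ring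

end Pool.Agent.Lib.MP_084b88_gt.SK
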