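import Pool.Agent.Lib.MP_084b88_gt.SK.SpecW

/-!
# MP_084b88_gt, project SK, module XGR: valid generators from positivity of the kernel `KR` (form with `x, y`)
-/

set_option autoImplicit false

open MeasureTheory Set Real Filter Topology
open scoped Pointwise InnerProductSpace

namespace Pool.Agent.Lib.MP_084b88_gt.SK

open Pool.Agent.Lib.MP_084b88_gt.CW Pool.Agent.Lib.MP_084b88_gt.SY Pool.Agent.Lib.MP_084b88_gt.AY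

namespace XGRM

open KQEM FinM GVCM

/-- The value of the kernel expression. -/
theorem krE_val (p : KP) (D1 D2 : ℝ) (d : Dt) (c1 c2 rc rs aS aR κ0 u0 u1 u2 u3 : ℝ) (hc1 : c1 ≠ 0) (hc2 : c2 ≠ 0)
    (e0 : (p.c1 : ℝ) = c1) (e1 : (p.rc : ℝ) = c1 * rc) (e2 : (p.rs : ℝ) = c1 * rs)
    (g1 : (p.h1 : ℝ) = c2 * aS / 48) (g2 : (p.h2 : ℝ) = c2 * aR / 960) (g3 : (p.h3 : ℝ) = c2 * aR / 7168)
    (k0 : (p.t0 : ℝ) = c2 * aR * (κ0 - u0 + 149 / 1024)) (k1 : (p.t1 : ℝ) = c2 * aR * (-u1 - 1 / 2) / 6)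
    (k2 : (p.t2 : ℝ) = c2 * aR * (-u2 - 1 / 8) / 15) (k3 : (p.t3 : ℝ) = c2 * aR * (-u3 - 1 / 16) / 28) :
    (krE p).val (rho D1 D2 d) = c1 * c2 * KR 3 rc rs aS aR (E2f κ0 u0 u1 u2 u3)
      (fun x1 x2 γ => psQ rc rs x1 x2 * (mtV p.Ph (D1 * x1 + D2 * x2) x1 x2 γ / c2) +
        mtV p.Pe (D1 * x1 + D2 * x2) x1 x2 γ / (c1 * c2))
      (fun x1 x2 γ => 3 * mtV p.M1 (D1 * x1 + D2 * x2) x1 x2 γ / (c1 * c2))
      (fun x1 x2 γ => 6 * mtV p.M2 (D1 * x1 + D2 * x2) x1 x2 γ / (c1 * c2)) d := by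
  unfold KR mlt E2f
  rw [hdk3]
  simp only [krE, mlE, psE, hrE, e2E, q1E, q2E, q3E, sqE, subE, smE, Ex.val, mtE_val]
  simp only [rho, e0, e1, e2, g1, g2, g3, k0, k1, k2, k3]
  generalize mtV p.Ph (D1 * d.x1 + D2 * d.x2) d.x1 d.x2 d.gt = Ph
  generalize mtV p.Pe (D1 * d.x1 + D2 * d.x2) d.x1 d.x2 d.gt = Pe
  generalize mtV p.M1 (D1 * d.x1 + D2 * d.x2) d.x1 d.x2 d.gt = M1
  generalize mtV p.M2 (D1 * d.x1 + D2 * d.x2) d.x1 d.x2 d.gt = M2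
  push_cast
  unfold psQ
  field_simp
  ring

/-- First antiderivative. -/
noncomputable def E1f (κ0 u0 u1 u2 u3 x : ℝ) : ℝ :=
  (κ0 - u0 + 149 / 1024) * x + (-u1 - 1 / 2) * x ^ 3 / 3 + (-u2 - 1 / 8) * x ^ 5 / 5 + (-u3 - 1 / 16) * x ^ 7 / 7

theorem E2f_der (κ0 u0 u1 u2 u3 x : ℝ) : HasDerivAt (E2f κ0 u0 u1 u2 u3) (E1f κ0 u0 u1 u2 u3 x) x := by
  have h2 := ((hasDerivAt_pow 2 x).const_mul (κ0 - u0 + 149 / 1024)).div_const 2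
  have h4 := ((hasDerivAt_pow 4 x).const_mul (-u1 - 1 / 2)).div_const 12
  have h6 := ((hasDerivAt_pow 6 x).const_mul (-u2 - 1 / 8)).div_const 30
  have h8 := ((hasDerivAt_pow 8 x).const_mul (-u3 - 1 / 16)).div_const 56
  have h := ((h2.add h4).add h6).add h8
  refine h.congr_deriv ?_
  unfold E1f
  push_cast
  ring

theorem E1f_der (κ0 u0 u1 u2 u3 x : ℝ) : HasDerivAt (E1f κ0 u0 u1 u2 u3)
    (etl 3 κ0 (fun y => u0 + u1 * y + u2 * y ^ 2 + u3 * y ^ 3) x) x := by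
  have h1 := (hasDerivAt_id x).const_mul (κ0 - u0 + 149 / 1024)
  have h3 := ((hasDerivAt_pow 3 x).const_mul (-u1 - 1 / 2)).div_const 3
  have h5 := ((hasDerivAt_pow 5 x).const_mul (-u2 - 1 / 8)).div_const 5
  have h7 := ((hasDerivAt_pow 7 x).const_mul (-u3 - 1 / 16)).div_const 7
  have h := ((h1.add h3).add h5).add h7
  refine h.congr_deriv ?_
  rw [etl3]
  push_cast
  ring

/-- Monotonicity of the kernel in `Φ`. -/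
theorem KR_mono (rc rs aS aR : ℝ) (E2 : ℝ → ℝ) (Φ Φ' μ1 μ2 : ℝ → ℝ → ℝ → ℝ) (d : Dt) (h : |d.a| + |d.e| ≤ 1)
    (hΦ : Φ' d.x1 d.x2 d.gt ≤ Φ d.x1 d.x2 d.gt) :
    KR 3 rc rs aS aR E2 Φ' μ1 μ2 d ≤ KR 3 rc rs aS aR E2 Φ μ1 μ2 d := by
  unfold KR mlt
  have h1 := cir_nonneg h
  have h2 := mul_le_mul_of_nonneg_right hΦ h1
  nlinarith

end XGRM

open XGRM KQEM FinM GVCM

theorem specXGR : SpecXGR := by
  intro hKRJ hGVK hNQA hTLM kp t ns hpos hns g c1 c2 hq ht hrc hrs hrc' hrs' haS haR hPh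
  refine hGVK g fun D1 D2 P hP => ?_
  have hc : 0 < c1 * c2 := mul_pos hq.hc1 hq.hc2
  obtain ⟨N1, hN⟩ := hTLM g.rc g.rs hrc' hrc hrs' hrs
  refine hKRJ 3 g.rc g.rs g.aS g.aR (8488263 / 10 ^ 7)
    (fun y => (10008 / 10000 : ℝ) + (-(51625 / 100000 : ℝ)) * y + (-(14486 / 1000000 : ℝ)) * y ^ 2 +
      (-(24545 / 100000 : ℝ)) * y ^ 3)
    (E1f (8488263 / 10 ^ 7) (10008 / 10000) (-(51625 / 100000)) (-(14486 / 1000000)) (-(24545 / 100000)))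
    (E2f (8488263 / 10 ^ 7) (10008 / 10000) (-(51625 / 100000)) (-(14486 / 1000000)) (-(24545 / 100000)))
    (fun x1 x2 γ : ℝ => psQ g.rc g.rs x1 x2 * (g.C * γ ^ 2 + g.l * (γ * (D1 * x1 + D2 * x2)) +
          g.m * (D1 * x1 + D2 * x2) ^ 2 + g.eps - g.k * (x1 ^ 2 + x2 ^ 2 + 3 * γ ^ 2 - 3 / 4) ^ 2))
    (fun x1 x2 γ => 3 * mtV kp.M1 (D1 * x1 + D2 * x2) x1 x2 γ / (c1 * c2))
    (fun x1 x2 γ => 6 * mtV kp.M2 (D1 * x1 + D2 * x2) x1 x2 γ / (c1 * c2))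
    (fun d => 1 / (c1 * c2) * nsV D1 D2 ns d) (fun d => (tlE kp.c1 kp.rc kp.rs t).val (rho D1 D2 d) / (c1 * c2))
    (by norm_num) hrc hrs haS haR k0_lt UC_ge' (fun x => E2f_der _ _ _ _ _ x) (fun x => E1f_der _ _ _ _ _ x)
    ?_ ?_ ?_ (Nul_smul (nsV_nul hNQA D1 D2 ns hns) _) ⟨N1, fun n hn d hd => ?_⟩ ?_ P hP
  · unfold psQ; fun_prop
  · exact (continuous_const.mul (mtV_cont kp.M1 D1 D2)).div_const _
  · exact (continuous_const.mul (mtV_cont kp.M2 D1 D2)).div_const _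
  · rw [tlE_val kp.c1 kp.rc kp.rs t c1 c2 g.rc g.rs g.aR D1 D2 d hq.e0 hq.e1 hq.e2 ht, mul_div_cancel_left₀ _ hc.ne']
    exact mul_le_mul_of_nonneg_left (hN n hn d hd) haR
  · intro d hd
    have h1 := hpos D1 D2 d hd
    have v1 := krE_val kp D1 D2 d c1 c2 g.rc g.rs g.aS g.aR _ _ _ _ _ hq.hc1.ne' hq.hc2.ne'
      hq.e0 hq.e1 hq.e2 hq.g1 hq.g2 hq.g3 hq.k0 hq.k1 hq.k2 hq.k3
    have v2 := krE_val kp D1 D2 d.sw c1 c2 g.rc g.rs g.aS g.aR _ _ _ _ _ hq.hc1.ne' hq.hc2.ne'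
      hq.e0 hq.e1 hq.e2 hq.g1 hq.g2 hq.g3 hq.k0 hq.k1 hq.k2 hq.k3
    simp only [Ex.val, NIM.nsE_val] at h1
    rw [v1, v2] at h1
    have hs := sw_dom hd
    have m1 := KR_mono g.rc g.rs g.aS g.aR
      (E2f (8488263 / 10 ^ 7) (10008 / 10000) (-(51625 / 100000)) (-(14486 / 1000000)) (-(24545 / 100000)))
      (fun x1 x2 γ : ℝ => psQ g.rc g.rs x1 x2 * (g.C * γ ^ 2 + g.l * (γ * (D1 * x1 + D2 * x2)) +
          g.m * (D1 * x1 + D2 * x2) ^ 2 + g.eps - g.k * (x1 ^ 2 + x2 ^ 2 + 3 * γ ^ 2 - 3 / 4) ^ 2))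
      (fun x1 x2 γ => psQ g.rc g.rs x1 x2 * (mtV kp.Ph (D1 * x1 + D2 * x2) x1 x2 γ / c2) +
        mtV kp.Pe (D1 * x1 + D2 * x2) x1 x2 γ / (c1 * c2))
      (fun x1 x2 γ => 3 * mtV kp.M1 (D1 * x1 + D2 * x2) x1 x2 γ / (c1 * c2))
      (fun x1 x2 γ => 6 * mtV kp.M2 (D1 * x1 + D2 * x2) x1 x2 γ / (c1 * c2)) d hd.ae (hPh _ _ _ _ hd.x1 hd.x2 hd.gt)
    have m2 := KR_mono g.rc g.rs g.aS g.aR
      (E2f (8488263 / 10 ^ 7) (10008 / 10000) (-(51625 / 100000)) (-(14486 / 1000000)) (-(24545 / 100000)))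
      (fun x1 x2 γ : ℝ => psQ g.rc g.rs x1 x2 * (g.C * γ ^ 2 + g.l * (γ * (D1 * x1 + D2 * x2)) +
          g.m * (D1 * x1 + D2 * x2) ^ 2 + g.eps - g.k * (x1 ^ 2 + x2 ^ 2 + 3 * γ ^ 2 - 3 / 4) ^ 2))
      (fun x1 x2 γ => psQ g.rc g.rs x1 x2 * (mtV kp.Ph (D1 * x1 + D2 * x2) x1 x2 γ / c2) +
        mtV kp.Pe (D1 * x1 + D2 * x2) x1 x2 γ / (c1 * c2))
      (fun x1 x2 γ => 3 * mtV kp.M1 (D1 * x1 + D2 * x2) x1 x2 γ / (c1 * c2))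
      (fun x1 x2 γ => 6 * mtV kp.M2 (D1 * x1 + D2 * x2) x1 x2 γ / (c1 * c2)) d.sw hs.ae
      (hPh _ _ _ _ hs.x1 hs.x2 hs.gt)
    have h2 := div_nonneg h1 hc.le
    have e : ∀ c K K' n n' G : ℝ, c ≠ 0 → (c * K + n + (c * K' + n') + G) / c = K + K' + 1 / c * n + 1 / c * n' + G / c := by
      intro c K K' n n' G hc
      field_simp
      ring
    rw [e _ _ _ _ _ _ hc.ne'] at h2
    linarith

end Pool.Agent.Lib.MP_084b88_gt.SK
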