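import Pool.Agent.Lib.MP_084b88_gt.SK.SpecH

/-!
# MP_084b88_gt, project SK: the rule of the half identity, form with `x, y`
-/

set_option autoImplicit false

open MeasureTheory Set Real Filter Topology
open scoped Pointwise InnerProductSpace

namespace Pool.Agent.Lib.MP_084b88_gt.SK

open Pool.Agent.Lib.MP_084b88_gt.CW Pool.Agent.Lib.MP_084b88_gt.SY Pool.Agent.Lib.MP_084b88_gt.AY

namespace HfxM

/-- Two points which differ by the signs. -/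
def Rel (s : List ℕ) (ρ ρ' : ℕ → ℝ) : Prop :=
  ∀ i, (nth 0 s i = 0 ∧ ρ' i = ρ i) ∨ (nth 0 s i = 1 ∧ ρ' i = -ρ i)

/-- Zero, even, odd. -/
def PyP (s : List ℕ) (k : ℕ) (f : (ℕ → ℝ) → ℝ) : Prop :=
  (k = 0 → ∀ ρ, f ρ = 0) ∧ (k = 1 → ∀ ρ ρ' : ℕ → ℝ, Rel s ρ ρ' → f ρ' = f ρ) ∧
    (k = 2 → ∀ ρ ρ' : ℕ → ℝ, Rel s ρ ρ' → f ρ' = -f ρ)

theorem pyP_add {s : List ℕ} {x y : ℕ} {f g : (ℕ → ℝ) → ℝ} (hf : PyP s x f) (hg : PyP s y g) :
    PyP s (cadd x y) fun ρ => f ρ + g ρ := by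
  unfold cadd
  split_ifs with h1 h2 h3
  · have h0 := hf.1 h1
    refine ⟨fun h ρ => ?_, fun h ρ ρ' ha => ?_, fun h ρ ρ' ha => ?_⟩ <;> beta_reduce
    · rw [h0, hg.1 h, add_zero]
    · rw [h0, h0, hg.2.1 h ρ ρ' ha]
    · rw [h0, h0, hg.2.2 h ρ ρ' ha]; ring
  · have h0 := hg.1 h2
    refine ⟨fun h ρ => absurd h h1, fun h ρ ρ' ha => ?_, fun h ρ ρ' ha => ?_⟩ <;> beta_reduce
    · rw [h0, h0, hf.2.1 h ρ ρ' ha]
    · rw [h0, h0, hf.2.2 h ρ ρ' ha]; ring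
  · subst h3
    refine ⟨fun h ρ => absurd h h1, fun h ρ ρ' ha => ?_, fun h ρ ρ' ha => ?_⟩ <;> beta_reduce
    · rw [hf.2.1 h ρ ρ' ha, hg.2.1 h ρ ρ' ha]
    · rw [hf.2.2 h ρ ρ' ha, hg.2.2 h ρ ρ' ha]; ring
  · exact ⟨fun h => absurd h (by norm_num), fun h => absurd h (by norm_num), fun h => absurd h (by norm_num)⟩

theorem pyP_mul {s : List ℕ} {x y : ℕ} {f g : (ℕ → ℝ) → ℝ} (hf : PyP s x f) (hg : PyP s y g) :
    PyP s (if x = 0 ∨ y = 0 then 0 else if 3 ≤ x ∨ 3 ≤ y then 3 else if x = y then 1 else 2) fun ρ => f ρ * g ρ := by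
  split_ifs with h1 h2 h3
  · refine ⟨fun h ρ => ?_, fun h => absurd h (by norm_num), fun h => absurd h (by norm_num)⟩
    beta_reduce
    rcases h1 with h1 | h1
    · rw [hf.1 h1, zero_mul]
    · rw [hg.1 h1, mul_zero]
  · exact ⟨fun h => absurd h (by norm_num), fun h => absurd h (by norm_num), fun h => absurd h (by norm_num)⟩
  · rw [not_or] at h1 h2
    refine ⟨fun h => absurd h (by norm_num), fun _ ρ ρ' ha => ?_, fun h => absurd h (by norm_num)⟩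
    beta_reduce
    have hc : x = 1 ∨ x = 2 := by omega
    rcases hc with hx | hx
    · rw [hf.2.1 hx ρ ρ' ha, hg.2.1 (h3 ▸ hx) ρ ρ' ha]
    · rw [hf.2.2 hx ρ ρ' ha, hg.2.2 (h3 ▸ hx) ρ ρ' ha]; ring
  · rw [not_or] at h1 h2
    refine ⟨fun h => absurd h (by norm_num), fun h => absurd h (by norm_num), fun _ ρ ρ' ha => ?_⟩
    beta_reduce
    have hc : (x = 1 ∧ y = 2) ∨ (x = 2 ∧ y = 1) := by omega
    rcases hc with ⟨hx, hy⟩ | ⟨hx, hy⟩
    · rw [hf.2.1 hx ρ ρ' ha, hg.2.2 hy ρ ρ' ha]; ring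
    · rw [hf.2.2 hx ρ ρ' ha, hg.2.1 hy ρ ρ' ha]; ring

theorem pyP_pow {s : List ℕ} {x : ℕ} {f : (ℕ → ℝ) → ℝ} (n : ℕ) (hf : PyP s x f) :
    PyP s (if n = 0 then 1 else if x = 0 then 0 else if 3 ≤ x then 3 else if n % 2 = 0 then 1 else x)
      fun ρ => f ρ ^ n := by
  split_ifs with h1 h2 h3 h4
  · subst h1
    exact ⟨fun h => absurd h (by norm_num), fun _ ρ ρ' _ => by simp, fun h => absurd h (by norm_num)⟩
  · refine ⟨fun _ ρ => ?_, fun h => absurd h (by norm_num), fun h => absurd h (by norm_num)⟩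
    beta_reduce
    rw [hf.1 h2, zero_pow h1]
  · exact ⟨fun h => absurd h (by norm_num), fun h => absurd h (by norm_num), fun h => absurd h (by norm_num)⟩
  · refine ⟨fun h => absurd h (by norm_num), fun _ ρ ρ' ha => ?_, fun h => absurd h (by norm_num)⟩
    beta_reduce
    have hc : x = 1 ∨ x = 2 := by omega
    rcases hc with hx | hx
    · rw [hf.2.1 hx ρ ρ' ha]
    · rw [hf.2.2 hx ρ ρ' ha]
      exact Even.neg_pow (Nat.even_iff.2 h4) _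
  · refine ⟨fun h => absurd h h2, fun h ρ ρ' ha => ?_, fun h ρ ρ' ha => ?_⟩ <;> beta_reduce
    · rw [hf.2.1 h ρ ρ' ha]
    · rw [hf.2.2 h ρ ρ' ha]
      exact Odd.neg_pow (Nat.odd_iff.2 (by omega)) _

theorem pyE_spec (s : List ℕ) (e : Ex) : PyP s (pyE s e) fun ρ => e.val ρ := by
  induction e with
  | v i =>
    have h : pyE s (Ex.v i) = 1 + nth 0 s i := rfl
    rw [h]
    refine ⟨fun h => absurd h (by omega), fun h ρ ρ' ha => ?_, fun h ρ ρ' ha => ?_⟩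
    · rcases ha i with ⟨_, h2⟩ | ⟨h1, _⟩
      · exact h2
      · omega
    · rcases ha i with ⟨h1, _⟩ | ⟨_, h2⟩
      · omega
      · exact h2
  | c c =>
    have h : pyE s (Ex.c c) = if c = 0 then 0 else 1 := rfl
    rw [h]
    split_ifs with hc
    · subst hc
      exact ⟨fun _ ρ => by simp [Ex.val], fun h => absurd h (by norm_num), fun h => absurd h (by norm_num)⟩
    · exact ⟨fun h => absurd h (by norm_num), fun _ ρ ρ' _ => rfl, fun h => absurd h (by norm_num)⟩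
  | add x y hx hy =>
    have h : pyE s (Ex.add x y) = cadd (pyE s x) (pyE s y) := rfl
    rw [h]; exact pyP_add hx hy
  | mul x y hx hy =>
    have h : pyE s (Ex.mul x y) = if pyE s x = 0 ∨ pyE s y = 0 then 0 else if 3 ≤ pyE s x ∨ 3 ≤ pyE s y then 3 else
      if pyE s x = pyE s y then 1 else 2 := rfl
    rw [h]; exact pyP_mul hx hy
  | pow x n hx =>
    have h : pyE s (Ex.pow x n) = if n = 0 then 1 else if pyE s x = 0 then 0 else if 3 ≤ pyE s x then 3 else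
      if n % 2 = 0 then 1 else pyE s x := rfl
    rw [h]; exact pyP_pow n hx

theorem vE_eX (ρ : ℕ → ℝ) (i : ℕ) (h : i < 12) : vE eX ρ i = ρ i := by
  interval_cases i <;> rfl

theorem vE_eX_ge (ρ : ℕ → ℝ) (k : ℕ) : vE eX ρ (k + 12) = 0 := by
  change (((0 : ℤ) : ℝ)) = 0
  simp

theorem vE_rho (D1 D2 : ℝ) (d : Dt) : vE eX (rho D1 D2 d) = rho D1 D2 d := by
  funext i
  rcases Nat.lt_or_ge i 12 with h | h
  · exact vE_eX _ i h
  · obtain ⟨k, rfl⟩ := Nat.exists_eq_add_of_le h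
    rw [add_comm, vE_eX_ge]
    rfl

theorem psI_psI (ρ : ℕ → ℝ) : (fun i => (fun j => ρ (psI j)) (psI i)) = ρ := by
  funext i
  have : psI (psI i) = i := by
    unfold psI
    split_ifs <;> omega
  change ρ (psI (psI i)) = ρ i
  rw [this]

/-- The exchanged point and the plainly exchanged point differ by signs. -/
theorem rel_sw (D1 D2 : ℝ) (d : Dt) : Rel sgX (vE eX fun i => rho D1 D2 d (psI i)) (rho D1 D2 d.sw) := by
  intro i
  match i with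
  | 0 => right; exact ⟨rfl, rfl⟩
  | 1 => right; exact ⟨rfl, rfl⟩
  | 2 => left; exact ⟨rfl, rfl⟩
  | 3 => right; exact ⟨rfl, rfl⟩
  | 4 => left; exact ⟨rfl, rfl⟩
  | 5 => right; exact ⟨rfl, rfl⟩
  | 6 =>
    right
    refine ⟨rfl, ?_⟩
    change D1 * d.sw.y1 + D2 * d.sw.y2 = -(D1 * d.x1 + D2 * d.x2)
    simp only [Dt.sw]; ring
  | 7 => left; exact ⟨rfl, rfl⟩
  | 8 => right; exact ⟨rfl, rfl⟩
  | 9 => left; exact ⟨rfl, rfl⟩
  | 10 => right; exact ⟨rfl, rfl⟩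
  | 11 => left; exact ⟨rfl, rfl⟩
  | (k + 12) =>
    left
    refine ⟨rfl, ?_⟩
    rw [vE_eX_ge]
    rfl

theorem domR_rho (D1 D2 : ℝ) (d : Dt) (h : Dom (1 / 3) (1 / 2) 1 d) : DomR (rho D1 D2 d) where
  ae := h.ae
  bf := h.bf
  gt := h.gt
  gs := h.gs
  x1 := h.x1
  x2 := h.x2
  y1 := h.y1
  y2 := h.y2
  b1 := by
    have := h.b1
    change (d.y1 - d.b * d.x1) ^ 2 + (d.y2 - d.b * d.x2) ^ 2 ≤ 2 * (d.x1 * d.y2 - d.x2 * d.y1) ^ 2
    linarith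
  a1 := by
    have := h.a1
    change (d.x1 - d.a * d.y1) ^ 2 + (d.x2 - d.a * d.y2) ^ 2 ≤ 2 * (d.x1 * d.y2 - d.x2 * d.y1) ^ 2
    linarith

theorem domR_psI {ρ : ℕ → ℝ} (h : DomR ρ) : DomR fun i => ρ (psI i) where
  ae := h.bf
  bf := h.ae
  gt := h.gs
  gs := h.gt
  x1 := h.y1
  x2 := h.y2
  y1 := h.x1
  y2 := h.x2
  b1 := by
    have := h.a1
    change (ρ 9 - ρ 0 * ρ 8) ^ 2 + (ρ 11 - ρ 0 * ρ 10) ^ 2 ≤ 2 * (ρ 8 * ρ 11 - ρ 10 * ρ 9) ^ 2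
    have e : (ρ 8 * ρ 11 - ρ 10 * ρ 9) ^ 2 = (ρ 9 * ρ 10 - ρ 11 * ρ 8) ^ 2 := by ring
    rw [e]; exact this
  a1 := by
    have := h.b1
    change (ρ 8 - ρ 1 * ρ 9) ^ 2 + (ρ 10 - ρ 1 * ρ 11) ^ 2 ≤ 2 * (ρ 8 * ρ 11 - ρ 10 * ρ 9) ^ 2
    have e : (ρ 8 * ρ 11 - ρ 10 * ρ 9) ^ 2 = (ρ 9 * ρ 10 - ρ 11 * ρ 8) ^ 2 := by ring
    rw [e]; exact this

end HfxM

open HfxM

/-- **HFX.** -/
theorem specHFX : SpecHFX := by
  intro p ms G G0 Z hid hS hpy htl D1 D2 d hd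
  have h1 := hid (rho D1 D2 d)
  have h2 := hid fun i => rho D1 D2 d (psI i)
  rw [psI_psI] at h2
  simp only [List.map_cons, List.map_nil, List.sum_cons, List.sum_nil, add_zero] at h1 h2
  rw [vE_rho] at h1
  have h3 := ((pyE_spec sgX (Ex.add (smE 2 G) G0)).2.1 hpy) _ _ (rel_sw D1 D2 d)
  beta_reduce at h3
  have s1 := hS _ (domR_rho D1 D2 d hd)
  have s2 := hS _ (domR_psI (domR_rho D1 D2 d hd))
  have h4 : (Ex.add (smE 2 G) G0).val (rho D1 D2 d) = 2 * G.val (rho D1 D2 d) + G0.val (rho D1 D2 d) := by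
    simp [smE, Ex.val]
  have h5 : (Ex.add (smE 2 G) G0).val (rho D1 D2 d.sw) = 2 * G.val (rho D1 D2 d.sw) + G0.val (rho D1 D2 d) := by
    rw [← htl D1 D2 d]; simp [smE, Ex.val]
  rw [h5] at h3
  rw [h4] at h1
  linarith

end Pool.Agent.Lib.MP_084b88_gt.SK
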