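import Pool.Agent.Lib.MP_084b88_gt.SK.VC

/-!
# MP_084b88_gt, project SK, checker v2: the last loop with a bounded depth of recursion

The kernel resets its stack when a definition is unfolded; `azS` needs a depth proportional to the number of keys, `azT` does not.
-/

set_option autoImplicit false

open MvPolynomial

namespace Pool.Agent.Lib.MP_084b88_gt.SK

/-- The identity, as a definition: its unfolding ends the recursion. -/
def stpB (x : Bool) : Bool := x

/-- All values vanish modulo `2^K`. -/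
noncomputable def azT (K1 : ℕ) (l : KL) : Bool :=
  @KL.rec (fun _ => Bool) true
    (fun _ v _ ih => stpB (@Bool.rec (fun _ => Bool) false ih (Nat.ble (Nat.land v K1) 0))) l

theorem azT_eq (K1 : ℕ) (l : KL) : azT K1 l = azS K1 l := by
  induction l with
  | nil => rfl
  | cons k v t ih =>
    have h1 : azT K1 (KL.cons k v t) = @Bool.rec (fun _ => Bool) false (azT K1 t) (Nat.ble (Nat.land v K1) 0) := rfl
    rw [h1, ih]; rfl

/-- **The check**, as `chV`. -/
noncomputable def chV2 (p : Pm) (q : Q2) (es : List EvD) (G : Ex) (Z : List (ℕ × List (ℕ × ℤ)))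
    (xs : List (List (ℕ × List (ℕ × ℤ)))) (ms : List MB) : Bool :=
  exC2 q.ra q.rb q.ro G (fun s1 =>
    ckM (p.di.map fun d => (d.r, q.zi)) (p.dO.map fun d => (d.r, q.zo)) (fun s2 =>
      ckX (rmx p.di) (rmx p.dO) (fun s3 =>
        ckS p.b p.di p.dO (fun s4 =>
          ifle (Nat.succ (Nat.add (Nat.add s1 (Nat.mul 2 s2)) (Nat.add s3 s4))) p.B
            (fN (Nat.pow 2 q.K) fun M => fN (Nat.pred M) fun K1 =>
              soS p.B p.b p.o p.c K1 M q.n false (azT K1) ms
                (mg (fun v => v) 0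
                  (ngL K1 M (mg (fun v => v) 0 (evS (st (rF p.rs)) p.S p.B K1 M G es)
                    (mgT q.n (swZ p.B M K1 q.li q.lo Z))))
                  (mg (fun v => v) 0 (xpV p.B M K1 Z) (xS p.B M K1 xs)))) false) ms 0) xs 0) Z 0) es 0

/-- **The check of a part**, as `chP`. -/
noncomputable def chP2 (p : Pm) (q : Q2) (X : List (ℕ × List (ℕ × ℤ))) (ms : List MB) : Bool :=
  ckX (rmx p.di) (rmx p.dO) (fun s3 =>
    ckS p.b p.di p.dO (fun s4 =>
      ifle (Nat.succ (Nat.add s3 s4)) p.B
        (fN (Nat.pow 2 q.K) fun M => fN (Nat.pred M) fun K1 =>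
          soS p.B p.b p.o p.c K1 M q.n false (azT K1) ms (ngL K1 M (xpV p.B M K1 X))) false) ms 0) [X] 0

theorem chV2_eq (p : Pm) (q : Q2) (es : List EvD) (G : Ex) (Z : List (ℕ × List (ℕ × ℤ)))
    (xs : List (List (ℕ × List (ℕ × ℤ)))) (ms : List MB) : chV2 p q es G Z xs ms = chV p q es G Z xs ms := by
  unfold chV2 chV
  have h : ∀ K1, azT K1 = azS K1 := fun K1 => funext (azT_eq K1)
  simp only [h]

theorem chP2_eq (p : Pm) (q : Q2) (X : List (ℕ × List (ℕ × ℤ))) (ms : List MB) : chP2 p q X ms = chP p q X ms := by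
  unfold chP2 chP
  have h : ∀ K1, azT K1 = azS K1 := fun K1 => funext (azT_eq K1)
  simp only [h]

/-- From the check with `azT`. -/
theorem chV_of2 {p : Pm} {q : Q2} {es : List EvD} {G : Ex} {Z : List (ℕ × List (ℕ × ℤ))}
    {xs : List (List (ℕ × List (ℕ × ℤ)))} {ms : List MB} (h : chV2 p q es G Z xs ms = true) :
    chV p q es G Z xs ms = true := by rw [← chV2_eq]; exact h

/-- From the check of a part with `azT`. -/
theorem chP_of2 {p : Pm} {q : Q2} {X : List (ℕ × List (ℕ × ℤ))} {ms : List MB} (h : chP2 p q X ms = true) :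
    chP p q X ms = true := by rw [← chP2_eq]; exact h

end Pool.Agent.Lib.MP_084b88_gt.SK
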