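import Pool.Agent.Lib.MP_084b88_gt.SK.I22.F
import Pool.Agent.Lib.MP_084b88_gt.SK.I55.F
import Pool.Agent.Lib.MP_084b88_gt.SK.AXG

/-!
# MP_084b88_gt, project SK: the two isotropic generators, without hypotheses
-/

set_option autoImplicit false

open MeasureTheory Set Real

namespace Pool.Agent.Lib.MP_084b88_gt.SK

open Pool.Agent.Lib.MP_084b88_gt.CW Pool.Agent.Lib.MP_084b88_gt.SY Pool.Agent.Lib.MP_084b88_gt.LG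
open Pool.Agent.Lib.MP_084b88_gt.AY

/-- **T(1/4, 1/4).** -/
theorem gvT11 : GV8 ⟨1 / 4, 1 / 4, 1, 1, 13 / 250, 3 / 40, 3 / 1000, 0, 0⟩ :=
  I22.gv8 aKRJ allGVK allNQA fun rc rs h1 h2 h3 h4 => aTLM rc rs h1 h2 h3 h4

/-- **T(1/2, 1/2).** -/
theorem gvT22 : GV8 ⟨1 / 2, 1 / 2, 1, 1, 13 / 250, 3 / 40, 3 / 1000, 0, 0⟩ :=
  I55.gv8 aKRJ allGVK allNQA fun rc rs h1 h2 h3 h4 => aTLM rc rs h1 h2 h3 h4

/-- In the form of the glue. -/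
theorem gvT11' : ∃ C l : ℝ, GV8 ⟨1 / 4, 1 / 4, 1, 1, C, l, 3 / 1000, 0, 0⟩ ∧ C ≤ 52 / 1000 ∧
    (l = 75 / 1000 ∨ l = -(75 / 1000)) :=
  ⟨13 / 250, 3 / 40, gvT11, by norm_num, Or.inl (by norm_num)⟩

/-- In the form of the glue. -/
theorem gvT22' : ∃ C l : ℝ, GV8 ⟨1 / 2, 1 / 2, 1, 1, C, l, 3 / 1000, 0, 0⟩ ∧ C ≤ 52 / 1000 ∧
    (l = 75 / 1000 ∨ l = -(75 / 1000)) :=
  ⟨13 / 250, 3 / 40, gvT22, by norm_num, Or.inl (by norm_num)⟩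

end Pool.Agent.Lib.MP_084b88_gt.SK
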