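import Pool.Agent.Lib.MP_084b88_gt.SK.Defs

/-!
# MP_084b88_gt, project SK: soundness of the PSD check
-/

set_option autoImplicit false

namespace Pool.Agent.Lib.MP_084b88_gt.SK

theorem fN_eq {α : Type} (a : ℕ) (k : ℕ → α) : fN a k = k a := by
  cases a <;> rfl

theorem fI_eq {α : Type} (a : ℤ) (k : ℤ → α) : fI a k = k a := by
  cases a with
  | ofNat n => exact fN_eq n fun n => k (Int.ofNat n)
  | negSucc n => exact fN_eq n fun n => k (Int.negSucc n)

theorem ifle_eq {α : Type} (a b : ℕ) (x y : α) : ifle a b x y = if a ≤ b then x else y := by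
  unfold ifle
  by_cases h : a ≤ b
  · rw [if_pos h, Nat.ble_eq_true_of_le h]
  · rw [if_neg h]
    have : Nat.ble a b = false := by
      rw [Bool.eq_false_iff]; intro h2; exact h (Nat.le_of_ble_eq_true h2)
    rw [this]

theorem ifle_true {a b : ℕ} {x : Bool} (h : ifle a b x false = true) : a ≤ b ∧ x = true := by
  rw [ifle_eq] at h
  by_cases hab : a ≤ b
  · rw [if_pos hab] at h; exact ⟨hab, h⟩
  · rw [if_neg hab] at h; exact absurd h (by decide)

/-- Digits. -/
def dig (b v j : ℕ) : ℕ := (v / b ^ j) % b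

namespace PsdM

theorem dig_zero (b v : ℕ) : dig b v 0 = v % b := by simp [dig]

theorem dig_succ (b v j : ℕ) : dig b v (j + 1) = dig b (v / b) j := by
  unfold dig
  rw [Nat.div_div_eq_div_mul, pow_succ, mul_comm b]

theorem dig_lt (b v j : ℕ) (hb : 0 < b) : dig b v j < b := Nat.mod_lt _ hb

theorem xp_eq {α : Type} (b W : ℕ) (K : ℕ → α) (k : ℕ) : ∀ v acc pw : ℕ,
    xp b W K k v acc pw = K (acc + pw * ∑ j ∈ Finset.range k, dig b v j * W ^ j) := by
  induction k with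
  | zero => intro v acc pw; simp [xp]
  | succ k ih =>
    intro v acc pw
    have h : xp b W K (k + 1) v acc pw = fN (Nat.add acc (Nat.mul (Nat.mod v b) pw)) fun acc =>
      fN (Nat.div v b) fun v => fN (Nat.mul pw W) fun pw => xp b W K k v acc pw := rfl
    rw [h, fN_eq, fN_eq, fN_eq, ih]
    congr 1
    rw [Finset.sum_range_succ']
    simp only [dig_zero, dig_succ]
    simp only [pow_zero, mul_one, pow_succ]
    change acc + v % b * pw + pw * W * ∑ j ∈ Finset.range k, dig b (v / b) j * W ^ j = _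
    rw [mul_add, Finset.mul_sum, Finset.mul_sum]
    rw [add_assoc, mul_comm (v % b) pw, add_comm (pw * (v % b))]
    congr 2
    refine Finset.sum_congr rfl fun j _ => ?_
    ring

theorem colL_eq {α : Type} (W : ℕ) (cs : List ℕ) : ∀ (su sc sp : ℕ) (k : List ℕ → ℕ → ℕ → ℕ → α),
    colL W cs su sc sp k = k (cs.map (· / W)) (su + (cs.map (· % W)).sum) (sc + cs.sum)
      (sp + (cs.map fun c => (c % W) * c).sum) := by
  induction cs with
  | nil => intro su sc sp k; simp [colL]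
  | cons c cs ih =>
    intro su sc sp k
    have h : colL W (c :: cs) su sc sp k = fN (Nat.mod c W) fun u => fN (Nat.div c W) fun c' =>
      fN (Nat.add su u) fun su => fN (Nat.add sc c) fun sc' => fN (Nat.add sp (Nat.mul u c)) fun sp =>
      colL W cs su sc' sp fun r su sc sp => k (List.cons c' r) su sc sp := rfl
    rw [h, fN_eq, fN_eq, fN_eq, fN_eq, fN_eq, ih]
    simp only [List.map_cons, List.sum_cons]
    have e1 : Nat.add su (Nat.mod c W) + (cs.map (· % W)).sum = su + (c % W + (cs.map (· % W)).sum) := by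
      change su + c % W + _ = _; omega
    have e2 : Nat.add sc c + cs.sum = sc + (c + cs.sum) := by change sc + c + _ = _; omega
    have e3 : Nat.add sp (Nat.mul (Nat.mod c W) c) + (cs.map fun c => (c % W) * c).sum =
        sp + (c % W * c + (cs.map fun c => (c % W) * c).sum) := by change sp + c % W * c + _ = _; omega
    rw [e1, e2, e3]
    rfl

theorem rep_eq (c W n : ℕ) : rep c W n = ∑ j ∈ Finset.range n, c * W ^ j := by
  induction n with
  | zero => simp [rep]
  | succ n ih =>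
    have h : rep c W (n + 1) = c + W * rep c W n := rfl
    rw [h, ih, Finset.sum_range_succ', Finset.mul_sum, add_comm]
    simp only [pow_zero, mul_one]
    congr 1
    exact Finset.sum_congr rfl fun j _ => by ring

theorem rep_succ (c W n : ℕ) : rep c W (n + 1) = c + W * rep c W n := rfl

/-- Uniqueness of signed digits. -/
theorem uniq (W : ℤ) (hW : 0 < W) : ∀ (k : ℕ) (c : ℕ → ℤ), (∀ j < k, |c j| < W) →
    ∑ j ∈ Finset.range k, c j * W ^ j = 0 → ∀ j < k, c j = 0 := by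
  intro k
  induction k with
  | zero => intro c _ _ j hj; omega
  | succ k ih =>
    intro c hc h0
    rw [Finset.sum_range_succ'] at h0
    simp only [pow_zero, mul_one] at h0
    have h1 : ∑ j ∈ Finset.range k, c (j + 1) * W ^ (j + 1) =
        W * ∑ j ∈ Finset.range k, c (j + 1) * W ^ j := by
      rw [Finset.mul_sum]; exact Finset.sum_congr rfl fun j _ => by ring
    rw [h1] at h0
    have hd : W ∣ c 0 := ⟨-∑ j ∈ Finset.range k, c (j + 1) * W ^ j, by linarith⟩
    have hc0 : c 0 = 0 := Int.eq_zero_of_abs_lt_dvd hd (hc 0 (Nat.succ_pos k))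
    rw [hc0, add_zero] at h0
    have h2 := (mul_eq_zero.1 h0).resolve_left hW.ne'
    have h3 := ih (fun j => c (j + 1)) (fun j hj => hc (j + 1) (Nat.succ_lt_succ hj)) h2
    intro j hj
    cases j with
    | zero => exact hc0
    | succ j => exact h3 j (Nat.lt_of_succ_lt_succ hj)

/-- A number is the sum of its digits. -/
theorem sum_dig (W : ℕ) (hW : 0 < W) : ∀ (k v : ℕ), v < W ^ k →
    ∑ j ∈ Finset.range k, dig W v j * W ^ j = v := by
  intro k
  induction k with
  | zero => intro v hv; simp at hv; simp [hv]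
  | succ k ih =>
    intro v hv
    have h1 : v / W < W ^ k := by
      rw [Nat.div_lt_iff_lt_mul hW, ← pow_succ]; exact hv
    rw [Finset.sum_range_succ']
    simp only [dig_zero, dig_succ, pow_zero, mul_one, pow_succ]
    have h2 : ∑ j ∈ Finset.range k, dig W (v / W) j * (W ^ j * W) = v / W * W := by
      rw [← ih (v / W) h1]
      rw [Finset.sum_mul]
      refine Finset.sum_congr rfl fun j _ => ?_
      rw [ih (v / W) h1]; ring
    rw [h2]
    exact Nat.div_add_mod' v W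

/-- Digits of a sum of digits. -/
theorem dig_sum (W : ℕ) (hW : 0 < W) : ∀ (k : ℕ) (d : ℕ → ℕ), (∀ j < k, d j < W) →
    (∑ j ∈ Finset.range k, d j * W ^ j) < W ^ k ∧
      ∀ j < k, dig W (∑ j ∈ Finset.range k, d j * W ^ j) j = d j := by
  intro k
  induction k with
  | zero => intro d _; exact ⟨by simp, fun j hj => absurd hj (Nat.not_lt_zero _)⟩
  | succ k ih =>
    intro d hd
    obtain ⟨h1, h2⟩ := ih (fun j => d (j + 1)) fun j hj => hd (j + 1) (Nat.succ_lt_succ hj)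
    have h0 := hd 0 (Nat.succ_pos k)
    have hs : ∑ j ∈ Finset.range (k + 1), d j * W ^ j =
        d 0 + W * ∑ j ∈ Finset.range k, d (j + 1) * W ^ j := by
      rw [Finset.sum_range_succ', Finset.mul_sum, add_comm]
      simp only [pow_zero, mul_one]
      congr 1
      exact Finset.sum_congr rfl fun j _ => by ring
    rw [hs]
    have hdiv : (d 0 + W * ∑ j ∈ Finset.range k, d (j + 1) * W ^ j) / W =
        ∑ j ∈ Finset.range k, d (j + 1) * W ^ j := by
      rw [Nat.add_mul_div_left _ _ hW, Nat.div_eq_of_lt h0, zero_add]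
    refine ⟨?_, fun j hj => ?_⟩
    · calc d 0 + W * ∑ j ∈ Finset.range k, d (j + 1) * W ^ j
          < W + W * ∑ j ∈ Finset.range k, d (j + 1) * W ^ j := by omega
        _ = W * ((∑ j ∈ Finset.range k, d (j + 1) * W ^ j) + 1) := by ring
        _ ≤ W * W ^ k := Nat.mul_le_mul_left _ h1
        _ = W ^ (k + 1) := by ring
    · cases j with
      | zero => rw [dig_zero, Nat.add_mul_mod_self_left, Nat.mod_eq_of_lt h0]
      | succ j => rw [dig_succ, hdiv]; exact h2 j (Nat.lt_of_succ_lt_succ hj)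

/-- One digit of the mask. -/
theorem mask1 (w s u : ℕ) (hs : s ≤ w) (hu : u < 2 ^ w) (h : u &&& (2 ^ w - 2 ^ s) = 0) : u < 2 ^ s := by
  have h1 : (2 ^ w - 2 ^ s) / 2 ^ s = 2 ^ (w - s) - 1 := by
    have : 2 ^ w - 2 ^ s = (2 ^ (w - s) - 1) * 2 ^ s := by
      rw [Nat.sub_mul, one_mul, ← pow_add, Nat.sub_add_cancel hs]
    rw [this, Nat.mul_div_cancel _ (by positivity)]
  have h2 : (u &&& (2 ^ w - 2 ^ s)) / 2 ^ s = (u / 2 ^ s) &&& (2 ^ (w - s) - 1) := by
    rw [Nat.and_div_two_pow, h1]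
  rw [h, Nat.zero_div, Nat.and_two_pow_sub_one_eq_mod] at h2
  have h3 : u / 2 ^ s < 2 ^ (w - s) := by
    rw [Nat.div_lt_iff_lt_mul (by positivity), ← pow_add, Nat.sub_add_cancel hs]; exact hu
  rw [Nat.mod_eq_of_lt h3] at h2
  exact Nat.lt_of_div_eq_zero (by positivity) h2.symm

theorem mask (w s : ℕ) (hs : s ≤ w) : ∀ (k D : ℕ), D &&& rep (2 ^ w - 2 ^ s) (2 ^ w) k = 0 →
    ∀ j < k, dig (2 ^ w) D j < 2 ^ s := by
  intro k
  induction k with
  | zero => intro D _ j hj; omega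
  | succ k ih =>
    intro D h j hj
    have hlt : 2 ^ w - 2 ^ s < 2 ^ w := Nat.sub_lt (by positivity) (by positivity)
    have hm : rep (2 ^ w - 2 ^ s) (2 ^ w) (k + 1) % 2 ^ w = 2 ^ w - 2 ^ s := by
      rw [rep_succ, Nat.add_mul_mod_self_left, Nat.mod_eq_of_lt hlt]
    have hd : rep (2 ^ w - 2 ^ s) (2 ^ w) (k + 1) / 2 ^ w = rep (2 ^ w - 2 ^ s) (2 ^ w) k := by
      rw [rep_succ, Nat.add_mul_div_left _ _ (by positivity), Nat.div_eq_of_lt hlt, zero_add]
    have h1 : (D &&& rep (2 ^ w - 2 ^ s) (2 ^ w) (k + 1)) % 2 ^ w = (D % 2 ^ w) &&& (2 ^ w - 2 ^ s) := by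
      rw [Nat.and_mod_two_pow, hm]
    have h2 : (D &&& rep (2 ^ w - 2 ^ s) (2 ^ w) (k + 1)) / 2 ^ w =
        (D / 2 ^ w) &&& rep (2 ^ w - 2 ^ s) (2 ^ w) k := by
      rw [Nat.and_div_two_pow, hd]
    rw [h, Nat.zero_mod] at h1
    rw [h, Nat.zero_div] at h2
    cases j with
    | zero =>
      rw [dig_zero]
      exact mask1 w s _ hs (Nat.mod_lt _ (by positivity)) h1.symm
    | succ j => rw [dig_succ]; exact ih (D / 2 ^ w) h2.symm j (Nat.lt_of_succ_lt_succ hj)

/-- Signed digits. -/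
def sd (b o v j : ℕ) : ℤ := (dig b v j : ℤ) - o

theorem sd_abs (b o v j : ℕ) (hb : 0 < b) (ho : o ≤ b) : |sd b o v j| ≤ b := by
  unfold sd
  have h := dig_lt b v j hb
  rw [abs_le]; constructor <;> omega

theorem sum_cols (W o1 : ℕ) (hW : 0 < W) (k : ℕ) (Cs : List ℕ) (hC : ∀ C ∈ Cs, C < W ^ k) :
    ∑ j ∈ Finset.range k, (Cs.map fun C => sd W o1 C 0 * sd W o1 C j).sum * (W : ℤ) ^ j =
      ((Cs.map fun c => (c % W) * c).sum : ℤ) - o1 * (Cs.sum : ℤ) -
        o1 * (rep 1 W k : ℤ) * ((Cs.map (· % W)).sum : ℤ) + Cs.length * (o1 * o1) * (rep 1 W k : ℤ) := by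
  induction Cs with
  | nil => simp
  | cons C Cs ih =>
    have h1 := ih fun C' h' => hC C' (List.mem_cons_of_mem _ h')
    have h2 := hC C List.mem_cons_self
    simp only [List.map_cons, List.sum_cons, add_mul, Finset.sum_add_distrib]
    rw [h1]
    have h3 : ∑ j ∈ Finset.range k, sd W o1 C 0 * sd W o1 C j * (W : ℤ) ^ j =
        ((C % W : ℕ) - o1 : ℤ) * ((C : ℤ) - o1 * (rep 1 W k : ℤ)) := by
      have e1 : (C : ℤ) = ∑ j ∈ Finset.range k, (dig W C j : ℤ) * (W : ℤ) ^ j := by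
        conv_lhs => rw [← sum_dig W hW k C h2]
        push_cast; rfl
      have e2 : (rep 1 W k : ℤ) = ∑ j ∈ Finset.range k, (W : ℤ) ^ j := by
        rw [rep_eq]; push_cast; simp
      have e3 : sd W o1 C 0 = ((C % W : ℕ) - o1 : ℤ) := by unfold sd; rw [dig_zero]
      rw [e3]
      conv_rhs => rw [e1]
      rw [e2, Finset.mul_sum, ← Finset.sum_sub_distrib, Finset.mul_sum]
      refine Finset.sum_congr rfl fun j _ => ?_
      unfold sd; ring
    rw [h3]
    push_cast
    simp only [List.length_cons]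
    push_cast
    ring

/-- The numbers tested by `dchk`. -/
def xx (b o W o1 T ρ N1 hv : ℕ) (Cs : List ℕ) (j : ℕ) : ℤ :=
  (T : ℤ) * sd b o hv j + (if j = 0 then (T : ℤ) * sd b o hv 0 - N1 * ρ else 0) + ρ -
    (Cs.map fun C => sd W o1 C 0 * sd W o1 C j).sum

theorem xx_abs (b o W o1 b1 T ρ N1 hv : ℕ) (Cs : List ℕ) (j k : ℕ) (hj : j < k) (hb : 0 < b) (ho : o ≤ b)
    (ho1 : o1 ≤ b1) (hN : Cs.length ≤ N1) (hD : ∀ C ∈ Cs, ∀ j < k, dig W C j < b1) :
    |xx b o W o1 T ρ N1 hv Cs j| ≤ 2 * (T * b) + N1 * (b1 * b1) + (N1 + 1) * ρ := by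
  have h1 : |(Cs.map fun C => sd W o1 C 0 * sd W o1 C j).sum| ≤ (Cs.length : ℤ) * (b1 * b1) := by
    have hk : 0 < k := lt_of_le_of_lt (Nat.zero_le _) hj
    clear hN
    induction Cs with
    | nil => simp
    | cons C Cs ih =>
      have h2 := ih fun C' h' => hD C' (List.mem_cons_of_mem _ h')
      have h3 := hD C List.mem_cons_self
      simp only [List.map_cons, List.sum_cons, List.length_cons]
      have a0 : |sd W o1 C 0| ≤ b1 := by
        have := h3 0 hk; unfold sd; rw [abs_le]; constructor <;> omega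
      have a1 : |sd W o1 C j| ≤ b1 := by
        have := h3 j hj; unfold sd; rw [abs_le]; constructor <;> omega
      calc |sd W o1 C 0 * sd W o1 C j + (Cs.map fun C => sd W o1 C 0 * sd W o1 C j).sum|
          ≤ |sd W o1 C 0 * sd W o1 C j| + |(Cs.map fun C => sd W o1 C 0 * sd W o1 C j).sum| := abs_add_le _ _
        _ ≤ b1 * b1 + Cs.length * (b1 * b1) := by
            refine add_le_add ?_ h2
            rw [abs_mul]
            exact mul_le_mul a0 a1 (abs_nonneg _) (by positivity)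
        _ = ((Cs.length + 1 : ℕ) : ℤ) * (b1 * b1) := by push_cast; ring
  have h2 : (Cs.length : ℤ) * (b1 * b1) ≤ N1 * (b1 * b1) := by
    have : (Cs.length : ℤ) ≤ N1 := by exact_mod_cast hN
    exact mul_le_mul_of_nonneg_right this (by positivity)
  have hs := sd_abs b o hv j hb ho
  have hs0 := sd_abs b o hv 0 hb ho
  have hT : (0 : ℤ) ≤ T := by positivity
  have h3 : |(T : ℤ) * sd b o hv j| ≤ T * b := by
    rw [abs_mul, abs_of_nonneg hT]; exact mul_le_mul_of_nonneg_left hs hT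
  have h4 : |(T : ℤ) * sd b o hv 0| ≤ T * b := by
    rw [abs_mul, abs_of_nonneg hT]; exact mul_le_mul_of_nonneg_left hs0 hT
  have hρ : (0 : ℤ) ≤ ρ := by positivity
  have hNρ : (0 : ℤ) ≤ N1 * ρ := by positivity
  have hTb : (0 : ℤ) ≤ T * b := by positivity
  unfold xx
  rw [abs_le] at h1 h3 h4 ⊢
  split_ifs <;> constructor <;> nlinarith

theorem row_step (b o w s o1 b1 T N1 hv k : ℕ) (Cs : List ℕ) (hb : 0 < b) (ho : o ≤ b) (hbW : b ≤ 2 ^ w)
    (ho1 : o1 ≤ b1) (hs : s + 1 ≤ w) (hN : Cs.length ≤ N1) (hC : ∀ C ∈ Cs, C < (2 ^ w) ^ k)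
    (hD : ∀ C ∈ Cs, ∀ j < k, dig (2 ^ w) C j < b1)
    (hW : 4 * (T * b) + (N1 * (b1 * b1) + (N1 + 4) * 2 ^ s) ≤ 2 ^ w)
    (A B : ℕ)
    (hA : A = T * ((∑ j ∈ Finset.range k, dig b hv j * (2 ^ w) ^ j) +
        (∑ j ∈ Finset.range k, dig b hv j * (2 ^ w) ^ j) % 2 ^ w) +
      (o1 * Cs.sum + (o1 * rep 1 (2 ^ w) k * (Cs.map (· % 2 ^ w)).sum + 2 ^ s * rep 1 (2 ^ w) k)))
    (hB : B = T * (o * (rep 1 (2 ^ w) k + 1)) + ((Cs.map fun c => (c % 2 ^ w) * c).sum +
      (Cs.length * (o1 * o1) * rep 1 (2 ^ w) k + N1 * 2 ^ s)))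
    (hBA : B ≤ A) (hm : (A - B) &&& rep (2 ^ w - 2 ^ (s + 1)) (2 ^ w) k = 0)
    (hE : A - B ≤ 2 * 2 ^ s * rep 1 (2 ^ w) k) :
    ∀ j < k, 0 ≤ xx b o (2 ^ w) o1 T (2 ^ s) N1 hv Cs j ∧
      xx b o (2 ^ w) o1 T (2 ^ s) N1 hv Cs j < 2 * 2 ^ s := by
  have hWpos : 0 < 2 ^ w := by positivity
  have hmask := mask w (s + 1) hs k (A - B) hm
  by_cases hk : k = 0
  · intro j hj; omega
  have hk1 : 0 < k := Nat.pos_of_ne_zero hk
  -- the difference as an integer
  have hDZ : ((A - B : ℕ) : ℤ) = ∑ j ∈ Finset.range k,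
      xx b o (2 ^ w) o1 T (2 ^ s) N1 hv Cs j * ((2 ^ w : ℕ) : ℤ) ^ j := by
    have hc := sum_cols (2 ^ w) o1 hWpos k Cs hC
    have e1 : ∑ j ∈ Finset.range k, xx b o (2 ^ w) o1 T (2 ^ s) N1 hv Cs j * ((2 ^ w : ℕ) : ℤ) ^ j =
        T * (∑ j ∈ Finset.range k, sd b o hv j * ((2 ^ w : ℕ) : ℤ) ^ j) +
        (T * sd b o hv 0 - N1 * 2 ^ s) + 2 ^ s * (rep 1 (2 ^ w) k : ℤ) -
        ∑ j ∈ Finset.range k, (Cs.map fun C => sd (2 ^ w) o1 C 0 * sd (2 ^ w) o1 C j).sum *
          ((2 ^ w : ℕ) : ℤ) ^ j := by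
      have e2 : (rep 1 (2 ^ w) k : ℤ) = ∑ j ∈ Finset.range k, ((2 ^ w : ℕ) : ℤ) ^ j := by
        rw [rep_eq]; push_cast; simp
      have e3 : (T * sd b o hv 0 - N1 * 2 ^ s : ℤ) = ∑ j ∈ Finset.range k,
          (if j = 0 then (T : ℤ) * sd b o hv 0 - N1 * 2 ^ s else 0) * ((2 ^ w : ℕ) : ℤ) ^ j := by
        rw [Finset.sum_eq_single_of_mem 0 (Finset.mem_range.2 hk1)]
        · simp
        · intro j _ hj; rw [if_neg hj, zero_mul]
      rw [e2, e3, Finset.mul_sum, Finset.mul_sum, ← Finset.sum_add_distrib, ← Finset.sum_add_distrib,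
        ← Finset.sum_sub_distrib]
      refine Finset.sum_congr rfl fun j _ => ?_
      unfold xx
      push_cast
      ring
    rw [e1, hc]
    have e4 : ∑ j ∈ Finset.range k, sd b o hv j * ((2 ^ w : ℕ) : ℤ) ^ j =
        ((∑ j ∈ Finset.range k, dig b hv j * (2 ^ w) ^ j : ℕ) : ℤ) - o * (rep 1 (2 ^ w) k : ℤ) := by
      rw [rep_eq, Nat.cast_sum, Nat.cast_sum, Finset.mul_sum, ← Finset.sum_sub_distrib]
      refine Finset.sum_congr rfl fun j _ => ?_
      unfold sd; push_cast; ring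
    have e5 : (∑ j ∈ Finset.range k, dig b hv j * (2 ^ w) ^ j) % 2 ^ w = dig b hv 0 := by
      obtain ⟨k', rfl⟩ : ∃ k', k = k' + 1 := ⟨k - 1, by omega⟩
      rw [Finset.sum_range_succ']
      have : ∑ j ∈ Finset.range k', dig b hv (j + 1) * (2 ^ w) ^ (j + 1) =
          2 ^ w * ∑ j ∈ Finset.range k', dig b hv (j + 1) * (2 ^ w) ^ j := by
        rw [Finset.mul_sum]; exact Finset.sum_congr rfl fun j _ => by ring
      rw [this, add_comm, Nat.add_mul_mod_self_left, pow_zero, mul_one]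
      exact Nat.mod_eq_of_lt (lt_of_lt_of_le (dig_lt b hv 0 hb) hbW)
    rw [Nat.cast_sub hBA, hA, hB, e4, e5]
    unfold sd
    push_cast
    ring
  have hE2 : 2 * 2 ^ s * rep 1 (2 ^ w) k < (2 ^ w) ^ k := by
    have h1 : 2 * 2 ^ s ≤ 2 ^ w - 1 := by
      have h4 : 4 * 2 ^ s ≤ 2 ^ w := by
        have : (N1 + 4) * 2 ^ s = N1 * 2 ^ s + 4 * 2 ^ s := by ring
        omega
      have : 1 ≤ 2 ^ s := Nat.one_le_two_pow
      omega
    have h2 : ∀ k, (2 ^ w - 1) * rep 1 (2 ^ w) k + 1 = (2 ^ w) ^ k := by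
      intro k
      induction k with
      | zero => simp [rep]
      | succ k ih =>
        rw [rep_succ, pow_succ, ← ih]
        have h3 : 1 ≤ 2 ^ w := Nat.one_le_two_pow
        obtain ⟨q, hq⟩ : ∃ q, 2 ^ w = q + 1 := ⟨2 ^ w - 1, by omega⟩
        rw [hq, Nat.add_sub_cancel]
        ring
    have h3 := h2 k
    have h4 : 2 * 2 ^ s * rep 1 (2 ^ w) k ≤ (2 ^ w - 1) * rep 1 (2 ^ w) k := Nat.mul_le_mul_right _ h1
    omega
  have hlt : A - B < (2 ^ w) ^ k := lt_of_le_of_lt hE hE2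
  have hsum := sum_dig (2 ^ w) hWpos k (A - B) hlt
  have hz : ∑ j ∈ Finset.range k, (xx b o (2 ^ w) o1 T (2 ^ s) N1 hv Cs j - (dig (2 ^ w) (A - B) j : ℤ)) *
      ((2 ^ w : ℕ) : ℤ) ^ j = 0 := by
    have : ∑ j ∈ Finset.range k, (dig (2 ^ w) (A - B) j : ℤ) * ((2 ^ w : ℕ) : ℤ) ^ j = ((A - B : ℕ) : ℤ) := by
      conv_rhs => rw [← hsum]
      push_cast; rfl
    simp only [sub_mul]
    rw [Finset.sum_sub_distrib, this, ← hDZ, sub_self]
  have hun := uniq ((2 ^ w : ℕ) : ℤ) (by exact_mod_cast hWpos) k _ (fun j hj => by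
    have h1 := xx_abs b o (2 ^ w) o1 b1 T (2 ^ s) N1 hv Cs j k hj hb ho ho1 hN hD
    have h2 := hmask j hj
    have h3 : (dig (2 ^ w) (A - B) j : ℤ) < 2 * 2 ^ s := by
      have : dig (2 ^ w) (A - B) j < 2 * 2 ^ s := by rw [pow_succ] at h2; omega
      exact_mod_cast this
    have h4 : (0 : ℤ) ≤ (dig (2 ^ w) (A - B) j : ℤ) := by positivity
    have h5 : (4 * (T * b) + (N1 * (b1 * b1) + (N1 + 4) * 2 ^ s) : ℤ) ≤ ((2 ^ w : ℕ) : ℤ) := by
      exact_mod_cast hW
    have h6 : (0 : ℤ) < 2 ^ s := by positivity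
    have h7 : (0 : ℤ) ≤ T * b := by positivity
    push_cast at h1
    rw [abs_le] at h1
    rw [abs_lt]
    constructor <;> nlinarith) hz
  intro j hj
  have h1 := hun j hj
  have h2 := hmask j hj
  have h3 : (dig (2 ^ w) (A - B) j : ℤ) < 2 * 2 ^ s := by
    have : dig (2 ^ w) (A - B) j < 2 * 2 ^ s := by rw [pow_succ] at h2; omega
    exact_mod_cast this
  have h4 : (0 : ℤ) ≤ (dig (2 ^ w) (A - B) j : ℤ) := by positivity
  constructor <;> linarith

end PsdM

open PsdM

/-- `∑_{j<k} H_j y_j`. -/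
noncomputable def lin (b o k v : ℕ) (y : ℕ → ℝ) : ℝ := ∑ j ∈ Finset.range k, (sd b o v j : ℝ) * y j

/-- The quadratic form `∑_i y_i ∑_{j ≥ i} H_ij y_j`. -/
noncomputable def quadL (b o : ℕ) : List ℕ → (ℕ → ℝ) → ℝ
  | [], _ => 0
  | v :: vs, y => y 0 * lin b o (vs.length + 1) v y + quadL b o vs fun j => y (j + 1)

namespace PsdM

theorem lin_succ (b o k v : ℕ) (y : ℕ → ℝ) :
    lin b o (k + 1) v y = (sd b o v 0 : ℝ) * y 0 + lin b o k (v / b) fun j => y (j + 1) := by
  unfold lin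
  rw [Finset.sum_range_succ', add_comm]
  congr 1
  refine Finset.sum_congr rfl fun j _ => ?_
  unfold sd; rw [dig_succ]

theorem dchk_true {ρ E Mk A B : ℕ} {x : Bool} (h : dchk ρ E Mk A B x = true) :
    B ≤ A ∧ (A - B) &&& Mk = 0 ∧ A - B ≤ 2 * ρ * E ∧ x = true := by
  unfold dchk at h
  rw [fN_eq, fN_eq] at h
  obtain ⟨h1, h⟩ := ifle_true h
  rw [fN_eq] at h
  obtain ⟨h2, h⟩ := ifle_true h
  obtain ⟨h3, h⟩ := ifle_true h
  exact ⟨h1, Nat.le_zero.1 h2, h3, h⟩

/-- The real inequality behind one step. -/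
theorem real_step (T ρ N1 k : ℕ) (y : ℕ → ℝ) (h0 : ℝ) (hl : ℕ → ℝ) (c0 : List ℝ) (cl : List (ℕ → ℝ))
    (hlen : c0.length = cl.length) (Q : ℝ)
    (hx0 : (T : ℝ) * h0 + T * h0 - N1 * ρ + ρ - (c0.map fun c => c * c).sum ≥ 0)
    (hxl : ∀ j < k, |(T : ℝ) * hl j - ((c0.zip cl).map fun c => c.1 * c.2 j).sum| ≤ ρ)
    (hQ : (cl.map fun c => (∑ j ∈ Finset.range k, c j * y (j + 1)) ^ 2).sum +
      N1 * ρ * ∑ j ∈ Finset.range k, y (j + 1) ^ 2 - ρ * (∑ j ∈ Finset.range k, |y (j + 1)|) ^ 2 ≤ 2 * T * Q) :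
    ((c0.zip cl).map fun c => (c.1 * y 0 + ∑ j ∈ Finset.range k, c.2 j * y (j + 1)) ^ 2).sum +
      N1 * ρ * ∑ j ∈ Finset.range (k + 1), y j ^ 2 - ρ * (∑ j ∈ Finset.range (k + 1), |y j|) ^ 2 ≤
    2 * T * (y 0 * (h0 * y 0 + ∑ j ∈ Finset.range k, hl j * y (j + 1)) + Q) := by
  have e1 : ((c0.zip cl).map fun c => (c.1 * y 0 + ∑ j ∈ Finset.range k, c.2 j * y (j + 1)) ^ 2).sum =
      (c0.map fun c => c * c).sum * y 0 ^ 2 +
      2 * y 0 * ∑ j ∈ Finset.range k, ((c0.zip cl).map fun c => c.1 * c.2 j).sum * y (j + 1) +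
      (cl.map fun c => (∑ j ∈ Finset.range k, c j * y (j + 1)) ^ 2).sum := by
    clear hx0 hxl hQ
    induction c0 generalizing cl with
    | nil =>
      cases cl with
      | nil => simp
      | cons c cl => simp at hlen
    | cons a c0 ih =>
      cases cl with
      | nil => simp at hlen
      | cons c cl =>
        have h2 := ih cl (by simpa using hlen)
        simp only [List.zip_cons_cons, List.map_cons, List.sum_cons]
        rw [h2]
        have e2 : ∑ j ∈ Finset.range k, (a * c j + ((c0.zip cl).map fun c => c.1 * c.2 j).sum) * y (j + 1) =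
            a * ∑ j ∈ Finset.range k, c j * y (j + 1) +
              ∑ j ∈ Finset.range k, ((c0.zip cl).map fun c => c.1 * c.2 j).sum * y (j + 1) := by
          rw [Finset.mul_sum, ← Finset.sum_add_distrib]
          exact Finset.sum_congr rfl fun j _ => by ring
        rw [e2]; ring
  rw [e1]
  have e3 : ∑ j ∈ Finset.range (k + 1), y j ^ 2 = ∑ j ∈ Finset.range k, y (j + 1) ^ 2 + y 0 ^ 2 :=
    Finset.sum_range_succ' _ _
  have e4 : ∑ j ∈ Finset.range (k + 1), |y j| = ∑ j ∈ Finset.range k, |y (j + 1)| + |y 0| :=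
    Finset.sum_range_succ' _ _
  rw [e3, e4]
  -- cross term
  have hc : y 0 * ∑ j ∈ Finset.range k, ((c0.zip cl).map fun c => c.1 * c.2 j).sum * y (j + 1) -
      ρ * |y 0| * ∑ j ∈ Finset.range k, |y (j + 1)| ≤ y 0 * (T * ∑ j ∈ Finset.range k, hl j * y (j + 1)) := by
    have h5 : |y 0 * ∑ j ∈ Finset.range k, ((T : ℝ) * hl j - ((c0.zip cl).map fun c => c.1 * c.2 j).sum) *
        y (j + 1)| ≤ |y 0| * (ρ * ∑ j ∈ Finset.range k, |y (j + 1)|) := by
      rw [abs_mul]
      refine mul_le_mul_of_nonneg_left ?_ (abs_nonneg _)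
      refine (Finset.abs_sum_le_sum_abs _ _).trans ?_
      rw [Finset.mul_sum]
      refine Finset.sum_le_sum fun j hj => ?_
      rw [abs_mul]
      exact mul_le_mul_of_nonneg_right (hxl j (Finset.mem_range.1 hj)) (abs_nonneg _)
    have h6 : y 0 * ∑ j ∈ Finset.range k, ((T : ℝ) * hl j - ((c0.zip cl).map fun c => c.1 * c.2 j).sum) *
        y (j + 1) = y 0 * (T * ∑ j ∈ Finset.range k, hl j * y (j + 1)) -
        y 0 * ∑ j ∈ Finset.range k, ((c0.zip cl).map fun c => c.1 * c.2 j).sum * y (j + 1) := by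
      rw [← mul_sub]
      congr 1
      rw [Finset.mul_sum, ← Finset.sum_sub_distrib]
      exact Finset.sum_congr rfl fun j _ => by ring
    rw [h6] at h5
    have h7 := (abs_le.1 h5).1
    linarith
  have h8 : |y 0| ^ 2 = y 0 ^ 2 := sq_abs _
  have h9 := mul_nonneg (sq_nonneg (y 0)) hx0
  nlinarith

theorem psdR_sound (b o w s o1 b1 T N1 : ℕ) (hb : 0 < b) (ho : o ≤ b) (hbW : b ≤ 2 ^ w) (hb1W : b1 ≤ 2 ^ w)
    (hb1 : 0 < b1) (ho1 : o1 ≤ b1) (hs : s + 1 ≤ w)
    (hW : 4 * (T * b) + (N1 * (b1 * b1) + (N1 + 4) * 2 ^ s) ≤ 2 ^ w) :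
    ∀ (rows cols Cs : List ℕ) (cnt : ℕ), cnt = Cs.length → cnt + rows.length ≤ N1 →
      (∀ C ∈ Cs, C < (2 ^ w) ^ rows.length ∧ ∀ j < rows.length, dig (2 ^ w) C j < b1) →
      psdR ⟨b, o, b1, o1, 2 ^ w, T, 2 ^ s, N1⟩ rows cols Cs cnt (rep 1 (2 ^ w) rows.length)
        (rep (2 ^ w - 2 ^ (s + 1)) (2 ^ w) rows.length) rows.length = true →
      ∀ y : ℕ → ℝ, (Cs.map fun C => (∑ j ∈ Finset.range rows.length, (sd (2 ^ w) o1 C j : ℝ) * y j) ^ 2).sum +
        N1 * ((2 ^ s : ℕ) : ℝ) * ∑ j ∈ Finset.range rows.length, y j ^ 2 -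
        ((2 ^ s : ℕ) : ℝ) * (∑ j ∈ Finset.range rows.length, |y j|) ^ 2 ≤ 2 * T * quadL b o rows y := by
  intro rows
  induction rows with
  | nil =>
    intro cols Cs cnt _ _ _ _ y
    simp [quadL]
  | cons hv rows ih =>
    intro cols Cs cnt hcnt hN hC h y
    cases cols with
    | nil => exact absurd h (by simp [psdR])
    | cons cv cols =>
      have hWpos : 0 < 2 ^ w := by positivity
      set k := rows.length with hk
      have hdef : psdR ⟨b, o, b1, o1, 2 ^ w, T, 2 ^ s, N1⟩ (hv :: rows) (cv :: cols) Cs cnt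
          (rep 1 (2 ^ w) (hv :: rows).length) (rep (2 ^ w - 2 ^ (s + 1)) (2 ^ w) (hv :: rows).length)
          (hv :: rows).length =
        xp b (2 ^ w) (fun H => xp b1 (2 ^ w) (fun C =>
          colL (2 ^ w) (List.cons C Cs) 0 0 0 fun Cs' su sc sp => fN (Nat.succ cnt) fun cnt =>
          dchk (2 ^ s) (rep 1 (2 ^ w) (k + 1)) (rep (2 ^ w - 2 ^ (s + 1)) (2 ^ w) (k + 1))
            (Nat.add (Nat.mul T (Nat.add H (Nat.mod H (2 ^ w))))
              (Nat.add (Nat.mul o1 sc) (Nat.add (Nat.mul (Nat.mul o1 (rep 1 (2 ^ w) (k + 1))) su)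
                (Nat.mul (2 ^ s) (rep 1 (2 ^ w) (k + 1))))))
            (Nat.add (Nat.mul T (Nat.mul o (Nat.succ (rep 1 (2 ^ w) (k + 1)))))
              (Nat.add sp (Nat.add (Nat.mul (Nat.mul cnt (Nat.mul o1 o1)) (rep 1 (2 ^ w) (k + 1)))
                (Nat.mul N1 (2 ^ s)))))
            (fN (Nat.div (rep 1 (2 ^ w) (k + 1)) (2 ^ w)) fun E =>
              fN (Nat.div (rep (2 ^ w - 2 ^ (s + 1)) (2 ^ w) (k + 1)) (2 ^ w)) fun Mk =>
              fN (Nat.pred (k + 1)) fun k =>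
                psdR ⟨b, o, b1, o1, 2 ^ w, T, 2 ^ s, N1⟩ rows cols Cs' cnt E Mk k)) (k + 1) cv 0 1)
          (k + 1) hv 0 1 := rfl
      rw [hdef, xp_eq, xp_eq, colL_eq, fN_eq] at h
      obtain ⟨g1, g2, g3, g4⟩ := dchk_true h
      rw [fN_eq, fN_eq, fN_eq] at g4
      simp only [zero_add, one_mul] at g1 g2 g3 g4
      set C0 : ℕ := ∑ j ∈ Finset.range (k + 1), dig b1 cv j * (2 ^ w) ^ j with hC0
      have hdC0 := dig_sum (2 ^ w) hWpos (k + 1) (fun j => dig b1 cv j) fun j _ =>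
        lt_of_lt_of_le (dig_lt b1 cv j hb1) hb1W
      have hCs' : ∀ C ∈ C0 :: Cs, C < (2 ^ w) ^ (k + 1) ∧ ∀ j < k + 1, dig (2 ^ w) C j < b1 := by
        intro C hCm
        rcases List.mem_cons.1 hCm with h1 | h1
        · rw [h1]
          exact ⟨hdC0.1, fun j hj => by rw [hC0, hdC0.2 j hj]; exact dig_lt b1 cv j hb1⟩
        · exact hC C h1
      have hlenN : (C0 :: Cs).length ≤ N1 := by
        simp only [List.length_cons] at hN ⊢; omega
      have hrow := row_step b o w s o1 b1 T N1 hv (k + 1) (C0 :: Cs) hb ho hbW ho1 hs hlenN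
        (fun C hCm => (hCs' C hCm).1) (fun C hCm => (hCs' C hCm).2) hW _ _ rfl rfl
        (by
          simp only [List.length_cons, ← hcnt]
          exact g1)
        (by
          simp only [List.length_cons, ← hcnt]
          exact g2)
        (by
          simp only [List.length_cons, ← hcnt]
          exact g3)
      -- the recursive call
      have hE : rep 1 (2 ^ w) (k + 1) / 2 ^ w = rep 1 (2 ^ w) k := by
        rw [rep_succ, Nat.add_mul_div_left _ _ hWpos, Nat.div_eq_of_lt, zero_add]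
        calc 1 < 2 * 2 ^ s := by have : 1 ≤ 2 ^ s := Nat.one_le_two_pow
                                 omega
          _ = 2 ^ (s + 1) := by ring
          _ ≤ 2 ^ w := Nat.pow_le_pow_right (by norm_num) hs
      have hMk : rep (2 ^ w - 2 ^ (s + 1)) (2 ^ w) (k + 1) / 2 ^ w = rep (2 ^ w - 2 ^ (s + 1)) (2 ^ w) k := by
        rw [rep_succ, Nat.add_mul_div_left _ _ hWpos, Nat.div_eq_of_lt, zero_add]
        exact Nat.sub_lt hWpos (by positivity)
      have g5 : psdR ⟨b, o, b1, o1, 2 ^ w, T, 2 ^ s, N1⟩ rows cols ((C0 :: Cs).map (· / 2 ^ w)) (cnt + 1)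
          (rep 1 (2 ^ w) k) (rep (2 ^ w - 2 ^ (s + 1)) (2 ^ w) k) k = true := by
        rw [← hE, ← hMk]; exact g4
      have hIH := ih cols ((C0 :: Cs).map (· / 2 ^ w)) (cnt + 1) (by simp [hcnt])
        (by simp only [List.length_cons] at hN; omega)
        (by
          intro C hCm
          obtain ⟨C', hC', rfl⟩ := List.mem_map.1 hCm
          have h1 := hCs' C' hC'
          refine ⟨?_, fun j hj => ?_⟩
          · rw [Nat.div_lt_iff_lt_mul hWpos, ← pow_succ]; exact h1.1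
          · rw [← dig_succ]; exact h1.2 (j + 1) (Nat.succ_lt_succ hj)) g5 fun j => y (j + 1)
      have hr := real_step T (2 ^ s) N1 k y (sd b o hv 0 : ℝ) (fun j => (sd b o hv (j + 1) : ℝ))
        ((C0 :: Cs).map fun C => (sd (2 ^ w) o1 C 0 : ℝ))
        ((C0 :: Cs).map fun C => fun j => (sd (2 ^ w) o1 C (j + 1) : ℝ)) (by simp)
        (quadL b o rows fun j => y (j + 1))
        (by
          have h1 := (hrow 0 (Nat.succ_pos k)).1
          have h2 : ((xx b o (2 ^ w) o1 T (2 ^ s) N1 hv (C0 :: Cs) 0 : ℤ) : ℝ) ≥ 0 := by exact_mod_cast h1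
          unfold xx at h2
          rw [if_pos rfl] at h2
          push_cast at h2
          rw [List.map_map]
          have e1 : (((C0 :: Cs).map fun C => sd (2 ^ w) o1 C 0 * sd (2 ^ w) o1 C 0).sum : ℝ) =
              ((C0 :: Cs).map ((fun c : ℝ => c * c) ∘ fun C => (sd (2 ^ w) o1 C 0 : ℝ))).sum := by
            rw [Int.cast_list_sum, List.map_map]
            congr 1
            refine List.map_congr_left fun C _ => ?_
            simp
          rw [← e1]
          push_cast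
          linarith)
        (by
          intro j hj
          have h1 := hrow (j + 1) (Nat.succ_lt_succ hj)
          have h2 : ((0 : ℤ) : ℝ) ≤ ((xx b o (2 ^ w) o1 T (2 ^ s) N1 hv (C0 :: Cs) (j + 1) : ℤ) : ℝ) := by
            exact_mod_cast h1.1
          have h3 : ((xx b o (2 ^ w) o1 T (2 ^ s) N1 hv (C0 :: Cs) (j + 1) : ℤ) : ℝ) < ((2 * 2 ^ s : ℤ) : ℝ) := by
            exact_mod_cast h1.2
          unfold xx at h2 h3
          rw [if_neg (Nat.succ_ne_zero j)] at h2 h3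
          push_cast at h2 h3
          have e1 : (((C0 :: Cs).map fun C => sd (2 ^ w) o1 C 0 * sd (2 ^ w) o1 C (j + 1)).sum : ℝ) =
              ((((C0 :: Cs).map fun C => (sd (2 ^ w) o1 C 0 : ℝ)).zip
                ((C0 :: Cs).map fun C => fun j => (sd (2 ^ w) o1 C (j + 1) : ℝ))).map
                  fun c => c.1 * c.2 j).sum := by
            rw [Int.cast_list_sum, List.map_map, List.zip_map', List.map_map]
            congr 1
            refine List.map_congr_left fun C _ => ?_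
            simp
          rw [← e1]
          push_cast
          rw [abs_le]
          constructor <;> linarith)
        (by
          rw [List.map_map] at hIH ⊢
          refine le_trans (le_of_eq ?_) hIH
          congr 3
          refine List.map_congr_left fun C _ => ?_
          simp only [Function.comp]
          congr 1
          refine Finset.sum_congr rfl fun j _ => ?_
          unfold sd; rw [dig_succ])
      -- conclusion
      have hgoal1 : (Cs.map fun C => (∑ j ∈ Finset.range (k + 1), (sd (2 ^ w) o1 C j : ℝ) * y j) ^ 2).sum ≤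
          ((((C0 :: Cs).map fun C => (sd (2 ^ w) o1 C 0 : ℝ)).zip
            ((C0 :: Cs).map fun C => fun j => (sd (2 ^ w) o1 C (j + 1) : ℝ))).map
              fun c => (c.1 * y 0 + ∑ j ∈ Finset.range k, c.2 j * y (j + 1)) ^ 2).sum := by
        rw [List.zip_map', List.map_map, List.map_cons, List.sum_cons]
        have e2 : (Cs.map ((fun c : ℝ × (ℕ → ℝ) => (c.1 * y 0 + ∑ j ∈ Finset.range k, c.2 j * y (j + 1)) ^ 2) ∘
            fun C => ((sd (2 ^ w) o1 C 0 : ℝ), fun j => (sd (2 ^ w) o1 C (j + 1) : ℝ)))) =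
            Cs.map fun C => (∑ j ∈ Finset.range (k + 1), (sd (2 ^ w) o1 C j : ℝ) * y j) ^ 2 := by
          refine List.map_congr_left fun C _ => ?_
          simp only [Function.comp]
          rw [Finset.sum_range_succ' (fun j => (sd (2 ^ w) o1 C j : ℝ) * y j), add_comm]
        rw [e2]
        have : 0 ≤ ((fun c : ℝ × (ℕ → ℝ) => (c.1 * y 0 + ∑ j ∈ Finset.range k, c.2 j * y (j + 1)) ^ 2) ∘
            fun C => ((sd (2 ^ w) o1 C 0 : ℝ), fun j => (sd (2 ^ w) o1 C (j + 1) : ℝ))) C0 := by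
          simp only [Function.comp]; positivity
        linarith
      have hq : quadL b o (hv :: rows) y = y 0 * ((sd b o hv 0 : ℝ) * y 0 +
          ∑ j ∈ Finset.range k, (sd b o hv (j + 1) : ℝ) * y (j + 1)) + quadL b o rows fun j => y (j + 1) := by
        change y 0 * lin b o (k + 1) hv y + _ = _
        rw [lin_succ]
        congr 3
        unfold lin
        refine Finset.sum_congr rfl fun j _ => ?_
        unfold sd; rw [dig_succ]
      rw [hq]
      simp only [List.length_cons]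
      push_cast at hr hgoal1 ⊢
      linarith

end PsdM

/-- **Soundness of the PSD check.** -/
theorem psd_sound (b o b1 o1 w T r N1 : ℕ) (rows cols : List ℕ) (hb : 0 < b) (hb1 : 0 < b1) (hT : 0 < T)
    (h : psd b o b1 o1 w T r N1 rows cols = true) (y : ℕ → ℝ) : 0 ≤ quadL b o rows y := by
  unfold psd at h
  rw [fN_eq, fN_eq, fN_eq] at h
  obtain ⟨h1, h⟩ := ifle_true h
  obtain ⟨h2, h⟩ := ifle_true h
  obtain ⟨h3, h⟩ := ifle_true h
  obtain ⟨h4, h⟩ := ifle_true h
  obtain ⟨h5, h⟩ := ifle_true h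
  obtain ⟨h6, h⟩ := ifle_true h
  obtain ⟨h7, h⟩ := ifle_true h
  rw [fN_eq, fN_eq] at h
  have e1 : Nat.mul 2 (Nat.pow 2 r) = 2 ^ (r + 1) := by
    change 2 * 2 ^ r = _; ring
  rw [e1] at h
  have hs := psdR_sound b o w r o1 b1 T N1 hb h5 h3 h4 hb1 h6 h2 h7 rows cols [] 0 rfl
    (by change List.length rows + 1 ≤ N1 at h1; omega) (by intro C hC; simp at hC) h y
  simp only [List.map_nil, List.sum_nil, zero_add] at hs
  have hcs : (∑ j ∈ Finset.range rows.length, |y j|) ^ 2 ≤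
      (rows.length : ℝ) * ∑ j ∈ Finset.range rows.length, y j ^ 2 := by
    have := sq_sum_le_card_mul_sum_sq (s := Finset.range rows.length) (f := fun j => |y j|)
    simpa using this
  have hN : (rows.length : ℝ) ≤ N1 := by
    have : List.length rows + 1 ≤ N1 := h1
    exact_mod_cast (by omega : rows.length ≤ N1)
  have hρ : (0 : ℝ) ≤ ((2 ^ r : ℕ) : ℝ) := by positivity
  have hy : 0 ≤ ∑ j ∈ Finset.range rows.length, y j ^ 2 := Finset.sum_nonneg fun j _ => sq_nonneg _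
  have h8 : ((2 ^ r : ℕ) : ℝ) * (∑ j ∈ Finset.range rows.length, |y j|) ^ 2 ≤
      N1 * ((2 ^ r : ℕ) : ℝ) * ∑ j ∈ Finset.range rows.length, y j ^ 2 := by
    calc ((2 ^ r : ℕ) : ℝ) * (∑ j ∈ Finset.range rows.length, |y j|) ^ 2
        ≤ ((2 ^ r : ℕ) : ℝ) * ((rows.length : ℝ) * ∑ j ∈ Finset.range rows.length, y j ^ 2) :=
          mul_le_mul_of_nonneg_left hcs hρ
      _ ≤ ((2 ^ r : ℕ) : ℝ) * ((N1 : ℝ) * ∑ j ∈ Finset.range rows.length, y j ^ 2) :=
          mul_le_mul_of_nonneg_left (mul_le_mul_of_nonneg_right hN hy) hρ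
      _ = _ := by ring
  have h9 : 0 ≤ 2 * (T : ℝ) * quadL b o rows y := by linarith
  have hT' : (0 : ℝ) < 2 * T := by positivity
  exact nonneg_of_mul_nonneg_right h9 hT'

end Pool.Agent.Lib.MP_084b88_gt.SK
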