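import Mathlib

/-!
# MP_084b88_gt, project SK (checker for sum of squares certificates), part Alg: Kronecker substitution

A polynomial `P ∈ ℤ[x_0, x_1, ..]` with `deg_i P < r_i` and coefficient sum `< B` vanishes if its value at
`x_i = B^(r_0 ⋯ r_{i-1})` vanishes.
-/

set_option autoImplicit false

open MvPolynomial

namespace Pool.Agent.Lib.MP_084b88_gt.SK

/-- Sum of the absolute values of the coefficients. -/
noncomputable def nb (P : MvPolynomial ℕ ℤ) : ℕ := ∑ e ∈ P.support, (P.coeff e).natAbs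

/-- Strides. -/
def st (r : ℕ → ℕ) : ℕ → ℕ
  | 0 => 1
  | i + 1 => st r i * r i

/-- Slot of an exponent vector. -/
def slot (r : ℕ → ℕ) (n : ℕ) (e : ℕ →₀ ℕ) : ℕ := ∑ i ∈ Finset.range n, e i * st r i

/-- Value at the powers of `B`. -/
noncomputable def hat (r : ℕ → ℕ) (B : ℤ) : MvPolynomial ℕ ℤ →+* ℤ := MvPolynomial.eval fun i => B ^ st r i

namespace AlgM

theorem nb_le_sum {ι : Type*} (s : Finset ι) (f : ι → MvPolynomial ℕ ℤ) :
    nb (∑ i ∈ s, f i) ≤ ∑ i ∈ s, nb (f i) := by
  classical
  -- first the sum of two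
  have hsum : ∀ (P : MvPolynomial ℕ ℤ) (t : Finset (ℕ →₀ ℕ)), P.support ⊆ t →
      nb P = ∑ e ∈ t, (P.coeff e).natAbs := by
    intro P t ht
    unfold nb
    apply Finset.sum_subset ht
    intro e _ he
    rw [MvPolynomial.notMem_support_iff.1 he]; rfl
  have hadd : ∀ P Q : MvPolynomial ℕ ℤ, nb (P + Q) ≤ nb P + nb Q := by
    intro P Q
    rw [hsum (P + Q) (P.support ∪ Q.support) MvPolynomial.support_add,
      hsum P (P.support ∪ Q.support) Finset.subset_union_left,
      hsum Q (P.support ∪ Q.support) Finset.subset_union_right, ← Finset.sum_add_distrib]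
    apply Finset.sum_le_sum
    intro e _
    rw [MvPolynomial.coeff_add]
    exact Int.natAbs_add_le _ _
  induction s using Finset.induction_on with
  | empty => simp [nb]
  | insert a s ha ih =>
    rw [Finset.sum_insert ha, Finset.sum_insert ha]
    exact (hadd _ _).trans (Nat.add_le_add_left ih _)

theorem nb_monomial (e : ℕ →₀ ℕ) (c : ℤ) : nb (monomial e c) ≤ c.natAbs := by
  classical
  unfold nb
  have h : (monomial e c : MvPolynomial ℕ ℤ).support ⊆ {e} := MvPolynomial.support_monomial_subset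
  calc ∑ f ∈ (monomial e c : MvPolynomial ℕ ℤ).support, ((monomial e c : MvPolynomial ℕ ℤ).coeff f).natAbs
      ≤ ∑ f ∈ ({e} : Finset (ℕ →₀ ℕ)), ((monomial e c : MvPolynomial ℕ ℤ).coeff f).natAbs :=
        Finset.sum_le_sum_of_subset h
    _ = c.natAbs := by rw [Finset.sum_singleton, MvPolynomial.coeff_monomial, if_pos rfl]

end AlgM

open AlgM

theorem nb_add (P Q : MvPolynomial ℕ ℤ) : nb (P + Q) ≤ nb P + nb Q := by
  have h := nb_le_sum (Finset.range 2) (fun i => if i = 0 then P else Q)
  simpa [Finset.sum_range_succ] using h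

theorem nb_mul (P Q : MvPolynomial ℕ ℤ) : nb (P * Q) ≤ nb P * nb Q := by
  classical
  have h : P * Q = ∑ e ∈ P.support, ∑ f ∈ Q.support, monomial (e + f) (P.coeff e * Q.coeff f) := by
    conv_lhs => rw [P.as_sum, Q.as_sum]
    rw [Finset.sum_mul_sum]
    refine Finset.sum_congr rfl fun e _ => Finset.sum_congr rfl fun f _ => ?_
    rw [MvPolynomial.monomial_mul]
  rw [h]
  refine (nb_le_sum _ _).trans ?_
  have h2 : nb P * nb Q = ∑ e ∈ P.support, ∑ f ∈ Q.support, (P.coeff e).natAbs * (Q.coeff f).natAbs := by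
    unfold nb; rw [Finset.sum_mul_sum]
  rw [h2]
  refine Finset.sum_le_sum fun e _ => (nb_le_sum _ _).trans (Finset.sum_le_sum fun f _ => ?_)
  exact (nb_monomial _ _).trans (le_of_eq (Int.natAbs_mul _ _))

theorem nb_C (c : ℤ) : nb (C c) ≤ c.natAbs := nb_monomial 0 c

theorem nb_neg (P : MvPolynomial ℕ ℤ) : nb (-P) = nb P := by
  unfold nb
  rw [MvPolynomial.support_neg]
  refine Finset.sum_congr rfl fun e _ => ?_
  rw [MvPolynomial.coeff_neg, Int.natAbs_neg]

namespace AlgM

theorem slot_lt (r : ℕ → ℕ) (n : ℕ) (e : ℕ →₀ ℕ) (h : ∀ i < n, e i < r i) : slot r n e < st r n := by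
  induction n with
  | zero => simp [slot, st]
  | succ n ih =>
    have h1 := ih fun i hi => h i (Nat.lt_succ_of_lt hi)
    have h2 := h n (Nat.lt_succ_self n)
    have h3 : slot r (n + 1) e = slot r n e + e n * st r n := Finset.sum_range_succ _ _
    have h4 : st r (n + 1) = st r n * r n := rfl
    rw [h3, h4]
    calc slot r n e + e n * st r n < st r n + e n * st r n := by omega
      _ = st r n * (e n + 1) := by ring
      _ ≤ st r n * r n := Nat.mul_le_mul_left _ h2

theorem slot_inj (r : ℕ → ℕ) (n : ℕ) (e f : ℕ →₀ ℕ) (he : ∀ i < n, e i < r i) (hf : ∀ i < n, f i < r i)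
    (h : slot r n e = slot r n f) : ∀ i < n, e i = f i := by
  induction n with
  | zero => intro i hi; omega
  | succ n ih =>
    have he' : ∀ i < n, e i < r i := fun i hi => he i (Nat.lt_succ_of_lt hi)
    have hf' : ∀ i < n, f i < r i := fun i hi => hf i (Nat.lt_succ_of_lt hi)
    have h1 := slot_lt r n e he'
    have h2 := slot_lt r n f hf'
    have h3 : slot r (n + 1) e = slot r n e + e n * st r n := Finset.sum_range_succ _ _
    have h4 : slot r (n + 1) f = slot r n f + f n * st r n := Finset.sum_range_succ _ _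
    rw [h3, h4] at h
    have h5 : e n = f n := by
      rcases lt_trichotomy (e n) (f n) with hlt | heq | hgt
      · have : (e n + 1) * st r n ≤ f n * st r n := Nat.mul_le_mul_right _ hlt
        nlinarith
      · exact heq
      · have : (f n + 1) * st r n ≤ e n * st r n := Nat.mul_le_mul_right _ hgt
        nlinarith
    rw [h5] at h
    have h6 := ih he' hf' (by omega)
    intro i hi
    rcases Nat.lt_succ_iff_lt_or_eq.1 hi with h7 | h7
    · exact h6 i h7
    · rw [h7]; exact h5

end AlgM

/-- **Kronecker substitution.** -/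
theorem zero_of_hat (r : ℕ → ℕ) (n : ℕ) (B : ℤ) (hr : ∀ i, n ≤ i → r i = 1) (P : MvPolynomial ℕ ℤ)
    (hd : ∀ i, P.degreeOf i < r i) (hn : (nb P : ℤ) < B) (h0 : hat r B P = 0) : P = 0 := by
  classical
  by_contra hP
  have hne : P.support.Nonempty := by
    rw [Finset.nonempty_iff_ne_empty]; intro h; exact hP (MvPolynomial.support_eq_empty.1 h)
  -- exponents are bounded
  have hb : ∀ e ∈ P.support, ∀ i, e i < r i := by
    intro e he i
    exact lt_of_le_of_lt (MvPolynomial.monomial_le_degreeOf i he) (hd i)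
  have hz : ∀ e ∈ P.support, ∀ i, n ≤ i → e i = 0 := by
    intro e he i hi
    have := hb e he i
    rw [hr i hi] at this; omega
  have hval : ∀ e ∈ P.support, (∏ i ∈ e.support, (B ^ st r i) ^ e i) = B ^ slot r n e := by
    intro e he
    have h1 : e.support ⊆ Finset.range n := by
      intro i hi
      rw [Finset.mem_range]
      by_contra h
      exact (Finsupp.mem_support_iff.1 hi) (hz e he i (not_lt.1 h))
    rw [Finset.prod_subset h1 (fun i _ hi => by rw [Finsupp.notMem_support_iff.1 hi, pow_zero])]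
    unfold slot
    rw [← Finset.prod_pow_eq_pow_sum]
    refine Finset.prod_congr rfl fun i _ => ?_
    rw [← pow_mul, mul_comm]
  have hsum : hat r B P = ∑ e ∈ P.support, P.coeff e * B ^ slot r n e := by
    unfold hat
    rw [MvPolynomial.eval_eq]
    refine Finset.sum_congr rfl fun e he => ?_
    rw [hval e he]
  obtain ⟨e0, he0, hmin⟩ := Finset.exists_min_image P.support (slot r n) hne
  have hlt : ∀ e ∈ P.support, e ≠ e0 → slot r n e0 < slot r n e := by
    intro e he hne'
    refine lt_of_le_of_ne (hmin e he) fun h => hne' ?_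
    ext i
    by_cases hi : i < n
    · exact (slot_inj r n e0 e (fun i _ => hb e0 he0 i) (fun i _ => hb e he i) h i hi).symm
    · rw [hz e he i (not_lt.1 hi), hz e0 he0 i (not_lt.1 hi)]
  have hB : 0 < B := lt_of_le_of_lt (Int.natCast_nonneg _) hn
  -- divide by `B ^ slot e0`
  have hdiv : B ∣ P.coeff e0 := by
    have h1 : ∑ e ∈ P.support, P.coeff e * B ^ slot r n e =
        P.coeff e0 * B ^ slot r n e0 + ∑ e ∈ P.support.erase e0, P.coeff e * B ^ slot r n e :=
      (Finset.add_sum_erase _ _ he0).symm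
    have h2 : B ^ (slot r n e0 + 1) ∣ ∑ e ∈ P.support.erase e0, P.coeff e * B ^ slot r n e := by
      refine Finset.dvd_sum fun e he => Dvd.dvd.mul_left (pow_dvd_pow B ?_) _
      exact hlt e (Finset.mem_of_mem_erase he) (Finset.ne_of_mem_erase he)
    have h3 : B ^ (slot r n e0 + 1) ∣ P.coeff e0 * B ^ slot r n e0 := by
      have h4 : P.coeff e0 * B ^ slot r n e0 =
          -∑ e ∈ P.support.erase e0, P.coeff e * B ^ slot r n e := by
        rw [hsum, h1] at h0; linarith
      rw [h4]; exact (dvd_neg).2 h2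
    rw [pow_succ, mul_comm (P.coeff e0)] at h3
    exact (mul_dvd_mul_iff_left (pow_ne_zero _ hB.ne')).1 h3
  have hc : (P.coeff e0).natAbs ≤ nb P :=
    Finset.single_le_sum (f := fun e => (P.coeff e).natAbs) (fun _ _ => Nat.zero_le _) he0
  have hc0 : P.coeff e0 ≠ 0 := MvPolynomial.mem_support_iff.1 he0
  have h5 := Int.le_of_dvd (Int.natCast_pos.2 (Int.natAbs_pos.2 hc0)) ((Int.dvd_natAbs).2 hdiv)
  have h6 : ((P.coeff e0).natAbs : ℤ) ≤ nb P := by exact_mod_cast hc
  linarith

end Pool.Agent.Lib.MP_084b88_gt.SK
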