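import Pool.Agent.Lib.MP_084b88_gt.SK.Psd

/-!
# MP_084b88_gt, project SK: the quadratic forms of the blocks
-/

set_option autoImplicit false

namespace Pool.Agent.Lib.MP_084b88_gt.SK

/-- `∑ v O^k`. -/
def conc (O : ℤ) (l : List (ℕ × ℤ)) : ℤ := (l.map fun x => x.2 * O ^ x.1).sum

/-- `∑_j (digit_j v - o) z_j`. -/
def dotR {R : Type*} [CommRing R] (b o : ℕ) : ℕ → List R → R
  | _, [] => 0
  | v, z :: zs => (((v % b : ℕ) : R) - (o : R)) * z + dotR b o (v / b) zs

/-- `∑_i z_i ∑_{l ≥ i} H_il z_l`. -/
def qR {R : Type*} [CommRing R] (b o : ℕ) : List ℕ → List R → R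
  | _, [] => 0
  | [], _ :: _ => 0
  | v :: vs, z :: zs => z * dotR b o v (z :: zs) + qR b o vs zs

theorem dotR_map {R S : Type*} [CommRing R] [CommRing S] (f : R →+* S) (b o : ℕ) (v : ℕ) (zs : List R) :
    f (dotR b o v zs) = dotR b o v (zs.map f) := by
  induction zs generalizing v with
  | nil => simp [dotR]
  | cons z zs ih => simp [dotR, ih]

theorem qR_map {R S : Type*} [CommRing R] [CommRing S] (f : R →+* S) (b o : ℕ) (vs : List ℕ) (zs : List R) :
    f (qR b o vs zs) = qR b o vs (zs.map f) := by
  induction zs generalizing vs with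
  | nil => cases vs <;> simp [qR]
  | cons z zs ih =>
    cases vs with
    | nil => simp [qR]
    | cons v vs =>
      have h := dotR_map f b o v (z :: zs)
      rw [List.map_cons] at h
      simp [qR, ih, h]

namespace BlkM

theorem dotR_eq (b o : ℕ) (v : ℕ) (ys : List ℝ) :
    dotR b o v ys = lin b o ys.length v fun j => ys.getD j 0 := by
  induction ys generalizing v with
  | nil => simp [dotR, lin]
  | cons y ys ih =>
    rw [List.length_cons, PsdM.lin_succ]
    simp only [dotR, List.getD_cons_zero, List.getD_cons_succ]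
    rw [ih]
    congr 2
    unfold PsdM.sd
    rw [PsdM.dig_zero, Int.cast_sub, Int.cast_natCast, Int.cast_natCast]

theorem qR_eq (b o : ℕ) (vs : List ℕ) (ys : List ℝ) (h : ys.length = vs.length) :
    qR b o vs ys = quadL b o vs fun j => ys.getD j 0 := by
  induction vs generalizing ys with
  | nil =>
    cases ys with
    | nil => simp [qR, quadL]
    | cons y ys => simp at h
  | cons v vs ih =>
    cases ys with
    | nil => simp at h
    | cons y ys =>
      have h' : ys.length = vs.length := by simpa using h
      have h2 := dotR_eq b o v (y :: ys)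
      rw [List.length_cons, h'] at h2
      simp only [qR, quadL]
      rw [h2, ih ys h']
      simp

end BlkM

/-- The rows define a positive semidefinite form. -/
def PsdOK (b o : ℕ) (rows : List ℕ) : Prop := ∀ ys : List ℝ, ys.length = rows.length → 0 ≤ qR b o rows ys

theorem psdOK_of (b o b1 o1 w T r N1 : ℕ) (rows cols : List ℕ) (hb : 0 < b) (hb1 : 0 < b1) (hT : 0 < T)
    (h : psd b o b1 o1 w T r N1 rows cols = true) : PsdOK b o rows := by
  intro ys hy
  rw [BlkM.qR_eq b o rows ys hy]
  exact psd_sound b o b1 o1 w T r N1 rows cols hb hb1 hT h _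

namespace BlkM

theorem mrgI_spec (O : ℤ) (kx : ℕ) (vx A : ℤ) (f : ∀ {α : Type}, List (ℕ × ℤ) → (List (ℕ × ℤ) → α) → α)
    (hf : ∀ m, ∃ r, (∀ {α : Type} (k : List (ℕ × ℤ) → α), f m k = k r) ∧ conc O r = A + conc O m) (m : List (ℕ × ℤ)) :
    ∃ r, (∀ {α : Type} (k : List (ℕ × ℤ) → α), mrgI kx vx f m k = k r) ∧
      conc O r = A + vx * O ^ kx + conc O m := by
  induction m with
  | nil =>
    obtain ⟨r, h1, h2⟩ := hf []
    refine ⟨(kx, vx) :: r, fun k => ?_, ?_⟩
    · have : mrgI kx vx f [] k = f [] fun r => k (List.cons (kx, vx) r) := rfl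
      rw [this, h1]
    · simp only [conc, List.map_cons, List.sum_cons, List.map_nil, List.sum_nil] at h2 ⊢
      rw [h2]; ring
  | cons y m ih =>
    by_cases h : y.1 ≤ kx
    · by_cases h' : kx ≤ y.1
      · obtain ⟨r, h1, h2⟩ := hf m
        refine ⟨(kx, vx + y.2) :: r, fun k => ?_, ?_⟩
        · have : mrgI kx vx f (y :: m) k = ifle y.1 kx
              (ifle kx y.1
                (fI (Int.add vx y.2) fun v => f m fun r => k (List.cons (kx, v) r))
                (mrgI kx vx f m fun r => k (List.cons y r)))
              (f (List.cons y m) fun r => k (List.cons (kx, vx) r)) := rfl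
          rw [this, ifle_eq, if_pos h, ifle_eq, if_pos h', fI_eq, h1]
          rfl
        · have e : kx = y.1 := le_antisymm h' h
          simp only [conc, List.map_cons, List.sum_cons] at h2 ⊢
          rw [h2, e]; ring
      · obtain ⟨r, h1, h2⟩ := ih
        refine ⟨y :: r, fun k => ?_, ?_⟩
        · have : mrgI kx vx f (y :: m) k = ifle y.1 kx
              (ifle kx y.1
                (fI (Int.add vx y.2) fun v => f m fun r => k (List.cons (kx, v) r))
                (mrgI kx vx f m fun r => k (List.cons y r)))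
              (f (List.cons y m) fun r => k (List.cons (kx, vx) r)) := rfl
          rw [this, ifle_eq, if_pos h, ifle_eq, if_neg h', h1]
        · simp only [conc, List.map_cons, List.sum_cons] at h2 ⊢
          rw [h2]; ring
    · obtain ⟨r, h1, h2⟩ := hf (y :: m)
      refine ⟨(kx, vx) :: r, fun k => ?_, ?_⟩
      · have : mrgI kx vx f (y :: m) k = ifle y.1 kx
            (ifle kx y.1
              (fI (Int.add vx y.2) fun v => f m fun r => k (List.cons (kx, v) r))
              (mrgI kx vx f m fun r => k (List.cons y r)))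
            (f (List.cons y m) fun r => k (List.cons (kx, vx) r)) := rfl
        rw [this, ifle_eq, if_neg h, h1]
      · simp only [conc, List.map_cons, List.sum_cons] at h2 ⊢
        rw [h2]; ring

end BlkM

theorem mrgS_spec (O c : ℤ) (dk : ℕ) (l m : List (ℕ × ℤ)) :
    ∃ r, (∀ {α : Type} (k : List (ℕ × ℤ) → α), mrgS c dk l m k = k r) ∧
      conc O r = c * O ^ dk * conc O l + conc O m := by
  induction l generalizing m with
  | nil => exact ⟨m, fun k => rfl, by simp [conc]⟩
  | cons x l ih =>
    obtain ⟨r, h1, h2⟩ := BlkM.mrgI_spec O (dk + x.1) (c * x.2) (c * O ^ dk * conc O l) (fun {α} => mrgS c dk l) ih m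
    refine ⟨r, fun k => ?_, ?_⟩
    · have : mrgS c dk (x :: l) m k =
        fN (Nat.add dk x.1) fun kx => fI (Int.mul c x.2) fun vx => mrgI kx vx (mrgS c dk l) m k := rfl
      rw [this, fN_eq, fI_eq]
      exact h1 k
    · rw [h2]
      simp only [conc, List.map_cons, List.sum_cons]
      rw [pow_add]; ring

namespace BlkM

theorem dotR_append {R : Type*} [CommRing R] (b o : ℕ) (v : ℕ) (l1 l2 : List R) :
    dotR b o v (l1 ++ l2) = dotR b o v l1 + dotR b o (v / b ^ l1.length) l2 := by
  induction l1 generalizing v with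
  | nil => simp [dotR]
  | cons z l1 ih =>
    rw [List.cons_append]
    simp only [dotR]
    rw [ih, List.length_cons, pow_succ, mul_comm (b ^ _) b, ← Nat.div_div_eq_div_mul]
    ring

theorem dotR_smul {R : Type*} [CommRing R] (b o : ℕ) (v : ℕ) (c : R) (l : List R) :
    dotR b o v (l.map (· * c)) = c * dotR b o v l := by
  induction l generalizing v with
  | nil => simp [dotR]
  | cons z l ih =>
    rw [List.map_cons]
    simp only [dotR]
    rw [ih]; ring

/-- Signed digit at the bit position `t`. -/
def hd (b o v t : ℕ) : ℤ := (((v >>> t) % b : ℕ) : ℤ) - o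

/-- A linear functional of the elements. -/
def dotC (O : ℤ) (φ : ℕ → ℤ) (cl : List Cls) : ℤ :=
  (cl.map fun c => O ^ c.k * (c.es.map fun e => φ e.1 * e.2).sum).sum

/-- The element number `s`. -/
def zf (O : ℤ) (cl : List Cls) (s : ℕ) : ℤ := dotC O (fun t => if t = s then 1 else 0) cl

/-- The accumulators. -/
def tT (O : ℤ) (cl : List Cls) : ℤ := (cl.map fun c => O ^ c.k * conc O c.T).sum

theorem rowE_eq {α : Type} (b o v i : ℕ) (k : ℤ → α) (es : List (ℕ × ℤ)) : ∀ acc : ℤ,
    rowE b o v i k es acc = k (acc + (es.map fun e => hd b o v (e.1 - i) * e.2).sum) := by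
  induction es with
  | nil => intro acc; simp [rowE]
  | cons e es ih =>
    intro acc
    have h : rowE b o v i k (e :: es) acc =
      fI (Int.add acc (Int.mul (Int.subNatNat (Nat.mod (Nat.shiftRight v (Nat.sub e.1 i)) b) o) e.2)) fun acc =>
        rowE b o v i k es acc := rfl
    rw [h, fI_eq, ih, Int.subNatNat_eq_coe]
    congr 1
    rw [List.map_cons, List.sum_cons, ← add_assoc]
    rfl

theorem rowS_spec (O : ℤ) (b o v i : ℕ) (cl : List Cls) : ∃ r,
    (∀ {α : Type} (k : List (ℕ × ℤ) → α), rowS b o v i cl k = k r) ∧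
      conc O r = dotC O (fun s => hd b o v (s - i)) cl := by
  induction cl with
  | nil => exact ⟨[], fun k => rfl, by simp [conc, dotC]⟩
  | cons c cl ih =>
    obtain ⟨r, h1, h2⟩ := ih
    refine ⟨(c.k, 0 + (c.es.map fun e => hd b o v (e.1 - i) * e.2).sum) :: r, fun k => ?_, ?_⟩
    · have : rowS b o v i (c :: cl) k =
        rowE b o v i (fun s => rowS b o v i cl fun r => k (List.cons (c.k, s) r)) c.es 0 := rfl
      rw [this, rowE_eq, h1]
    · simp only [conc, dotC, List.map_cons, List.sum_cons, zero_add] at h2 ⊢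
      rw [h2]; ring

theorem updS_spec (O : ℤ) (i : ℕ) (r : List (ℕ × ℤ)) (cl : List Cls) : ∃ (cl' : List Cls) (hs : ℤ),
    (∀ {α : Type} (k : List Cls → α), updS i r cl k = k cl') ∧ tT O cl' = tT O cl + hs * conc O r ∧
      (∀ φ, dotC O φ cl = dotC O φ cl' + φ i * hs) ∧
      (∀ p : ℕ → Prop, p i → (∀ c ∈ cl', ∀ e ∈ c.es, p e.1) → ∀ c ∈ cl, ∀ e ∈ c.es, p e.1) := by
  induction cl with
  | nil => exact ⟨[], 0, fun k => rfl, by simp [tT], fun φ => by simp [dotC], fun p _ h => h⟩
  | cons c cl ih =>
    obtain ⟨cl', hs, h1, h2, h3, h4⟩ := ih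
    obtain ⟨ck, ces, cT⟩ := c
    -- the two possible outcomes
    have same : ∃ (cl' : List Cls) (hs : ℤ),
        (∀ {α : Type} (k : List Cls → α), (updS i r cl fun l => k (List.cons ⟨ck, ces, cT⟩ l)) = k cl') ∧
        tT O cl' = tT O (⟨ck, ces, cT⟩ :: cl) + hs * conc O r ∧
        (∀ φ, dotC O φ (⟨ck, ces, cT⟩ :: cl) = dotC O φ cl' + φ i * hs) ∧
        (∀ p : ℕ → Prop, p i → (∀ c ∈ cl', ∀ e ∈ c.es, p e.1) →
          ∀ c ∈ (⟨ck, ces, cT⟩ :: cl : List Cls), ∀ e ∈ c.es, p e.1) := by
      refine ⟨⟨ck, ces, cT⟩ :: cl', hs, fun k => h1 _, ?_, fun φ => ?_, fun p hp h => ?_⟩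
      · simp only [tT, List.map_cons, List.sum_cons] at h2 ⊢
        rw [h2]; ring
      · have := h3 φ
        simp only [dotC, List.map_cons, List.sum_cons] at this ⊢
        rw [this]; ring
      · intro c hc
        rcases List.mem_cons.1 hc with h5 | h5
        · rw [h5]; exact h _ List.mem_cons_self
        · exact h4 p hp (fun c hc => h c (List.mem_cons_of_mem _ hc)) c h5
    cases ces with
    | nil => exact same
    | cons e es =>
      by_cases he : e.1 = i
      · obtain ⟨T, g1, g2⟩ := mrgS_spec O e.2 0 r cT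
        refine ⟨⟨ck, es, T⟩ :: cl', hs + O ^ ck * e.2, fun k => ?_, ?_, fun φ => ?_, fun p hp h => ?_⟩
        · have : updS i r (⟨ck, e :: es, cT⟩ :: cl) k =
            @Bool.rec (fun _ => _) (updS i r cl fun l => k (List.cons ⟨ck, e :: es, cT⟩ l))
              (mrgS e.2 0 r cT fun T => updS i r cl fun l => k (List.cons ⟨ck, es, T⟩ l)) (Nat.beq e.1 i) := rfl
          rw [this, he, Nat.beq_refl]
          change (mrgS e.2 0 r cT fun T => updS i r cl fun l => k (List.cons ⟨ck, es, T⟩ l)) = _
          rw [g1, h1]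
        · simp only [tT, List.map_cons, List.sum_cons] at h2 ⊢
          rw [h2, g2]; ring
        · have := h3 φ
          simp only [dotC, List.map_cons, List.sum_cons] at this ⊢
          rw [this, he]; ring
        · intro c hc
          rcases List.mem_cons.1 hc with h5 | h5
          · rw [h5]
            intro e' he'
            rcases List.mem_cons.1 he' with h6 | h6
            · rw [h6, he]; exact hp
            · exact h _ List.mem_cons_self e' h6
          · exact h4 p hp (fun c hc => h c (List.mem_cons_of_mem _ hc)) c h5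
      · obtain ⟨cl'', hs', k1, k2, k3, k4⟩ := same
        refine ⟨cl'', hs', fun k => ?_, k2, k3, k4⟩
        have : updS i r (⟨ck, e :: es, cT⟩ :: cl) k =
            @Bool.rec (fun _ => _) (updS i r cl fun l => k (List.cons ⟨ck, e :: es, cT⟩ l))
              (mrgS e.2 0 r cT fun T => updS i r cl fun l => k (List.cons ⟨ck, es, T⟩ l)) (Nat.beq e.1 i) := rfl
        rw [this]
        have hb : Nat.beq e.1 i = false := by
          rw [Bool.eq_false_iff]; intro h; exact he (Nat.eq_of_beq_eq_true h)
        rw [hb]
        exact k1 k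

/-- Expansion of a functional in the elements. -/
theorem dotC_expand (O : ℤ) (φ : ℕ → ℤ) (i c n : ℕ) (hc : 0 < c) (cl : List Cls)
    (h : ∀ d ∈ cl, ∀ e ∈ d.es, ∃ j < n, e.1 = i + c * j) :
    dotC O φ cl = ∑ j ∈ Finset.range n, φ (i + c * j) * zf O cl (i + c * j) := by
  have hes : ∀ es : List (ℕ × ℤ), (∀ e ∈ es, ∃ j < n, e.1 = i + c * j) →
      (es.map fun e => φ e.1 * e.2).sum = ∑ j ∈ Finset.range n, φ (i + c * j) *
        (es.map fun e => (if e.1 = i + c * j then 1 else 0) * e.2).sum := by
    intro es hes
    induction es with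
    | nil => simp
    | cons e es ih =>
      have h1 := ih fun e' he' => hes e' (List.mem_cons_of_mem _ he')
      obtain ⟨j, hj, hje⟩ := hes e List.mem_cons_self
      simp only [List.map_cons, List.sum_cons, mul_add, Finset.sum_add_distrib]
      rw [h1]
      congr 1
      rw [Finset.sum_eq_single_of_mem j (Finset.mem_range.2 hj)]
      · rw [hje]; simp
      · intro j' _ hj'
        rw [if_neg, zero_mul, mul_zero]
        rw [hje]
        intro h2
        have h3 : c * j = c * j' := by omega
        exact hj' (Nat.eq_of_mul_eq_mul_left hc h3).symm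
  induction cl with
  | nil => simp [dotC, zf]
  | cons d cl ih =>
    have h1 := ih fun d' hd' => h d' (List.mem_cons_of_mem _ hd')
    have h2 := hes d.es (h d List.mem_cons_self)
    simp only [dotC, zf, List.map_cons, List.sum_cons] at h1 ⊢
    rw [h1, h2, Finset.mul_sum, ← Finset.sum_add_distrib]
    refine Finset.sum_congr rfl fun j _ => ?_
    ring

theorem dotR_range {R : Type*} [CommRing R] (b o : ℕ) (n : ℕ) : ∀ (v : ℕ) (f : ℕ → R),
    dotR b o v ((List.range n).map f) = ∑ j ∈ Finset.range n, ((PsdM.sd b o v j : ℤ) : R) * f j := by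
  induction n with
  | zero => intro v f; simp [dotR]
  | succ n ih =>
    intro v f
    rw [List.range_succ_eq_map, List.map_cons, List.map_map]
    simp only [dotR]
    rw [ih (v / b) (f ∘ Nat.succ), Finset.sum_range_succ', add_comm]
    congr 1
    · refine Finset.sum_congr rfl fun j _ => ?_
      unfold PsdM.sd
      rw [PsdM.dig_succ]; rfl
    · unfold PsdM.sd
      rw [PsdM.dig_zero, Int.cast_sub, Int.cast_natCast, Int.cast_natCast]

theorem runS_spec (O : ℤ) (b o c : ℕ) (hc : 0 < c) (hb : b = 2 ^ c) (rows : List ℕ) : ∀ (i : ℕ) (cl : List Cls),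
    ∃ cl' : List Cls, (∀ {α : Type} (k : List Cls → α), runS b o c k rows i cl = k cl') ∧
      ((∀ d ∈ cl', d.es = []) → (∀ d ∈ cl, ∀ e ∈ d.es, ∃ j < rows.length, e.1 = i + c * j) ∧
        tT O cl' = tT O cl + qR b o rows ((List.range rows.length).map fun j => zf O cl (i + c * j))) := by
  induction rows with
  | nil =>
    intro i cl
    refine ⟨cl, fun k => rfl, fun h => ⟨fun d hd e he => ?_, by simp [qR]⟩⟩
    rw [h d hd] at he; simp at he
  | cons v rows ih =>
    intro i cl
    obtain ⟨r, h1, h2⟩ := rowS_spec O b o v i cl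
    obtain ⟨cl1, hs, h3, h4, h5, h6⟩ := updS_spec O i r cl
    obtain ⟨cl', h7, h8⟩ := ih (i + c) cl1
    refine ⟨cl', fun k => ?_, fun h => ?_⟩
    · have : runS b o c k (v :: rows) i cl = rowS b o v i cl fun r => updS i r cl fun cl =>
        fN (Nat.add i c) fun i => runS b o c k rows i cl := rfl
      rw [this, h1, h3, fN_eq]
      exact h7 k
    · obtain ⟨h9, h10⟩ := h8 h
      have hmem : ∀ d ∈ cl, ∀ e ∈ d.es, ∃ j < (v :: rows).length, e.1 = i + c * j := by
        refine h6 (fun s => ∃ j < (v :: rows).length, s = i + c * j) ⟨0, by simp, by simp⟩ fun d hd e he => ?_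
        obtain ⟨j, hj, hje⟩ := h9 d hd e he
        exact ⟨j + 1, by simpa using hj, by rw [hje]; ring⟩
      refine ⟨hmem, ?_⟩
      have hz0 : zf O cl1 i = 0 := by
        have h11 : ∀ cl2 : List Cls, (∀ d ∈ cl2, ∀ e ∈ d.es, e.1 ≠ i) → zf O cl2 i = 0 := by
          intro cl2 hcl2
          induction cl2 with
          | nil => simp [zf, dotC]
          | cons d cl2 ih2 =>
            have h12 := ih2 fun d' hd' => hcl2 d' (List.mem_cons_of_mem _ hd')
            simp only [zf, dotC, List.map_cons, List.sum_cons] at h12 ⊢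
            rw [h12, add_zero]
            have : (d.es.map fun e => (if e.1 = i then (1 : ℤ) else 0) * e.2) = d.es.map fun _ => (0 : ℤ) := by
              refine List.map_congr_left fun e he => ?_
              rw [if_neg (hcl2 d List.mem_cons_self e he), zero_mul]
            rw [this]; simp
        refine h11 cl1 fun d hd e he hi => ?_
        obtain ⟨j, _, hje⟩ := h9 d hd e he
        omega
      have hzi : zf O cl i = hs := by
        have := h5 (fun t => if t = i then 1 else 0)
        unfold zf at hz0 ⊢
        rw [this, hz0, if_pos rfl]; ring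
      have hzj : ∀ j, zf O cl (i + c * (j + 1)) = zf O cl1 (i + c + c * j) := by
        intro j
        have := h5 (fun t => if t = i + c * (j + 1) then 1 else 0)
        unfold zf
        have hne : ¬ (i = i + c * (j + 1)) := by
          have : 0 < c * (j + 1) := Nat.mul_pos hc (Nat.succ_pos j)
          omega
        rw [this, if_neg hne, zero_mul, add_zero]
        have e1 : i + c * (j + 1) = i + c + c * j := by ring
        rw [e1]
      have hconc : conc O r = dotR b o v ((List.range (v :: rows).length).map fun j => zf O cl (i + c * j)) := by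
        rw [h2, dotC_expand O _ i c (v :: rows).length hc cl hmem, dotR_range]
        refine Finset.sum_congr rfl fun j _ => ?_
        congr 1
        unfold hd PsdM.sd dig
        rw [Nat.add_sub_cancel_left, Nat.shiftRight_eq_div_pow, pow_mul, ← hb]
        simp
      rw [h10, h4]
      rw [List.length_cons, List.range_succ_eq_map, List.map_cons, List.map_map]
      rw [List.length_cons, List.range_succ_eq_map, List.map_cons, List.map_map] at hconc
      simp only [qR]
      rw [← hconc, mul_zero, add_zero, hzi]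
      have e2 : (List.range rows.length).map ((fun j => zf O cl (i + c * j)) ∘ Nat.succ) =
          (List.range rows.length).map fun j => zf O cl1 (i + c + c * j) := by
        refine List.map_congr_left fun j _ => ?_
        exact hzj j
      rw [e2]
      ring

theorem finS_spec (O : ℤ) (cl : List Cls) : ∀ acc : List (ℕ × ℤ),
    (∀ {α : Type} (bad : α) (k : List (ℕ × ℤ) → α), finS bad k cl acc = bad) ∨
      ((∀ d ∈ cl, d.es = []) ∧ ∃ r, (∀ {α : Type} (bad : α) (k : List (ℕ × ℤ) → α), finS bad k cl acc = k r) ∧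
        conc O r = conc O acc + tT O cl) := by
  induction cl with
  | nil => intro acc; exact Or.inr ⟨by simp, acc, fun _ k => rfl, by simp [tT]⟩
  | cons d cl ih =>
    intro acc
    obtain ⟨dk, des, dT⟩ := d
    cases des with
    | cons e es => exact Or.inl fun bad k => rfl
    | nil =>
      obtain ⟨r1, h1, h2⟩ := mrgS_spec O 1 dk dT acc
      have hdef : ∀ {α : Type} (bad : α) (k : List (ℕ × ℤ) → α), finS bad k (⟨dk, [], dT⟩ :: cl) acc =
          mrgS 1 dk dT acc fun acc => finS bad k cl acc := fun bad k => rfl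
      rcases ih r1 with h3 | ⟨h3, r2, h4, h5⟩
      · left
        intro α bad k
        rw [hdef, h1]
        exact h3 bad k
      · right
        refine ⟨?_, r2, fun bad k => ?_, ?_⟩
        · intro d hd
          rcases List.mem_cons.1 hd with h6 | h6
          · rw [h6]
          · exact h3 d h6
        · rw [hdef, h1]; exact h4 bad k
        · rw [h5, h2]
          simp only [tT, List.map_cons, List.sum_cons]
          ring

end BlkM

open BlkM

/-- **The kernel function `blk`.** -/
theorem blk_spec (O : ℤ) (b o c : ℕ) (hc : 0 < c) (hb : b = 2 ^ c) (cl : List Cls) (rows : List ℕ)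
    (hT : ∀ d ∈ cl, d.T = []) (acc : List (ℕ × ℤ)) :
    (∀ {α : Type} (bad : α) (k : List (ℕ × ℤ) → α), blk b o c bad k cl rows acc = bad) ∨
      (∃ r, (∀ {α : Type} (bad : α) (k : List (ℕ × ℤ) → α), blk b o c bad k cl rows acc = k r) ∧
        conc O r = conc O acc + qR b o rows ((List.range rows.length).map fun j => zf O cl (c * j))) := by
  obtain ⟨cl', h1, h2⟩ := runS_spec O b o c hc hb rows 0 cl
  have hdef : ∀ {α : Type} (bad : α) (k : List (ℕ × ℤ) → α), blk b o c bad k cl rows acc = finS bad k cl' acc := by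
    intro α bad k
    have : blk b o c bad k cl rows acc = runS b o c (fun cl => finS bad k cl acc) rows 0 cl := rfl
    rw [this]
    exact h1 _
  have hT0 : tT O cl = 0 := by
    clear h2 hdef h1
    induction cl with
    | nil => simp [tT]
    | cons d cl ih =>
      have h3 := ih fun d' hd' => hT d' (List.mem_cons_of_mem _ hd')
      simp only [tT, List.map_cons, List.sum_cons] at h3 ⊢
      rw [h3, hT d List.mem_cons_self]
      simp [conc]
  rcases finS_spec O cl' acc with h3 | ⟨h3, r, h4, h5⟩
  · left; intro α bad k; rw [hdef]; exact h3 bad k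
  · right
    refine ⟨r, fun bad k => by rw [hdef]; exact h4 bad k, ?_⟩
    obtain ⟨_, h6⟩ := h2 h3
    rw [h5, h6, hT0]
    simp only [zero_add]

end Pool.Agent.Lib.MP_084b88_gt.SK
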