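import Pool.Agent.Lib.MP_084b88_gt.SK.SpecW

/-!
# MP_084b88_gt, project SK: the matrix coupling

`|y|² Q(A) + (x·y) P(A, B) + |x|² Q(B) - 1/2 Q(b A + B) ≥ 0` for a positive semidefinite form `Q` with the polar form `P`, because
`(|y|² - b²/2) (|x|² - 1/2) - (x·y - b/2)² = det² - |y - b x|² / 2 ≥ 0`.
-/

set_option autoImplicit false

open MeasureTheory Set Real Filter Topology
open scoped Pointwise InnerProductSpace

namespace Pool.Agent.Lib.MP_084b88_gt.SK

open Pool.Agent.Lib.MP_084b88_gt.CW Pool.Agent.Lib.MP_084b88_gt.SY Pool.Agent.Lib.MP_084b88_gt.AY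

/-- The elements `y A + x B`. -/
def cmb {R : Type*} [CommRing R] (y x : R) (A B : List R) : List R := List.zipWith (fun s t => y * s + x * t) A B

/-- The bilinear form of the rows. -/
def bR {R : Type*} [CommRing R] (b o : ℕ) : List ℕ → List R → List R → R
  | v :: vs, z :: zs, w :: ws => z * dotR b o v (w :: ws) + bR b o vs zs ws
  | _, _, _ => 0

namespace CplM

variable {R : Type*} [CommRing R]

theorem dotR_cmb (b o : ℕ) (y x : R) (A : List R) : ∀ (B : List R) (v : ℕ), A.length = B.length →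
    dotR b o v (cmb y x A B) = y * dotR b o v A + x * dotR b o v B := by
  induction A with
  | nil =>
    intro B v h
    have hB : B = [] := List.eq_nil_of_length_eq_zero h.symm
    subst hB
    simp [cmb, dotR]
  | cons s A ih =>
    intro B v h
    cases B with
    | nil => simp at h
    | cons t B =>
      have h' : A.length = B.length := by simpa using h
      have e1 : cmb y x (s :: A) (t :: B) = (y * s + x * t) :: cmb y x A B := rfl
      rw [e1]
      simp only [dotR]
      rw [ih B _ h']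
      ring

theorem qR_cmb (b o : ℕ) (y x : R) (vs : List ℕ) : ∀ (A B : List R), A.length = B.length →
    qR b o vs (cmb y x A B) = y ^ 2 * qR b o vs A + y * x * (bR b o vs A B + bR b o vs B A) + x ^ 2 * qR b o vs B := by
  induction vs with
  | nil =>
    intro A B h
    have e : ∀ l : List R, qR b o [] l = 0 := fun l => by cases l <;> rfl
    have e2 : ∀ l l' : List R, bR b o [] l l' = 0 := fun l l' => by simp [bR]
    rw [e, e, e, e2, e2]; ring
  | cons v vs ih =>
    intro A B h
    cases A with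
    | nil =>
      have hB : B = [] := List.eq_nil_of_length_eq_zero h.symm
      subst hB
      simp [cmb, qR, bR]
    | cons s A =>
      cases B with
      | nil => simp at h
      | cons t B =>
        have h' : A.length = B.length := by simpa using h
        have e1 : cmb y x (s :: A) (t :: B) = (y * s + x * t) :: cmb y x A B := rfl
        have e2 := dotR_cmb b o y x (s :: A) (t :: B) v h
        rw [e1] at e2
        have e3 : qR b o (v :: vs) (cmb y x (s :: A) (t :: B)) =
            (y * s + x * t) * dotR b o v ((y * s + x * t) :: cmb y x A B) + qR b o vs (cmb y x A B) := rfl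
        rw [e3, e2, ih A B h']
        simp only [qR, bR]
        ring

theorem cmb_length (y x : R) (A B : List R) (h : A.length = B.length) : (cmb y x A B).length = A.length := by
  simp [cmb, h]

/-- **The form of a positive semidefinite 2x2 matrix.** -/
theorem form_nonneg {b o : ℕ} {rows : List ℕ} (hps : PsdOK b o rows) (A B : List ℝ) (hA : A.length = rows.length)
    (hB : B.length = rows.length) (k11 k12 k22 : ℝ) (h1 : 0 ≤ k11) (h2 : 0 ≤ k22) (h : k12 ^ 2 ≤ k11 * k22) :
    0 ≤ k11 * qR b o rows A + k12 * (bR b o rows A B + bR b o rows B A) + k22 * qR b o rows B := by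
  have hAB : A.length = B.length := hA.trans hB.symm
  have qA := hps A hA
  have qB := hps B hB
  rcases h2.eq_or_lt with h3 | h3
  · have h4 : k12 = 0 := by
      rw [← h3, mul_zero] at h
      exact pow_eq_zero_iff (two_ne_zero) |>.1 (le_antisymm h (sq_nonneg _))
    rw [h4, ← h3]
    have := mul_nonneg h1 qA
    linarith
  · have q1 := hps (cmb k12 k22 A B) (by rw [cmb_length _ _ _ _ hAB, hA])
    rw [qR_cmb b o k12 k22 rows A B hAB] at q1
    have q2 : 0 ≤ (k11 * k22 - k12 ^ 2) * qR b o rows A := mul_nonneg (by linarith) qA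
    have q3 : k22 * (k11 * qR b o rows A + k12 * (bR b o rows A B + bR b o rows B A) + k22 * qR b o rows B) =
        (k12 ^ 2 * qR b o rows A + k12 * k22 * (bR b o rows A B + bR b o rows B A) + k22 ^ 2 * qR b o rows B) +
          (k11 * k22 - k12 ^ 2) * qR b o rows A := by ring
    have q4 : 0 ≤ k22 * (k11 * qR b o rows A + k12 * (bR b o rows A B + bR b o rows B A) + k22 * qR b o rows B) := by
      rw [q3]; exact add_nonneg q1 q2
    exact nonneg_of_mul_nonneg_right q4 h3

/-- **Coupling**, general form: `z_k = y_k A + x_k B`, `w = r A + t B`. -/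
theorem cpl_gen {b o : ℕ} {rows : List ℕ} (hps : PsdOK b o rows) (A B : List ℝ) (hA : A.length = rows.length)
    (hB : B.length = rows.length) (y1 y2 x1 x2 r t : ℝ) (h1 : r ^ 2 / 2 ≤ y1 ^ 2 + y2 ^ 2) (h2 : t ^ 2 / 2 ≤ x1 ^ 2 + x2 ^ 2)
    (h : (t * y1 - r * x1) ^ 2 + (t * y2 - r * x2) ^ 2 ≤ 2 * (x1 * y2 - x2 * y1) ^ 2) :
    0 ≤ 2 * (qR b o rows (cmb y1 x1 A B) + qR b o rows (cmb y2 x2 A B)) - qR b o rows (cmb r t A B) := by
  have hAB : A.length = B.length := hA.trans hB.symm
  have q := form_nonneg hps A B hA hB (y1 ^ 2 + y2 ^ 2 - r ^ 2 / 2) (x1 * y1 + x2 * y2 - r * t / 2)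
    (x1 ^ 2 + x2 ^ 2 - t ^ 2 / 2) (by linarith) (by linarith) (by nlinarith)
  rw [qR_cmb b o _ _ rows A B hAB, qR_cmb b o _ _ rows A B hAB, qR_cmb b o _ _ rows A B hAB]
  linarith

theorem dom_a {d : Dt} (h : Dom (1 / 3) (1 / 2) 1 d) : d.a ^ 2 ≤ 1 := by
  have h1 := h.ae
  have h2 := abs_nonneg d.a
  have h3 := abs_nonneg d.e
  nlinarith [sq_abs d.a]

theorem dom_b {d : Dt} (h : Dom (1 / 3) (1 / 2) 1 d) : d.b ^ 2 ≤ 1 := by
  have h1 := h.bf
  have h2 := abs_nonneg d.b
  have h3 := abs_nonneg d.f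
  nlinarith [sq_abs d.b]

/-- **Coupling with `w = b A + B`.** -/
theorem cpl_b {b o : ℕ} {rows : List ℕ} (hps : PsdOK b o rows) (A B : List ℝ) (hA : A.length = rows.length)
    (hB : B.length = rows.length) (d : Dt) (h : Dom (1 / 3) (1 / 2) 1 d) :
    0 ≤ 2 * (qR b o rows (cmb d.y1 d.x1 A B) + qR b o rows (cmb d.y2 d.x2 A B)) - qR b o rows (cmb d.b 1 A B) := by
  refine cpl_gen hps A B hA hB d.y1 d.y2 d.x1 d.x2 d.b 1 ?_ ?_ ?_
  · have := dom_b h
    have := h.y1
    linarith
  · have := h.x1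
    linarith
  · have := h.b1
    simp only [one_mul]
    linarith

/-- **Coupling with `w = A + a B`.** -/
theorem cpl_a {b o : ℕ} {rows : List ℕ} (hps : PsdOK b o rows) (A B : List ℝ) (hA : A.length = rows.length)
    (hB : B.length = rows.length) (d : Dt) (h : Dom (1 / 3) (1 / 2) 1 d) :
    0 ≤ 2 * (qR b o rows (cmb d.y1 d.x1 A B) + qR b o rows (cmb d.y2 d.x2 A B)) - qR b o rows (cmb 1 d.a A B) := by
  refine cpl_gen hps A B hA hB d.y1 d.y2 d.x1 d.x2 1 d.a ?_ ?_ ?_
  · have := h.y1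
    linarith
  · have := dom_a h
    have := h.x1
    linarith
  · have h1 := h.a1
    have e : (d.a * d.y1 - 1 * d.x1) ^ 2 + (d.a * d.y2 - 1 * d.x2) ^ 2 =
        (d.x1 - d.a * d.y1) ^ 2 + (d.x2 - d.a * d.y2) ^ 2 := by ring
    rw [show (1 : ℝ) * d.x1 = d.x1 from one_mul _, show (1 : ℝ) * d.x2 = d.x2 from one_mul _] at e
    simp only [one_mul] at e ⊢
    rw [e]
    linarith

end CplM

/-! ## The data of a coupling block -/

/-- The variable `j`, or `1` if there is none. -/
noncomputable def vr (rs : List ℕ) (j : ℕ) : MvPolynomial ℕ ℤ := if j < rs.length then MvPolynomial.X j else 1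

/-- The shift by the variable `j`. -/
def sa (rs : List ℕ) (j : ℕ) : ℕ := if j < rs.length then st (rF rs) j else 0

/-- Terms of elements: number of the monomial, number of the element, coefficient. -/
def trm (S : ℕ) (cs : List (ℕ × List (ℕ × List (ℕ × ℤ)))) : List (ℕ × ℕ × ℤ) :=
  cs.flatMap fun c => c.2.flatMap fun e => e.2.map fun t => (c.1 * S + t.1, e.1, t.2)

/-- Equality of terms. -/
def teq (a b : ℕ × ℕ × ℤ) : Bool := Nat.beq a.1 b.1 && Nat.beq a.2.1 b.2.1 && decide (a.2.2 = b.2.2)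

/-- The first list is a shuffle of the second and third. -/
def shf : List (ℕ × ℕ × ℤ) → List (ℕ × ℕ × ℤ) → List (ℕ × ℕ × ℤ) → Bool
  | [], l1, l2 => l1.isEmpty && l2.isEmpty
  | _ :: _, [], [] => false
  | t :: l, [], t2 :: l2 => teq t t2 && shf l [] l2
  | t :: l, t1 :: l1, [] => teq t t1 && shf l l1 []
  | t :: l, t1 :: l1, t2 :: l2 =>
    match teq t t1 with
    | true => shf l l1 (t2 :: l2)
    | false => teq t t2 && shf l (t1 :: l1) l2

/-- The digit `j` of all monomials can be increased. -/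
def cD (rs : List ℕ) (j : ℕ) (l : List (ℕ × ℕ × ℤ)) : Bool :=
  if j < rs.length then l.all fun t => decide ((t.1 / st (rF rs) j) % rF rs j + 1 < rF rs j) else true

/-- The elements `z` are `v_i A + v_k B`. -/
def cC (rs : List ℕ) (S i k : ℕ) (A B z : List (ℕ × List (ℕ × List (ℕ × ℤ)))) : Bool :=
  cD rs i (trm S A) && cD rs k (trm S B) &&
    shf (trm S z) ((trm S A).map fun t => (t.1 + sa rs i, t.2)) ((trm S B).map fun t => (t.1 + sa rs k, t.2))

namespace CplM

open MvPolynomial

theorem st_dvd (r : ℕ → ℕ) : ∀ (m i : ℕ), i ≤ m → st r i ∣ st r m := by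
  intro m
  induction m with
  | zero => intro i hi; rw [Nat.le_zero.1 hi]
  | succ m ih =>
    intro i hi
    rcases Nat.of_le_succ hi with h | h
    · exact Dvd.dvd.mul_right (ih i h) _
    · rw [h]

/-- Digits after the addition of one unit at the place `j`. -/
theorem digit_add (r : ℕ → ℕ) (hr : ∀ i, 0 < r i) (j φ : ℕ) (h : (φ / st r j) % r j + 1 < r j) (i : ℕ) :
    ((φ + st r j) / st r i) % r i = if i = j then (φ / st r i) % r i + 1 else (φ / st r i) % r i := by
  have hst : ∀ i, 0 < st r i := by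
    intro i
    induction i with
    | zero => exact Nat.one_pos
    | succ i ih => exact Nat.mul_pos ih (hr i)
  have hsj := hst j
  rcases lt_trichotomy i j with hij | hij | hij
  · rw [if_neg hij.ne]
    have h1 : st r (i + 1) ∣ st r j := st_dvd r j (i + 1) hij
    obtain ⟨c, hc⟩ := h1
    have e1 : st r (i + 1) = st r i * r i := rfl
    have e2 : φ + st r j = φ + st r i * (r i * c) := by rw [hc, e1, mul_assoc]
    rw [e2, Nat.add_mul_div_left _ _ (hst i), Nat.add_mul_mod_self_left]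
  · subst hij
    rw [if_pos rfl, Nat.add_div_right _ (hst i)]
    change ((φ / st r i) + 1) % r i = _
    rw [Nat.add_mod, Nat.mod_eq_of_lt (show 1 < r i by omega), Nat.mod_eq_of_lt h]
  · rw [if_neg hij.ne']
    obtain ⟨c, hc⟩ := st_dvd r i (j + 1) hij
    have e1 : st r (j + 1) = st r j * r j := rfl
    have e2 : (φ + st r j) / st r (j + 1) = φ / st r (j + 1) := by
      rw [e1, ← Nat.div_div_eq_div_mul, ← Nat.div_div_eq_div_mul, Nat.add_div_right _ (hst j)]
      rw [Nat.succ_div, if_neg, add_zero]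
      intro hd
      have h3 := Nat.mod_eq_zero_of_dvd hd
      rw [Nat.add_mod, Nat.mod_eq_of_lt (show 1 < r j by omega), Nat.mod_eq_of_lt h] at h3
      omega
    rw [hc, ← Nat.div_div_eq_div_mul, ← Nat.div_div_eq_div_mul, e2]

theorem mon_shift (rs : List ℕ) (hr : ∀ i, 0 < rF rs i) (j φ : ℕ) (hj : j < rs.length)
    (h : (φ / st (rF rs) j) % rF rs j + 1 < rF rs j) : mon rs (φ + st (rF rs) j) = X j * mon rs φ := by
  unfold mon
  have h1 : ∀ i ∈ Finset.range rs.length, (X i : MvPolynomial ℕ ℤ) ^ (((φ + st (rF rs) j) / st (rF rs) i) % rF rs i) =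
      (if i = j then X j else 1) * X i ^ ((φ / st (rF rs) i) % rF rs i) := by
    intro i _
    rw [digit_add (rF rs) hr j φ h i]
    by_cases hij : i = j
    · subst hij
      rw [if_pos rfl, if_pos rfl, pow_succ, mul_comm]
    · rw [if_neg hij, if_neg hij, one_mul]
  rw [Finset.prod_congr rfl h1, Finset.prod_mul_distrib, Finset.prod_ite_eq' , if_pos (Finset.mem_range.2 hj)]

theorem teq_spec {a b : ℕ × ℕ × ℤ} (h : teq a b = true) : a = b := by
  unfold teq at h
  rw [Bool.and_eq_true, Bool.and_eq_true] at h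
  obtain ⟨⟨h1, h2⟩, h3⟩ := h
  have h1' := Nat.eq_of_beq_eq_true h1
  have h2' := Nat.eq_of_beq_eq_true h2
  have h3' := of_decide_eq_true h3
  exact Prod.ext h1' (Prod.ext h2' h3')

theorem shf_sum {M : Type*} [AddCommMonoid M] (f : ℕ × ℕ × ℤ → M) (l : List (ℕ × ℕ × ℤ)) :
    ∀ l1 l2 : List (ℕ × ℕ × ℤ), shf l l1 l2 = true → (l.map f).sum = (l1.map f).sum + (l2.map f).sum := by
  induction l with
  | nil =>
    intro l1 l2 h
    cases l1 with
    | nil =>
      cases l2 with
      | nil => simp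
      | cons t l2 => simp [shf] at h
    | cons t l1 => simp [shf] at h
  | cons t l ih =>
    intro l1 l2 h
    cases l1 with
    | nil =>
      cases l2 with
      | nil => simp [shf] at h
      | cons t2 l2 =>
        have h' : (teq t t2 && shf l [] l2) = true := h
        rw [Bool.and_eq_true] at h'
        have e := teq_spec h'.1
        subst e
        rw [List.map_cons, List.sum_cons, List.map_cons, List.sum_cons, ih [] l2 h'.2]
        simp
    | cons t1 l1 =>
      cases l2 with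
      | nil =>
        have h' : (teq t t1 && shf l l1 []) = true := h
        rw [Bool.and_eq_true] at h'
        have e := teq_spec h'.1
        subst e
        rw [List.map_cons, List.sum_cons, List.map_cons, List.sum_cons, ih l1 [] h'.2, add_assoc]
      | cons t2 l2 =>
        cases hb : teq t t1 with
        | true =>
          have h' : shf l l1 (t2 :: l2) = true := by
            have := h
            simp only [shf, hb] at this
            exact this
          have e := teq_spec hb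
          subst e
          rw [List.map_cons, List.sum_cons, List.map_cons (l := l1), List.sum_cons, ih l1 (t2 :: l2) h', add_assoc]
        | false =>
          have h' : (teq t t2 && shf l (t1 :: l1) l2) = true := by
            have := h
            simp only [shf, hb] at this
            exact this
          rw [Bool.and_eq_true] at h'
          have e := teq_spec h'.1
          subst e
          rw [List.map_cons, List.sum_cons, List.map_cons (l := l2), List.sum_cons, ih (t1 :: l1) l2 h'.2]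
          rw [← add_assoc, ← add_assoc, add_comm (f t)]

/-- Contribution of a term to the element `s`. -/
noncomputable def tf (rs : List ℕ) (s : ℕ) (t : ℕ × ℕ × ℤ) : MvPolynomial ℕ ℤ :=
  if t.2.1 = s then C t.2.2 * mon rs t.1 else 0

theorem zP_trm (p : Pm) (cs : List (ℕ × List (ℕ × List (ℕ × ℤ)))) (s : ℕ) :
    p.zP cs s = ((trm p.S cs).map (tf p.rs s)).sum := by
  unfold Pm.zP trm
  induction cs with
  | nil => simp
  | cons c cs ih =>
    rw [List.map_cons, List.sum_cons, List.flatMap_cons, List.map_append, List.sum_append, ih]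
    congr 1
    generalize c.2 = es
    induction es with
    | nil => simp
    | cons e es ih2 =>
      rw [List.map_cons, List.sum_cons, List.flatMap_cons, List.map_append, List.sum_append, ih2]
      congr 1
      rw [List.map_map]
      unfold Pm.pol pol
      by_cases h : e.1 = s
      · rw [if_pos h]
        congr 1
        refine List.map_congr_left fun t _ => ?_
        simp [tf, h]
      · rw [if_neg h]
        have : ∀ l : List (ℕ × ℤ), (l.map (tf p.rs s ∘ fun t => (c.1 * p.S + t.1, e.1, t.2))).sum = 0 := by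
          intro l
          induction l with
          | nil => rfl
          | cons t l ih3 => rw [List.map_cons, List.sum_cons, ih3]; simp [tf, h]
        exact (this _).symm

theorem shift_sum (rs : List ℕ) (hr : ∀ i, 0 < rF rs i) (s j : ℕ) (l : List (ℕ × ℕ × ℤ)) (h : cD rs j l = true) :
    ((l.map fun t => (t.1 + sa rs j, t.2)).map (tf rs s)).sum = vr rs j * (l.map (tf rs s)).sum := by
  unfold cD at h
  unfold sa vr
  by_cases hj : j < rs.length
  · rw [if_pos hj] at h
    rw [if_pos hj, if_pos hj, List.map_map, ← List.sum_map_mul_left]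
    congr 1
    refine List.map_congr_left fun t ht => ?_
    have h1 := of_decide_eq_true (List.all_eq_true.1 h t ht)
    simp only [Function.comp_apply, tf]
    split_ifs
    · rw [mon_shift rs hr j t.1 hj h1]; ring
    · rw [mul_zero]
  · rw [if_neg hj, if_neg hj, one_mul]
    simp

theorem cC_spec (p : Pm) (hr : ∀ i, 0 < rF p.rs i) (i k : ℕ) (A B z : List (ℕ × List (ℕ × List (ℕ × ℤ))))
    (h : cC p.rs p.S i k A B z = true) (s : ℕ) : p.zP z s = vr p.rs i * p.zP A s + vr p.rs k * p.zP B s := by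
  unfold cC at h
  rw [Bool.and_eq_true, Bool.and_eq_true] at h
  obtain ⟨⟨h1, h2⟩, h3⟩ := h
  rw [zP_trm, zP_trm, zP_trm, shf_sum _ _ _ _ h3, shift_sum _ hr _ _ _ h1, shift_sum _ hr _ _ _ h2]

/-- Real values of the elements. -/
noncomputable def zv (p : Pm) (ρ : ℕ → ℝ) (n : ℕ) (cs : List (ℕ × List (ℕ × List (ℕ × ℤ)))) : List ℝ :=
  (List.range n).map fun j => ev ρ (p.zP cs (p.c * j))

theorem ev_vr (rs : List ℕ) (ρ : ℕ → ℝ) (j : ℕ) : ev ρ (vr rs j) = if j < rs.length then ρ j else 1 := by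
  unfold vr
  split_ifs
  · simp [ev]
  · simp

theorem zv_cmb (p : Pm) (hr : ∀ i, 0 < rF p.rs i) (i k : ℕ) (A B z : List (ℕ × List (ℕ × List (ℕ × ℤ))))
    (h : cC p.rs p.S i k A B z = true) (ρ : ℕ → ℝ) (n : ℕ) :
    zv p ρ n z = cmb (ev ρ (vr p.rs i)) (ev ρ (vr p.rs k)) (zv p ρ n A) (zv p ρ n B) := by
  unfold zv cmb
  rw [List.zipWith_map, List.zipWith_self]
  refine List.map_congr_left fun j _ => ?_
  rw [cC_spec p hr i k A B z h, map_add, map_mul, map_mul]

theorem insP_ev (p : Pm) (ρ : ℕ → ℝ) (x : Ins) : ev ρ (p.insP x) = qR p.b p.o x.rows (zv p ρ x.rows.length x.cs) := by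
  unfold Pm.insP zv
  rw [qR_map, List.map_map]
  rfl

end CplM

/-! ## Atoms -/

/-- The nonnegative atoms: `0, .., 11` as in `atoms`, then `1 - (a+e)², 1 - (a-e)², 1 - (b+f)², 1 - (b-f)²`. -/
def atoms2 : List Ex := atoms ++
  [subE (Ex.c 1) (Ex.pow (Ex.add (Ex.v 0) (Ex.v 2)) 2), subE (Ex.c 1) (Ex.pow (subE (Ex.v 0) (Ex.v 2)) 2),
    subE (Ex.c 1) (Ex.pow (Ex.add (Ex.v 1) (Ex.v 3)) 2), subE (Ex.c 1) (Ex.pow (subE (Ex.v 1) (Ex.v 3)) 2)]

/-- A product of atoms. -/
noncomputable def muE2 (l : List ℕ) : Ex :=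
  @List.rec ℕ (fun _ => Ex) (Ex.c 1) (fun i _ ih => Ex.mul (nth (Ex.c 1) atoms2 i) ih) l

/-- All multipliers are products of atoms. -/
noncomputable def mckB (p : Pm) (ra rb ro : ℕ) (l : List (List ℕ × MB)) : Bool :=
  mkE p.rs p.S p.B vl0 fun env => @List.rec (List ℕ × MB) (fun _ => Bool) true
    (fun x _ ih => @Bool.rec (fun _ => Bool) false ih (mCk p.B env p.di p.dO wA wB wO ra rb ro x.2.m (muE2 x.1))) l

/-! ## Coupling items -/

/-- A coupling block: `A`, `B`, `z1 = y1 A + x1 B`, `z2 = y2 A + x2 B`, `w = b A + B` or `w = A + a B`, rows. -/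
structure CB where
  A : List (ℕ × List (ℕ × List (ℕ × ℤ)))
  B : List (ℕ × List (ℕ × List (ℕ × ℤ)))
  z1 : List (ℕ × List (ℕ × List (ℕ × ℤ)))
  z2 : List (ℕ × List (ℕ × List (ℕ × ℤ)))
  w : List (ℕ × List (ℕ × List (ℕ × ℤ)))
  rows : List ℕ

/-- A coupling item: atoms of the multiplier `μ`, kind (`true`: `w = b A + B`), data of `2 μ` and `-μ`, blocks. -/
structure CI where
  ids : List ℕ
  kd : Bool
  m2 : List (ℕ × List (ℕ × ℤ))
  mn : List (ℕ × List (ℕ × ℤ))
  bl : List CB

/-- The items as ordinary multipliers with blocks. -/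
def CI.mbs (x : CI) : List MB :=
  [⟨x.m2, x.bl.flatMap fun y => [⟨y.z1, y.rows⟩, ⟨y.z2, y.rows⟩]⟩, ⟨x.mn, x.bl.map fun y => ⟨y.w, y.rows⟩⟩]

/-- The check of one block. -/
def cbC (rs : List ℕ) (S : ℕ) (kd : Bool) (y : CB) : Bool :=
  cC rs S 8 9 y.A y.B y.z1 && cC rs S 10 11 y.A y.B y.z2 &&
    match kd with
    | true => cC rs S 1 12 y.A y.B y.w
    | false => cC rs S 12 0 y.A y.B y.w

/-- The check of all blocks. -/
def cbs (p : Pm) (l : List CI) : Bool := l.all fun x => x.bl.all fun y => cbC p.rs p.S x.kd y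

/-- The check of the multipliers. -/
noncomputable def mckC (p : Pm) (ra rb ro : ℕ) (l : List CI) : Bool :=
  mkE p.rs p.S p.B vl0 fun env => @List.rec CI (fun _ => Bool) true
    (fun x _ ih => @Bool.rec (fun _ => Bool) false
      (@Bool.rec (fun _ => Bool) false ih (mCk p.B env p.di p.dO wA wB wO ra rb ro x.mn (smE (-1) (muE2 x.ids))))
      (mCk p.B env p.di p.dO wA wB wO ra rb ro x.m2 (smE 2 (muE2 x.ids)))) l

namespace CplM

open MvPolynomial

theorem pm_nonneg {x y : ℝ} (h : |x| + |y| ≤ 1) : 0 ≤ 1 - (x + y) ^ 2 ∧ 0 ≤ 1 - (x - y) ^ 2 := by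
  have h1 : |x + y| ≤ 1 := (abs_add_le x y).trans h
  have h2 : |x - y| ≤ 1 := (abs_sub x y).trans h
  constructor
  · nlinarith [sq_abs (x + y), abs_nonneg (x + y)]
  · nlinarith [sq_abs (x - y), abs_nonneg (x - y)]

theorem atoms2_nonneg (D1 D2 : ℝ) (d : Dt) (h : Dom (1 / 3) (1 / 2) 1 d) (i : ℕ) :
    0 ≤ (nth (Ex.c 1) atoms2 i).val (rho D1 D2 d) := by
  obtain ⟨ha1, ha2⟩ := pm_nonneg h.ae
  obtain ⟨hb1, hb2⟩ := pm_nonneg h.bf
  rcases Nat.lt_or_ge i 12 with hi | hi
  · have : nth (Ex.c 1) atoms2 i = nth (Ex.c 1) atoms i := by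
      interval_cases i <;> rfl
    rw [this]
    exact FinM.atoms_nonneg D1 D2 d h i
  · obtain ⟨k, rfl⟩ := Nat.exists_eq_add_of_le hi
    rw [add_comm]
    rcases Nat.lt_or_ge k 4 with hk | hk
    · interval_cases k
      · change 0 ≤ (subE (Ex.c 1) (Ex.pow (Ex.add (Ex.v 0) (Ex.v 2)) 2)).val (rho D1 D2 d)
        simp only [subE, Ex.val, rho]; push_cast; linarith
      · change 0 ≤ (subE (Ex.c 1) (Ex.pow (subE (Ex.v 0) (Ex.v 2)) 2)).val (rho D1 D2 d)
        simp only [subE, Ex.val, rho]; push_cast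
        have : (d.a + -1 * d.e) ^ 2 = (d.a - d.e) ^ 2 := by ring
        rw [this]; linarith
      · change 0 ≤ (subE (Ex.c 1) (Ex.pow (Ex.add (Ex.v 1) (Ex.v 3)) 2)).val (rho D1 D2 d)
        simp only [subE, Ex.val, rho]; push_cast; linarith
      · change 0 ≤ (subE (Ex.c 1) (Ex.pow (subE (Ex.v 1) (Ex.v 3)) 2)).val (rho D1 D2 d)
        simp only [subE, Ex.val, rho]; push_cast
        have : (d.b + -1 * d.f) ^ 2 = (d.b - d.f) ^ 2 := by ring
        rw [this]; linarith
    · obtain ⟨m, rfl⟩ := Nat.exists_eq_add_of_le hk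
      rw [show 4 + m + 12 = m + 16 by ring]
      change 0 ≤ (Ex.c 1).val (rho D1 D2 d)
      simp [Ex.val]

theorem muE2_nonneg (D1 D2 : ℝ) (d : Dt) (h : Dom (1 / 3) (1 / 2) 1 d) (l : List ℕ) :
    0 ≤ (muE2 l).val (rho D1 D2 d) := by
  induction l with
  | nil => simp [muE2, Ex.val]
  | cons i l ih =>
    have : muE2 (i :: l) = Ex.mul (nth (Ex.c 1) atoms2 i) (muE2 l) := rfl
    rw [this]
    exact mul_nonneg (atoms2_nonneg D1 D2 d h i) ih

theorem mckB_spec (p : Pm) (ra rb ro : ℕ) (l : List (List ℕ × MB)) (h : mckB p ra rb ro l = true) :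
    ∀ x ∈ l, mCk p.B (envL p.rs p.S p.B vl0) p.di p.dO wA wB wO ra rb ro x.2.m (muE2 x.1) = true := by
  unfold mckB at h
  rw [EnvM.mkE_eq] at h
  induction l with
  | nil => intro x hx; simp at hx
  | cons y l ih =>
    obtain ⟨h1, h2⟩ := SosM.brec_true h
    intro x hx
    rcases List.mem_cons.1 hx with h3 | h3
    · rw [h3]; exact h1
    · exact ih h2 x h3

theorem mckC_spec (p : Pm) (ra rb ro : ℕ) (l : List CI) (h : mckC p ra rb ro l = true) :
    ∀ x ∈ l, mCk p.B (envL p.rs p.S p.B vl0) p.di p.dO wA wB wO ra rb ro x.m2 (smE 2 (muE2 x.ids)) = true ∧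
      mCk p.B (envL p.rs p.S p.B vl0) p.di p.dO wA wB wO ra rb ro x.mn (smE (-1) (muE2 x.ids)) = true := by
  unfold mckC at h
  rw [EnvM.mkE_eq] at h
  induction l with
  | nil => intro x hx; simp at hx
  | cons y l ih =>
    obtain ⟨h1, h2⟩ := SosM.brec_true h
    obtain ⟨h4, h5⟩ := SosM.brec_true h2
    intro x hx
    rcases List.mem_cons.1 hx with h3 | h3
    · rw [h3]; exact ⟨h1, h4⟩
    · exact ih h5 x h3

theorem sosP_append (p : Pm) (l1 l2 : List MB) : p.sosP (l1 ++ l2) = p.sosP l1 + p.sosP l2 := by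
  unfold Pm.sosP
  rw [List.map_append, List.sum_append]

theorem rF_pos {p : Pm} {ra rb ro : ℕ} (hp : P12 p ra rb ro) (i : ℕ) : 0 < rF p.rs i :=
  lt_of_le_of_lt (Nat.zero_le _) (SosM.dF_lt hp.ok i)

/-- One coupling item is nonnegative. -/
theorem ci_nonneg {p : Pm} {ra rb ro : ℕ} (hp : P12 p ra rb ro) (D1 D2 : ℝ) (d : Dt) (hd : Dom (1 / 3) (1 / 2) 1 d)
    (x : CI) (h2 : mCk p.B (envL p.rs p.S p.B vl0) p.di p.dO wA wB wO ra rb ro x.m2 (smE 2 (muE2 x.ids)) = true)
    (hn : mCk p.B (envL p.rs p.S p.B vl0) p.di p.dO wA wB wO ra rb ro x.mn (smE (-1) (muE2 x.ids)) = true)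
    (hb : ∀ y ∈ x.bl, cbC p.rs p.S x.kd y = true) (hps : ∀ y ∈ x.bl, PsdOK p.b p.o y.rows) :
    0 ≤ ev (rho D1 D2 d) (p.sosP x.mbs) := by
  have e1 : p.sosP x.mbs = p.mP x.m2 * (x.bl.map fun y => p.insP ⟨y.z1, y.rows⟩ + p.insP ⟨y.z2, y.rows⟩).sum +
      p.mP x.mn * (x.bl.map fun y => p.insP ⟨y.w, y.rows⟩).sum := by
    have e2 : ∀ l : List CB, ((l.flatMap fun y => [(⟨y.z1, y.rows⟩ : Ins), ⟨y.z2, y.rows⟩]).map p.insP).sum =
        (l.map fun y => p.insP ⟨y.z1, y.rows⟩ + p.insP ⟨y.z2, y.rows⟩).sum := by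
      intro l
      induction l with
      | nil => rfl
      | cons y l ih =>
        rw [List.flatMap_cons, List.map_append, List.sum_append, ih, List.map_cons, List.sum_cons]
        simp
    unfold Pm.sosP CI.mbs Pm.mbP
    rw [List.map_cons, List.map_cons, List.map_nil, List.sum_cons, List.sum_cons, List.sum_nil, add_zero]
    rw [e2, List.map_map]
    rfl
  have e3 := mCk_ev hp x.m2 _ h2 (rho D1 D2 d)
  have e4 := mCk_ev hp x.mn _ hn (rho D1 D2 d)
  rw [idR_rho] at e3 e4
  have e5 : (smE 2 (muE2 x.ids)).val (rho D1 D2 d) = 2 * (muE2 x.ids).val (rho D1 D2 d) := by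
    simp [smE, Ex.val]
  have e6 : (smE (-1) (muE2 x.ids)).val (rho D1 D2 d) = -(muE2 x.ids).val (rho D1 D2 d) := by
    simp [smE, Ex.val]
  have hmu := muE2_nonneg D1 D2 d hd x.ids
  rw [e1, map_add, map_mul, map_mul, e3, e4, e5, e6, map_list_sum, map_list_sum, List.map_map, List.map_map]
  set μ := (muE2 x.ids).val (rho D1 D2 d) with hμ
  have key : 0 ≤ (x.bl.map fun y => 2 * ev (rho D1 D2 d) (p.insP ⟨y.z1, y.rows⟩ + p.insP ⟨y.z2, y.rows⟩) -
      ev (rho D1 D2 d) (p.insP ⟨y.w, y.rows⟩)).sum := by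
    refine List.sum_nonneg fun v hv => ?_
    obtain ⟨y, hy, rfl⟩ := List.mem_map.1 hv
    have hc := hb y hy
    have hpy := hps y hy
    unfold cbC at hc
    rw [Bool.and_eq_true, Bool.and_eq_true] at hc
    obtain ⟨⟨c1, c2⟩, c3⟩ := hc
    have hr := rF_pos hp
    have hl := hp.hl
    have hlA : (zv p (rho D1 D2 d) y.rows.length y.A).length = y.rows.length := by simp [zv]
    have hlB : (zv p (rho D1 D2 d) y.rows.length y.B).length = y.rows.length := by simp [zv]
    rw [map_add, insP_ev, insP_ev, insP_ev]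
    simp only
    rw [zv_cmb p hr 8 9 y.A y.B y.z1 c1, zv_cmb p hr 10 11 y.A y.B y.z2 c2, ev_vr, ev_vr, ev_vr, ev_vr, hl]
    rw [if_pos (by norm_num), if_pos (by norm_num), if_pos (by norm_num), if_pos (by norm_num)]
    cases hk : x.kd with
    | true =>
      rw [hk] at c3
      rw [zv_cmb p hr 1 12 y.A y.B y.w c3, ev_vr, ev_vr, hl, if_pos (by norm_num), if_neg (by norm_num)]
      exact cpl_b hpy _ _ hlA hlB d hd
    | false =>
      rw [hk] at c3
      rw [zv_cmb p hr 12 0 y.A y.B y.w c3, ev_vr, ev_vr, hl, if_neg (by norm_num), if_pos (by norm_num)]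
      exact cpl_a hpy _ _ hlA hlB d hd
  have e7 : 2 * μ * (x.bl.map (ev (rho D1 D2 d) ∘ fun y => p.insP ⟨y.z1, y.rows⟩ + p.insP ⟨y.z2, y.rows⟩)).sum +
      -μ * (x.bl.map (ev (rho D1 D2 d) ∘ fun y => p.insP ⟨y.w, y.rows⟩)).sum =
      μ * (x.bl.map fun y => 2 * ev (rho D1 D2 d) (p.insP ⟨y.z1, y.rows⟩ + p.insP ⟨y.z2, y.rows⟩) -
        ev (rho D1 D2 d) (p.insP ⟨y.w, y.rows⟩)).sum := by
    generalize x.bl = l
    induction l with
    | nil => simp
    | cons y l ih =>
      simp only [List.map_cons, List.sum_cons, Function.comp_apply] at ih ⊢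
      linear_combination ih
  rw [e7]
  exact mul_nonneg hmu key

end CplM

open CplM

/-- **The kernel inequality from an identity with coupling items.** -/
theorem posG_cpl {p : Pm} {ra rb ro : ℕ} (hp : P12 p ra rb ro) (G G0 : Ex) (ml : List (List ℕ × MB)) (cl : List CI)
    (hid : G.val (sgP vl0) + G.val (sgP vl1) + G0.val (sgP vl0) = p.sosP (ml.map Prod.snd ++ cl.flatMap CI.mbs))
    (hmc : mckB p ra rb ro ml = true) (hcc : mckC p ra rb ro cl = true) (hcb : cbs p cl = true)
    (hps : ∀ x ∈ ml, ∀ y ∈ x.2.bl, PsdOK p.b p.o y.rows) (hpc : ∀ x ∈ cl, ∀ y ∈ x.bl, PsdOK p.b p.o y.rows) :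
    PosG G G0 := by
  intro D1 D2 d hd
  have h1 := congrArg (ev (rho D1 D2 d)) hid
  rw [map_add, map_add, Ex.val_map, Ex.val_map, Ex.val_map] at h1
  have e0 : (fun i => ev (rho D1 D2 d) (sgP vl0 i)) = rho D1 D2 d :=
    (funext fun i => ev_sgP0 (rho D1 D2 d) i).trans (idR_rho D1 D2 d)
  have e1 : (fun i => ev (rho D1 D2 d) (sgP vl1 i)) = rho D1 D2 d.sw :=
    (funext fun i => ev_sgP1 (rho D1 D2 d) i).trans (swR_rho D1 D2 d)
  rw [e0, e1] at h1
  rw [h1, sosP_append, map_add]
  refine add_nonneg ?_ ?_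
  · refine sos_nonneg p (ml.map Prod.snd) (rho D1 D2 d) (fun x hx => ?_) (fun x hx y hy => ?_)
    · obtain ⟨y, hy, rfl⟩ := List.mem_map.1 hx
      rw [mCk_ev hp y.2.m (muE2 y.1) (mckB_spec p ra rb ro ml hmc y hy), idR_rho]
      exact muE2_nonneg D1 D2 d hd y.1
    · obtain ⟨z, hz, rfl⟩ := List.mem_map.1 hx
      exact hps z hz y hy
  · have h2 := mckC_spec p ra rb ro cl hcc
    unfold cbs at hcb
    rw [List.all_eq_true] at hcb
    have : ∀ l : List CI, (∀ x ∈ l, x ∈ cl) → 0 ≤ ev (rho D1 D2 d) (p.sosP (l.flatMap CI.mbs)) := by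
      intro l
      induction l with
      | nil => intro _; simp [Pm.sosP]
      | cons x l ih =>
        intro hl
        rw [List.flatMap_cons, sosP_append, map_add]
        have hx := hl x List.mem_cons_self
        refine add_nonneg ?_ (ih fun y hy => hl y (List.mem_cons_of_mem _ hy))
        obtain ⟨h3, h4⟩ := h2 x hx
        have h5 := hcb x hx
        rw [List.all_eq_true] at h5
        exact ci_nonneg hp D1 D2 d hd x h3 h4 h5 (hpc x hx)
    exact this cl fun x hx => hx

/-- **The same from the check.** -/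
theorem posG_chk {p : Pm} {ra rb ro : ℕ} (hp : P12 p ra rb ro) (G G0 : Ex) (ml : List (List ℕ × MB)) (cl : List CI)
    (hck : chk p ra rb ro G G0 (ml.map Prod.snd ++ cl.flatMap CI.mbs) = true)
    (hmc : mckB p ra rb ro ml = true) (hcc : mckC p ra rb ro cl = true) (hcb : cbs p cl = true)
    (hps : ∀ x ∈ ml, ∀ y ∈ x.2.bl, PsdOK p.b p.o y.rows) (hpc : ∀ x ∈ cl, ∀ y ∈ x.bl, PsdOK p.b p.o y.rows) :
    PosG G G0 :=
  posG_cpl hp G G0 ml cl (chk_spec hp G G0 _ hck) hmc hcc hcb hps hpc

end Pool.Agent.Lib.MP_084b88_gt.SK
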