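import Pool.Agent.Lib.MP_084b88_gt.SK.Sos

/-!
# MP_084b88_gt, project SK: the certificate theorem
-/

set_option autoImplicit false

open MvPolynomial

namespace Pool.Agent.Lib.MP_084b88_gt.SK

/-- Evaluation at real numbers. -/
noncomputable def ev (ρ : ℕ → ℝ) : MvPolynomial ℕ ℤ →+* ℝ := (MvPolynomial.aeval ρ).toRingHom

namespace Pm

/-- Radices and bounds. -/
def dz (p : Pm) : List (ℕ × ℕ) := (p.di ++ p.dO).map fun d => (d.r, d.z)

/-- Radices and bounds. -/
def dm (p : Pm) : List (ℕ × ℕ) := (p.di ++ p.dO).map fun d => (d.r, d.m)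

end Pm

namespace SosM

open BlkM

variable {p : Pm}

theorem rs_pos (hp : p.OK) : ∀ x ∈ p.di ++ p.dO, 2 * x.z + x.m < x.r := by
  intro x hx
  rcases List.mem_append.1 hx with h | h
  · exact dgOK_spec _ hp.hdi x h
  · exact dgOK_spec _ hp.hdO x h

theorem pol_good_z (hp : p.OK) (k : ℕ) (hk : dck (p.dO.map fun d => (d.r, d.z)) k = true) (tp : List (ℕ × ℤ))
    (ht : ∀ e ∈ tp, dck (p.di.map fun d => (d.r, d.z)) e.1 = true) :
    Good p.rs p.B (p.pol k tp) (((p.B : ℤ) ^ p.S) ^ k * pkv (p.B : ℤ) tp) (dF p.dz) (abv tp) := by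
  have h := pol_good (p.di.map fun d => (d.r, d.z)) (p.dO.map fun d => (d.r, d.z)) (fun x hx => by
    obtain ⟨d, hd, rfl⟩ := List.mem_map.1 hx
    have := dgOK_spec _ hp.hdi d hd
    show 0 < d.r
    omega) (fun x hx => by
    obtain ⟨d, hd, rfl⟩ := List.mem_map.1 hx
    have := dgOK_spec _ hp.hdO d hd
    show 0 < d.r
    omega) (p.B : ℤ) k hk tp ht
  have e1 : ((p.di.map fun d => (d.r, d.z)) ++ (p.dO.map fun d => (d.r, d.z))).map Prod.fst = p.rs := by
    simp [Pm.rs, Function.comp_def]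
  have e2 : ((p.di.map fun d => (d.r, d.z)).map Prod.fst).prod = p.S := by
    simp [Pm.S, Function.comp_def]
  have e3 : (p.di.map fun d => (d.r, d.z)) ++ (p.dO.map fun d => (d.r, d.z)) = p.dz := by
    simp [Pm.dz]
  rw [e1, e2, e3] at h
  exact h

theorem pol_good_m (hp : p.OK) (k : ℕ) (hk : dck (p.dO.map fun d => (d.r, d.m)) k = true) (tp : List (ℕ × ℤ))
    (ht : ∀ e ∈ tp, dck (p.di.map fun d => (d.r, d.m)) e.1 = true) :
    Good p.rs p.B (p.pol k tp) (((p.B : ℤ) ^ p.S) ^ k * pkv (p.B : ℤ) tp) (dF p.dm) (abv tp) := by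
  have h := pol_good (p.di.map fun d => (d.r, d.m)) (p.dO.map fun d => (d.r, d.m)) (fun x hx => by
    obtain ⟨d, hd, rfl⟩ := List.mem_map.1 hx
    have := dgOK_spec _ hp.hdi d hd
    show 0 < d.r
    omega) (fun x hx => by
    obtain ⟨d, hd, rfl⟩ := List.mem_map.1 hx
    have := dgOK_spec _ hp.hdO d hd
    show 0 < d.r
    omega) (p.B : ℤ) k hk tp ht
  have e1 : ((p.di.map fun d => (d.r, d.m)) ++ (p.dO.map fun d => (d.r, d.m))).map Prod.fst = p.rs := by
    simp [Pm.rs, Function.comp_def]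
  have e2 : ((p.di.map fun d => (d.r, d.m)).map Prod.fst).prod = p.S := by
    simp [Pm.S, Function.comp_def]
  have e3 : (p.di.map fun d => (d.r, d.m)) ++ (p.dO.map fun d => (d.r, d.m)) = p.dm := by
    simp [Pm.dm]
  rw [e1, e2, e3] at h
  exact h

/-- Sum of a list of good polynomials. -/
theorem good_sum {ι : Type*} {rs : List ℕ} {B : ℤ} (d : ℕ → ℕ) (l : List ι) (P : ι → MvPolynomial ℕ ℤ) (v : ι → ℤ)
    (m : ι → ℕ) (h : ∀ x ∈ l, Good rs B (P x) (v x) d (m x)) :
    Good rs B (l.map P).sum (l.map v).sum d (l.map m).sum := by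
  induction l with
  | nil => simpa using Good.zero d
  | cons x l ih =>
    rw [List.map_cons, List.sum_cons, List.map_cons, List.sum_cons, List.map_cons, List.sum_cons]
    exact (h x List.mem_cons_self).add (ih fun y hy => h y (List.mem_cons_of_mem _ hy))

/-- The checks of the elements. -/
def ZOK (p : Pm) (cs : List (ℕ × List (ℕ × List (ℕ × ℤ)))) : Prop :=
  ∀ c ∈ cs, dck (p.dO.map fun d => (d.r, d.z)) c.1 = true ∧
    ∀ e ∈ c.2, ∀ t ∈ e.2, dck (p.di.map fun d => (d.r, d.z)) t.1 = true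

/-- Size of the element number `s`. -/
def zN (cs : List (ℕ × List (ℕ × List (ℕ × ℤ)))) (s : ℕ) : ℕ :=
  (cs.map fun c => (c.2.map fun e => if e.1 = s then abv e.2 else 0).sum).sum

theorem zP_good (hp : p.OK) (cs : List (ℕ × List (ℕ × List (ℕ × ℤ)))) (h : ZOK p cs) (s : ℕ) :
    Good p.rs p.B (p.zP cs s) (zf ((p.B : ℤ) ^ p.S) (pcl p.B cs) s) (dF p.dz) (zN cs s) := by
  have e1 : zf ((p.B : ℤ) ^ p.S) (pcl p.B cs) s =
      (cs.map fun c => (c.2.map fun e =>
        if e.1 = s then ((p.B : ℤ) ^ p.S) ^ c.1 * pkv (p.B : ℤ) e.2 else 0).sum).sum := by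
    unfold zf dotC pcl
    rw [List.map_map]
    congr 1
    refine List.map_congr_left fun c _ => ?_
    simp only [Function.comp_apply, List.map_map]
    rw [← List.sum_map_mul_left]
    congr 1
    refine List.map_congr_left fun e _ => ?_
    simp only [Function.comp_apply]
    split_ifs <;> ring
  rw [e1]
  unfold Pm.zP zN
  refine good_sum (dF p.dz) cs _ _ _ fun c hc => good_sum (dF p.dz) c.2 _ _ _ fun e he => ?_
  obtain ⟨h1, h2⟩ := h c hc
  by_cases hs : e.1 = s
  · simp only [if_pos hs]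
    exact pol_good_z hp c.1 h1 e.2 (h2 e he)
  · simp only [if_neg hs]
    exact Good.zero _

/-- The sizes of all elements together. -/
theorem zN_sum (c : ℕ) (hc : 0 < c) (cs : List (ℕ × List (ℕ × List (ℕ × ℤ)))) (n : ℕ) :
    ((List.range n).map fun j => zN cs (c * j)).sum ≤ abC cs := by
  have hone : ∀ (t w : ℕ), ((List.range n).map fun j => if t = c * j then w else 0).sum ≤ w := by
    intro t w
    induction n with
    | zero => simp
    | succ n ih =>
      rw [List.range_succ, List.map_append, List.sum_append]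
      simp only [List.map_cons, List.map_nil, List.sum_cons, List.sum_nil, add_zero]
      by_cases ht : t = c * n
      · rw [if_pos ht]
        have : ((List.range n).map fun j => if t = c * j then w else 0).sum = 0 := by
          refine List.sum_eq_zero ?_
          intro x hx
          obtain ⟨j, hj, rfl⟩ := List.mem_map.1 hx
          rw [List.mem_range] at hj
          have hne : ¬ t = c * j := by
            intro h
            have h2 : c * n = c * j := ht.symm.trans h
            exact absurd (Nat.eq_of_mul_eq_mul_left hc h2) (by omega)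
          rw [if_neg hne]
        omega
      · rw [if_neg ht]; omega
  have hE : ∀ es : List (ℕ × List (ℕ × ℤ)),
      ((List.range n).map fun j => (es.map fun e => if e.1 = c * j then abv e.2 else 0).sum).sum ≤ abE es := by
    intro es
    induction es with
    | nil => simp [abE]
    | cons e es ih =>
      have e1 : ((List.range n).map fun j => ((e :: es).map fun e => if e.1 = c * j then abv e.2 else 0).sum).sum =
          ((List.range n).map fun j => if e.1 = c * j then abv e.2 else 0).sum +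
            ((List.range n).map fun j => (es.map fun e => if e.1 = c * j then abv e.2 else 0).sum).sum := by
        rw [← List.sum_map_add]
        rfl
      have e2 : abE (e :: es) = abv e.2 + abE es := by simp [abE]
      rw [e1, e2]
      exact Nat.add_le_add (hone _ _) ih
  induction cs with
  | nil => simp [zN, abC]
  | cons d cs ih =>
    have e1 : ((List.range n).map fun j => zN (d :: cs) (c * j)).sum =
        ((List.range n).map fun j => (d.2.map fun e => if e.1 = c * j then abv e.2 else 0).sum).sum +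
          ((List.range n).map fun j => zN cs (c * j)).sum := by
      rw [← List.sum_map_add]
      rfl
    have e2 : abC (d :: cs) = abE d.2 + abC cs := by simp [abC]
    rw [e1, e2]
    exact Nat.add_le_add (hE _) ih

theorem insP_good (hp : p.OK) (x : Ins) (h : ZOK p x.cs) :
    Good p.rs p.B (p.insP x) (qR p.b p.o x.rows
      ((List.range x.rows.length).map fun j => zf ((p.B : ℤ) ^ p.S) (pcl p.B x.cs) (p.c * j)))
      (fun i => 2 * dF p.dz i) (p.b * (abC x.cs * abC x.cs)) := by
  have hb : 0 < p.b := by rw [hp.hb]; positivity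
  have hz := fun s => zP_good hp x.cs h s
  obtain ⟨h1, h2⟩ := qR_good p.b p.o hb hp.ho (dF p.dz) x.rows
    ((List.range x.rows.length).map fun j => p.zP x.cs (p.c * j)) (fun z hz' i => by
      obtain ⟨j, _, rfl⟩ := List.mem_map.1 hz'
      exact (hz _).hd i)
  have h3 : (((List.range x.rows.length).map fun j => p.zP x.cs (p.c * j)).map nb).sum ≤ abC x.cs := by
    refine le_trans ?_ (zN_sum p.c hp.hc x.cs x.rows.length)
    rw [List.map_map]
    refine List.sum_le_sum fun j _ => ?_
    exact (hz _).hm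
  refine ⟨?_, h1, h2.trans (Nat.mul_le_mul_left _ (Nat.mul_le_mul h3 h3))⟩
  unfold Pm.insP
  rw [qR_map, List.map_map]
  congr 1
  refine List.map_congr_left fun j _ => ?_
  exact (hz _).hv

theorem mP_good (hp : p.OK) (m : List (ℕ × List (ℕ × ℤ)))
    (h : ∀ e ∈ m, dck (p.dO.map fun d => (d.r, d.m)) e.1 = true ∧
        ∀ t ∈ e.2, dck (p.di.map fun d => (d.r, d.m)) t.1 = true) :
    Good p.rs p.B (p.mP m) (conc ((p.B : ℤ) ^ p.S) (m.map fun e => (e.1, pkv (p.B : ℤ) e.2)))
      (dF p.dm) (abE m) := by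
  unfold Pm.mP abE conc
  rw [List.map_map]
  refine good_sum (dF p.dm) m _ _ _ fun e he => ?_
  obtain ⟨h1, h2⟩ := h e he
  have h3 := pol_good_m hp e.1 h1 e.2 h2
  rw [mul_comm] at h3
  exact h3

theorem mbP_good (hp : p.OK) (x : MB) (h : MBok p.di p.dO x) :
    Good p.rs p.B (p.mbP x) (conc ((p.B : ℤ) ^ p.S) (x.m.map fun e => (e.1, pkv (p.B : ℤ) e.2)) *
      (x.bl.map fun y => qR p.b p.o y.rows
        ((List.range y.rows.length).map fun j => zf ((p.B : ℤ) ^ p.S) (pcl p.B y.cs) (p.c * j))).sum)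
      (fun i => dF p.dm i + 2 * dF p.dz i) (abMB p.b x) := by
  have h1 := mP_good hp x.m h.hm
  have h2 := good_sum (fun i => 2 * dF p.dz i) x.bl _ _ _ fun y hy => insP_good hp y (h.hz y hy)
  have h3 := h1.mul h2
  refine h3.mono (fun i => le_refl _) (le_of_eq ?_)
  unfold abMB
  exact mul_comm _ _

theorem sosP_good (hp : p.OK) (ms : List MB) (h : ∀ x ∈ ms, MBok p.di p.dO x) :
    Good p.rs p.B (p.sosP ms) (ms.map fun x => conc ((p.B : ℤ) ^ p.S) (x.m.map fun e => (e.1, pkv (p.B : ℤ) e.2)) *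
      (x.bl.map fun y => qR p.b p.o y.rows
        ((List.range y.rows.length).map fun j => zf ((p.B : ℤ) ^ p.S) (pcl p.B y.cs) (p.c * j))).sum).sum
      (fun i => dF p.dm i + 2 * dF p.dz i) (ms.map (abMB p.b)).sum :=
  good_sum _ ms _ _ _ fun x hx => mbP_good hp x (h x hx)

theorem dF_lt (hp : p.OK) (i : ℕ) : dF p.dm i + 2 * dF p.dz i < rF p.rs i := by
  unfold dF rF Pm.dm Pm.dz Pm.rs
  rw [List.map_map, List.map_map]
  by_cases hi : i < (p.di ++ p.dO).length
  · have h := rs_pos hp _ (List.getElem_mem hi)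
    rw [List.getD_eq_getElem _ _ (by simpa using hi), List.getD_eq_getElem _ _ (by simpa using hi),
      List.getD_eq_getElem _ _ (by simpa using hi)]
    simp only [List.getElem_map, Function.comp_apply]
    omega
  · rw [List.getD_eq_default _ _ (by simpa using hi), List.getD_eq_default _ _ (by simpa using hi),
      List.getD_eq_default _ _ (by simpa using hi)]
    omega

theorem rF_one (rs : List ℕ) (i : ℕ) (h : rs.length ≤ i) : rF rs i = 1 := List.getD_eq_default _ _ h

end SosM

open SosM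

/-- **The certificate theorem**: if the check succeeds then `F + ∑ m (∑ blocks) = 0`. -/
theorem cert (p : Pm) (hp : p.OK) (ms : List MB) (F : MvPolynomial ℕ ℤ) (lF : List (ℕ × ℤ)) (nF : ℕ) (d : ℕ → ℕ)
    (hF : Good p.rs p.B F (conc ((p.B : ℤ) ^ p.S) lF) d nF) (hd : ∀ i, d i < rF p.rs i)
    (h3 : ∀ x ∈ ms, MBok p.di p.dO x) (h6 : nF + (ms.map (abMB p.b)).sum < p.B)
    (h2 : sosC p.B p.b p.o p.c false allZ ms lF = true) :
    F + p.sosP ms = 0 := by
  have h5 := sosP_good hp ms h3
  have hdd : ∀ i, max (d i) (dF p.dm i + 2 * dF p.dz i) < rF p.rs i := fun i => max_lt (hd i) (dF_lt hp i)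
  have h7 := (hF.mono (fun i => le_max_left (d i) (dF p.dm i + 2 * dF p.dz i)) (le_refl _)).add
    (h5.mono (fun i => le_max_right (d i) (dF p.dm i + 2 * dF p.dz i)) (le_refl _))
  rcases sosC_spec ((p.B : ℤ) ^ p.S) p.B p.b p.o p.c hp.hc hp.hb ms lF with h8 | ⟨r, h8, h9⟩
  · rw [h8 false allZ] at h2; exact absurd h2 (by decide)
  · rw [h8 false allZ] at h2
    have h10 := allZ_spec ((p.B : ℤ) ^ p.S) r h2
    rw [h9] at h10
    refine zero_of_hat (rF p.rs) p.rs.length p.B (fun i hi => rF_one p.rs i hi) _ (fun i => lt_of_le_of_lt (h7.hd i) (hdd i))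
      (lt_of_le_of_lt (Int.ofNat_le.2 h7.hm) (Int.ofNat_lt.2 h6)) ?_
    rw [h7.hv]
    exact h10

/-- Nonnegativity of the sum. -/
theorem sos_nonneg (p : Pm) (ms : List MB) (ρ : ℕ → ℝ) (hm : ∀ x ∈ ms, 0 ≤ ev ρ (p.mP x.m))
    (hps : ∀ x ∈ ms, ∀ y ∈ x.bl, PsdOK p.b p.o y.rows) : 0 ≤ ev ρ (p.sosP ms) := by
  unfold Pm.sosP
  rw [map_list_sum, List.map_map]
  refine List.sum_nonneg fun v hv => ?_
  obtain ⟨x, hx, rfl⟩ := List.mem_map.1 hv
  simp only [Function.comp_apply]
  unfold Pm.mbP
  rw [map_mul]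
  refine mul_nonneg (hm x hx) ?_
  rw [map_list_sum, List.map_map]
  refine List.sum_nonneg fun v hv => ?_
  obtain ⟨y, hy, rfl⟩ := List.mem_map.1 hv
  simp only [Function.comp_apply]
  unfold Pm.insP
  rw [qR_map]
  exact hps x hx y hy _ (by simp)

end Pool.Agent.Lib.MP_084b88_gt.SK
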