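import Mathlib

/-!
# MP_084b88_gt, project SK (checker for sum of squares certificates): the kernel functions

Continuation passing style, everything by recursors, all numbers forced. A list `[(k, v), ..]` (keys increasing) stands for
the integer `∑ v * O^k`.
-/

set_option autoImplicit false

namespace Pool.Agent.Lib.MP_084b88_gt.SK

/-- Force the evaluation of a natural number. -/
noncomputable def fN {α : Type} (a : ℕ) (k : ℕ → α) : α :=
  @Nat.rec (fun _ => α) (k 0) (fun m _ => k (Nat.succ m)) a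

/-- Force the evaluation of an integer. -/
noncomputable def fI {α : Type} (a : ℤ) (k : ℤ → α) : α :=
  @Int.rec (fun _ => α) (fun n => fN n fun n => k (Int.ofNat n)) (fun n => fN n fun n => k (Int.negSucc n)) a

/-- `if a ≤ b then x else y`. -/
noncomputable def ifle {α : Type} (a b : ℕ) (x y : α) : α :=
  @Bool.rec (fun _ => α) y x (Nat.ble a b)

/-- Insert `(kx, vx)` into the list and go on with `f` behind it. -/
noncomputable def mrgI {α : Type} (kx : ℕ) (vx : ℤ) (f : List (ℕ × ℤ) → (List (ℕ × ℤ) → α) → α)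
    (m : List (ℕ × ℤ)) : (List (ℕ × ℤ) → α) → α :=
  @List.rec (ℕ × ℤ) (fun _ => (List (ℕ × ℤ) → α) → α)
    (fun k => f [] fun r => k (List.cons (kx, vx) r))
    (fun y m' ihm k =>
      ifle y.1 kx
        (ifle kx y.1
          (fI (Int.add vx y.2) fun v => f m' fun r => k (List.cons (kx, v) r))
          (ihm fun r => k (List.cons y r)))
        (f (List.cons y m') fun r => k (List.cons (kx, vx) r))) m

/-- Merge `c * O^dk * l` into `m`. -/
noncomputable def mrgS {α : Type} (c : ℤ) (dk : ℕ) (l : List (ℕ × ℤ)) :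
    List (ℕ × ℤ) → (List (ℕ × ℤ) → α) → α :=
  @List.rec (ℕ × ℤ) (fun _ => List (ℕ × ℤ) → (List (ℕ × ℤ) → α) → α) (fun m k => k m)
    (fun x _ ih m k => fN (Nat.add dk x.1) fun kx => fI (Int.mul c x.2) fun vx => mrgI kx vx ih m k) l

/-- One outer monomial: key, the elements with this outer monomial (`(sh, û)`: the element number `sh / c`, inner
polynomial `û`), accumulator. -/
structure Cls where
  k : ℕ
  es : List (ℕ × ℤ)
  T : List (ℕ × ℤ)

/-- `acc + ∑ (digit_(sh-i) v - o) û`. -/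
noncomputable def rowE {α : Type} (b o v i : ℕ) (k : ℤ → α) (es : List (ℕ × ℤ)) : ℤ → α :=
  @List.rec (ℕ × ℤ) (fun _ => ℤ → α) (fun acc => k acc)
    (fun e _ ih acc =>
      fI (Int.add acc (Int.mul (Int.subNatNat (Nat.mod (Nat.shiftRight v (Nat.sub e.1 i)) b) o) e.2)) fun acc =>
        ih acc) es

/-- One row. -/
noncomputable def rowS {α : Type} (b o v i : ℕ) (cl : List Cls) : (List (ℕ × ℤ) → α) → α :=
  @List.rec Cls (fun _ => (List (ℕ × ℤ) → α) → α) (fun k => k [])
    (fun c _ ih k => rowE b o v i (fun s => ih fun r => k (List.cons (c.k, s) r)) c.es 0) cl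

/-- Remove the elements `i`; `T + û r`. -/
noncomputable def updS {α : Type} (i : ℕ) (r : List (ℕ × ℤ)) (cl : List Cls) : (List Cls → α) → α :=
  @List.rec Cls (fun _ => (List Cls → α) → α) (fun k => k [])
    (fun c _ ih k => @List.rec (ℕ × ℤ) (fun _ => α) (ih fun l => k (List.cons c l))
      (fun e es' _ => @Bool.rec (fun _ => α) (ih fun l => k (List.cons c l))
        (mrgS e.2 0 r c.T fun T => ih fun l => k (List.cons ⟨c.k, es', T⟩ l)) (Nat.beq e.1 i)) c.es) cl

/-- All rows. -/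
noncomputable def runS {α : Type} (b o c : ℕ) (k : List Cls → α) (rows : List ℕ) : ℕ → List Cls → α :=
  @List.rec ℕ (fun _ => ℕ → List Cls → α) (fun _ cl => k cl)
    (fun v _ ih i cl => rowS b o v i cl fun r => updS i r cl fun cl =>
      fN (Nat.add i c) fun i => ih i cl) rows

/-- Collect the accumulators; `bad` if an element is left. -/
noncomputable def finS {α : Type} (bad : α) (k : List (ℕ × ℤ) → α) (cl : List Cls) : List (ℕ × ℤ) → α :=
  @List.rec Cls (fun _ => List (ℕ × ℤ) → α) (fun acc => k acc)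
    (fun c _ ih acc => @List.rec (ℕ × ℤ) (fun _ => α) (mrgS 1 c.k c.T acc fun acc => ih acc)
      (fun _ _ _ => bad) c.es) cl

/-- One block: `acc + ∑_i z_i ∑_{l ≥ i} H_il z_l`, digits of the rows in base `b = 2^c`. -/
noncomputable def blk {α : Type} (b o c : ℕ) (bad : α) (k : List (ℕ × ℤ) → α) (cl : List Cls)
    (rows : List ℕ) (acc : List (ℕ × ℤ)) : α :=
  runS b o c (fun cl => finS bad k cl acc) rows 0 cl

/-- `acc + pw * ∑_{j<k} (digit_j v) W^j` (digits in base `b`). -/
noncomputable def xp {α : Type} (b W : ℕ) (K : ℕ → α) (k : ℕ) : ℕ → ℕ → ℕ → α :=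
  @Nat.rec (fun _ => ℕ → ℕ → ℕ → α) (fun _ acc _ => K acc)
    (fun _ ih v acc pw => fN (Nat.add acc (Nat.mul (Nat.mod v b) pw)) fun acc => fN (Nat.div v b) fun v =>
      fN (Nat.mul pw W) fun pw => ih v acc pw) k

/-- Sums over the columns: digits `u`, `∑ u`, `∑ c`, `∑ u c`; the shifted columns. -/
noncomputable def colL {α : Type} (W : ℕ) (cs : List ℕ) : ℕ → ℕ → ℕ → (List ℕ → ℕ → ℕ → ℕ → α) → α :=
  @List.rec ℕ (fun _ => ℕ → ℕ → ℕ → (List ℕ → ℕ → ℕ → ℕ → α) → α) (fun su sc sp k => k [] su sc sp)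
    (fun c _ ih su sc sp k => fN (Nat.mod c W) fun u => fN (Nat.div c W) fun c' =>
      fN (Nat.add su u) fun su => fN (Nat.add sc c) fun sc' => fN (Nat.add sp (Nat.mul u c)) fun sp =>
      ih su sc' sp fun r su sc sp => k (List.cons c' r) su sc sp) cs

/-- Parameters of the PSD check: rows `H` in base `b`, offset `o`; columns `L` in base `b1`, offset `o1`; wide base `W`;
scale `T`; tolerance `ρ`; `N1 ≥ n + 1`. -/
structure Par where
  b : ℕ
  o : ℕ
  b1 : ℕ
  o1 : ℕ
  W : ℕ
  T : ℕ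
  ρ : ℕ
  N1 : ℕ

/-- `D = A - B` has all its digits below `2 ρ`. -/
noncomputable def dchk (ρ E Mk A B : ℕ) (x : Bool) : Bool :=
  fN A fun A => fN B fun B => ifle B A (fN (Nat.sub A B) fun D => ifle (Nat.land D Mk) 0
    (ifle D (Nat.mul (Nat.mul 2 ρ) E) x false) false) false

/-- The recursion of the PSD check. -/
noncomputable def psdR (p : Par) (rows : List ℕ) : List ℕ → List ℕ → ℕ → ℕ → ℕ → ℕ → Bool :=
  @List.rec ℕ (fun _ => List ℕ → List ℕ → ℕ → ℕ → ℕ → ℕ → Bool) (fun _ _ _ _ _ _ => true)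
    (fun hv _ ih cols Cs cnt E Mk k => @List.rec ℕ (fun _ => Bool) false
      (fun cv cols' _ => xp p.b p.W (fun H => xp p.b1 p.W (fun C =>
        colL p.W (List.cons C Cs) 0 0 0 fun Cs' su sc sp => fN (Nat.succ cnt) fun cnt =>
        dchk p.ρ E Mk
          (Nat.add (Nat.mul p.T (Nat.add H (Nat.mod H p.W)))
            (Nat.add (Nat.mul p.o1 sc) (Nat.add (Nat.mul (Nat.mul p.o1 E) su) (Nat.mul p.ρ E))))
          (Nat.add (Nat.mul p.T (Nat.mul p.o (Nat.succ E)))
            (Nat.add sp (Nat.add (Nat.mul (Nat.mul cnt (Nat.mul p.o1 p.o1)) E) (Nat.mul p.N1 p.ρ))))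
          (fN (Nat.div E p.W) fun E => fN (Nat.div Mk p.W) fun Mk => fN (Nat.pred k) fun k =>
            ih cols' Cs' cnt E Mk k)) k cv 0 1) k hv 0 1) cols) rows

/-- `∑_{j<n} c W^j`. -/
noncomputable def rep (c W n : ℕ) : ℕ :=
  @Nat.rec (fun _ => ℕ) 0 (fun _ s => Nat.add c (Nat.mul W s)) n

/-- The PSD check: `W = 2^w`, `ρ = 2^r`. -/
noncomputable def psd (b o b1 o1 w T r N1 : ℕ) (rows cols : List ℕ) : Bool :=
  fN (List.length rows) fun n => fN (Nat.pow 2 w) fun W => fN (Nat.pow 2 r) fun ρ =>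
    ifle (Nat.succ n) N1 (ifle (Nat.succ r) w (ifle b W (ifle b1 W (ifle o b (ifle o1 b1
      (ifle (Nat.add (Nat.mul 4 (Nat.mul T b)) (Nat.add (Nat.mul N1 (Nat.mul b1 b1))
        (Nat.mul (Nat.add N1 4) ρ))) W
        (fN (rep 1 W n) fun E => fN (rep (Nat.sub W (Nat.mul 2 ρ)) W n) fun Mk =>
          psdR ⟨b, o, b1, o1, W, T, ρ, N1⟩ rows cols [] 0 E Mk n) false) false) false) false) false) false) false

/-! ## Polynomials: leaves, certificates -/

/-- `acc + ∑ c B^s`. -/
noncomputable def pkT {α : Type} (B : ℕ) (k : ℤ → α) (tp : List (ℕ × ℤ)) : ℤ → α :=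
  @List.rec (ℕ × ℤ) (fun _ => ℤ → α) (fun acc => k acc)
    (fun e _ ih acc => fI (Int.add acc (Int.mul e.2 (Int.ofNat (Nat.pow B e.1)))) fun acc => ih acc) tp

/-- Pack the entries of a list of pairs. -/
noncomputable def pkE {α : Type} (B : ℕ) (es : List (ℕ × List (ℕ × ℤ))) : (List (ℕ × ℤ) → α) → α :=
  @List.rec (ℕ × List (ℕ × ℤ)) (fun _ => (List (ℕ × ℤ) → α) → α) (fun k => k [])
    (fun e _ ih k => pkT B (fun v => ih fun r => k (List.cons (e.1, v) r)) e.2 0) es

/-- Pack a block. -/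
noncomputable def pkC {α : Type} (B : ℕ) (cs : List (ℕ × List (ℕ × List (ℕ × ℤ)))) : (List Cls → α) → α :=
  @List.rec (ℕ × List (ℕ × List (ℕ × ℤ))) (fun _ => (List Cls → α) → α) (fun k => k [])
    (fun c _ ih k => pkE B c.2 fun es => ih fun r => k (List.cons ⟨c.1, es, []⟩ r)) cs

/-- `total + m σ`. -/
noncomputable def mulP {α : Type} (σ : List (ℕ × ℤ)) (k : List (ℕ × ℤ) → α) (m : List (ℕ × ℤ)) :
    List (ℕ × ℤ) → α :=
  @List.rec (ℕ × ℤ) (fun _ => List (ℕ × ℤ) → α) (fun total => k total)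
    (fun e _ ih total => mrgS e.2 e.1 σ total fun total => ih total) m

/-- A block: elements by outer monomials, and the rows. -/
structure Ins where
  cs : List (ℕ × List (ℕ × List (ℕ × ℤ)))
  rows : List ℕ

/-- A multiplier with its blocks. -/
structure MB where
  m : List (ℕ × List (ℕ × ℤ))
  bl : List Ins

/-- Sum of the blocks. -/
noncomputable def sumB {α : Type} (B b o c : ℕ) (bad : α) (k : List (ℕ × ℤ) → α) (bl : List Ins) :
    List (ℕ × ℤ) → α :=
  @List.rec Ins (fun _ => List (ℕ × ℤ) → α) (fun acc => k acc)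
    (fun x _ ih acc => pkC B x.cs fun cl => blk b o c bad (fun acc => ih acc) cl x.rows acc) bl

/-- `total + ∑ m (∑ blocks)`. -/
noncomputable def sosC {α : Type} (B b o c : ℕ) (bad : α) (k : List (ℕ × ℤ) → α) (ms : List MB) :
    List (ℕ × ℤ) → α :=
  @List.rec MB (fun _ => List (ℕ × ℤ) → α) (fun total => k total)
    (fun x _ ih total => sumB B b o c bad (fun σ => pkE B x.m fun m => mulP σ (fun total => ih total) m total)
      x.bl []) ms

/-- All coefficients are zero. -/
noncomputable def allZ (l : List (ℕ × ℤ)) : Bool :=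
  @List.rec (ℕ × ℤ) (fun _ => Bool) true
    (fun e _ ih => @Int.rec (fun _ => Bool) (fun n => ifle n 0 ih false) (fun _ => false) e.2) l

/-! ## Checks of degrees and sizes -/

/-- The digits of `φ` with respect to the radices `x.1` are at most `x.2`, and nothing remains. -/
noncomputable def dck (rd : List (ℕ × ℕ)) : ℕ → Bool :=
  @List.rec (ℕ × ℕ) (fun _ => ℕ → Bool) (fun φ => ifle φ 0 true false)
    (fun x _ ih φ => ifle (Nat.mod φ x.1) x.2 (fN (Nat.div φ x.1) ih) false) rd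

/-- `Int.natAbs`, by recursion. -/
noncomputable def iabs (a : ℤ) : ℕ := @Int.rec (fun _ => ℕ) (fun n => n) (fun n => Nat.succ n) a

/-- Check the inner polynomial; adds `∑ |c|`. -/
noncomputable def ckT (rd : List (ℕ × ℕ)) (k : ℕ → Bool) (tp : List (ℕ × ℤ)) : ℕ → Bool :=
  @List.rec (ℕ × ℤ) (fun _ => ℕ → Bool) (fun acc => k acc)
    (fun e _ ih acc => @Bool.rec (fun _ => Bool) false (fN (Nat.add acc (iabs e.2)) ih) (dck rd e.1)) tp

/-- Check the entries of one outer monomial. -/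
noncomputable def ckE (rd : List (ℕ × ℕ)) (k : ℕ → Bool) (es : List (ℕ × List (ℕ × ℤ))) : ℕ → Bool :=
  @List.rec (ℕ × List (ℕ × ℤ)) (fun _ => ℕ → Bool) (fun acc => k acc)
    (fun e _ ih acc => ckT rd ih e.2 acc) es

/-- Check the elements of a block. -/
noncomputable def ckC (ri ro : List (ℕ × ℕ)) (k : ℕ → Bool) (cs : List (ℕ × List (ℕ × List (ℕ × ℤ)))) : ℕ → Bool :=
  @List.rec (ℕ × List (ℕ × List (ℕ × ℤ))) (fun _ => ℕ → Bool) (fun acc => k acc)
    (fun c _ ih acc => @Bool.rec (fun _ => Bool) false (ckE ri ih c.2 acc) (dck ro c.1)) cs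

/-- Check a multiplier. -/
noncomputable def ckM (ri ro : List (ℕ × ℕ)) (k : ℕ → Bool) (m : List (ℕ × List (ℕ × ℤ))) : ℕ → Bool :=
  @List.rec (ℕ × List (ℕ × ℤ)) (fun _ => ℕ → Bool) (fun acc => k acc)
    (fun e _ ih acc => @Bool.rec (fun _ => Bool) false (ckT ri ih e.2 acc) (dck ro e.1)) m

/-- Degree bounds: `radix, bound for z, bound for m`. -/
structure Dg where
  r : ℕ
  z : ℕ
  m : ℕ

/-- `2 z + m < r` everywhere. -/
noncomputable def dgOK (l : List Dg) : Bool :=
  @List.rec Dg (fun _ => Bool) true (fun x _ ih => ifle (Nat.succ (Nat.add (Nat.mul 2 x.z) x.m)) x.r ih false) l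

/-- Check the blocks; `acc + ∑ b (∑ |z|)²`. -/
noncomputable def ckB (b : ℕ) (di dO : List Dg) (k : ℕ → Bool) (bl : List Ins) : ℕ → Bool :=
  @List.rec Ins (fun _ => ℕ → Bool) (fun acc => k acc)
    (fun x _ ih acc => ckC (di.map fun d => (d.r, d.z)) (dO.map fun d => (d.r, d.z))
      (fun s => fN (Nat.add acc (Nat.mul b (Nat.mul s s))) ih) x.cs 0) bl

/-- Check everything; the sum of the sizes. -/
noncomputable def ckS (b : ℕ) (di dO : List Dg) (k : ℕ → Bool) (ms : List MB) : ℕ → Bool :=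
  @List.rec MB (fun _ => ℕ → Bool) (fun acc => k acc)
    (fun x _ ih acc => ckB b di dO (fun s => ckM (di.map fun d => (d.r, d.m)) (dO.map fun d => (d.r, d.m))
      (fun t => fN (Nat.add acc (Nat.mul s t)) ih) x.m 0) x.bl 0) ms

end Pool.Agent.Lib.MP_084b88_gt.SK
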