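import Pool.Agent.Lib.MP_084b88_gt.SK.Ex

/-!
# MP_084b88_gt, project SK: the twelve variables and the whole check

Variables: `0..11 = a, b | e, f, gt, gs, Ys, X, y1, x1, y2, x2`.
-/

set_option autoImplicit false

open MvPolynomial

namespace Pool.Agent.Lib.MP_084b88_gt.SK

/-- The environment of the signed variables `vl`. -/
noncomputable def mkE {α : Type} (rs : List ℕ) (S B : ℕ) (vl : List (ℤ × ℕ)) : (List (List (ℕ × ℤ)) → α) → α :=
  @List.rec (ℤ × ℕ) (fun _ => (List (List (ℕ × ℤ)) → α) → α) (fun K => K [])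
    (fun e _ ih K => fN (st (rF rs) e.2) fun t => fN (Nat.div t S) fun k =>
      fI (Int.mul e.1 (Int.ofNat (Nat.pow B (Nat.mod t S)))) fun v => ih fun r =>
        K (List.cons (List.cons (k, v) List.nil) r)) vl

/-- Its value. -/
def envL (rs : List ℕ) (S B : ℕ) (vl : List (ℤ × ℕ)) : List (List (ℕ × ℤ)) :=
  vl.map fun e => [(st (rF rs) e.2 / S, e.1 * (B : ℤ) ^ (st (rF rs) e.2 % S))]

/-- The polynomials of the signed variables. -/
noncomputable def sgP (vl : List (ℤ × ℕ)) (j : ℕ) : MvPolynomial ℕ ℤ :=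
  nth 0 (vl.map fun e => C e.1 * X e.2) j

/-- The signed variables. -/
def vl0 : List (ℤ × ℕ) :=
  [(1, 0), (1, 1), (1, 2), (1, 3), (1, 4), (1, 5), (1, 6), (1, 7), (1, 8), (1, 9), (1, 10), (1, 11)]

/-- The signed variables after the exchange of the points. -/
def vl1 : List (ℤ × ℕ) :=
  [(-1, 1), (-1, 0), (1, 3), (-1, 2), (1, 5), (-1, 4), (-1, 7), (1, 6), (-1, 9), (1, 8), (-1, 11), (1, 10)]

/-- Degree in `a`. -/
def wA : List ℕ := [1, 0, 0, 0, 0, 0, 0, 0, 0, 0, 0, 0]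

/-- Degree in `b`. -/
def wB : List ℕ := [0, 1, 0, 0, 0, 0, 0, 0, 0, 0, 0, 0]

/-- Degree in the outer variables. -/
def wO : List ℕ := [0, 0, 1, 1, 1, 1, 1, 1, 1, 1, 1, 1]

namespace EnvM

theorem mkE_eq {α : Type} (rs : List ℕ) (S B : ℕ) (vl : List (ℤ × ℕ)) :
    ∀ K : List (List (ℕ × ℤ)) → α, mkE rs S B vl K = K (envL rs S B vl) := by
  induction vl with
  | nil => intro K; rfl
  | cons e vl ih =>
    intro K
    have h : mkE rs S B (e :: vl) K = fN (st (rF rs) e.2) fun t => fN (Nat.div t S) fun k =>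
      fI (Int.mul e.1 (Int.ofNat (Nat.pow B (Nat.mod t S)))) fun v => mkE rs S B vl fun r =>
        K (List.cons (List.cons (k, v) List.nil) r) := rfl
    rw [h, fN_eq, fN_eq, fI_eq, ih]
    have e1 : Int.mul e.1 (Int.ofNat (Nat.pow B (Nat.mod (st (rF rs) e.2) S))) =
        e.1 * (B : ℤ) ^ (st (rF rs) e.2 % S) := by
      change e.1 * ((B ^ (st (rF rs) e.2 % S) : ℕ) : ℤ) = _
      push_cast; rfl
    rw [e1]; rfl

theorem nth_map {α β : Type} (z : α) (w : β) (f : α → β) (h : f z = w) (l : List α) :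
    ∀ j, nth w (l.map f) j = f (nth z l j) := by
  induction l with
  | nil => intro j; exact h.symm
  | cons x l ih =>
    intro j
    cases j with
    | zero => rfl
    | succ j => exact ih j

theorem nth_mem {α : Type} (z : α) (l : List α) : ∀ j, nth z l j = z ∨ nth z l j ∈ l := by
  induction l with
  | nil => intro j; exact Or.inl rfl
  | cons x l ih =>
    intro j
    cases j with
    | zero => exact Or.inr List.mem_cons_self
    | succ j =>
      rcases ih j with h | h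
      · exact Or.inl h
      · exact Or.inr (List.mem_cons_of_mem _ h)

/-- All environments. -/
theorem envOK_mk (p : Pm) (vl : List (ℤ × ℕ)) (wa wb wo : List ℕ)
    (hc : ∀ e ∈ vl, e.1.natAbs ≤ 1) (hv : ∀ e ∈ vl, e.2 < p.rs.length)
    (ha : ∀ j < vl.length, (nth (0, 0) vl j).2 = 0 → 1 ≤ nth 0 wa j)
    (hb : ∀ j < vl.length, (nth (0, 0) vl j).2 = 1 → 1 ≤ nth 0 wb j)
    (ho : ∀ j < vl.length, 2 ≤ (nth (0, 0) vl j).2 → 1 ≤ nth 0 wo j) :
    EnvOK p (envL p.rs p.S p.B vl) wa wb wo (sgP vl) := by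
  have hcase : ∀ j, sgP vl j = 0 ∧ nth [] (envL p.rs p.S p.B vl) j = [] ∨
      ∃ e ∈ vl, sgP vl j = C e.1 * X e.2 ∧ j < vl.length ∧ nth (0, 0) vl j = e ∧
        nth [] (envL p.rs p.S p.B vl) j =
          [(st (rF p.rs) e.2 / p.S, e.1 * (p.B : ℤ) ^ (st (rF p.rs) e.2 % p.S))] := by
    unfold sgP envL
    clear hc hv ha hb ho
    induction vl with
    | nil => intro j; left; exact ⟨rfl, rfl⟩
    | cons x vl ih =>
      intro j
      cases j with
      | zero => right; exact ⟨x, List.mem_cons_self, rfl, Nat.succ_pos _, rfl, rfl⟩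
      | succ j =>
        rcases ih j with h | ⟨e, h1, h2, h3, h4, h5⟩
        · left; exact h
        · right
          exact ⟨e, List.mem_cons_of_mem _ h1, h2, by simpa using h3, h4, h5⟩
  have hdeg : ∀ (i : ℕ) (e : ℤ × ℕ), (C e.1 * X e.2 : MvPolynomial ℕ ℤ).degreeOf i ≤ if e.2 = i then 1 else 0 := by
    intro i e
    refine (MvPolynomial.degreeOf_mul_le i _ _).trans ?_
    rw [PolM.deg_C, zero_add]
    split_ifs with h
    · rw [h, MvPolynomial.degreeOf_X_self]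
    · rw [MvPolynomial.degreeOf_X_of_ne (Ne.symm h)]
  constructor
  · intro j
    rcases hcase j with ⟨h1, h2⟩ | ⟨e, _, h2, _, _, h5⟩
    · rw [h1, h2, map_zero]; rfl
    · rw [h2, h5]
      have : hat (rF p.rs) p.B (C e.1 * X e.2) = e.1 * (p.B : ℤ) ^ st (rF p.rs) e.2 := by
        unfold hat; rw [map_mul, MvPolynomial.eval_C, MvPolynomial.eval_X]
      rw [this]
      simp only [conc, List.map_cons, List.map_nil, List.sum_cons, List.sum_nil, add_zero]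
      rw [← pow_mul, mul_assoc, ← pow_add, Nat.mod_add_div]
  · intro j
    rcases hcase j with ⟨h1, _⟩ | ⟨e, _, h2, h3, h4, _⟩
    · rw [h1, MvPolynomial.degreeOf_zero]; exact Nat.zero_le _
    · rw [h2]
      refine (hdeg 0 e).trans ?_
      split_ifs with h
      · exact ha j h3 (by rw [h4]; exact h)
      · exact Nat.zero_le _
  · intro j
    rcases hcase j with ⟨h1, _⟩ | ⟨e, _, h2, h3, h4, _⟩
    · rw [h1, MvPolynomial.degreeOf_zero]; exact Nat.zero_le _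
    · rw [h2]
      refine (hdeg 1 e).trans ?_
      split_ifs with h
      · exact hb j h3 (by rw [h4]; exact h)
      · exact Nat.zero_le _
  · intro i j hi _
    rcases hcase j with ⟨h1, _⟩ | ⟨e, _, h2, h3, h4, _⟩
    · rw [h1, MvPolynomial.degreeOf_zero]; exact Nat.zero_le _
    · rw [h2]
      refine (hdeg i e).trans ?_
      split_ifs with h
      · exact ho j h3 (by rw [h4, h]; exact hi)
      · exact Nat.zero_le _
  · intro i j hi
    rcases hcase j with ⟨h1, _⟩ | ⟨e, h1, h2, _, _, _⟩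
    · rw [h1, MvPolynomial.degreeOf_zero]
    · rw [h2]
      refine Nat.le_zero.1 ((hdeg i e).trans ?_)
      rw [if_neg (by have := hv e h1; omega)]
  · intro j
    rcases hcase j with ⟨h1, _⟩ | ⟨e, h1, h2, _, _, _⟩
    · rw [h1]; simp [nb]
    · rw [h2]
      have h3 : nb (X e.2 : MvPolynomial ℕ ℤ) ≤ 1 := (AlgM.nb_monomial _ _).trans (by simp)
      calc nb (C e.1 * X e.2 : MvPolynomial ℕ ℤ) ≤ nb (C e.1 : MvPolynomial ℕ ℤ) * nb (X e.2 : MvPolynomial ℕ ℤ) :=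
            nb_mul _ _
        _ ≤ 1 * 1 := Nat.mul_le_mul ((nb_C _).trans (hc e h1)) h3
        _ = 1 := rfl

end EnvM

open EnvM

/-- Parameters with two inner and ten outer variables. -/
structure P12 (p : Pm) (ra rb ro : ℕ) : Prop where
  ok : p.OK
  rd : RdOK p ra rb ro
  hl : p.rs.length = 12

theorem P12.e0 {p : Pm} {ra rb ro : ℕ} (h : P12 p ra rb ro) : EnvOK p (envL p.rs p.S p.B vl0) wA wB wO (sgP vl0) := by
  refine envOK_mk p vl0 wA wB wO (by decide) ?_ (by decide) (by decide) (by decide)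
  rw [h.hl]; decide

theorem P12.e1 {p : Pm} {ra rb ro : ℕ} (h : P12 p ra rb ro) : EnvOK p (envL p.rs p.S p.B vl1) wB wA wO (sgP vl1) := by
  refine envOK_mk p vl1 wB wA wO (by decide) ?_ (by decide) (by decide) (by decide)
  rw [h.hl]; decide

/-- The whole check: `G` in both environments, `G0` in the first. -/
noncomputable def chk (p : Pm) (ra rb ro : ℕ) (G G0 : Ex) (ms : List MB) : Bool :=
  exC wA wB wO ra rb ro (fun s1 => exC wB wA wO ra rb ro (fun s2 => exC wA wB wO ra rb ro (fun s3 =>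
    ckS p.b p.di p.dO (fun s => ifle (Nat.succ (Nat.add (Nat.add (Nat.add s1 s2) s3) s)) p.B
      (mkE p.rs p.S p.B vl0 fun env => mkE p.rs p.S p.B vl1 fun env' =>
        exE env G fun l1 => exE env' G fun l2 => exE env G0 fun l3 =>
        mrgS (-1) 0 l1 [] fun t => mrgS (-1) 0 l2 t fun t => mrgS (-1) 0 l3 t fun t =>
          sosC p.B p.b p.o p.c false allZ ms t) false) ms 0) G0) G) G

/-- **The whole check.** -/
theorem chk_spec {p : Pm} {ra rb ro : ℕ} (h : P12 p ra rb ro) (G G0 : Ex) (ms : List MB)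
    (hck : chk p ra rb ro G G0 ms = true) :
    G.val (sgP vl0) + G.val (sgP vl1) + G0.val (sgP vl0) = p.sosP ms := by
  obtain ⟨a1, a2, a3, h1⟩ := ExM.exC_spec _ _ _ _ _ _ _ _ hck
  obtain ⟨b1, b2, b3, h2⟩ := ExM.exC_spec _ _ _ _ _ _ _ _ h1
  obtain ⟨c1, c2, c3, h3⟩ := ExM.exC_spec _ _ _ _ _ _ _ _ h2
  obtain ⟨h4, h5⟩ := SosM.ckS_spec _ _ _ _ _ _ h3
  obtain ⟨h6, h7⟩ := ifle_true h5
  rw [mkE_eq, mkE_eq] at h7
  obtain ⟨r1, g1, g2⟩ := ExM.ex_good h.e0 G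
  obtain ⟨r2, g3, g4⟩ := ExM.ex_good h.e1 G
  obtain ⟨r3, g5, g6⟩ := ExM.ex_good h.e0 G0
  rw [g1, g3, g5] at h7
  obtain ⟨t1, k1, k2⟩ := mrgS_spec ((p.B : ℤ) ^ p.S) (-1) 0 r1 []
  obtain ⟨t2, k3, k4⟩ := mrgS_spec ((p.B : ℤ) ^ p.S) (-1) 0 r2 t1
  obtain ⟨t3, k5, k6⟩ := mrgS_spec ((p.B : ℤ) ^ p.S) (-1) 0 r3 t2
  rw [k1, k3, k5] at h7
  have hn : ∀ {P : MvPolynomial ℕ ℤ} {v : ℤ} {d : ℕ → ℕ} {m : ℕ}, Good p.rs p.B P v d m →
      Good p.rs p.B (-P) (-v) d m := fun {P v d m} hg =>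
    ⟨by rw [map_neg, hg.hv], fun i => by rw [MvPolynomial.degreeOf_neg]; exact hg.hd i, by rw [nb_neg]; exact hg.hm⟩
  let d : ℕ → ℕ := fun i => max (ExM.dE p.rs.length wA wB wO G i) (max (ExM.dE p.rs.length wB wA wO G i)
    (ExM.dE p.rs.length wA wB wO G0 i))
  have hd : ∀ i, d i < rF p.rs i := fun i => max_lt (ExM.dE_lt h.rd a1 a2 a3 i)
    (max_lt (ExM.dE_lt h.rd b1 b2 b3 i) (ExM.dE_lt h.rd c1 c2 c3 i))
  have hF : Good p.rs p.B (-(G.val (sgP vl0) + G.val (sgP vl1) + G0.val (sgP vl0)))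
      (conc ((p.B : ℤ) ^ p.S) t3) d (G.sz + G.sz + G0.sz) := by
    have q1 := ((g2.mono (e := d) (fun i => le_max_left _ _) (le_refl _)).add
      (g4.mono (e := d) (fun i => (le_max_left _ _).trans (le_max_right _ _)) (le_refl _))).add
      (g6.mono (e := d) (fun i => (le_max_right _ _).trans (le_max_right _ _)) (le_refl _))
    have q2 := hn q1
    have e1 : conc ((p.B : ℤ) ^ p.S) t3 = -(conc ((p.B : ℤ) ^ p.S) r1 + conc ((p.B : ℤ) ^ p.S) r2 +
        conc ((p.B : ℤ) ^ p.S) r3) := by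
      have e0 : conc ((p.B : ℤ) ^ p.S) [] = 0 := rfl
      rw [k6, k4, k2, e0]; ring
    rw [e1]; exact q2
  have h8 := cert p h.ok ms _ t3 (G.sz + G.sz + G0.sz) d hF hd h4 ?_ h7
  · rw [← sub_eq_zero, ← neg_eq_zero]
    rw [← h8]; ring
  · change G.sz + G.sz + G0.sz + (0 + (ms.map (SosM.abMB p.b)).sum) + 1 ≤ p.B at h6
    omega

/-- Evaluation of an expression in the second environment. -/
def swR {R : Type*} [CommRing R] (ρ : ℕ → R) (j : ℕ) : R :=
  match j with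
  | 0 => -ρ 1
  | 1 => -ρ 0
  | 2 => ρ 3
  | 3 => -ρ 2
  | 4 => ρ 5
  | 5 => -ρ 4
  | 6 => -ρ 7
  | 7 => ρ 6
  | 8 => -ρ 9
  | 9 => ρ 8
  | 10 => -ρ 11
  | 11 => ρ 10
  | _ => 0

/-- Evaluation of an expression in the first environment. -/
def idR {R : Type*} [CommRing R] (ρ : ℕ → R) (j : ℕ) : R := if j < 12 then ρ j else 0

theorem ev_CX (ρ : ℕ → ℝ) (c : ℤ) (v : ℕ) : ev ρ (C c * X v) = c * ρ v := by simp [ev]

theorem ev_sgP0 (ρ : ℕ → ℝ) (j : ℕ) : ev ρ (sgP vl0 j) = idR ρ j := by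
  rcases Nat.lt_or_ge j 12 with h | h
  · unfold idR
    rw [if_pos h]
    have h1 : sgP vl0 j = C 1 * X j := by interval_cases j <;> rfl
    rw [h1, ev_CX]; simp
  · unfold idR
    rw [if_neg (by omega)]
    have : ∀ k, nth (0 : MvPolynomial ℕ ℤ) (vl0.map fun e => C e.1 * X e.2) (k + 12) = 0 := fun k => rfl
    obtain ⟨k, rfl⟩ := Nat.exists_eq_add_of_le h
    rw [add_comm]
    unfold sgP
    rw [this, map_zero]

theorem ev_sgP1 (ρ : ℕ → ℝ) (j : ℕ) : ev ρ (sgP vl1 j) = swR ρ j := by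
  rcases Nat.lt_or_ge j 12 with h | h
  · have h1 : sgP vl1 j = C (nth (0, 0) vl1 j).1 * X (nth (0, 0) vl1 j).2 := by interval_cases j <;> rfl
    rw [h1, ev_CX]
    interval_cases j
    · change ((-1 : ℤ) : ℝ) * ρ 1 = -ρ 1; simp
    · change ((-1 : ℤ) : ℝ) * ρ 0 = -ρ 0; simp
    · change ((1 : ℤ) : ℝ) * ρ 3 = ρ 3; simp
    · change ((-1 : ℤ) : ℝ) * ρ 2 = -ρ 2; simp
    · change ((1 : ℤ) : ℝ) * ρ 5 = ρ 5; simp
    · change ((-1 : ℤ) : ℝ) * ρ 4 = -ρ 4; simp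
    · change ((-1 : ℤ) : ℝ) * ρ 7 = -ρ 7; simp
    · change ((1 : ℤ) : ℝ) * ρ 6 = ρ 6; simp
    · change ((-1 : ℤ) : ℝ) * ρ 9 = -ρ 9; simp
    · change ((1 : ℤ) : ℝ) * ρ 8 = ρ 8; simp
    · change ((-1 : ℤ) : ℝ) * ρ 11 = -ρ 11; simp
    · change ((1 : ℤ) : ℝ) * ρ 10 = ρ 10; simp
  · have : ∀ k, nth (0 : MvPolynomial ℕ ℤ) (vl1.map fun e => C e.1 * X e.2) (k + 12) = 0 := fun k => rfl
    have h2 : ∀ k, swR ρ (k + 12) = 0 := fun k => rfl
    obtain ⟨k, rfl⟩ := Nat.exists_eq_add_of_le h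
    rw [add_comm, h2]
    unfold sgP
    rw [this, map_zero]

/-- **The inequality.** -/
theorem chk_ineq {p : Pm} {ra rb ro : ℕ} (h : P12 p ra rb ro) (G G0 : Ex) (ms : List MB)
    (hck : chk p ra rb ro G G0 ms = true) (ρ : ℕ → ℝ) (hm : ∀ x ∈ ms, 0 ≤ ev ρ (p.mP x.m))
    (hps : ∀ x ∈ ms, ∀ y ∈ x.bl, PsdOK p.b p.o y.rows) :
    0 ≤ G.val (idR ρ) + G.val (swR ρ) + G0.val (idR ρ) := by
  have h1 := congrArg (ev ρ) (chk_spec h G G0 ms hck)
  rw [map_add, map_add, Ex.val_map, Ex.val_map, Ex.val_map] at h1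
  have e0 : (fun i => ev ρ (sgP vl0 i)) = idR ρ := funext fun i => ev_sgP0 ρ i
  have e1 : (fun i => ev ρ (sgP vl1 i)) = swR ρ := funext fun i => ev_sgP1 ρ i
  rw [e0, e1] at h1
  rw [h1]
  exact sos_nonneg p ms ρ hm hps

/-- A multiplier, evaluated. -/
theorem mCk_ev {p : Pm} {ra rb ro : ℕ} (h : P12 p ra rb ro) (m : List (ℕ × List (ℕ × ℤ))) (e : Ex)
    (hc : mCk p.B (envL p.rs p.S p.B vl0) p.di p.dO wA wB wO ra rb ro m e = true) (ρ : ℕ → ℝ) :
    ev ρ (p.mP m) = e.val (idR ρ) := by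
  rw [mCk_spec h.ok h.e0 h.rd m e hc, Ex.val_map]
  congr 1
  exact funext fun i => ev_sgP0 ρ i

end Pool.Agent.Lib.MP_084b88_gt.SK
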