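import Pool.Agent.Lib.MP_084b88_gt.SK.Defs

/-!
# MP_084b88_gt, project SK: expressions evaluated in the kernel (kernel functions)
-/

set_option autoImplicit false

namespace Pool.Agent.Lib.MP_084b88_gt.SK

/-- Polynomial expressions. -/
inductive Ex
  | v (i : ℕ)
  | c (n : ℤ)
  | add (x y : Ex)
  | mul (x y : Ex)
  | pow (x : Ex) (n : ℕ)

/-- Element number `i` of a list, by recursors. -/
noncomputable def nth {α : Type} (z : α) (l : List α) : ℕ → α :=
  @List.rec α (fun _ => ℕ → α) (fun _ => z) (fun x _ ih i => @Nat.rec (fun _ => α) x (fun j _ => ih j) i) l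

/-- Powers. -/
noncomputable def powL {α : Type} (l : List (ℕ × ℤ)) (n : ℕ) : (List (ℕ × ℤ) → α) → α :=
  @Nat.rec (fun _ => (List (ℕ × ℤ) → α) → α) (fun k => k [(0, 1)]) (fun _ ih k => ih fun r => mulP r k l []) n

/-- The packed value of an expression. -/
noncomputable def exE {α : Type} (env : List (List (ℕ × ℤ))) (e : Ex) : (List (ℕ × ℤ) → α) → α :=
  @Ex.rec (fun _ => (List (ℕ × ℤ) → α) → α) (fun i k => k (nth [] env i)) (fun c k => k [(0, c)])
    (fun _ _ ihx ihy k => ihx fun lx => ihy fun ly => mrgS 1 0 lx ly k)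
    (fun _ _ ihx ihy k => ihx fun lx => ihy fun ly => mulP ly k lx [])
    (fun _ n ih k => ih fun l => powL l n k) e

/-- A weighted degree. -/
noncomputable def exW {α : Type} (w : List ℕ) (e : Ex) : (ℕ → α) → α :=
  @Ex.rec (fun _ => (ℕ → α) → α) (fun i k => k (nth 0 w i)) (fun _ k => k 0)
    (fun _ _ ihx ihy k => ihx fun a => ihy fun b => ifle a b (k b) (k a))
    (fun _ _ ihx ihy k => ihx fun a => ihy fun b => fN (Nat.add a b) k)
    (fun _ n ih k => ih fun a => fN (Nat.mul n a) k) e

/-- A bound for the sum of the absolute values of the coefficients. -/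
noncomputable def exN {α : Type} (e : Ex) : (ℕ → α) → α :=
  @Ex.rec (fun _ => (ℕ → α) → α) (fun _ k => k 1) (fun c k => fN (iabs c) k)
    (fun _ _ ihx ihy k => ihx fun a => ihy fun b => fN (Nat.add a b) k)
    (fun _ _ ihx ihy k => ihx fun a => ihy fun b => fN (Nat.mul a b) k)
    (fun _ n ih k => ih fun a => fN (Nat.pow a n) k) e

/-- The degrees of `e` are small enough: `ra, rb, ro` radices; returns the size. -/
noncomputable def exC (wa wb wo : List ℕ) (ra rb ro : ℕ) (k : ℕ → Bool) (e : Ex) : Bool :=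
  exW wa e fun da => ifle (Nat.succ da) ra (exW wb e fun db => ifle (Nat.succ db) rb
    (exW wo e fun d => ifle (Nat.succ d) ro (exN e k) false) false) false

end Pool.Agent.Lib.MP_084b88_gt.SK
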