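import Pool.Agent.Lib.MP_084b88_gt.SK.Cert
import Pool.Agent.Lib.MP_084b88_gt.SK.ExD

/-!
# MP_084b88_gt, project SK: expressions evaluated in the kernel (soundness)
-/

set_option autoImplicit false

open MvPolynomial

namespace Pool.Agent.Lib.MP_084b88_gt.SK

/-- The value of an expression. -/
def Ex.val {R : Type*} [CommRing R] (σ : ℕ → R) : Ex → R
  | .v i => σ i
  | .c n => (n : R)
  | .add x y => x.val σ + y.val σ
  | .mul x y => x.val σ * y.val σ
  | .pow x n => x.val σ ^ n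

theorem Ex.val_map {R S : Type*} [CommRing R] [CommRing S] (f : R →+* S) (σ : ℕ → R) (e : Ex) :
    f (e.val σ) = e.val fun i => f (σ i) := by
  induction e with
  | v i => rfl
  | c n => simp [Ex.val]
  | add x y ihx ihy => simp [Ex.val, ihx, ihy]
  | mul x y ihx ihy => simp [Ex.val, ihx, ihy]
  | pow x n ih => simp [Ex.val, ih]

/-- Weighted degree. -/
def Ex.wd (w : ℕ → ℕ) : Ex → ℕ
  | .v i => w i
  | .c _ => 0
  | .add x y => max (x.wd w) (y.wd w)
  | .mul x y => x.wd w + y.wd w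
  | .pow x n => n * x.wd w

/-- Size. -/
def Ex.sz : Ex → ℕ
  | .v _ => 1
  | .c n => n.natAbs
  | .add x y => x.sz + y.sz
  | .mul x y => x.sz * y.sz
  | .pow x n => x.sz ^ n

theorem Ex.wd_mono {w w' : ℕ → ℕ} (h : ∀ i, w i ≤ w' i) (e : Ex) : e.wd w ≤ e.wd w' := by
  induction e with
  | v i => exact h i
  | c n => exact le_refl _
  | add x y ihx ihy => exact max_le_max ihx ihy
  | mul x y ihx ihy => exact Nat.add_le_add ihx ihy
  | pow x n ih => exact Nat.mul_le_mul_left _ ih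

theorem Ex.wd_zero (e : Ex) : e.wd (fun _ => 0) = 0 := by
  induction e with
  | v i => rfl
  | c n => rfl
  | add x y ihx ihy => simp [Ex.wd, ihx, ihy]
  | mul x y ihx ihy => simp [Ex.wd, ihx, ihy]
  | pow x n ih => simp [Ex.wd, ih]

theorem Ex.deg (i : ℕ) (σ : ℕ → MvPolynomial ℕ ℤ) (w : ℕ → ℕ) (h : ∀ j, (σ j).degreeOf i ≤ w j) (e : Ex) :
    (e.val σ).degreeOf i ≤ e.wd w := by
  induction e with
  | v j => exact h j
  | c n =>
    have : ((n : ℤ) : MvPolynomial ℕ ℤ) = C n := by simp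
    change (((n : ℤ) : MvPolynomial ℕ ℤ)).degreeOf i ≤ 0
    rw [this, PolM.deg_C]
  | add x y ihx ihy => exact (MvPolynomial.degreeOf_add_le i _ _).trans (max_le_max ihx ihy)
  | mul x y ihx ihy => exact (MvPolynomial.degreeOf_mul_le i _ _).trans (Nat.add_le_add ihx ihy)
  | pow x n ih => exact (MvPolynomial.degreeOf_pow_le i _ _).trans (Nat.mul_le_mul_left _ ih)

theorem Ex.nb_le (σ : ℕ → MvPolynomial ℕ ℤ) (h : ∀ j, nb (σ j) ≤ 1) (e : Ex) : nb (e.val σ) ≤ e.sz := by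
  induction e with
  | v j => exact h j
  | c n =>
    have : ((n : ℤ) : MvPolynomial ℕ ℤ) = C n := by simp
    change nb (((n : ℤ) : MvPolynomial ℕ ℤ)) ≤ n.natAbs
    rw [this]; exact nb_C n
  | add x y ihx ihy => exact (nb_add _ _).trans (Nat.add_le_add ihx ihy)
  | mul x y ihx ihy => exact (nb_mul _ _).trans (Nat.mul_le_mul ihx ihy)
  | pow x n ih =>
    change nb (x.val σ ^ n) ≤ x.sz ^ n
    induction n with
    | zero =>
      rw [pow_zero, pow_zero]
      exact (nb_C 1).trans (by simp)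
    | succ n ihn =>
      rw [pow_succ, pow_succ]
      exact (nb_mul _ _).trans (Nat.mul_le_mul ihn ih)

/-! ### Kernel functions -/

namespace ExM

theorem powL_spec (O : ℤ) (l : List (ℕ × ℤ)) (n : ℕ) : ∃ r,
    (∀ {α : Type} (k : List (ℕ × ℤ) → α), powL l n k = k r) ∧ conc O r = conc O l ^ n := by
  induction n with
  | zero => exact ⟨[(0, 1)], fun k => rfl, by simp [conc]⟩
  | succ n ih =>
    obtain ⟨r1, h1, h2⟩ := ih
    obtain ⟨r2, h3, h4⟩ := SosM.mulP_spec O r1 l []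
    refine ⟨r2, fun k => ?_, ?_⟩
    · have : powL l (n + 1) k = powL l n fun r => mulP r k l [] := rfl
      rw [this, h1]; exact h3 k
    · have e0 : conc O [] = 0 := rfl
      rw [h4, h2, e0, zero_add, pow_succ, mul_comm]

theorem exE_spec (O : ℤ) (env : List (List (ℕ × ℤ))) (e : Ex) : ∃ r,
    (∀ {α : Type} (k : List (ℕ × ℤ) → α), exE env e k = k r) ∧
      conc O r = e.val fun i => conc O (nth [] env i) := by
  induction e with
  | v i => exact ⟨nth [] env i, fun k => rfl, rfl⟩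
  | c n => exact ⟨[(0, n)], fun k => rfl, by simp [conc, Ex.val]⟩
  | add x y ihx ihy =>
    obtain ⟨r1, h1, h2⟩ := ihx
    obtain ⟨r2, h3, h4⟩ := ihy
    obtain ⟨r3, h5, h6⟩ := mrgS_spec O 1 0 r1 r2
    refine ⟨r3, fun k => ?_, ?_⟩
    · have : exE env (.add x y) k = exE env x fun lx => exE env y fun ly => mrgS 1 0 lx ly k := rfl
      rw [this, h1, h3]; exact h5 k
    · rw [h6, h2, h4]; simp only [Ex.val]; ring
  | mul x y ihx ihy =>
    obtain ⟨r1, h1, h2⟩ := ihx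
    obtain ⟨r2, h3, h4⟩ := ihy
    obtain ⟨r3, h5, h6⟩ := SosM.mulP_spec O r2 r1 []
    refine ⟨r3, fun k => ?_, ?_⟩
    · have : exE env (.mul x y) k = exE env x fun lx => exE env y fun ly => mulP ly k lx [] := rfl
      rw [this, h1, h3]; exact h5 k
    · have e0 : conc O [] = 0 := rfl
      rw [h6, h2, h4, e0]; simp only [Ex.val]; ring
  | pow x n ih =>
    obtain ⟨r1, h1, h2⟩ := ih
    obtain ⟨r2, h3, h4⟩ := powL_spec O r1 n
    refine ⟨r2, fun k => ?_, ?_⟩
    · have : exE env (.pow x n) k = exE env x fun l => powL l n k := rfl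
      rw [this, h1]; exact h3 k
    · rw [h4, h2]; rfl

theorem exW_spec {α : Type} (w : List ℕ) (e : Ex) : ∀ k : ℕ → α, exW w e k = k (e.wd (nth 0 w)) := by
  induction e with
  | v i => intro k; rfl
  | c n => intro k; rfl
  | add x y ihx ihy =>
    intro k
    have : exW w (.add x y) k = exW w x fun a => exW w y fun b => ifle a b (k b) (k a) := rfl
    rw [this, ihx, ihy, ifle_eq]
    simp only [Ex.wd]
    split_ifs with h
    · rw [max_eq_right h]
    · rw [max_eq_left (le_of_not_ge h)]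
  | mul x y ihx ihy =>
    intro k
    have : exW w (.mul x y) k = exW w x fun a => exW w y fun b => fN (Nat.add a b) k := rfl
    rw [this, ihx, ihy, fN_eq]; rfl
  | pow x n ih =>
    intro k
    have : exW w (.pow x n) k = exW w x fun a => fN (Nat.mul n a) k := rfl
    rw [this, ih, fN_eq]; rfl

theorem exN_spec {α : Type} (e : Ex) : ∀ k : ℕ → α, exN e k = k e.sz := by
  induction e with
  | v i => intro k; rfl
  | c n =>
    intro k
    have : exN (.c n) k = fN (iabs n) k := rfl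
    rw [this, fN_eq, SosM.iabs_eq]; rfl
  | add x y ihx ihy =>
    intro k
    have : exN (.add x y) k = exN x fun a => exN y fun b => fN (Nat.add a b) k := rfl
    rw [this, ihx, ihy, fN_eq]; rfl
  | mul x y ihx ihy =>
    intro k
    have : exN (.mul x y) k = exN x fun a => exN y fun b => fN (Nat.mul a b) k := rfl
    rw [this, ihx, ihy, fN_eq]; rfl
  | pow x n ih =>
    intro k
    have : exN (.pow x n) k = exN x fun a => fN (Nat.pow a n) k := rfl
    rw [this, ih, fN_eq]; rfl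

theorem exC_spec (wa wb wo : List ℕ) (ra rb ro : ℕ) (k : ℕ → Bool) (e : Ex) (h : exC wa wb wo ra rb ro k e = true) :
    e.wd (nth 0 wa) < ra ∧ e.wd (nth 0 wb) < rb ∧ e.wd (nth 0 wo) < ro ∧ k e.sz = true := by
  unfold exC at h
  rw [exW_spec] at h
  obtain ⟨h1, h2⟩ := ifle_true h
  rw [exW_spec] at h2
  obtain ⟨h3, h4⟩ := ifle_true h2
  rw [exW_spec] at h4
  obtain ⟨h5, h6⟩ := ifle_true h4
  rw [exN_spec] at h6
  exact ⟨h1, h3, h5, h6⟩

end ExM

open ExM

/-- Environments: packed values, polynomials, degrees. -/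
structure EnvOK (p : Pm) (env : List (List (ℕ × ℤ))) (wa wb wo : List ℕ) (σ : ℕ → MvPolynomial ℕ ℤ) : Prop where
  hh : ∀ j, hat (rF p.rs) p.B (σ j) = conc ((p.B : ℤ) ^ p.S) (nth [] env j)
  ha : ∀ j, (σ j).degreeOf 0 ≤ nth 0 wa j
  hb : ∀ j, (σ j).degreeOf 1 ≤ nth 0 wb j
  ho : ∀ i j, 2 ≤ i → i < p.rs.length → (σ j).degreeOf i ≤ nth 0 wo j
  hz : ∀ i j, p.rs.length ≤ i → (σ j).degreeOf i = 0
  hn : ∀ j, nb (σ j) ≤ 1

/-- The radices are `ra, rb` and then at least `ro`. -/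
structure RdOK (p : Pm) (ra rb ro : ℕ) : Prop where
  ha : rF p.rs 0 = ra
  hb : rF p.rs 1 = rb
  ho : ∀ i, 2 ≤ i → i < p.rs.length → ro ≤ rF p.rs i
  hl : 2 ≤ p.rs.length

namespace ExM

/-- The degrees of an expression as a function. -/
noncomputable def dE (n : ℕ) (wa wb wo : List ℕ) (e : Ex) (i : ℕ) : ℕ :=
  if i = 0 then e.wd (nth 0 wa) else if i = 1 then e.wd (nth 0 wb) else if i < n then e.wd (nth 0 wo) else 0

theorem ex_good {p : Pm} {env : List (List (ℕ × ℤ))} {wa wb wo : List ℕ} {σ : ℕ → MvPolynomial ℕ ℤ}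
    (hE : EnvOK p env wa wb wo σ) (e : Ex) :
    ∃ r, (∀ {α : Type} (k : List (ℕ × ℤ) → α), exE env e k = k r) ∧
      Good p.rs p.B (e.val σ) (conc ((p.B : ℤ) ^ p.S) r) (dE p.rs.length wa wb wo e) e.sz := by
  obtain ⟨r, h1, h2⟩ := exE_spec ((p.B : ℤ) ^ p.S) env e
  refine ⟨r, fun k => h1 k, ?_, ?_, Ex.nb_le σ hE.hn e⟩
  · rw [Ex.val_map, h2]
    congr 1
    funext i
    exact hE.hh i
  · intro i
    unfold dE
    split_ifs with h3 h4 h5
    · rw [h3]; exact Ex.deg 0 σ _ hE.ha e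
    · rw [h4]; exact Ex.deg 1 σ _ hE.hb e
    · exact Ex.deg i σ _ (fun j => hE.ho i j (by omega) h5) e
    · refine (Ex.deg i σ (fun _ => 0) (fun j => le_of_eq (hE.hz i j (by omega))) e).trans ?_
      rw [Ex.wd_zero]

theorem dE_lt {p : Pm} {ra rb ro : ℕ} (hr : RdOK p ra rb ro) {wa wb wo : List ℕ} {e : Ex}
    (h1 : e.wd (nth 0 wa) < ra) (h2 : e.wd (nth 0 wb) < rb) (h3 : e.wd (nth 0 wo) < ro) (i : ℕ) :
    dE p.rs.length wa wb wo e i < rF p.rs i := by
  unfold dE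
  split_ifs with h4 h5 h6
  · rw [h4, hr.ha]; exact h1
  · rw [h5, hr.hb]; exact h2
  · exact lt_of_lt_of_le h3 (hr.ho i (by omega) h6)
  · rw [SosM.rF_one p.rs i (by omega)]; omega

end ExM

/-- `x ↦ -x` on the difference: check that the multiplier `m` is the expression `e`. -/
noncomputable def mCk (B : ℕ) (env : List (List (ℕ × ℤ))) (di dO : List Dg) (wa wb wo : List ℕ) (ra rb ro : ℕ)
    (m : List (ℕ × List (ℕ × ℤ))) (e : Ex) : Bool :=
  exC wa wb wo ra rb ro (fun s => ckM (di.map fun d => (d.r, d.m)) (dO.map fun d => (d.r, d.m))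
    (fun t => ifle (Nat.succ (Nat.add s t)) B
      (pkE B m fun lm => exE env e fun l => mrgS (-1) 0 l lm allZ) false) m 0) e

/-- A checked multiplier. -/
theorem mCk_spec {p : Pm} (hp : p.OK) {env : List (List (ℕ × ℤ))} {wa wb wo : List ℕ} {σ : ℕ → MvPolynomial ℕ ℤ}
    (hE : EnvOK p env wa wb wo σ) {ra rb ro : ℕ} (hr : RdOK p ra rb ro) (m : List (ℕ × List (ℕ × ℤ))) (e : Ex)
    (h : mCk p.B env p.di p.dO wa wb wo ra rb ro m e = true) : p.mP m = e.val σ := by
  obtain ⟨h1, h2, h3, h4⟩ := exC_spec _ _ _ _ _ _ _ _ h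
  obtain ⟨h5, h6⟩ := SosM.ckM_spec _ _ _ _ _ h4
  obtain ⟨h7, h8⟩ := ifle_true h6
  rw [SosM.pkE_eq] at h8
  obtain ⟨r, h9, h10⟩ := ex_good hE e
  rw [h9] at h8
  obtain ⟨r2, h11, h12⟩ := mrgS_spec ((p.B : ℤ) ^ p.S) (-1) 0 r (m.map fun e => (e.1, pkv (p.B : ℤ) e.2))
  rw [h11] at h8
  have h13 := SosM.allZ_spec ((p.B : ℤ) ^ p.S) r2 h8
  rw [h12] at h13
  have hm := SosM.mP_good hp m h5
  have hneg : Good p.rs p.B (-(e.val σ)) (-(conc ((p.B : ℤ) ^ p.S) r)) (dE p.rs.length wa wb wo e) e.sz :=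
    ⟨by rw [map_neg, h10.hv], fun i => by rw [MvPolynomial.degreeOf_neg]; exact h10.hd i, by
      rw [nb_neg]; exact h10.hm⟩
  have hdm : ∀ i, dF p.dm i < rF p.rs i := fun i => lt_of_le_of_lt (Nat.le_add_right _ _) (SosM.dF_lt hp i)
  have hde := dE_lt hr h1 h2 h3
  have h14 := (hm.mono (fun i => le_max_left (dF p.dm i) (dE p.rs.length wa wb wo e i)) (le_refl _)).add
    (hneg.mono (fun i => le_max_right (dF p.dm i) (dE p.rs.length wa wb wo e i)) (le_refl _))
  have h15 : p.mP m + -(e.val σ) = 0 := by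
    refine zero_of_hat (rF p.rs) p.rs.length p.B (fun i hi => SosM.rF_one p.rs i hi) _
      (fun i => lt_of_le_of_lt (h14.hd i) (max_lt (hdm i) (hde i))) (lt_of_le_of_lt (Int.ofNat_le.2 h14.hm)
        (Int.ofNat_lt.2 ?_)) ?_
    · change e.sz + (0 + SosM.abE m) + 1 ≤ p.B at h7
      omega
    · rw [h14.hv]
      have : conc ((p.B : ℤ) ^ p.S) (m.map fun e => (e.1, pkv (p.B : ℤ) e.2)) + -conc ((p.B : ℤ) ^ p.S) r =
        (-1) * ((p.B : ℤ) ^ p.S) ^ 0 * conc ((p.B : ℤ) ^ p.S) r +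
          conc ((p.B : ℤ) ^ p.S) (m.map fun e => (e.1, pkv (p.B : ℤ) e.2)) := by ring
      rw [this]; exact h13
  rw [← sub_eq_zero, sub_eq_add_neg]; exact h15

end Pool.Agent.Lib.MP_084b88_gt.SK
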