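import Pool.Agent.Lib.MP_084b88_gt.SK.KQE

/-!
# MP_084b88_gt, project SK: from the checks to the kernel inequality
-/

set_option autoImplicit false

open MeasureTheory Set Real Filter Topology
open scoped Pointwise InnerProductSpace

namespace Pool.Agent.Lib.MP_084b88_gt.SK

open Pool.Agent.Lib.MP_084b88_gt.CW Pool.Agent.Lib.MP_084b88_gt.SY Pool.Agent.Lib.MP_084b88_gt.AY

/-- `1 - x² - y²`. -/
def cirE (i k : ℕ) : Ex := subE (Ex.c 1) (Ex.add (sqE i) (sqE k))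

/-- `2 det² - |y - b x|²`. -/
def cplE (i k l m n : ℕ) : Ex :=
  subE (smE 2 (Ex.pow (subE (Ex.mul (Ex.v i) (Ex.v m)) (Ex.mul (Ex.v k) (Ex.v l))) 2))
    (Ex.add (Ex.pow (subE (Ex.v l) (Ex.mul (Ex.v n) (Ex.v i))) 2)
      (Ex.pow (subE (Ex.v m) (Ex.mul (Ex.v n) (Ex.v k))) 2))

/-- The nonnegative atoms: `A, B, A² - 4a²e², B² - 4b²f², 1 - 9g², 1 - 9h², 2|x|² - 1, 1 - |x|², 2|y|² - 1, 1 - |y|²,
2 det² - |y - b x|², 2 det² - |x - a y|²`. -/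
def atoms : List Ex :=
  [cirE 0 2, cirE 1 3,
    subE (Ex.pow (cirE 0 2) 2) (smE 4 (Ex.mul (sqE 0) (sqE 2))),
    subE (Ex.pow (cirE 1 3) 2) (smE 4 (Ex.mul (sqE 1) (sqE 3))),
    subE (Ex.c 1) (smE 9 (sqE 4)), subE (Ex.c 1) (smE 9 (sqE 5)),
    subE (smE 2 (Ex.add (sqE 9) (sqE 11))) (Ex.c 1), cirE 9 11,
    subE (smE 2 (Ex.add (sqE 8) (sqE 10))) (Ex.c 1), cirE 8 10, cplE 9 11 8 10 1, cplE 8 10 9 11 0]

/-- A product of atoms. -/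
noncomputable def muE (l : List ℕ) : Ex :=
  @List.rec ℕ (fun _ => Ex) (Ex.c 1) (fun i _ ih => Ex.mul (nth (Ex.c 1) atoms i) ih) l

/-- All multipliers are products of atoms. -/
noncomputable def mckA (p : Pm) (ra rb ro : ℕ) (l : List (List ℕ × MB)) : Bool :=
  mkE p.rs p.S p.B vl0 fun env => @List.rec (List ℕ × MB) (fun _ => Bool) true
    (fun x _ ih => @Bool.rec (fun _ => Bool) false ih (mCk p.B env p.di p.dO wA wB wO ra rb ro x.2.m (muE x.1))) l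

namespace FinM

theorem cir_nonneg {x y : ℝ} (h : |x| + |y| ≤ 1) : 0 ≤ 1 - x ^ 2 - y ^ 2 := by
  have h1 := abs_nonneg x
  have h2 := abs_nonneg y
  nlinarith [sq_abs x, sq_abs y, mul_nonneg h1 h2]

theorem cir2_nonneg {x y : ℝ} (h : |x| + |y| ≤ 1) : 0 ≤ (1 - x ^ 2 - y ^ 2) ^ 2 - 4 * (x ^ 2 * y ^ 2) := by
  have h1 := abs_nonneg x
  have h2 := abs_nonneg y
  have e : (1 - x ^ 2 - y ^ 2) ^ 2 - 4 * (x ^ 2 * y ^ 2) = (1 - (|x| + |y|) ^ 2) * (1 - (|x| - |y|) ^ 2) := by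
    rw [← sq_abs x, ← sq_abs y]; ring
  rw [e]
  refine mul_nonneg ?_ ?_
  · nlinarith
  · have : |(|x| - |y|)| ≤ 1 := by rw [abs_le]; constructor <;> linarith
    nlinarith [sq_abs (|x| - |y|), abs_nonneg (|x| - |y|)]

theorem atoms_nonneg (D1 D2 : ℝ) (d : Dt) (h : Dom (1 / 3) (1 / 2) 1 d) (i : ℕ) :
    0 ≤ (nth (Ex.c 1) atoms i).val (rho D1 D2 d) := by
  have hgt : d.gt ^ 2 ≤ 1 / 9 := by
    have := h.gt
    nlinarith [sq_abs d.gt, abs_nonneg d.gt]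
  have hgs : d.gs ^ 2 ≤ 1 / 9 := by
    have := h.gs
    nlinarith [sq_abs d.gs, abs_nonneg d.gs]
  have hx1 := h.x1
  have hx2 := h.x2
  have hy1 := h.y1
  have hy2 := h.y2
  have hA := cir_nonneg h.ae
  have hB := cir_nonneg h.bf
  have hA2 := cir2_nonneg h.ae
  have hB2 := cir2_nonneg h.bf
  rcases Nat.lt_or_ge i 12 with hi | hi
  · interval_cases i
    · change 0 ≤ (cirE 0 2).val (rho D1 D2 d)
      simp only [cirE, subE, sqE, Ex.val, rho]; push_cast; linarith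
    · change 0 ≤ (cirE 1 3).val (rho D1 D2 d)
      simp only [cirE, subE, sqE, Ex.val, rho]; push_cast; linarith
    · change 0 ≤ (subE (Ex.pow (cirE 0 2) 2) (smE 4 (Ex.mul (sqE 0) (sqE 2)))).val (rho D1 D2 d)
      simp only [cirE, subE, smE, sqE, Ex.val, rho]; push_cast
      have : (1 + -1 * (d.a ^ 2 + d.e ^ 2)) ^ 2 + -1 * (4 * (d.a ^ 2 * d.e ^ 2)) =
        (1 - d.a ^ 2 - d.e ^ 2) ^ 2 - 4 * (d.a ^ 2 * d.e ^ 2) := by ring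
      rw [this]; exact hA2
    · change 0 ≤ (subE (Ex.pow (cirE 1 3) 2) (smE 4 (Ex.mul (sqE 1) (sqE 3)))).val (rho D1 D2 d)
      simp only [cirE, subE, smE, sqE, Ex.val, rho]; push_cast
      have : (1 + -1 * (d.b ^ 2 + d.f ^ 2)) ^ 2 + -1 * (4 * (d.b ^ 2 * d.f ^ 2)) =
        (1 - d.b ^ 2 - d.f ^ 2) ^ 2 - 4 * (d.b ^ 2 * d.f ^ 2) := by ring
      rw [this]; exact hB2
    · change 0 ≤ (subE (Ex.c 1) (smE 9 (sqE 4))).val (rho D1 D2 d)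
      simp only [subE, smE, sqE, Ex.val, rho]; push_cast; linarith
    · change 0 ≤ (subE (Ex.c 1) (smE 9 (sqE 5))).val (rho D1 D2 d)
      simp only [subE, smE, sqE, Ex.val, rho]; push_cast; linarith
    · change 0 ≤ (subE (smE 2 (Ex.add (sqE 9) (sqE 11))) (Ex.c 1)).val (rho D1 D2 d)
      simp only [subE, smE, sqE, Ex.val, rho]; push_cast; linarith
    · change 0 ≤ (cirE 9 11).val (rho D1 D2 d)
      simp only [cirE, subE, sqE, Ex.val, rho]; push_cast; linarith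
    · change 0 ≤ (subE (smE 2 (Ex.add (sqE 8) (sqE 10))) (Ex.c 1)).val (rho D1 D2 d)
      simp only [subE, smE, sqE, Ex.val, rho]; push_cast; linarith
    · change 0 ≤ (cirE 8 10).val (rho D1 D2 d)
      simp only [cirE, subE, sqE, Ex.val, rho]; push_cast; linarith
    · change 0 ≤ (cplE 9 11 8 10 1).val (rho D1 D2 d)
      simp only [cplE, subE, smE, Ex.val, rho]; push_cast
      have := h.b1
      linarith
    · change 0 ≤ (cplE 8 10 9 11 0).val (rho D1 D2 d)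
      simp only [cplE, subE, smE, Ex.val, rho]; push_cast
      have := h.a1
      have e1 : (d.y1 * d.x2 + -1 * (d.y2 * d.x1)) ^ 2 = (d.x1 * d.y2 - d.x2 * d.y1) ^ 2 := by ring
      rw [e1]
      linarith
  · obtain ⟨k, rfl⟩ := Nat.exists_eq_add_of_le hi
    rw [add_comm]
    change 0 ≤ (Ex.c 1).val (rho D1 D2 d)
    simp [Ex.val]

theorem muE_nonneg (D1 D2 : ℝ) (d : Dt) (h : Dom (1 / 3) (1 / 2) 1 d) (l : List ℕ) :
    0 ≤ (muE l).val (rho D1 D2 d) := by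
  induction l with
  | nil => simp [muE, Ex.val]
  | cons i l ih =>
    have : muE (i :: l) = Ex.mul (nth (Ex.c 1) atoms i) (muE l) := rfl
    rw [this]
    exact mul_nonneg (atoms_nonneg D1 D2 d h i) ih

theorem mckA_spec (p : Pm) (ra rb ro : ℕ) (l : List (List ℕ × MB)) (h : mckA p ra rb ro l = true) :
    ∀ x ∈ l, mCk p.B (envL p.rs p.S p.B vl0) p.di p.dO wA wB wO ra rb ro x.2.m (muE x.1) = true := by
  unfold mckA at h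
  rw [EnvM.mkE_eq] at h
  induction l with
  | nil => intro x hx; simp at hx
  | cons y l ih =>
    obtain ⟨h1, h2⟩ := SosM.brec_true h
    intro x hx
    rcases List.mem_cons.1 hx with h3 | h3
    · rw [h3]; exact h1
    · exact ih h2 x h3

end FinM

open FinM

/-- **From the checks to the kernel inequality.** -/
theorem cert_ineq {p : Pm} {ra rb ro : ℕ} (hp : P12 p ra rb ro) (kp : KP) (ns : List NI) (G0 : Ex)
    (ml : List (List ℕ × MB)) (hck : chk p ra rb ro (Ex.add (kqE kp) (nsE ns)) G0 (ml.map Prod.snd) = true)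
    (hmc : mckA p ra rb ro ml = true) (hps : ∀ x ∈ ml, ∀ y ∈ x.2.bl, PsdOK p.b p.o y.rows)
    (D1 D2 : ℝ) (d : Dt) (hd : Dom (1 / 3) (1 / 2) 1 d) :
    0 ≤ (kqE kp).val (rho D1 D2 d) + (kqE kp).val (rho D1 D2 d.sw) + nsV D1 D2 ns d + nsV D1 D2 ns d.sw +
      G0.val (rho D1 D2 d) := by
  have h1 := chk_ineq hp (Ex.add (kqE kp) (nsE ns)) G0 (ml.map Prod.snd) hck (rho D1 D2 d) (fun x hx => by
    obtain ⟨y, hy, rfl⟩ := List.mem_map.1 hx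
    rw [mCk_ev hp y.2.m (muE y.1) (mckA_spec p ra rb ro ml hmc y hy), idR_rho]
    exact muE_nonneg D1 D2 d hd y.1) (fun x hx y hy => by
    obtain ⟨z, hz, rfl⟩ := List.mem_map.1 hx
    exact hps z hz y hy)
  rw [idR_rho, swR_rho] at h1
  simp only [Ex.val, NIM.nsE_val] at h1
  linarith

/-- Monotonicity of the kernel in `Φ`. -/
theorem KQ_mono (rc rs aS aR κ0 : ℝ) (U : ℝ → ℝ) (Φ Φ' μ1 μ2 : ℝ → ℝ → ℝ → ℝ) (d : Dt) (h : |d.a| + |d.e| ≤ 1)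
    (hΦ : Φ' d.x1 d.x2 d.gt ≤ Φ d.x1 d.x2 d.gt) :
    KQ 3 rc rs aS aR κ0 U Φ' μ1 μ2 d ≤ KQ 3 rc rs aS aR κ0 U Φ μ1 μ2 d := by
  unfold KQ mlt
  have h1 := cir_nonneg h
  have h2 := mul_le_mul_of_nonneg_right hΦ h1
  nlinarith

theorem sw_dom {d : Dt} (h : Dom (1 / 3) (1 / 2) 1 d) : Dom (1 / 3) (1 / 2) 1 d.sw := by
  constructor
  · simpa [Dt.sw] using h.bf
  · simpa [Dt.sw] using h.ae
  · simpa [Dt.sw] using h.gs
  · simpa [Dt.sw] using h.gt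
  · simpa [Dt.sw] using h.y1
  · simpa [Dt.sw] using h.y2
  · simpa [Dt.sw] using h.x1
  · simpa [Dt.sw] using h.x2
  · have := h.det
    simp only [Dt.sw]; linarith
  · have := h.a1
    simp only [Dt.sw]
    have e1 : d.y1 * -d.x2 - d.y2 * -d.x1 = d.x1 * d.y2 - d.x2 * d.y1 := by ring
    have e2 : (-d.x1 - -d.a * d.y1) ^ 2 + (-d.x2 - -d.a * d.y2) ^ 2 = (d.x1 - d.a * d.y1) ^ 2 + (d.x2 - d.a * d.y2) ^ 2 := by
      ring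
    rw [e1, e2]; exact this
  · have := h.b1
    simp only [Dt.sw]
    have e1 : d.y1 * -d.x2 - d.y2 * -d.x1 = d.x1 * d.y2 - d.x2 * d.y1 := by ring
    have e2 : (d.y1 - -d.b * -d.x1) ^ 2 + (d.y2 - -d.b * -d.x2) ^ 2 = (d.y1 - d.b * d.x1) ^ 2 + (d.y2 - d.b * d.x2) ^ 2 := by
      ring
    rw [e1, e2]; exact this

theorem div_split (c : ℝ) (hc : c ≠ 0) (K K' n n' g : ℝ) :
    (c * K + c * K' + n + n' + g) / c = K + K' + 1 / c * n + 1 / c * n' + g / c := by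
  field_simp

/-- Real parameters. -/
structure RP where
  c1 : ℝ
  c2 : ℝ
  rc : ℝ
  rs : ℝ
  aS : ℝ
  aR : ℝ
  κ0 : ℝ
  u0 : ℝ
  u1 : ℝ
  u2 : ℝ
  u3 : ℝ

/-- The integer parameters belong to the real ones. -/
structure Lnk (p : KP) (q : RP) : Prop where
  hc1 : 0 < q.c1
  hc2 : 0 < q.c2
  e0 : (p.c1 : ℝ) = q.c1
  e1 : (p.rc : ℝ) = q.c1 * q.rc
  e2 : (p.rs : ℝ) = q.c1 * q.rs
  g1 : (p.h1 : ℝ) = q.c2 * q.aS / 48
  g2 : (p.h2 : ℝ) = q.c2 * q.aR / 960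
  g3 : (p.h3 : ℝ) = q.c2 * q.aR / 7168
  k0 : (p.t0 : ℝ) = q.c2 * q.aR * (q.κ0 - q.u0 + 149 / 1024)
  k1 : (p.t1 : ℝ) = q.c2 * q.aR * (-q.u1 - 1 / 2)
  k2 : (p.t2 : ℝ) = q.c2 * q.aR * (-q.u2 - 1 / 8)
  k3 : (p.t3 : ℝ) = q.c2 * q.aR * (-q.u3 - 1 / 16)

/-- The polynomial `U`. -/
def UU (q : RP) (y : ℝ) : ℝ := q.u0 + q.u1 * y + q.u2 * y ^ 2 + q.u3 * y ^ 3

/-- **From the checks to the kernel inequality**, real form. -/
theorem cert_real {p : Pm} {ra rb ro : ℕ} (hp : P12 p ra rb ro) (kp : KP) (ns : List NI) (G0 : Ex)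
    (ml : List (List ℕ × MB)) (hck : chk p ra rb ro (Ex.add (kqE kp) (nsE ns)) G0 (ml.map Prod.snd) = true)
    (hmc : mckA p ra rb ro ml = true) (hps : ∀ x ∈ ml, ∀ y ∈ x.2.bl, PsdOK p.b p.o y.rows)
    (q : RP) (hq : Lnk kp q) (Φ : ℝ → ℝ → ℝ → ℝ) (D1 D2 : ℝ)
    (hΦ : ∀ x1 x2 γ : ℝ, 1 / 2 ≤ x1 ^ 2 + x2 ^ 2 → x1 ^ 2 + x2 ^ 2 ≤ 1 → |γ| ≤ 1 / 3 →
      psQ q.rc q.rs x1 x2 * (mtV kp.Ph (D1 * x1 + D2 * x2) x1 x2 γ / q.c2) +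
        mtV kp.Pe (D1 * x1 + D2 * x2) x1 x2 γ / (q.c1 * q.c2) ≤ Φ x1 x2 γ)
    (d : Dt) (hd : Dom (1 / 3) (1 / 2) 1 d) :
    0 ≤ KQ 3 q.rc q.rs q.aS q.aR q.κ0 (UU q) Φ
        (fun x1 x2 γ => 3 * mtV kp.M1 (D1 * x1 + D2 * x2) x1 x2 γ / (q.c1 * q.c2))
        (fun x1 x2 γ => 6 * mtV kp.M2 (D1 * x1 + D2 * x2) x1 x2 γ / (q.c1 * q.c2)) d +
      KQ 3 q.rc q.rs q.aS q.aR q.κ0 (UU q) Φ
        (fun x1 x2 γ => 3 * mtV kp.M1 (D1 * x1 + D2 * x2) x1 x2 γ / (q.c1 * q.c2))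
        (fun x1 x2 γ => 6 * mtV kp.M2 (D1 * x1 + D2 * x2) x1 x2 γ / (q.c1 * q.c2)) d.sw +
      1 / (q.c1 * q.c2) * nsV D1 D2 ns d + 1 / (q.c1 * q.c2) * nsV D1 D2 ns d.sw +
      G0.val (rho D1 D2 d) / (q.c1 * q.c2) := by
  have h1 := cert_ineq hp kp ns G0 ml hck hmc hps D1 D2 d hd
  have v1 := kqE_val kp D1 D2 d q.c1 q.c2 q.rc q.rs q.aS q.aR q.κ0 q.u0 q.u1 q.u2 q.u3 hq.hc1.ne' hq.hc2.ne'
    hq.e0 hq.e1 hq.e2 hq.g1 hq.g2 hq.g3 hq.k0 hq.k1 hq.k2 hq.k3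
  have v2 := kqE_val kp D1 D2 d.sw q.c1 q.c2 q.rc q.rs q.aS q.aR q.κ0 q.u0 q.u1 q.u2 q.u3 hq.hc1.ne' hq.hc2.ne'
    hq.e0 hq.e1 hq.e2 hq.g1 hq.g2 hq.g3 hq.k0 hq.k1 hq.k2 hq.k3
  rw [v1, v2] at h1
  have hs := sw_dom hd
  have m1 := KQ_mono q.rc q.rs q.aS q.aR q.κ0 (UU q) Φ
    (fun x1 x2 γ => psQ q.rc q.rs x1 x2 * (mtV kp.Ph (D1 * x1 + D2 * x2) x1 x2 γ / q.c2) +
      mtV kp.Pe (D1 * x1 + D2 * x2) x1 x2 γ / (q.c1 * q.c2))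
    (fun x1 x2 γ => 3 * mtV kp.M1 (D1 * x1 + D2 * x2) x1 x2 γ / (q.c1 * q.c2))
    (fun x1 x2 γ => 6 * mtV kp.M2 (D1 * x1 + D2 * x2) x1 x2 γ / (q.c1 * q.c2)) d hd.ae (hΦ _ _ _ hd.x1 hd.x2 hd.gt)
  have m2 := KQ_mono q.rc q.rs q.aS q.aR q.κ0 (UU q) Φ
    (fun x1 x2 γ => psQ q.rc q.rs x1 x2 * (mtV kp.Ph (D1 * x1 + D2 * x2) x1 x2 γ / q.c2) +
      mtV kp.Pe (D1 * x1 + D2 * x2) x1 x2 γ / (q.c1 * q.c2))
    (fun x1 x2 γ => 3 * mtV kp.M1 (D1 * x1 + D2 * x2) x1 x2 γ / (q.c1 * q.c2))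
    (fun x1 x2 γ => 6 * mtV kp.M2 (D1 * x1 + D2 * x2) x1 x2 γ / (q.c1 * q.c2)) d.sw hs.ae (hΦ _ _ _ hs.x1 hs.x2 hs.gt)
  have hc : 0 < q.c1 * q.c2 := mul_pos hq.hc1 hq.hc2
  have h2 := div_nonneg h1 hc.le
  have hc' := hc.ne'
  unfold UU at m1 m2 ⊢
  rw [div_split _ hc'] at h2
  linarith

end Pool.Agent.Lib.MP_084b88_gt.SK
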