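import Pool.Agent.Lib.MP_084b88_gt.SK.Fin

/-!
# MP_084b88_gt, project SK: valid generators from certificates
-/

set_option autoImplicit false

open MeasureTheory Set Real Filter Topology
open scoped Pointwise InnerProductSpace

namespace Pool.Agent.Lib.MP_084b88_gt.SK

open Pool.Agent.Lib.MP_084b88_gt.CW Pool.Agent.Lib.MP_084b88_gt.SY Pool.Agent.Lib.MP_084b88_gt.AY

namespace GVCM

theorem mtV_cont (l : List MT) (D1 D2 : ℝ) :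
    Continuous fun x : ℝ × ℝ × ℝ => mtV l (D1 * x.1 + D2 * x.2.1) x.1 x.2.1 x.2.2 := by
  induction l with
  | nil => simpa [mtV] using continuous_const
  | cons t l ih =>
    have h1 : (fun x : ℝ × ℝ × ℝ => mtV (t :: l) (D1 * x.1 + D2 * x.2.1) x.1 x.2.1 x.2.2) = fun x =>
      (t.c : ℝ) * (x.2.2 ^ t.g * (D1 * x.1 + D2 * x.2.1) ^ t.q * x.1 ^ t.r * x.2.1 ^ t.s) +
        mtV l (D1 * x.1 + D2 * x.2.1) x.1 x.2.1 x.2.2 := by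
      funext x; simp [mtV]
    rw [h1]
    exact Continuous.add (by fun_prop) ih

theorem psQ_nonneg {rc rs x1 x2 : ℝ} (h1 : rc ≤ 4 / 5) (h2 : rs ≤ 4 / 5) (h3 : x1 ^ 2 + x2 ^ 2 ≤ 1) :
    0 ≤ psQ rc rs x1 x2 := by
  unfold psQ
  nlinarith [mul_le_mul_of_nonneg_right h1 (sq_nonneg x1), mul_le_mul_of_nonneg_right h2 (sq_nonneg x2)]

end GVCM

open GVCM

/-- **Valid generators from certificates.** -/
theorem gv8_of (hKRI : SpecKRI) (hGVK : SpecGVK) (hNQA : SpecNQA)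
    {p : Pm} {ra rb ro : ℕ} (hp : P12 p ra rb ro) (kp : KP) (ns : List NI) (G0 : Ex)
    (ml : List (List ℕ × MB)) (hck : chk p ra rb ro (Ex.add (kqE kp) (nsE ns)) G0 (ml.map Prod.snd) = true)
    (hmc : mckA p ra rb ro ml = true) (hps : ∀ x ∈ ml, ∀ y ∈ x.2.bl, PsdOK p.b p.o y.rows)
    (hns : ∀ x ∈ ns, niC x) (g : GP) (c1 c2 κ0 u0 u1 u2 u3 : ℝ)
    (hq : Lnk kp ⟨c1, c2, g.rc, g.rs, g.aS, g.aR, κ0, u0, u1, u2, u3⟩)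
    (hrc : g.rc ≤ 4 / 5) (hrs : g.rs ≤ 4 / 5) (haS : 0 ≤ g.aS) (haR : 0 ≤ g.aR) (hκ : κ0 < kap)
    (hU : ∀ y ∈ Icc (0 : ℝ) 1, √(1 - y) ≤ u0 + u1 * y + u2 * y ^ 2 + u3 * y ^ 3)
    (hPh : ∀ X x1 x2 γ : ℝ, 1 / 2 ≤ x1 ^ 2 + x2 ^ 2 → x1 ^ 2 + x2 ^ 2 ≤ 1 → |γ| ≤ 1 / 3 →
      psQ g.rc g.rs x1 x2 * (mtV kp.Ph X x1 x2 γ / c2) + mtV kp.Pe X x1 x2 γ / (c1 * c2) ≤
        psQ g.rc g.rs x1 x2 * (g.C * γ ^ 2 + g.l * (γ * X) + g.m * X ^ 2 + g.eps -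
          g.k * (x1 ^ 2 + x2 ^ 2 + 3 * γ ^ 2 - 3 / 4) ^ 2))
    (hTL : ∀ D1 D2 : ℝ, ∃ N1 : ℕ, ∀ n : ℕ, N1 ≤ n → ∀ d : Dt, Dom (1 / 3) (1 / 2) 1 d →
      G0.val (rho D1 D2 d) / (c1 * c2) ≤
        g.aR * ∑ k ∈ Finset.Ico 3 n, tcf k * (mu (k + 1) * TTd (k + 1) g.rc g.rs d)) :
    GV8 g := by
  refine hGVK g fun D1 D2 P hP => ?_
  refine hKRI 3 g.rc g.rs g.aS g.aR κ0 (UU ⟨c1, c2, g.rc, g.rs, g.aS, g.aR, κ0, u0, u1, u2, u3⟩)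
    (fun x1 x2 γ : ℝ => psQ g.rc g.rs x1 x2 * (g.C * γ ^ 2 + g.l * (γ * (D1 * x1 + D2 * x2)) +
          g.m * (D1 * x1 + D2 * x2) ^ 2 + g.eps - g.k * (x1 ^ 2 + x2 ^ 2 + 3 * γ ^ 2 - 3 / 4) ^ 2))
    (fun x1 x2 γ => 3 * mtV kp.M1 (D1 * x1 + D2 * x2) x1 x2 γ / (c1 * c2))
    (fun x1 x2 γ => 6 * mtV kp.M2 (D1 * x1 + D2 * x2) x1 x2 γ / (c1 * c2))
    (fun d => 1 / (c1 * c2) * nsV D1 D2 ns d) (fun d => G0.val (rho D1 D2 d) / (c1 * c2))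
    (by norm_num) hrc hrs haS haR hκ hU ?_ ?_ ?_ (Nul_smul (nsV_nul hNQA D1 D2 ns hns) _) (hTL D1 D2) ?_ P hP
  · unfold psQ; fun_prop
  · exact (continuous_const.mul (mtV_cont kp.M1 D1 D2)).div_const _
  · exact (continuous_const.mul (mtV_cont kp.M2 D1 D2)).div_const _
  · intro d hd
    exact cert_real hp kp ns G0 ml hck hmc hps ⟨c1, c2, g.rc, g.rs, g.aS, g.aR, κ0, u0, u1, u2, u3⟩ hq
      (fun x1 x2 γ : ℝ => psQ g.rc g.rs x1 x2 * (g.C * γ ^ 2 + g.l * (γ * (D1 * x1 + D2 * x2)) +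
          g.m * (D1 * x1 + D2 * x2) ^ 2 + g.eps - g.k * (x1 ^ 2 + x2 ^ 2 + 3 * γ ^ 2 - 3 / 4) ^ 2)) D1 D2
      (fun x1 x2 γ h1 h2 h3 => hPh _ x1 x2 γ h1 h2 h3) d hd

end Pool.Agent.Lib.MP_084b88_gt.SK
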