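import Pool.Agent.Lib.MP_084b88_gt.SK.VC

/-!
# MP_084b88_gt, project SK, checker v2: from the checks to the half identity
-/

set_option autoImplicit false

open MvPolynomial

namespace Pool.Agent.Lib.MP_084b88_gt.SK

open VCM

namespace VFM

theorem ev_vE (ρ : ℕ → ℝ) (env : List VE) (G : Ex) : ev ρ (G.val (vE env fun i => X i)) = G.val (vE env ρ) := by
  rw [Ex.val_map]
  congr 1
  funext j
  unfold vE
  cases nth (VE.c 0) env j with
  | x i => simp [VE.val, ev]
  | c n =>
    change ev ρ ((n : ℤ) : MvPolynomial ℕ ℤ) = (n : ℝ)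
    rw [map_intCast]

theorem ev_rename (ρ : ℕ → ℝ) (P : MvPolynomial ℕ ℤ) : ev ρ (rename psI P) = ev (fun i => ρ (psI i)) P := by
  unfold ev
  change (MvPolynomial.aeval ρ) (rename psI P) = (MvPolynomial.aeval fun i => ρ (psI i)) P
  rw [MvPolynomial.aeval_rename]; rfl

theorem part_nil (p : Pm) : (([] : List (List (ℕ × List (ℕ × ℤ)))).map p.mP).sum = p.sosP [] := rfl

theorem part_cons {p : Pm} {ms ms' : List MB} {Y : List (ℕ × List (ℕ × ℤ))} {xs : List (List (ℕ × List (ℕ × ℤ)))}
    (h : p.sosP ms = p.mP Y) (h' : (xs.map p.mP).sum = p.sosP ms') :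
    ((Y :: xs).map p.mP).sum = p.sosP (ms ++ ms') := by
  rw [List.map_cons, List.sum_cons, CplM.sosP_append, h, h']

end VFM

open VFM

/-- **The half identity from the check**, parts included. -/
theorem hid_of {p : Pm} {q : Q2} {ro : List ℕ} (hq : QOK p q ro) (es : List EvD) (he : ∀ x ∈ es, EvOK p x) (G : Ex)
    (Z : List (ℕ × List (ℕ × ℤ))) (xs : List (List (ℕ × List (ℕ × ℤ)))) (ms ms' : List MB)
    (hx : (xs.map p.mP).sum = p.sosP ms') (h : chV p q es G Z xs ms = true) :
    HId p (ms ++ ms') (es.map EvD.env) G fun ρ => ev ρ (p.mP Z) := by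
  intro ρ
  have h1 := congrArg (ev ρ) (chV_spec hq es he G Z xs ms h)
  rw [map_add, map_add, map_add, hx, ev_rename, map_list_sum, List.map_map] at h1
  have e1 : (es.map (⇑(ev ρ) ∘ fun x => G.val (vE x.env fun i => X i))).sum =
      ((es.map EvD.env).map fun env => G.val (vE env ρ)).sum := by
    rw [List.map_map]
    congr 1
    refine List.map_congr_left fun x _ => ?_
    exact ev_vE ρ x.env G
  rw [e1] at h1
  rw [CplM.sosP_append, map_add]
  linear_combination h1

/-- The multipliers of the blocks. -/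
theorem mlOK_of {p : Pm} {q : Q2} {ro : List ℕ} (hq : QOK p q ro) (x : EvD) (hx : EvOK p x) (ml : List (List ℕ × MB))
    (h : mckL p q x (ml.map fun y => (y.2.m, muE2 y.1)) = true) : MlOK p x.env ml := by
  intro y hy ρ
  have h1 := mckL_spec hq x hx _ h (y.2.m, muE2 y.1) (List.mem_map.2 ⟨y, hy, rfl⟩)
  rw [h1, ev_vE]

/-- The multipliers of the coupling items. -/
theorem clOK_of {p : Pm} {q : Q2} {ro : List ℕ} (hq : QOK p q ro) (x : EvD) (hx : EvOK p x) (cl : List CI)
    (h : mckL p q x (cl.flatMap fun y => [(y.m2, smE 2 (muE2 y.ids)), (y.mn, smE (-1) (muE2 y.ids))]) = true) :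
    ClOK p x.env cl := by
  intro y hy ρ
  have h1 := mckL_spec hq x hx _ h (y.m2, smE 2 (muE2 y.ids)) (List.mem_flatMap.2 ⟨y, hy, by simp⟩)
  have h2 := mckL_spec hq x hx _ h (y.mn, smE (-1) (muE2 y.ids)) (List.mem_flatMap.2 ⟨y, hy, by simp⟩)
  rw [h1, h2, ev_vE, ev_vE]
  simp [smE, Ex.val]

/-- Append lists of multipliers. -/
theorem mlOK_append {p : Pm} {env : List VE} {l1 l2 : List (List ℕ × MB)} (h1 : MlOK p env l1) (h2 : MlOK p env l2) :
    MlOK p env (l1 ++ l2) := by
  intro x hx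
  rcases List.mem_append.1 hx with h | h
  · exact h1 x h
  · exact h2 x h

end Pool.Agent.Lib.MP_084b88_gt.SK
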