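import Pool.Agent.Lib.MP_084b88_gt.SK.ISO
import Pool.Agent.Lib.MP_084b88_gt.SK.SNX
import Pool.Agent.Lib.MP_084b88_gt.SK.HFX
import Pool.Agent.Lib.MP_084b88_gt.SK.VF

/-!
# MP_084b88_gt, project SK: isotropic certificates with one formal pair, checker v2 (half identity)

The weights `1, y², x², x y` are put into the expression (`sbE`), so that the environment consists of the ten variables.
-/

set_option autoImplicit false

open MeasureTheory Set Real Filter Topology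
open scoped Pointwise InnerProductSpace

namespace Pool.Agent.Lib.MP_084b88_gt.SK

open Pool.Agent.Lib.MP_084b88_gt.CW Pool.Agent.Lib.MP_084b88_gt.SY Pool.Agent.Lib.MP_084b88_gt.AY

/-- The environment: ten variables. -/
def eJ : List VE := [.x 0, .x 1, .x 2, .x 3, .x 4, .x 5, .x 6, .x 7, .x 8, .x 9]

/-- The variables and the weights `1, y², x², x y` as expressions. -/
def wtS : List Ex := [Ex.v 0, Ex.v 1, Ex.v 2, Ex.v 3, Ex.v 4, Ex.v 5, Ex.v 6, Ex.v 7, Ex.c 1, sqE 8, sqE 9,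
  Ex.mul (Ex.v 8) (Ex.v 9)]

/-- The expression at the weights of a formal pair. -/
noncomputable def sbE (e : Ex) : Ex :=
  @Ex.rec (fun _ => Ex) (fun i => nth (Ex.c 0) wtS i) (fun n => Ex.c n) (fun _ _ x y => Ex.add x y)
    (fun _ _ x y => Ex.mul x y) (fun _ n x => Ex.pow x n) e

/-- The point with the formal pair `(y, x)`. -/
def ptI (ρ : ℕ → ℝ) (y x : ℝ) (i : ℕ) : ℝ := if i = 8 then y else if i = 9 then x else if i < 8 then ρ i else 0

/-- The combination of the three formal points of `ρ`. -/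
noncomputable def triR (ρ : ℕ → ℝ) (P : MvPolynomial ℕ ℤ) : ℝ :=
  ev (ptI ρ (ρ 8) (ρ 9)) P + ev (ptI ρ (ρ 10) (ρ 11)) P - ev (ptI ρ 0 0) P

/-- The multipliers of the constant items are the products of atoms. -/
def TlOK (p : Pm) (tl : List IT) : Prop :=
  ∀ x ∈ tl, ∀ ρ : ℕ → ℝ, ev ρ (p.mP x.mb.m) = (Ex.mul (vI x.vt) (muI x.ids)).val (vE eJ ρ)

/-- The same for the linear items. -/
def UlOK (p : Pm) (ul : List IM) : Prop :=
  ∀ x ∈ ul, ∀ ρ : ℕ → ℝ, ev ρ (p.mP x.m2) = (m2E x.kd (muI x.ids)).val (vE eJ ρ) ∧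
    ev ρ (p.mP x.mn) = (smE (-1) (muI x.ids)).val (vE eJ ρ)

namespace IshM

open MvPolynomial CplM IsoM

theorem vE_eJ (ρ : ℕ → ℝ) (i : ℕ) (h : i < 10) : vE eJ ρ i = ρ i := by
  interval_cases i <;> rfl

theorem vE_eJ_ge (ρ : ℕ → ℝ) (k : ℕ) : vE eJ ρ (k + 10) = 0 := by
  change (((0 : ℤ) : ℝ)) = 0
  simp

theorem sb_v (ρ : ℕ → ℝ) (i : ℕ) : (nth (Ex.c 0) wtS i).val (vE eJ ρ) = tW ρ i := by
  match i with
  | 0 => rfl
  | 1 => rfl
  | 2 => rfl
  | 3 => rfl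
  | 4 => rfl
  | 5 => rfl
  | 6 => rfl
  | 7 => rfl
  | 8 => change (((1 : ℤ) : ℝ)) = 1; simp
  | 9 => rfl
  | 10 => rfl
  | 11 => rfl
  | (k + 12) => change (((0 : ℤ) : ℝ)) = 0; simp

theorem sbE_val (e : Ex) (ρ : ℕ → ℝ) : (sbE e).val (vE eJ ρ) = e.val (tW ρ) := by
  induction e with
  | v i => exact sb_v ρ i
  | c n => rfl
  | add x y hx hy =>
    have h : sbE (Ex.add x y) = Ex.add (sbE x) (sbE y) := rfl
    rw [h]
    simp only [Ex.val]
    rw [hx, hy]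
  | mul x y hx hy =>
    have h : sbE (Ex.mul x y) = Ex.mul (sbE x) (sbE y) := rfl
    rw [h]
    simp only [Ex.val]
    rw [hx, hy]
  | pow x n hx =>
    have h : sbE (Ex.pow x n) = Ex.pow (sbE x) n := rfl
    rw [h]
    simp only [Ex.val]
    rw [hx]

theorem ptI_ne (ρ : ℕ → ℝ) (y x y' x' : ℝ) (i : ℕ) (h8 : i ≠ 8) (h9 : i ≠ 9) : ptI ρ y x i = ptI ρ y' x' i := by
  unfold ptI
  rw [if_neg h8, if_neg h9, if_neg h8, if_neg h9]

theorem ptI_rho (D1 D2 : ℝ) (d : Dt) (y x : ℝ) : ptI (rho D1 D2 d) y x = rhoF D1 D2 d y x := rfl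

/-- The plain exchange of a formal point. -/
theorem ptI_psI (ρ : ℕ → ℝ) (y x : ℝ) : (fun i => ptI ρ y x (psI i)) = ptI (fun i => ρ (psI i)) x y := by
  funext i
  rcases Nat.lt_or_ge i 10 with h | h
  · interval_cases i <;> rfl
  · have h1 : 10 ≤ psI i := by unfold psI; split_ifs <;> omega
    unfold ptI
    rw [if_neg (by omega), if_neg (by omega), if_neg (by omega), if_neg (by omega), if_neg (by omega),
      if_neg (by omega)]

/-! ### Multipliers -/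

theorem atomsI_val' (ρ : ℕ → ℝ) (y x : ℝ) (i : ℕ) :
    (nth (Ex.c 1) atomsI i).val (vE eJ (ptI ρ y x)) = (nth (Ex.c 1) atomsI i).val ρ := by
  rcases Nat.lt_or_ge i 10 with hi | hi
  · interval_cases i <;> rfl
  · obtain ⟨k, rfl⟩ := Nat.exists_eq_add_of_le hi
    rw [add_comm]
    rfl

theorem atomsI_nonneg' (ρ : ℕ → ℝ) (h : DomR ρ) (i : ℕ) : 0 ≤ (nth (Ex.c 1) atomsI i).val ρ := by
  rcases Nat.lt_or_ge i 10 with hi | hi
  · interval_cases i
    · exact SnxM.atom_nonneg ρ h 0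
    · exact SnxM.atom_nonneg ρ h 1
    · exact SnxM.atom_nonneg ρ h 2
    · exact SnxM.atom_nonneg ρ h 3
    · exact SnxM.atom_nonneg ρ h 4
    · exact SnxM.atom_nonneg ρ h 5
    · exact SnxM.atom_nonneg ρ h 12
    · exact SnxM.atom_nonneg ρ h 13
    · exact SnxM.atom_nonneg ρ h 14
    · exact SnxM.atom_nonneg ρ h 15
  · obtain ⟨k, rfl⟩ := Nat.exists_eq_add_of_le hi
    rw [add_comm]
    change 0 ≤ (Ex.c 1).val ρ
    simp [Ex.val]

theorem muI_val' (ρ : ℕ → ℝ) (y x : ℝ) (l : List ℕ) :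
    (muI l).val (vE eJ (ptI ρ y x)) = (muI l).val ρ := by
  induction l with
  | nil => rfl
  | cons i l ih =>
    have : muI (i :: l) = Ex.mul (nth (Ex.c 1) atomsI i) (muI l) := rfl
    rw [this]
    change (nth (Ex.c 1) atomsI i).val _ * (muI l).val _ = (nth (Ex.c 1) atomsI i).val _ * (muI l).val _
    rw [ih, atomsI_val']

theorem muI_nonneg' (ρ : ℕ → ℝ) (h : DomR ρ) (l : List ℕ) : 0 ≤ (muI l).val ρ := by
  induction l with
  | nil => simp [muI, Ex.val]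
  | cons i l ih =>
    have : muI (i :: l) = Ex.mul (nth (Ex.c 1) atomsI i) (muI l) := rfl
    rw [this]
    exact mul_nonneg (atomsI_nonneg' ρ h i) ih

theorem vI_nonneg' (ρ : ℕ → ℝ) (h : DomR ρ) (t : ℕ) :
    0 ≤ (vI t).val (vE eJ (ptI ρ (ρ 8) (ρ 9))) + (vI t).val (vE eJ (ptI ρ (ρ 10) (ρ 11))) -
      (vI t).val (vE eJ (ptI ρ 0 0)) := by
  have hx1 := h.x1
  have hx2 := h.x2
  have hy1 := h.y1
  have hy2 := h.y2
  have e8 : ∀ y x : ℝ, vE eJ (ptI ρ y x) 8 = y := fun _ _ => rfl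
  have e9 : ∀ y x : ℝ, vE eJ (ptI ρ y x) 9 = x := fun _ _ => rfl
  match t with
  | 0 => simp [vI, nth, Ex.val]
  | 1 =>
    change 0 ≤ (subE (Ex.c 1) (sqE 9)).val _ + (subE (Ex.c 1) (sqE 9)).val _ - (subE (Ex.c 1) (sqE 9)).val _
    simp only [subE, sqE, Ex.val, e9]; norm_num; linarith
  | 2 =>
    change 0 ≤ (subE (smE 2 (sqE 9)) (Ex.c 1)).val _ + (subE (smE 2 (sqE 9)) (Ex.c 1)).val _ -
      (subE (smE 2 (sqE 9)) (Ex.c 1)).val _
    simp only [subE, smE, sqE, Ex.val, e9]; norm_num; linarith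
  | 3 =>
    change 0 ≤ (subE (Ex.c 1) (sqE 8)).val _ + (subE (Ex.c 1) (sqE 8)).val _ - (subE (Ex.c 1) (sqE 8)).val _
    simp only [subE, sqE, Ex.val, e8]; norm_num; linarith
  | 4 =>
    change 0 ≤ (subE (smE 2 (sqE 8)) (Ex.c 1)).val _ + (subE (smE 2 (sqE 8)) (Ex.c 1)).val _ -
      (subE (smE 2 (sqE 8)) (Ex.c 1)).val _
    simp only [subE, smE, sqE, Ex.val, e8]; norm_num; linarith
  | (k + 5) =>
    change 0 ≤ (Ex.c 1).val _ + (Ex.c 1).val _ - (Ex.c 1).val _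
    simp [Ex.val]

theorem triR_add (ρ : ℕ → ℝ) (P Q : MvPolynomial ℕ ℤ) : triR ρ (P + Q) = triR ρ P + triR ρ Q := by
  unfold triR
  rw [map_add, map_add, map_add]; ring

theorem triR_zero (ρ : ℕ → ℝ) : triR ρ 0 = 0 := by
  unfold triR
  rw [map_zero, map_zero, map_zero]; ring

theorem ptI_zero (ρ : ℕ → ℝ) (y x : ℝ) : ∀ i, i ≠ 8 → i ≠ 9 → ptI ρ y x i = ptI ρ 0 0 i :=
  fun i h8 h9 => ptI_ne ρ y x 0 0 i h8 h9

/-- A constant item. -/
theorem it_nonneg' {p : Pm} (ρ : ℕ → ℝ) (hd : DomR ρ) (x : IT)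
    (hm : ∀ ρ : ℕ → ℝ, ev ρ (p.mP x.mb.m) = (Ex.mul (vI x.vt) (muI x.ids)).val (vE eJ ρ))
    (hf : ∀ y ∈ x.mb.bl, frC p.rs p.S y.cs = true) (hps : ∀ y ∈ x.mb.bl, PsdOK p.b p.o y.rows) :
    0 ≤ triR ρ (p.mbP x.mb) := by
  have e1 : ∀ y' x' : ℝ, ev (ptI ρ y' x') (p.mbP x.mb) =
      (vI x.vt).val (vE eJ (ptI ρ y' x')) * (muI x.ids).val ρ *
        (x.mb.bl.map fun y => qR p.b p.o y.rows (zv p (ptI ρ 0 0) y.rows.length y.cs)).sum := by
    intro y' x'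
    unfold Pm.mbP
    rw [map_mul, hm, map_list_sum, List.map_map]
    change (vI x.vt).val _ * (muI x.ids).val _ * _ = _
    rw [muI_val']
    congr 2
    refine List.map_congr_left fun y hy => ?_
    simp only [Function.comp_apply]
    rw [insP_ev, zv_free p y.cs (hf y hy) _ _ _ (ptI_zero ρ y' x')]
  unfold triR
  rw [e1, e1, e1]
  have h1 := vI_nonneg' ρ hd x.vt
  have h2 := muI_nonneg' ρ hd x.ids
  have h3 : 0 ≤ (x.mb.bl.map fun y => qR p.b p.o y.rows (zv p (ptI ρ 0 0) y.rows.length y.cs)).sum := by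
    refine List.sum_nonneg fun v hv => ?_
    obtain ⟨y, hy, rfl⟩ := List.mem_map.1 hv
    exact hps y hy _ (by simp [zv])
  have h4 := mul_nonneg (mul_nonneg h1 h2) h3
  linarith

/-- The values of a block linear in `x, y`. -/
theorem ins_val' {p : Pm} {ra rb ro : ℕ} (hp : PN p 10 ra rb ro) (ρ : ℕ → ℝ) (y : CB)
    (hA : frC p.rs p.S y.A = true) (hB : frC p.rs p.S y.B = true) (hc : cC p.rs p.S 8 9 y.A y.B y.z1 = true) (y' x' : ℝ) :
    ev (ptI ρ y' x') (p.insP ⟨y.z1, y.rows⟩) = qR p.b p.o y.rows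
      (cmb y' x' (zv p (ptI ρ 0 0) y.rows.length y.A) (zv p (ptI ρ 0 0) y.rows.length y.B)) := by
  have hr := SnxM.rF_pos' hp
  rw [insP_ev]
  simp only
  rw [zv_cmb p hr 8 9 y.A y.B y.z1 hc, ev_vr, ev_vr, hp.hl, if_pos (by norm_num), if_pos (by norm_num),
    zv_free p y.A hA _ _ _ (ptI_zero ρ y' x'), zv_free p y.B hB _ _ _ (ptI_zero ρ y' x')]
  rfl

/-- The values of the blocks `w`. -/
theorem w_val' {p : Pm} {ra rb ro : ℕ} (hp : PN p 10 ra rb ro) (ρ : ℕ → ℝ) (y : CB) (kd : ℕ)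
    (hA : frC p.rs p.S y.A = true) (hB : frC p.rs p.S y.B = true) (hk : kd ≠ 0) (hc : ibC p.rs p.S kd y = true) (y' x' : ℝ) :
    ev (ptI ρ y' x') (p.insP ⟨y.w, y.rows⟩) = qR p.b p.o y.rows
      (cmb (if kd = 1 then ρ 1 else 1) (if kd = 1 then 1 else ρ 0)
        (zv p (ptI ρ 0 0) y.rows.length y.A) (zv p (ptI ρ 0 0) y.rows.length y.B)) := by
  have hr := SnxM.rF_pos' hp
  unfold ibC at hc
  rw [Bool.and_eq_true] at hc
  rw [insP_ev]
  simp only
  match kd, hk, hc with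
  | 1, _, hc =>
    rw [zv_cmb p hr 1 12 y.A y.B y.w hc.2, ev_vr, ev_vr, hp.hl, if_pos (by norm_num), if_neg (by norm_num),
      zv_free p y.A hA _ _ _ (ptI_zero ρ y' x'), zv_free p y.B hB _ _ _ (ptI_zero ρ y' x')]
    rfl
  | (k + 2), _, hc =>
    rw [zv_cmb p hr 12 0 y.A y.B y.w hc.2, ev_vr, ev_vr, hp.hl, if_neg (by norm_num), if_pos (by norm_num),
      zv_free p y.A hA _ _ _ (ptI_zero ρ y' x'), zv_free p y.B hB _ _ _ (ptI_zero ρ y' x')]
    rw [if_neg (by omega), if_neg (by omega)]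
    rfl

/-- The value of a multiplier with the blocks `z1`. -/
theorem mb1_val' {p : Pm} {ra rb ro : ℕ} (hp : PN p 10 ra rb ro) (ρ : ℕ → ℝ) (m : List (ℕ × List (ℕ × ℤ)))
    (e : Ex) (c : ℝ) (ids : List ℕ) (hm : ∀ ρ : ℕ → ℝ, ev ρ (p.mP m) = e.val (vE eJ ρ))
    (he : ∀ y x : ℝ, e.val (vE eJ (ptI ρ y x)) = c * (muI ids).val ρ) (bl : List CB) (kd : ℕ)
    (hb : ∀ y ∈ bl, ibC p.rs p.S kd y = true) (y' x' : ℝ) :
    ev (ptI ρ y' x') (p.mbP ⟨m, bl.map fun y => ⟨y.z1, y.rows⟩⟩) =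
      c * (muI ids).val ρ * (bl.map fun y => qR p.b p.o y.rows
        (cmb y' x' (zv p (ptI ρ 0 0) y.rows.length y.A) (zv p (ptI ρ 0 0) y.rows.length y.B))).sum := by
  unfold Pm.mbP
  rw [map_mul, hm, he, map_list_sum, List.map_map, List.map_map]
  congr 2
  refine List.map_congr_left fun y hy => ?_
  have hc := hb y hy
  unfold ibC at hc
  rw [Bool.and_eq_true, Bool.and_eq_true, Bool.and_eq_true] at hc
  exact ins_val' hp ρ y hc.1.1.1 hc.1.1.2 hc.1.2 y' x'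

/-- The value of a multiplier with the blocks `w`. -/
theorem mbw_val' {p : Pm} {ra rb ro : ℕ} (hp : PN p 10 ra rb ro) (ρ : ℕ → ℝ) (m : List (ℕ × List (ℕ × ℤ)))
    (ids : List ℕ) (hm : ∀ ρ : ℕ → ℝ, ev ρ (p.mP m) = (smE (-1) (muI ids)).val (vE eJ ρ))
    (bl : List CB) (kd : ℕ) (hk : kd ≠ 0) (hb : ∀ y ∈ bl, ibC p.rs p.S kd y = true) (y' x' : ℝ) :
    ev (ptI ρ y' x') (p.mbP ⟨m, bl.map fun y => ⟨y.w, y.rows⟩⟩) =
      -(muI ids).val ρ * (bl.map fun y => qR p.b p.o y.rows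
        (cmb (if kd = 1 then ρ 1 else 1) (if kd = 1 then 1 else ρ 0)
          (zv p (ptI ρ 0 0) y.rows.length y.A) (zv p (ptI ρ 0 0) y.rows.length y.B))).sum := by
  unfold Pm.mbP
  rw [map_mul, hm, map_list_sum, List.map_map, List.map_map]
  have e1 : (smE (-1) (muI ids)).val (vE eJ (ptI ρ y' x')) = -(muI ids).val ρ := by
    rw [← muI_val' ρ y' x' ids]; simp [smE, Ex.val]
  rw [e1]
  congr 2
  refine List.map_congr_left fun y hy => ?_
  have hc := hb y hy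
  have hc' := hc
  unfold ibC at hc
  rw [Bool.and_eq_true, Bool.and_eq_true, Bool.and_eq_true] at hc
  exact w_val' hp ρ y kd hc.1.1.1 hc.1.1.2 hk hc' y' x'

theorem sum_zero' (p : Pm) (ρ : ℕ → ℝ) (bl : List CB) : (bl.map fun y => qR p.b p.o y.rows
    (cmb 0 0 (zv p (ptI ρ 0 0) y.rows.length y.A) (zv p (ptI ρ 0 0) y.rows.length y.B))).sum = 0 := by
  refine List.sum_eq_zero fun v hv => ?_
  obtain ⟨y, _, rfl⟩ := List.mem_map.1 hv
  exact qR_zero _ _ _ _ _ (by simp [zv])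

/-- A linear item. -/
theorem im_nonneg' {p : Pm} {ra rb ro : ℕ} (hp : PN p 10 ra rb ro) (ρ : ℕ → ℝ) (hd : DomR ρ)
    (x : IM) (h2 : ∀ ρ : ℕ → ℝ, ev ρ (p.mP x.m2) = (m2E x.kd (muI x.ids)).val (vE eJ ρ))
    (hn : ∀ ρ : ℕ → ℝ, ev ρ (p.mP x.mn) = (smE (-1) (muI x.ids)).val (vE eJ ρ))
    (hb : ∀ y ∈ x.bl, ibC p.rs p.S x.kd y = true) (hps : ∀ y ∈ x.bl, PsdOK p.b p.o y.rows) :
    0 ≤ triR ρ (p.sosP x.mbs) := by
  obtain ⟨ids, kd, m2, mn, bl⟩ := x
  simp only at h2 hn hb hps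
  have hmu := muI_nonneg' ρ hd ids
  cases kd with
  | zero =>
    have e1 := mb1_val' hp ρ m2 (muI ids) 1 ids h2 (fun y x => by rw [muI_val', one_mul]) bl 0 hb
    have e2 : p.sosP (IM.mbs ⟨ids, 0, m2, mn, bl⟩) = p.mbP ⟨m2, bl.map fun y => ⟨y.z1, y.rows⟩⟩ := by
      simp [Pm.sosP, IM.mbs]
    rw [e2]
    unfold triR
    rw [e1, e1, e1, sum_zero']
    have h3 : ∀ y' x' : ℝ, 0 ≤ (bl.map fun y => qR p.b p.o y.rows
        (cmb y' x' (zv p (ptI ρ 0 0) y.rows.length y.A) (zv p (ptI ρ 0 0) y.rows.length y.B))).sum := by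
      intro y' x'
      refine List.sum_nonneg fun v hv => ?_
      obtain ⟨y, hy, rfl⟩ := List.mem_map.1 hv
      exact hps y hy _ (by simp [zv, cmb])
    have h4 := mul_nonneg hmu (h3 (ρ 8) (ρ 9))
    have h5 := mul_nonneg hmu (h3 (ρ 10) (ρ 11))
    linarith
  | succ k =>
    have e1 := mb1_val' hp ρ m2 (smE 2 (muI ids)) 2 ids h2 (fun y x => by
      rw [← muI_val' ρ y x ids]; simp [smE, Ex.val]) bl (k + 1) hb
    have e3 := mbw_val' hp ρ mn ids hn bl (k + 1) (Nat.succ_ne_zero k) hb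
    have e2 : p.sosP (IM.mbs ⟨ids, k + 1, m2, mn, bl⟩) = p.mbP ⟨m2, bl.map fun y => ⟨y.z1, y.rows⟩⟩ +
        p.mbP ⟨mn, bl.map fun y => ⟨y.w, y.rows⟩⟩ := by
      simp [Pm.sosP, IM.mbs]
    rw [e2, triR_add]
    unfold triR
    rw [e1, e1, e1, sum_zero', e3, e3, e3]
    have ha := SnxM.sq_le_one hd.ae
    have hb' := SnxM.sq_le_one hd.bf
    have hx1 := hd.x1
    have hy1 := hd.y1
    have hb1 := hd.b1
    have ha1 := hd.a1
    have key : 0 ≤ 2 * ((bl.map fun y => qR p.b p.o y.rows (cmb (ρ 8) (ρ 9) (zv p (ptI ρ 0 0) y.rows.length y.A)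
          (zv p (ptI ρ 0 0) y.rows.length y.B))).sum +
        (bl.map fun y => qR p.b p.o y.rows (cmb (ρ 10) (ρ 11) (zv p (ptI ρ 0 0) y.rows.length y.A)
          (zv p (ptI ρ 0 0) y.rows.length y.B))).sum) -
        (bl.map fun y => qR p.b p.o y.rows (cmb (if k + 1 = 1 then ρ 1 else 1) (if k + 1 = 1 then 1 else ρ 0)
          (zv p (ptI ρ 0 0) y.rows.length y.A) (zv p (ptI ρ 0 0) y.rows.length y.B))).sum := by
      clear e1 e2 e3 hb h2 hn
      induction bl with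
      | nil => simp
      | cons y bl ih =>
        have ih' := ih fun z hz => hps z (List.mem_cons_of_mem _ hz)
        have hy := hps y List.mem_cons_self
        have hlA : (zv p (ptI ρ 0 0) y.rows.length y.A).length = y.rows.length := by simp [zv]
        have hlB : (zv p (ptI ρ 0 0) y.rows.length y.B).length = y.rows.length := by simp [zv]
        have hy2 : 0 ≤ 2 * (qR p.b p.o y.rows (cmb (ρ 8) (ρ 9) (zv p (ptI ρ 0 0) y.rows.length y.A)
          (zv p (ptI ρ 0 0) y.rows.length y.B)) +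
            qR p.b p.o y.rows (cmb (ρ 10) (ρ 11) (zv p (ptI ρ 0 0) y.rows.length y.A)
          (zv p (ptI ρ 0 0) y.rows.length y.B))) -
            qR p.b p.o y.rows (cmb (if k + 1 = 1 then ρ 1 else 1) (if k + 1 = 1 then 1 else ρ 0)
          (zv p (ptI ρ 0 0) y.rows.length y.A) (zv p (ptI ρ 0 0) y.rows.length y.B)) := by
          by_cases hk : k + 1 = 1
          · rw [if_pos hk, if_pos hk]
            refine cpl_gen hy _ _ hlA hlB (ρ 8) (ρ 10) (ρ 9) (ρ 11) (ρ 1) 1 (by linarith) (by linarith) ?_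
            simp only [one_mul]
            exact hb1
          · rw [if_neg hk, if_neg hk]
            refine cpl_gen hy _ _ hlA hlB (ρ 8) (ρ 10) (ρ 9) (ρ 11) 1 (ρ 0) (by linarith) (by linarith) ?_
            simp only [one_mul]
            have e : (ρ 0 * ρ 8 - ρ 9) ^ 2 + (ρ 0 * ρ 10 - ρ 11) ^ 2 =
              (ρ 9 - ρ 0 * ρ 8) ^ 2 + (ρ 11 - ρ 0 * ρ 10) ^ 2 := by ring
            rw [e]
            exact ha1
        rw [List.map_cons, List.sum_cons, List.map_cons, List.sum_cons, List.map_cons, List.sum_cons]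
        linarith
    have h4 := mul_nonneg hmu key
    linarith

theorem triR_sos (p : Pm) (ρ : ℕ → ℝ) (l : List MB) (h : ∀ x ∈ l, 0 ≤ triR ρ (p.mbP x)) :
    0 ≤ triR ρ (p.sosP l) := by
  induction l with
  | nil => rw [show p.sosP [] = 0 from rfl, triR_zero]
  | cons x l ih =>
    have e : p.sosP (x :: l) = p.mbP x + p.sosP l := by simp [Pm.sosP]
    rw [e, triR_add]
    exact add_nonneg (h x List.mem_cons_self) (ih fun y hy => h y (List.mem_cons_of_mem _ hy))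

/-- The exchanged weights and the weights of the exchanged point differ by signs. -/
theorem rel_tW (ρ : ℕ → ℝ) : HfxM.Rel sgM (tW fun i => ρ (psI i)) (swW (tW ρ)) := by
  intro i
  match i with
  | 0 => right; exact ⟨rfl, rfl⟩
  | 1 => right; exact ⟨rfl, rfl⟩
  | 2 => left; exact ⟨rfl, rfl⟩
  | 3 => right; exact ⟨rfl, rfl⟩
  | 4 => left; exact ⟨rfl, rfl⟩
  | 5 => right; exact ⟨rfl, rfl⟩
  | 6 => right; exact ⟨rfl, rfl⟩
  | 7 => left; exact ⟨rfl, rfl⟩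
  | 8 => left; exact ⟨rfl, rfl⟩
  | 9 => left; exact ⟨rfl, rfl⟩
  | 10 => left; exact ⟨rfl, rfl⟩
  | 11 =>
    right
    refine ⟨rfl, ?_⟩
    change -(ρ 8 * ρ 9) = -(ρ 9 * ρ 8)
    ring
  | 12 => left; exact ⟨rfl, rfl⟩
  | 13 => left; exact ⟨rfl, rfl⟩
  | 14 => right; exact ⟨rfl, rfl⟩
  | (k + 15) => left; exact ⟨rfl, rfl⟩

end IshM

open IshM

/-- **SNI**: the sum of squares at the three formal points. -/
theorem sni {p : Pm} {ra rb ro : ℕ} (hp : PN p 10 ra rb ro) (tl : List IT) (ul : List IM) (ht : TlOK p tl)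
    (hu : UlOK p ul) (hb : ibs p tl ul = true) (hpt : ∀ x ∈ tl, ∀ y ∈ x.mb.bl, PsdOK p.b p.o y.rows)
    (hpu : ∀ x ∈ ul, ∀ y ∈ x.bl, PsdOK p.b p.o y.rows) (ρ : ℕ → ℝ) (hd : DomR ρ) :
    0 ≤ triR ρ (p.sosP (tl.map IT.mb ++ ul.flatMap IM.mbs)) := by
  unfold ibs at hb
  rw [Bool.and_eq_true, List.all_eq_true, List.all_eq_true] at hb
  obtain ⟨hb1, hb2⟩ := hb
  rw [CplM.sosP_append, triR_add]
  refine add_nonneg ?_ ?_
  · refine triR_sos p ρ _ fun x hx => ?_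
    obtain ⟨y, hy, rfl⟩ := List.mem_map.1 hx
    exact it_nonneg' ρ hd y (ht y hy) (List.all_eq_true.1 (hb1 y hy)) (hpt y hy)
  · have key : ∀ l : List IM, (∀ x ∈ l, x ∈ ul) → 0 ≤ triR ρ (p.sosP (l.flatMap IM.mbs)) := by
      intro l
      induction l with
      | nil => intro _; rw [show p.sosP (([] : List IM).flatMap IM.mbs) = 0 from rfl, triR_zero]
      | cons x l ih =>
        intro hl
        rw [List.flatMap_cons, CplM.sosP_append, triR_add]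
        have hx := hl x List.mem_cons_self
        exact add_nonneg (im_nonneg' hp ρ hd x (fun σ => (hu x hx σ).1) (fun σ => (hu x hx σ).2)
          (List.all_eq_true.1 (hb2 x hx)) (hpu x hx)) (ih fun y hy => hl y (List.mem_cons_of_mem _ hy))
    exact key ul fun x hx => hx

/-- **HFI**: the rule of the half identity for one formal pair. -/
theorem hfi {p : Pm} {ms : List MB} {G : Ex} {Z : (ℕ → ℝ) → ℝ} (hid : HId p ms [eJ] (sbE G) Z)
    (hS : ∀ ρ : ℕ → ℝ, DomR ρ → 0 ≤ triR ρ (p.sosP ms)) (hG : lnE G = 2) (hpy : pyE sgM G = 1) (D1 D2 : ℝ) (d : Dt)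
    (hd : Dom (1 / 3) (1 / 2) 1 d) : 0 ≤ G.val (rhoW true D1 D2 d) + G.val (rhoW true D1 D2 d.sw) := by
  rw [IsoM.rhoW_sw, IsoM.val_split G hG]
  have key : ∀ ρ : ℕ → ℝ, G.val (tW ρ) + G.val (swW (tW ρ)) = ev ρ (p.sosP ms) + ev (fun i => ρ (psI i)) (p.sosP ms) := by
    intro ρ
    have h1 := hid ρ
    have h2 := hid fun i => ρ (psI i)
    rw [HfxM.psI_psI] at h2
    simp only [List.map_cons, List.map_nil, List.sum_cons, List.sum_nil, add_zero] at h1 h2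
    rw [sbE_val] at h1 h2
    have h3 := ((HfxM.pyE_spec sgM G).2.1 hpy) _ _ (rel_tW ρ)
    beta_reduce at h3
    rw [h3]
    linarith
  rw [key, key, key]
  have e : ∀ y x : ℝ, (fun i => rhoF D1 D2 d y x (psI i)) = ptI (fun i => rho D1 D2 d (psI i)) x y := fun y x =>
    ptI_psI (rho D1 D2 d) y x
  rw [e, e, e]
  have s1 := hS _ (HfxM.domR_rho D1 D2 d hd)
  have s2 := hS _ (HfxM.domR_psI (HfxM.domR_rho D1 D2 d hd))
  unfold triR at s1 s2
  have a1 : rho D1 D2 d 8 = d.y1 := rfl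
  have a2 : rho D1 D2 d 9 = d.x1 := rfl
  have a3 : rho D1 D2 d 10 = d.y2 := rfl
  have a4 : rho D1 D2 d 11 = d.x2 := rfl
  have b1 : rho D1 D2 d (psI 8) = d.x1 := rfl
  have b2 : rho D1 D2 d (psI 9) = d.y1 := rfl
  have b3 : rho D1 D2 d (psI 10) = d.x2 := rfl
  have b4 : rho D1 D2 d (psI 11) = d.y2 := rfl
  rw [a1, a2, a3, a4, ptI_rho, ptI_rho, ptI_rho] at s1
  beta_reduce at s2
  rw [b1, b2, b3, b4] at s2
  linarith

/-- The multipliers of the constant items from the check. -/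
theorem tlOK_of {p : Pm} {q : Q2} {ro : List ℕ} (hq : QOK p q ro) (x : EvD) (hx : EvOK p x) (he : x.env = eJ)
    (tl : List IT) (h : mckL p q x (tl.map fun y => (y.mb.m, Ex.mul (vI y.vt) (muI y.ids))) = true) : TlOK p tl := by
  intro y hy ρ
  have h1 := mckL_spec hq x hx _ h (y.mb.m, Ex.mul (vI y.vt) (muI y.ids)) (List.mem_map.2 ⟨y, hy, rfl⟩)
  rw [h1, VFM.ev_vE, he]

/-- The multipliers of the linear items from the check. -/
theorem ulOK_of {p : Pm} {q : Q2} {ro : List ℕ} (hq : QOK p q ro) (x : EvD) (hx : EvOK p x) (he : x.env = eJ)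
    (ul : List IM) (h : mckL p q x (ul.flatMap fun y => [(y.m2, m2E y.kd (muI y.ids)), (y.mn, smE (-1) (muI y.ids))]) = true) :
    UlOK p ul := by
  intro y hy ρ
  have h1 := mckL_spec hq x hx _ h (y.m2, m2E y.kd (muI y.ids)) (List.mem_flatMap.2 ⟨y, hy, by simp⟩)
  have h2 := mckL_spec hq x hx _ h (y.mn, smE (-1) (muI y.ids)) (List.mem_flatMap.2 ⟨y, hy, by simp⟩)
  rw [h1, h2, VFM.ev_vE, VFM.ev_vE, he]
  exact ⟨rfl, rfl⟩

end Pool.Agent.Lib.MP_084b88_gt.SK
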