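import Pool.Agent.Lib.MP_084b88_gt.SK.CPM

/-!
# MP_084b88_gt, project SK: isotropic certificates with one formal pair

`G` is linear in the weights `1, q, p, c`; an identity at the weights `1, y², x², x y` (variables `8 = y`, `9 = x`) gives
positivity at the weights `1, y1² + y2², x1² + x2², x1 y1 + x2 y2`, which are the sum of the weights at `(y1, x1)` and at
`(y2, x2)` minus the weights at `(0, 0)`.
-/

set_option autoImplicit false

open MeasureTheory Set Real Filter Topology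
open scoped Pointwise InnerProductSpace

namespace Pool.Agent.Lib.MP_084b88_gt.SK

open Pool.Agent.Lib.MP_084b88_gt.CW Pool.Agent.Lib.MP_084b88_gt.SY Pool.Agent.Lib.MP_084b88_gt.AY

/-- The weights of a formal pair. -/
def tW {R : Type*} [CommRing R] (ρ : ℕ → R) (j : ℕ) : R :=
  match j with
  | 0 => ρ 0
  | 1 => ρ 1
  | 2 => ρ 2
  | 3 => ρ 3
  | 4 => ρ 4
  | 5 => ρ 5
  | 6 => ρ 6
  | 7 => ρ 7
  | 8 => 1
  | 9 => ρ 8 ^ 2
  | 10 => ρ 9 ^ 2
  | 11 => ρ 8 * ρ 9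
  | _ => 0

/-- The point of the formal pair `(y, x)`. -/
def rhoF (D1 D2 : ℝ) (d : Dt) (y x : ℝ) (i : ℕ) : ℝ :=
  if i = 8 then y else if i = 9 then x else if i < 8 then rho D1 D2 d i else 0

/-- The atoms without `x, y`: `A, B, A² - 4a²e², B² - 4b²f², 1 - 9g², 1 - 9h², 1 - (a+e)², 1 - (a-e)², 1 - (b+f)², 1 - (b-f)²`. -/
def atomsI : List Ex :=
  [cirE 0 2, cirE 1 3,
    subE (Ex.pow (cirE 0 2) 2) (smE 4 (Ex.mul (sqE 0) (sqE 2))),
    subE (Ex.pow (cirE 1 3) 2) (smE 4 (Ex.mul (sqE 1) (sqE 3))),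
    subE (Ex.c 1) (smE 9 (sqE 4)), subE (Ex.c 1) (smE 9 (sqE 5)),
    subE (Ex.c 1) (Ex.pow (Ex.add (Ex.v 0) (Ex.v 2)) 2), subE (Ex.c 1) (Ex.pow (subE (Ex.v 0) (Ex.v 2)) 2),
    subE (Ex.c 1) (Ex.pow (Ex.add (Ex.v 1) (Ex.v 3)) 2), subE (Ex.c 1) (Ex.pow (subE (Ex.v 1) (Ex.v 3)) 2)]

/-- A product of atoms. -/
noncomputable def muI (l : List ℕ) : Ex :=
  @List.rec ℕ (fun _ => Ex) (Ex.c 1) (fun i _ ih => Ex.mul (nth (Ex.c 1) atomsI i) ih) l

/-- The factors with `x` or `y`: `1, 1 - x², 2x² - 1, 1 - y², 2y² - 1`. -/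
noncomputable def vI (t : ℕ) : Ex :=
  nth (Ex.c 1) [Ex.c 1, subE (Ex.c 1) (sqE 9), subE (smE 2 (sqE 9)) (Ex.c 1), subE (Ex.c 1) (sqE 8),
    subE (smE 2 (sqE 8)) (Ex.c 1)] t

/-- Items with constant blocks: atoms, factor, multiplier with blocks. -/
structure IT where
  ids : List ℕ
  vt : ℕ
  mb : MB

/-- Items with blocks linear in `x, y`: `kd = 0`: multiplier `μ` and the blocks `z`; `kd = 1`: coupling with `w = b A + B`;
`kd = 2`: coupling with `w = A + a B`; `m2` = data of `μ` (`kd = 0`) or `2 μ`, `mn` = data of `-μ` (always checked);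
`z2` is not used. -/
structure IM where
  ids : List ℕ
  kd : ℕ
  m2 : List (ℕ × List (ℕ × ℤ))
  mn : List (ℕ × List (ℕ × ℤ))
  bl : List CB

/-- As ordinary multipliers with blocks. -/
def IM.mbs (x : IM) : List MB :=
  match x.kd with
  | 0 => [⟨x.m2, x.bl.map fun y => ⟨y.z1, y.rows⟩⟩]
  | _ => [⟨x.m2, x.bl.map fun y => ⟨y.z1, y.rows⟩⟩, ⟨x.mn, x.bl.map fun y => ⟨y.w, y.rows⟩⟩]

/-- The terms are free of the variables 8, 9. -/
def frC (rs : List ℕ) (S : ℕ) (cs : List (ℕ × List (ℕ × List (ℕ × ℤ)))) : Bool :=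
  (trm S cs).all fun t => Nat.beq ((t.1 / st (rF rs) 8) % rF rs 8) 0 && Nat.beq ((t.1 / st (rF rs) 9) % rF rs 9) 0

/-- The check of one block. -/
def ibC (rs : List ℕ) (S kd : ℕ) (y : CB) : Bool :=
  frC rs S y.A && frC rs S y.B && cC rs S 8 9 y.A y.B y.z1 &&
    match kd with
    | 0 => true
    | 1 => cC rs S 1 12 y.A y.B y.w
    | _ => cC rs S 12 0 y.A y.B y.w

/-- The check of the blocks. -/
def ibs (p : Pm) (tl : List IT) (ul : List IM) : Bool :=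
  (tl.all fun x => x.mb.bl.all fun y => frC p.rs p.S y.cs) && ul.all fun x => x.bl.all fun y => ibC p.rs p.S x.kd y

/-- The check of the multipliers of the constant items. -/
noncomputable def mckT (p : Pm) (ra rb ro : ℕ) (l : List IT) : Bool :=
  mkE p.rs p.S p.B vl0 fun env => @List.rec IT (fun _ => Bool) true
    (fun x _ ih => @Bool.rec (fun _ => Bool) false ih
      (mCk p.B env p.di p.dO wA wB wO ra rb ro x.mb.m (Ex.mul (vI x.vt) (muI x.ids)))) l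

/-- The expression of the first multiplier of an item. -/
noncomputable def m2E (kd : ℕ) (e : Ex) : Ex := @Nat.rec (fun _ => Ex) e (fun _ _ => smE 2 e) kd

/-- The check of the multipliers of the linear items. -/
noncomputable def mckU (p : Pm) (ra rb ro : ℕ) (l : List IM) : Bool :=
  mkE p.rs p.S p.B vl0 fun env => @List.rec IM (fun _ => Bool) true
    (fun x _ ih => @Bool.rec (fun _ => Bool) false
      (@Bool.rec (fun _ => Bool) false ih (mCk p.B env p.di p.dO wA wB wO ra rb ro x.mn (smE (-1) (muI x.ids))))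
      (mCk p.B env p.di p.dO wA wB wO ra rb ro x.m2 (m2E x.kd (muI x.ids)))) l

namespace IsoM

open MvPolynomial CplM

/-! ### Linear in the weights -/

/-- The three kinds of dependence on the weights. -/
def LnP (k : ℕ) (f : (ℕ → ℝ) → ℝ) : Prop :=
  (k = 0 → ∀ ρ, f ρ = 0) ∧
  (k = 1 → ∀ ρ ρ' : ℕ → ℝ, (∀ i < 8, ρ i = ρ' i) → f ρ = f ρ') ∧
  (k = 2 → ∀ ρ1 ρ2 ρ3 ρ4 : ℕ → ℝ, (∀ i < 8, ρ1 i = ρ4 i) → (∀ i < 8, ρ2 i = ρ4 i) → (∀ i < 8, ρ3 i = ρ4 i) →
    (∀ i, 8 ≤ i → ρ4 i = ρ1 i + ρ2 i - ρ3 i) → f ρ4 = f ρ1 + f ρ2 - f ρ3)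

theorem lnP_add {x y : ℕ} {f g : (ℕ → ℝ) → ℝ} (hf : LnP x f) (hg : LnP y g) :
    LnP (cadd x y) fun ρ => f ρ + g ρ := by
  unfold cadd
  split_ifs with h1 h2 h3
  · have h0 := hf.1 h1
    refine ⟨fun h ρ => ?_, fun h ρ ρ' ha => ?_, fun h ρ1 ρ2 ρ3 ρ4 a1 a2 a3 a4 => ?_⟩
    · beta_reduce
      rw [h0, hg.1 h, add_zero]
    · beta_reduce
      rw [h0, h0, hg.2.1 h ρ ρ' ha]
    · beta_reduce
      rw [h0, h0, h0, h0, hg.2.2 h ρ1 ρ2 ρ3 ρ4 a1 a2 a3 a4]; ring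
  · have h0 := hg.1 h2
    refine ⟨fun h ρ => absurd h h1, fun h ρ ρ' ha => ?_, fun h ρ1 ρ2 ρ3 ρ4 a1 a2 a3 a4 => ?_⟩
    · beta_reduce
      rw [h0, h0, hf.2.1 h ρ ρ' ha]
    · beta_reduce
      rw [h0, h0, h0, h0, hf.2.2 h ρ1 ρ2 ρ3 ρ4 a1 a2 a3 a4]; ring
  · subst h3
    refine ⟨fun h ρ => absurd h h1, fun h ρ ρ' ha => ?_, fun h ρ1 ρ2 ρ3 ρ4 a1 a2 a3 a4 => ?_⟩
    · beta_reduce
      rw [hf.2.1 h ρ ρ' ha, hg.2.1 h ρ ρ' ha]
    · beta_reduce
      rw [hf.2.2 h ρ1 ρ2 ρ3 ρ4 a1 a2 a3 a4, hg.2.2 h ρ1 ρ2 ρ3 ρ4 a1 a2 a3 a4]; ring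
  · exact ⟨fun h => absurd h (by norm_num), fun h => absurd h (by norm_num), fun h => absurd h (by norm_num)⟩

theorem lnP_mul {x y : ℕ} {f g : (ℕ → ℝ) → ℝ} (hf : LnP x f) (hg : LnP y g) :
    LnP (if x = 0 ∨ y = 0 then 0 else if x + y ≤ 3 then x + y - 1 else 3) fun ρ => f ρ * g ρ := by
  split_ifs with h1 h2
  · refine ⟨fun h ρ => ?_, fun h => absurd h (by norm_num), fun h => absurd h (by norm_num)⟩
    beta_reduce
    rcases h1 with h1 | h1
    · rw [hf.1 h1, zero_mul]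
    · rw [hg.1 h1, mul_zero]
  · rw [not_or] at h1
    refine ⟨fun h ρ => by omega, fun h ρ ρ' ha => ?_, fun h ρ1 ρ2 ρ3 ρ4 a1 a2 a3 a4 => ?_⟩
    · have hx : x = 1 := by omega
      have hy : y = 1 := by omega
      beta_reduce
      rw [hf.2.1 hx ρ ρ' ha, hg.2.1 hy ρ ρ' ha]
    · have hc : (x = 1 ∧ y = 2) ∨ (x = 2 ∧ y = 1) := by omega
      beta_reduce
      rcases hc with ⟨hx, hy⟩ | ⟨hx, hy⟩
      · rw [hf.2.1 hx ρ1 ρ4 a1, hf.2.1 hx ρ2 ρ4 a2, hf.2.1 hx ρ3 ρ4 a3, hg.2.2 hy ρ1 ρ2 ρ3 ρ4 a1 a2 a3 a4]; ring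
      · rw [hg.2.1 hy ρ1 ρ4 a1, hg.2.1 hy ρ2 ρ4 a2, hg.2.1 hy ρ3 ρ4 a3, hf.2.2 hx ρ1 ρ2 ρ3 ρ4 a1 a2 a3 a4]; ring
  · exact ⟨fun h => absurd h (by norm_num), fun h => absurd h (by norm_num), fun h => absurd h (by norm_num)⟩

theorem lnP_pow {x : ℕ} {f : (ℕ → ℝ) → ℝ} (n : ℕ) (hf : LnP x f) :
    LnP (if n = 0 then 1 else if x = 0 then 0 else if x = 1 then 1 else if n = 1 then x else 3) fun ρ => f ρ ^ n := by
  split_ifs with h1 h2 h3 h4
  · subst h1
    exact ⟨fun h => absurd h (by norm_num), fun _ ρ ρ' _ => by simp, fun h => absurd h (by norm_num)⟩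
  · refine ⟨fun _ ρ => ?_, fun h => absurd h (by norm_num), fun h => absurd h (by norm_num)⟩
    beta_reduce
    rw [hf.1 h2, zero_pow h1]
  · refine ⟨fun h => absurd h (by norm_num), fun _ ρ ρ' ha => ?_, fun h => absurd h (by norm_num)⟩
    beta_reduce
    rw [hf.2.1 h3 ρ ρ' ha]
  · subst h4
    simpa using hf
  · exact ⟨fun h => absurd h (by norm_num), fun h => absurd h (by norm_num), fun h => absurd h (by norm_num)⟩

theorem lnE_spec (e : Ex) : LnP (lnE e) fun ρ => e.val ρ := by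
  induction e with
  | v i =>
    have h : lnE (Ex.v i) = if i < 8 then 1 else 2 := rfl
    rw [h]
    split_ifs with hi
    · exact ⟨fun h => absurd h (by norm_num), fun _ ρ ρ' ha => ha i hi, fun h => absurd h (by norm_num)⟩
    · exact ⟨fun h => absurd h (by norm_num), fun h => absurd h (by norm_num),
        fun _ ρ1 ρ2 ρ3 ρ4 _ _ _ a4 => a4 i (not_lt.1 hi)⟩
  | c c =>
    have h : lnE (Ex.c c) = if c = 0 then 0 else 1 := rfl
    rw [h]
    split_ifs with hc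
    · subst hc
      exact ⟨fun _ ρ => by simp [Ex.val], fun h => absurd h (by norm_num), fun h => absurd h (by norm_num)⟩
    · exact ⟨fun h => absurd h (by norm_num), fun _ ρ ρ' _ => rfl, fun h => absurd h (by norm_num)⟩
  | add x y hx hy =>
    have h : lnE (Ex.add x y) = cadd (lnE x) (lnE y) := rfl
    rw [h]; exact lnP_add hx hy
  | mul x y hx hy =>
    have h : lnE (Ex.mul x y) = if lnE x = 0 ∨ lnE y = 0 then 0 else if lnE x + lnE y ≤ 3 then lnE x + lnE y - 1 else 3 := rfl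
    rw [h]; exact lnP_mul hx hy
  | pow x n hx =>
    have h : lnE (Ex.pow x n) = if n = 0 then 1 else if lnE x = 0 then 0 else if lnE x = 1 then 1 else
      if n = 1 then lnE x else 3 := rfl
    rw [h]; exact lnP_pow n hx

/-! ### The points -/

theorem rhoW_sw (iso : Bool) (D1 D2 : ℝ) (d : Dt) : rhoW iso D1 D2 d.sw = swW (rhoW iso D1 D2 d) := by
  funext j
  match j with
  | 0 => rfl
  | 1 => rfl
  | 2 => rfl
  | 3 => rfl
  | 4 => rfl
  | 5 => rfl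
  | 6 => simp [rhoW, swW, Dt.sw]; ring
  | 7 => rfl
  | 8 => rfl
  | 9 => cases iso <;> simp [rhoW, swW, Dt.sw]
  | 10 => cases iso <;> simp [rhoW, swW, Dt.sw]
  | 11 => cases iso <;> simp [rhoW, swW, Dt.sw] <;> ring
  | 12 => cases iso <;> simp [rhoW, swW, Dt.sw]
  | 13 => cases iso <;> simp [rhoW, swW, Dt.sw]
  | 14 => cases iso <;> simp [rhoW, swW, Dt.sw] <;> ring
  | (k + 15) => rfl

theorem tW_rhoF (D1 D2 : ℝ) (d : Dt) (y x : ℝ) (i : ℕ) (h : i < 8) : tW (rhoF D1 D2 d y x) i = rhoW true D1 D2 d i := by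
  interval_cases i <;> rfl

theorem swW_lt (ρ ρ' : ℕ → ℝ) (h : ∀ i < 8, ρ i = ρ' i) (i : ℕ) (hi : i < 8) : swW ρ i = swW ρ' i := by
  interval_cases i
  · exact congrArg Neg.neg (h 1 (by norm_num))
  · exact congrArg Neg.neg (h 0 (by norm_num))
  · exact h 3 (by norm_num)
  · exact congrArg Neg.neg (h 2 (by norm_num))
  · exact h 5 (by norm_num)
  · exact congrArg Neg.neg (h 4 (by norm_num))
  · exact congrArg Neg.neg (h 7 (by norm_num))
  · exact h 6 (by norm_num)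

theorem w_split (D1 D2 : ℝ) (d : Dt) (i : ℕ) (h : 8 ≤ i) :
    rhoW true D1 D2 d i = tW (rhoF D1 D2 d d.y1 d.x1) i + tW (rhoF D1 D2 d d.y2 d.x2) i - tW (rhoF D1 D2 d 0 0) i := by
  obtain ⟨k, rfl⟩ := Nat.exists_eq_add_of_le h
  rw [add_comm]
  match k with
  | 0 => simp [rhoW, tW]
  | 1 => simp [rhoW, tW, rhoF]
  | 2 => simp [rhoW, tW, rhoF]
  | 3 => simp [rhoW, tW, rhoF]; ring
  | 4 => simp [rhoW, tW]
  | 5 => simp [rhoW, tW]
  | 6 => simp [rhoW, tW]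
  | (k + 7) => simp [rhoW, tW]

theorem sw_split (ρ1 ρ2 ρ3 ρ4 : ℕ → ℝ) (h : ∀ i, 8 ≤ i → ρ4 i = ρ1 i + ρ2 i - ρ3 i) (i : ℕ) (hi : 8 ≤ i) :
    swW ρ4 i = swW ρ1 i + swW ρ2 i - swW ρ3 i := by
  obtain ⟨k, rfl⟩ := Nat.exists_eq_add_of_le hi
  rw [add_comm]
  match k with
  | 0 => exact h 8 (by norm_num)
  | 1 => exact h 10 (by norm_num)
  | 2 => exact h 9 (by norm_num)
  | 3 => have := h 11 (by norm_num); change -ρ4 11 = -ρ1 11 + -ρ2 11 - -ρ3 11; rw [this]; ring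
  | 4 => exact h 13 (by norm_num)
  | 5 => exact h 12 (by norm_num)
  | 6 => have := h 14 (by norm_num); change -ρ4 14 = -ρ1 14 + -ρ2 14 - -ρ3 14; rw [this]; ring
  | (k + 7) => change (0 : ℝ) = 0 + 0 - 0; ring

/-- **The value at the weights of a point from three formal values.** -/
theorem val_split (G : Ex) (hG : lnE G = 2) (D1 D2 : ℝ) (d : Dt) :
    G.val (rhoW true D1 D2 d) + G.val (swW (rhoW true D1 D2 d)) =
      (G.val (tW (rhoF D1 D2 d d.y1 d.x1)) + G.val (swW (tW (rhoF D1 D2 d d.y1 d.x1)))) +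
      (G.val (tW (rhoF D1 D2 d d.y2 d.x2)) + G.val (swW (tW (rhoF D1 D2 d d.y2 d.x2)))) -
      (G.val (tW (rhoF D1 D2 d 0 0)) + G.val (swW (tW (rhoF D1 D2 d 0 0)))) := by
  have h := (lnE_spec G).2.2 hG
  have h1 := h (tW (rhoF D1 D2 d d.y1 d.x1)) (tW (rhoF D1 D2 d d.y2 d.x2)) (tW (rhoF D1 D2 d 0 0)) (rhoW true D1 D2 d)
    (tW_rhoF D1 D2 d _ _) (tW_rhoF D1 D2 d _ _) (tW_rhoF D1 D2 d _ _) (w_split D1 D2 d)
  have h2 := h (swW (tW (rhoF D1 D2 d d.y1 d.x1))) (swW (tW (rhoF D1 D2 d d.y2 d.x2))) (swW (tW (rhoF D1 D2 d 0 0)))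
    (swW (rhoW true D1 D2 d)) (swW_lt _ _ (tW_rhoF D1 D2 d _ _)) (swW_lt _ _ (tW_rhoF D1 D2 d _ _))
    (swW_lt _ _ (tW_rhoF D1 D2 d _ _)) (sw_split _ _ _ _ (w_split D1 D2 d))
  beta_reduce at h1 h2
  rw [h1, h2]; ring

/-! ### Elements free of `x, y` -/

theorem ev_mon (rs : List ℕ) (φ : ℕ) (ρ : ℕ → ℝ) :
    ev ρ (mon rs φ) = ∏ i ∈ Finset.range rs.length, ρ i ^ ((φ / st (rF rs) i) % rF rs i) := by
  unfold mon
  rw [map_prod]
  refine Finset.prod_congr rfl fun i _ => ?_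
  rw [map_pow]
  simp [ev]

theorem ev_free (p : Pm) (cs : List (ℕ × List (ℕ × List (ℕ × ℤ)))) (h : frC p.rs p.S cs = true) (s : ℕ) (ρ ρ' : ℕ → ℝ)
    (hρ : ∀ i, i ≠ 8 → i ≠ 9 → ρ i = ρ' i) : ev ρ (p.zP cs s) = ev ρ' (p.zP cs s) := by
  rw [zP_trm, map_list_sum, map_list_sum, List.map_map, List.map_map]
  congr 1
  refine List.map_congr_left fun t ht => ?_
  unfold frC at h
  have h1 := List.all_eq_true.1 h t ht
  rw [Bool.and_eq_true] at h1
  have h8 := Nat.eq_of_beq_eq_true h1.1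
  have h9 := Nat.eq_of_beq_eq_true h1.2
  simp only [Function.comp_apply, tf]
  split_ifs
  · rw [map_mul, map_mul, ev_mon, ev_mon]
    have e1 : ev ρ (C t.2.2) = ev ρ' (C t.2.2) := by simp [ev]
    rw [e1]
    congr 1
    refine Finset.prod_congr rfl fun i _ => ?_
    by_cases hi : i = 8
    · subst hi; rw [h8, pow_zero, pow_zero]
    · by_cases hi' : i = 9
      · subst hi'; rw [h9, pow_zero, pow_zero]
      · rw [hρ i hi hi']
  · simp

theorem zv_free (p : Pm) (cs : List (ℕ × List (ℕ × List (ℕ × ℤ)))) (h : frC p.rs p.S cs = true) (n : ℕ) (ρ ρ' : ℕ → ℝ)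
    (hρ : ∀ i, i ≠ 8 → i ≠ 9 → ρ i = ρ' i) : zv p ρ n cs = zv p ρ' n cs := by
  unfold zv
  exact List.map_congr_left fun j _ => ev_free p cs h _ ρ ρ' hρ

theorem rhoF_ne (D1 D2 : ℝ) (d : Dt) (y x y' x' : ℝ) (i : ℕ) (h8 : i ≠ 8) (h9 : i ≠ 9) :
    rhoF D1 D2 d y x i = rhoF D1 D2 d y' x' i := by
  unfold rhoF
  rw [if_neg h8, if_neg h9, if_neg h8, if_neg h9]

theorem qR_zero (b o : ℕ) (rows : List ℕ) (A B : List ℝ) (h : A.length = B.length) :
    qR b o rows (cmb 0 0 A B) = 0 := by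
  rw [qR_cmb b o 0 0 rows A B h]; ring

/-! ### Multipliers -/

theorem idR_rhoF (D1 D2 : ℝ) (d : Dt) (y x : ℝ) : idR (rhoF D1 D2 d y x) = rhoF D1 D2 d y x := by
  funext j
  unfold idR
  split_ifs with h
  · rfl
  · unfold rhoF
    rw [if_neg (by omega), if_neg (by omega), if_neg (by omega)]

theorem atomsI_val (D1 D2 : ℝ) (d : Dt) (y x : ℝ) (i : ℕ) :
    (nth (Ex.c 1) atomsI i).val (rhoF D1 D2 d y x) = (nth (Ex.c 1) atomsI i).val (rho D1 D2 d) := by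
  rcases Nat.lt_or_ge i 10 with hi | hi
  · interval_cases i <;> rfl
  · obtain ⟨k, rfl⟩ := Nat.exists_eq_add_of_le hi
    rw [add_comm]
    rfl

theorem atomsI_nonneg (D1 D2 : ℝ) (d : Dt) (h : Dom (1 / 3) (1 / 2) 1 d) (i : ℕ) :
    0 ≤ (nth (Ex.c 1) atomsI i).val (rho D1 D2 d) := by
  rcases Nat.lt_or_ge i 10 with hi | hi
  · interval_cases i
    · exact atoms2_nonneg D1 D2 d h 0
    · exact atoms2_nonneg D1 D2 d h 1
    · exact atoms2_nonneg D1 D2 d h 2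
    · exact atoms2_nonneg D1 D2 d h 3
    · exact atoms2_nonneg D1 D2 d h 4
    · exact atoms2_nonneg D1 D2 d h 5
    · exact atoms2_nonneg D1 D2 d h 12
    · exact atoms2_nonneg D1 D2 d h 13
    · exact atoms2_nonneg D1 D2 d h 14
    · exact atoms2_nonneg D1 D2 d h 15
  · obtain ⟨k, rfl⟩ := Nat.exists_eq_add_of_le hi
    rw [add_comm]
    change 0 ≤ (Ex.c 1).val (rho D1 D2 d)
    simp [Ex.val]

theorem muI_val (D1 D2 : ℝ) (d : Dt) (y x : ℝ) (l : List ℕ) :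
    (muI l).val (rhoF D1 D2 d y x) = (muI l).val (rho D1 D2 d) := by
  induction l with
  | nil => rfl
  | cons i l ih =>
    have : muI (i :: l) = Ex.mul (nth (Ex.c 1) atomsI i) (muI l) := rfl
    rw [this]
    change (nth (Ex.c 1) atomsI i).val _ * (muI l).val _ = (nth (Ex.c 1) atomsI i).val _ * (muI l).val _
    rw [ih, atomsI_val]

theorem muI_nonneg (D1 D2 : ℝ) (d : Dt) (h : Dom (1 / 3) (1 / 2) 1 d) (l : List ℕ) :
    0 ≤ (muI l).val (rho D1 D2 d) := by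
  induction l with
  | nil => simp [muI, Ex.val]
  | cons i l ih =>
    have : muI (i :: l) = Ex.mul (nth (Ex.c 1) atomsI i) (muI l) := rfl
    rw [this]
    exact mul_nonneg (atomsI_nonneg D1 D2 d h i) ih

theorem vI_nonneg (D1 D2 : ℝ) (d : Dt) (h : Dom (1 / 3) (1 / 2) 1 d) (t : ℕ) :
    0 ≤ (vI t).val (rhoF D1 D2 d d.y1 d.x1) + (vI t).val (rhoF D1 D2 d d.y2 d.x2) - (vI t).val (rhoF D1 D2 d 0 0) := by
  have hx1 := h.x1
  have hx2 := h.x2
  have hy1 := h.y1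
  have hy2 := h.y2
  match t with
  | 0 => simp [vI, nth, Ex.val]
  | 1 =>
    change 0 ≤ (subE (Ex.c 1) (sqE 9)).val _ + (subE (Ex.c 1) (sqE 9)).val _ - (subE (Ex.c 1) (sqE 9)).val _
    simp only [subE, sqE, Ex.val, rhoF]; norm_num; linarith
  | 2 =>
    change 0 ≤ (subE (smE 2 (sqE 9)) (Ex.c 1)).val _ + (subE (smE 2 (sqE 9)) (Ex.c 1)).val _ -
      (subE (smE 2 (sqE 9)) (Ex.c 1)).val _
    simp only [subE, smE, sqE, Ex.val, rhoF]; norm_num; linarith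
  | 3 =>
    change 0 ≤ (subE (Ex.c 1) (sqE 8)).val _ + (subE (Ex.c 1) (sqE 8)).val _ - (subE (Ex.c 1) (sqE 8)).val _
    simp only [subE, sqE, Ex.val, rhoF]; norm_num; linarith
  | 4 =>
    change 0 ≤ (subE (smE 2 (sqE 8)) (Ex.c 1)).val _ + (subE (smE 2 (sqE 8)) (Ex.c 1)).val _ -
      (subE (smE 2 (sqE 8)) (Ex.c 1)).val _
    simp only [subE, smE, sqE, Ex.val, rhoF]; norm_num; linarith
  | (k + 5) =>
    change 0 ≤ (Ex.c 1).val _ + (Ex.c 1).val _ - (Ex.c 1).val _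
    simp [Ex.val]

theorem mckT_spec (p : Pm) (ra rb ro : ℕ) (l : List IT) (h : mckT p ra rb ro l = true) :
    ∀ x ∈ l, mCk p.B (envL p.rs p.S p.B vl0) p.di p.dO wA wB wO ra rb ro x.mb.m (Ex.mul (vI x.vt) (muI x.ids)) = true := by
  unfold mckT at h
  rw [EnvM.mkE_eq] at h
  induction l with
  | nil => intro x hx; simp at hx
  | cons y l ih =>
    obtain ⟨h1, h2⟩ := SosM.brec_true h
    intro x hx
    rcases List.mem_cons.1 hx with h3 | h3
    · rw [h3]; exact h1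
    · exact ih h2 x h3

theorem mckU_spec (p : Pm) (ra rb ro : ℕ) (l : List IM) (h : mckU p ra rb ro l = true) :
    ∀ x ∈ l, mCk p.B (envL p.rs p.S p.B vl0) p.di p.dO wA wB wO ra rb ro x.m2 (m2E x.kd (muI x.ids)) = true ∧
      mCk p.B (envL p.rs p.S p.B vl0) p.di p.dO wA wB wO ra rb ro x.mn (smE (-1) (muI x.ids)) = true := by
  unfold mckU at h
  rw [EnvM.mkE_eq] at h
  induction l with
  | nil => intro x hx; simp at hx
  | cons y l ih =>
    obtain ⟨h1, h2⟩ := SosM.brec_true h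
    obtain ⟨h4, h5⟩ := SosM.brec_true h2
    intro x hx
    rcases List.mem_cons.1 hx with h3 | h3
    · rw [h3]; exact ⟨h1, h4⟩
    · exact ih h5 x h3

/-- The combination of the three formal points. -/
noncomputable def tri (D1 D2 : ℝ) (d : Dt) (P : MvPolynomial ℕ ℤ) : ℝ :=
  ev (rhoF D1 D2 d d.y1 d.x1) P + ev (rhoF D1 D2 d d.y2 d.x2) P - ev (rhoF D1 D2 d 0 0) P

theorem tri_add (D1 D2 : ℝ) (d : Dt) (P Q : MvPolynomial ℕ ℤ) : tri D1 D2 d (P + Q) = tri D1 D2 d P + tri D1 D2 d Q := by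
  unfold tri
  rw [map_add, map_add, map_add]; ring

theorem tri_zero (D1 D2 : ℝ) (d : Dt) : tri D1 D2 d 0 = 0 := by
  unfold tri
  rw [map_zero, map_zero, map_zero]; ring

/-- Nonnegativity of a constant item. -/
theorem it_nonneg {p : Pm} {ra rb ro : ℕ} (hp : P12 p ra rb ro) (D1 D2 : ℝ) (d : Dt) (hd : Dom (1 / 3) (1 / 2) 1 d)
    (x : IT) (hm : mCk p.B (envL p.rs p.S p.B vl0) p.di p.dO wA wB wO ra rb ro x.mb.m (Ex.mul (vI x.vt) (muI x.ids)) = true)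
    (hf : ∀ y ∈ x.mb.bl, frC p.rs p.S y.cs = true) (hps : ∀ y ∈ x.mb.bl, PsdOK p.b p.o y.rows) :
    0 ≤ tri D1 D2 d (p.mbP x.mb) := by
  have e1 : ∀ y' x' : ℝ, ev (rhoF D1 D2 d y' x') (p.mbP x.mb) =
      (vI x.vt).val (rhoF D1 D2 d y' x') * (muI x.ids).val (rho D1 D2 d) *
        (x.mb.bl.map fun y => qR p.b p.o y.rows (zv p (rhoF D1 D2 d 0 0) y.rows.length y.cs)).sum := by
    intro y' x'
    unfold Pm.mbP
    rw [map_mul, mCk_ev hp x.mb.m _ hm, idR_rhoF, map_list_sum, List.map_map]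
    change (vI x.vt).val _ * (muI x.ids).val _ * _ = _
    rw [muI_val]
    congr 2
    refine List.map_congr_left fun y hy => ?_
    simp only [Function.comp_apply]
    rw [insP_ev, zv_free p y.cs (hf y hy) _ _ _ (rhoF_ne D1 D2 d y' x' 0 0)]
  unfold tri
  rw [e1, e1, e1]
  have h1 := vI_nonneg D1 D2 d hd x.vt
  have h2 := muI_nonneg D1 D2 d hd x.ids
  have h3 : 0 ≤ (x.mb.bl.map fun y => qR p.b p.o y.rows (zv p (rhoF D1 D2 d 0 0) y.rows.length y.cs)).sum := by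
    refine List.sum_nonneg fun v hv => ?_
    obtain ⟨y, hy, rfl⟩ := List.mem_map.1 hv
    exact hps y hy _ (by simp [zv])
  have h4 := mul_nonneg (mul_nonneg h1 h2) h3
  linarith

/-- The three values of a block linear in `x, y`. -/
theorem ins_val {p : Pm} {ra rb ro : ℕ} (hp : P12 p ra rb ro) (D1 D2 : ℝ) (d : Dt) (y : CB)
    (hA : frC p.rs p.S y.A = true) (hB : frC p.rs p.S y.B = true) (hc : cC p.rs p.S 8 9 y.A y.B y.z1 = true) (y' x' : ℝ) :
    ev (rhoF D1 D2 d y' x') (p.insP ⟨y.z1, y.rows⟩) = qR p.b p.o y.rows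
      (cmb y' x' (zv p (rhoF D1 D2 d 0 0) y.rows.length y.A) (zv p (rhoF D1 D2 d 0 0) y.rows.length y.B)) := by
  have hr := rF_pos hp
  rw [insP_ev]
  simp only
  rw [zv_cmb p hr 8 9 y.A y.B y.z1 hc, ev_vr, ev_vr, hp.hl, if_pos (by norm_num), if_pos (by norm_num),
    zv_free p y.A hA _ _ _ (rhoF_ne D1 D2 d y' x' 0 0), zv_free p y.B hB _ _ _ (rhoF_ne D1 D2 d y' x' 0 0)]
  rfl

/-- The values of the blocks `w`. -/
theorem w_val {p : Pm} {ra rb ro : ℕ} (hp : P12 p ra rb ro) (D1 D2 : ℝ) (d : Dt) (y : CB) (kd : ℕ)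
    (hA : frC p.rs p.S y.A = true) (hB : frC p.rs p.S y.B = true) (hk : kd ≠ 0) (hc : ibC p.rs p.S kd y = true) (y' x' : ℝ) :
    ev (rhoF D1 D2 d y' x') (p.insP ⟨y.w, y.rows⟩) = qR p.b p.o y.rows
      (cmb (if kd = 1 then d.b else 1) (if kd = 1 then 1 else d.a)
        (zv p (rhoF D1 D2 d 0 0) y.rows.length y.A) (zv p (rhoF D1 D2 d 0 0) y.rows.length y.B)) := by
  have hr := rF_pos hp
  unfold ibC at hc
  rw [Bool.and_eq_true] at hc
  rw [insP_ev]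
  simp only
  match kd, hk, hc with
  | 1, _, hc =>
    rw [zv_cmb p hr 1 12 y.A y.B y.w hc.2, ev_vr, ev_vr, hp.hl, if_pos (by norm_num), if_neg (by norm_num),
      zv_free p y.A hA _ _ _ (rhoF_ne D1 D2 d y' x' 0 0), zv_free p y.B hB _ _ _ (rhoF_ne D1 D2 d y' x' 0 0)]
    rfl
  | (k + 2), _, hc =>
    rw [zv_cmb p hr 12 0 y.A y.B y.w hc.2, ev_vr, ev_vr, hp.hl, if_neg (by norm_num), if_pos (by norm_num),
      zv_free p y.A hA _ _ _ (rhoF_ne D1 D2 d y' x' 0 0), zv_free p y.B hB _ _ _ (rhoF_ne D1 D2 d y' x' 0 0)]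
    rw [if_neg (by omega), if_neg (by omega)]
    rfl

/-- The value of a multiplier with the blocks `z1`. -/
theorem mb1_val {p : Pm} {ra rb ro : ℕ} (hp : P12 p ra rb ro) (D1 D2 : ℝ) (d : Dt) (m : List (ℕ × List (ℕ × ℤ)))
    (e : Ex) (c : ℝ) (ids : List ℕ) (hm : mCk p.B (envL p.rs p.S p.B vl0) p.di p.dO wA wB wO ra rb ro m e = true)
    (he : ∀ y x : ℝ, e.val (rhoF D1 D2 d y x) = c * (muI ids).val (rho D1 D2 d)) (bl : List CB) (kd : ℕ)
    (hb : ∀ y ∈ bl, ibC p.rs p.S kd y = true) (y' x' : ℝ) :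
    ev (rhoF D1 D2 d y' x') (p.mbP ⟨m, bl.map fun y => ⟨y.z1, y.rows⟩⟩) =
      c * (muI ids).val (rho D1 D2 d) * (bl.map fun y => qR p.b p.o y.rows
        (cmb y' x' (zv p (rhoF D1 D2 d 0 0) y.rows.length y.A) (zv p (rhoF D1 D2 d 0 0) y.rows.length y.B))).sum := by
  unfold Pm.mbP
  rw [map_mul, mCk_ev hp m _ hm, idR_rhoF, he, map_list_sum, List.map_map, List.map_map]
  congr 2
  refine List.map_congr_left fun y hy => ?_
  have hc := hb y hy
  unfold ibC at hc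
  rw [Bool.and_eq_true, Bool.and_eq_true, Bool.and_eq_true] at hc
  exact ins_val hp D1 D2 d y hc.1.1.1 hc.1.1.2 hc.1.2 y' x'

/-- The value of a multiplier with the blocks `w`. -/
theorem mbw_val {p : Pm} {ra rb ro : ℕ} (hp : P12 p ra rb ro) (D1 D2 : ℝ) (d : Dt) (m : List (ℕ × List (ℕ × ℤ)))
    (ids : List ℕ) (hm : mCk p.B (envL p.rs p.S p.B vl0) p.di p.dO wA wB wO ra rb ro m (smE (-1) (muI ids)) = true)
    (bl : List CB) (kd : ℕ) (hk : kd ≠ 0) (hb : ∀ y ∈ bl, ibC p.rs p.S kd y = true) (y' x' : ℝ) :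
    ev (rhoF D1 D2 d y' x') (p.mbP ⟨m, bl.map fun y => ⟨y.w, y.rows⟩⟩) =
      -(muI ids).val (rho D1 D2 d) * (bl.map fun y => qR p.b p.o y.rows
        (cmb (if kd = 1 then d.b else 1) (if kd = 1 then 1 else d.a)
          (zv p (rhoF D1 D2 d 0 0) y.rows.length y.A) (zv p (rhoF D1 D2 d 0 0) y.rows.length y.B))).sum := by
  unfold Pm.mbP
  rw [map_mul, mCk_ev hp m _ hm, idR_rhoF, map_list_sum, List.map_map, List.map_map]
  have e1 : (smE (-1) (muI ids)).val (rhoF D1 D2 d y' x') = -(muI ids).val (rho D1 D2 d) := by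
    rw [← muI_val D1 D2 d y' x' ids]; simp [smE, Ex.val]
  rw [e1]
  congr 2
  refine List.map_congr_left fun y hy => ?_
  have hc := hb y hy
  have hc' := hc
  unfold ibC at hc
  rw [Bool.and_eq_true, Bool.and_eq_true, Bool.and_eq_true] at hc
  exact w_val hp D1 D2 d y kd hc.1.1.1 hc.1.1.2 hk hc' y' x'

theorem sum_zero (p : Pm) (D1 D2 : ℝ) (d : Dt) (bl : List CB) : (bl.map fun y => qR p.b p.o y.rows
    (cmb 0 0 (zv p (rhoF D1 D2 d 0 0) y.rows.length y.A) (zv p (rhoF D1 D2 d 0 0) y.rows.length y.B))).sum = 0 := by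
  refine List.sum_eq_zero fun v hv => ?_
  obtain ⟨y, _, rfl⟩ := List.mem_map.1 hv
  exact qR_zero _ _ _ _ _ (by simp [zv])

/-- Nonnegativity of a linear item. -/
theorem im_nonneg {p : Pm} {ra rb ro : ℕ} (hp : P12 p ra rb ro) (D1 D2 : ℝ) (d : Dt) (hd : Dom (1 / 3) (1 / 2) 1 d)
    (x : IM) (h2 : mCk p.B (envL p.rs p.S p.B vl0) p.di p.dO wA wB wO ra rb ro x.m2 (m2E x.kd (muI x.ids)) = true)
    (hn : mCk p.B (envL p.rs p.S p.B vl0) p.di p.dO wA wB wO ra rb ro x.mn (smE (-1) (muI x.ids)) = true)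
    (hb : ∀ y ∈ x.bl, ibC p.rs p.S x.kd y = true) (hps : ∀ y ∈ x.bl, PsdOK p.b p.o y.rows) :
    0 ≤ tri D1 D2 d (p.sosP x.mbs) := by
  obtain ⟨ids, kd, m2, mn, bl⟩ := x
  simp only at h2 hn hb hps
  have hmu := muI_nonneg D1 D2 d hd ids
  cases kd with
  | zero =>
    have e1 := mb1_val hp D1 D2 d m2 (muI ids) 1 ids h2 (fun y x => by rw [muI_val, one_mul]) bl 0 hb
    have e2 : p.sosP (IM.mbs ⟨ids, 0, m2, mn, bl⟩) = p.mbP ⟨m2, bl.map fun y => ⟨y.z1, y.rows⟩⟩ := by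
      simp [Pm.sosP, IM.mbs]
    rw [e2]
    unfold tri
    rw [e1, e1, e1, sum_zero]
    have h3 : ∀ y' x' : ℝ, 0 ≤ (bl.map fun y => qR p.b p.o y.rows
        (cmb y' x' (zv p (rhoF D1 D2 d 0 0) y.rows.length y.A) (zv p (rhoF D1 D2 d 0 0) y.rows.length y.B))).sum := by
      intro y' x'
      refine List.sum_nonneg fun v hv => ?_
      obtain ⟨y, hy, rfl⟩ := List.mem_map.1 hv
      exact hps y hy _ (by simp [zv, cmb])
    have h4 := mul_nonneg hmu (h3 d.y1 d.x1)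
    have h5 := mul_nonneg hmu (h3 d.y2 d.x2)
    linarith
  | succ k =>
    have e1 := mb1_val hp D1 D2 d m2 (smE 2 (muI ids)) 2 ids h2 (fun y x => by
      rw [← muI_val D1 D2 d y x ids]; simp [smE, Ex.val]) bl (k + 1) hb
    have e3 := mbw_val hp D1 D2 d mn ids hn bl (k + 1) (Nat.succ_ne_zero k) hb
    have e2 : p.sosP (IM.mbs ⟨ids, k + 1, m2, mn, bl⟩) = p.mbP ⟨m2, bl.map fun y => ⟨y.z1, y.rows⟩⟩ +
        p.mbP ⟨mn, bl.map fun y => ⟨y.w, y.rows⟩⟩ := by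
      simp [Pm.sosP, IM.mbs]
    rw [e2, tri_add]
    unfold tri
    rw [e1, e1, e1, sum_zero, e3, e3, e3]
    have key : 0 ≤ 2 * ((bl.map fun y => qR p.b p.o y.rows (cmb d.y1 d.x1 (zv p (rhoF D1 D2 d 0 0) y.rows.length y.A)
          (zv p (rhoF D1 D2 d 0 0) y.rows.length y.B))).sum +
        (bl.map fun y => qR p.b p.o y.rows (cmb d.y2 d.x2 (zv p (rhoF D1 D2 d 0 0) y.rows.length y.A)
          (zv p (rhoF D1 D2 d 0 0) y.rows.length y.B))).sum) -
        (bl.map fun y => qR p.b p.o y.rows (cmb (if k + 1 = 1 then d.b else 1) (if k + 1 = 1 then 1 else d.a)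
          (zv p (rhoF D1 D2 d 0 0) y.rows.length y.A) (zv p (rhoF D1 D2 d 0 0) y.rows.length y.B))).sum := by
      clear e1 e2 e3 hb h2 hn
      induction bl with
      | nil => simp
      | cons y bl ih =>
        have ih' := ih fun z hz => hps z (List.mem_cons_of_mem _ hz)
        have hy := hps y List.mem_cons_self
        have hlA : (zv p (rhoF D1 D2 d 0 0) y.rows.length y.A).length = y.rows.length := by simp [zv]
        have hlB : (zv p (rhoF D1 D2 d 0 0) y.rows.length y.B).length = y.rows.length := by simp [zv]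
        have hy2 : 0 ≤ 2 * (qR p.b p.o y.rows (cmb d.y1 d.x1 (zv p (rhoF D1 D2 d 0 0) y.rows.length y.A)
          (zv p (rhoF D1 D2 d 0 0) y.rows.length y.B)) +
            qR p.b p.o y.rows (cmb d.y2 d.x2 (zv p (rhoF D1 D2 d 0 0) y.rows.length y.A)
          (zv p (rhoF D1 D2 d 0 0) y.rows.length y.B))) -
            qR p.b p.o y.rows (cmb (if k + 1 = 1 then d.b else 1) (if k + 1 = 1 then 1 else d.a)
          (zv p (rhoF D1 D2 d 0 0) y.rows.length y.A) (zv p (rhoF D1 D2 d 0 0) y.rows.length y.B)) := by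
          by_cases hk : k + 1 = 1
          · rw [if_pos hk, if_pos hk]
            exact cpl_b hy _ _ hlA hlB d hd
          · rw [if_neg hk, if_neg hk]
            exact cpl_a hy _ _ hlA hlB d hd
        rw [List.map_cons, List.sum_cons, List.map_cons, List.sum_cons, List.map_cons, List.sum_cons]
        linarith
    have h4 := mul_nonneg hmu key
    linarith

theorem tri_sos (p : Pm) (D1 D2 : ℝ) (d : Dt) (l : List MB) (h : ∀ x ∈ l, 0 ≤ tri D1 D2 d (p.mbP x)) :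
    0 ≤ tri D1 D2 d (p.sosP l) := by
  induction l with
  | nil => rw [show p.sosP [] = 0 from rfl, tri_zero]
  | cons x l ih =>
    have e : p.sosP (x :: l) = p.mbP x + p.sosP l := by simp [Pm.sosP]
    rw [e, tri_add]
    exact add_nonneg (h x List.mem_cons_self) (ih fun y hy => h y (List.mem_cons_of_mem _ hy))

theorem ev_tW (ρ : ℕ → ℝ) (j : ℕ) : ev ρ (tW (X : ℕ → MvPolynomial ℕ ℤ) j) = tW ρ j := by
  match j with
  | 0 => simp [tW, ev]
  | 1 => simp [tW, ev]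
  | 2 => simp [tW, ev]
  | 3 => simp [tW, ev]
  | 4 => simp [tW, ev]
  | 5 => simp [tW, ev]
  | 6 => simp [tW, ev]
  | 7 => simp [tW, ev]
  | 8 => simp [tW]
  | 9 => simp [tW, ev]
  | 10 => simp [tW, ev]
  | 11 => simp [tW, ev]
  | (k + 12) => simp [tW]

theorem ev_swW {S : Type*} [CommRing S] (f : MvPolynomial ℕ ℤ →+* S) (σ : ℕ → MvPolynomial ℕ ℤ) (j : ℕ) :
    f (swW σ j) = swW (fun i => f (σ i)) j := by
  match j with
  | 0 => simp [swW]
  | 1 => simp [swW]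
  | 2 => rfl
  | 3 => simp [swW]
  | 4 => rfl
  | 5 => simp [swW]
  | 6 => simp [swW]
  | 7 => rfl
  | 8 => rfl
  | 9 => rfl
  | 10 => rfl
  | 11 => simp [swW]
  | 12 => rfl
  | 13 => rfl
  | 14 => simp [swW]
  | (k + 15) => simp [swW]

end IsoM

open IsoM

/-- **Positivity for an isotropic form from an identity with one formal pair.** -/
theorem pos_iso {p : Pm} {ra rb ro : ℕ} (hp : P12 p ra rb ro) (G : Ex) (hG : lnE G = 2) (tl : List IT) (ul : List IM)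
    (hid : G.val (tW (MvPolynomial.X : ℕ → MvPolynomial ℕ ℤ)) + G.val (swW (tW (MvPolynomial.X : ℕ → MvPolynomial ℕ ℤ))) =
      p.sosP (tl.map IT.mb ++ ul.flatMap IM.mbs))
    (hmt : mckT p ra rb ro tl = true) (hmu : mckU p ra rb ro ul = true) (hb : ibs p tl ul = true)
    (hpt : ∀ x ∈ tl, ∀ y ∈ x.mb.bl, PsdOK p.b p.o y.rows) (hpu : ∀ x ∈ ul, ∀ y ∈ x.bl, PsdOK p.b p.o y.rows)
    (D1 D2 : ℝ) (d : Dt) (hd : Dom (1 / 3) (1 / 2) 1 d) :
    0 ≤ G.val (rhoW true D1 D2 d) + G.val (rhoW true D1 D2 d.sw) := by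
  rw [rhoW_sw, val_split G hG]
  have e1 : ∀ ρ : ℕ → ℝ, G.val (tW ρ) + G.val (swW (tW ρ)) = ev ρ (p.sosP (tl.map IT.mb ++ ul.flatMap IM.mbs)) := by
    intro ρ
    rw [← hid, map_add, Ex.val_map, Ex.val_map]
    have a0 : (fun i => ev ρ (tW (MvPolynomial.X : ℕ → MvPolynomial ℕ ℤ) i)) = tW ρ := funext fun i => ev_tW ρ i
    have a1 : (fun i => ev ρ (swW (tW (MvPolynomial.X : ℕ → MvPolynomial ℕ ℤ)) i)) = swW (tW ρ) := by
      funext i
      rw [ev_swW, a0]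
    rw [a0, a1]
  rw [e1, e1, e1]
  change 0 ≤ tri D1 D2 d (p.sosP (tl.map IT.mb ++ ul.flatMap IM.mbs))
  rw [CplM.sosP_append, tri_add]
  unfold ibs at hb
  rw [Bool.and_eq_true, List.all_eq_true, List.all_eq_true] at hb
  obtain ⟨hb1, hb2⟩ := hb
  refine add_nonneg (tri_sos p D1 D2 d _ fun x hx => ?_) ?_
  · obtain ⟨y, hy, rfl⟩ := List.mem_map.1 hx
    have h1 := hb1 y hy
    rw [List.all_eq_true] at h1
    exact it_nonneg hp D1 D2 d hd y (mckT_spec p ra rb ro tl hmt y hy) h1 (hpt y hy)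
  · have h2 := mckU_spec p ra rb ro ul hmu
    have : ∀ l : List IM, (∀ x ∈ l, x ∈ ul) → 0 ≤ tri D1 D2 d (p.sosP (l.flatMap IM.mbs)) := by
      intro l
      induction l with
      | nil => intro _; rw [List.flatMap_nil, show p.sosP [] = 0 from rfl, tri_zero]
      | cons x l ih =>
        intro hl
        rw [List.flatMap_cons, CplM.sosP_append, tri_add]
        have hx := hl x List.mem_cons_self
        refine add_nonneg ?_ (ih fun y hy => hl y (List.mem_cons_of_mem _ hy))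
        obtain ⟨h3, h4⟩ := h2 x hx
        have h5 := hb2 x hx
        rw [List.all_eq_true] at h5
        exact im_nonneg hp D1 D2 d hd x h3 h4 h5 (hpu x hx)
    exact this ul fun x hx => hx

end Pool.Agent.Lib.MP_084b88_gt.SK
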