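import Pool.Agent.Lib.MP_084b88_gt.SK.NI
import Pool.Agent.Lib.MP_084b88_gt.AY.SpecV

/-!
# MP_084b88_gt, project SK: the kernel `KQ` as an expression
-/

set_option autoImplicit false

open MeasureTheory Set Real Filter Topology
open scoped Pointwise InnerProductSpace

namespace Pool.Agent.Lib.MP_084b88_gt.SK

open Pool.Agent.Lib.MP_084b88_gt.CW Pool.Agent.Lib.MP_084b88_gt.SY Pool.Agent.Lib.MP_084b88_gt.AY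

/-- Monomials `c γ^g X^q x1^r x2^s`. -/
structure MT where
  c : ℤ
  g : ℕ
  q : ℕ
  r : ℕ
  s : ℕ

/-- Integer parameters of the kernel. -/
structure KP where
  c1 : ℤ
  rc : ℤ
  rs : ℤ
  h1 : ℤ
  h2 : ℤ
  h3 : ℤ
  t0 : ℤ
  t1 : ℤ
  t2 : ℤ
  t3 : ℤ
  Ph : List MT
  Pe : List MT
  M1 : List MT
  M2 : List MT

/-- Polynomials in `γ, X, x1, x2`. -/
def mtV (l : List MT) (X x1 x2 γ : ℝ) : ℝ := (l.map fun t => (t.c : ℝ) * (γ ^ t.g * X ^ t.q * x1 ^ t.r * x2 ^ t.s)).sum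

/-- As an expression. -/
noncomputable def mtE (l : List MT) : Ex :=
  @List.rec MT (fun _ => Ex) (Ex.c 0) (fun t _ ih => Ex.add (Ex.mul (Ex.c t.c)
    (pwm (Ex.v 4) t.g (pwm (Ex.v 7) t.q (pwm (Ex.v 9) t.r (pwm (Ex.v 11) t.s (Ex.c 1)))))) ih) l

/-- `x²`. -/
def sqE (i : ℕ) : Ex := Ex.pow (Ex.v i) 2

/-- `x - y`. -/
def subE (x y : Ex) : Ex := Ex.add x (Ex.mul (Ex.c (-1)) y)

/-- `c x`. -/
def smE (n : ℤ) (x : Ex) : Ex := Ex.mul (Ex.c n) x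

/-- `c1 ψ`. -/
def psE (p : KP) : Ex := subE (Ex.c p.c1) (Ex.add (smE p.rc (sqE 9)) (smE p.rs (sqE 11)))

/-- `24 kk (gp 1)`. -/
def q1E : Ex := Ex.add (Ex.c 2) (Ex.add (smE (-6) (Ex.add (sqE 0) (sqE 2)))
  (smE 4 (Ex.add (Ex.pow (Ex.v 0) 4) (Ex.add (smE 6 (Ex.mul (sqE 0) (sqE 2))) (Ex.pow (Ex.v 2) 4)))))

/-- `120 kk (gp 2)`. -/
def q2E : Ex := Ex.add (Ex.c 7) (Ex.add (smE (-15) (Ex.add (sqE 0) (sqE 2)))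
  (smE 8 (Ex.add (Ex.pow (Ex.v 0) 6) (Ex.add (smE 15 (Ex.mul (Ex.pow (Ex.v 0) 4) (sqE 2)))
    (Ex.add (smE 15 (Ex.mul (sqE 0) (Ex.pow (Ex.v 2) 4))) (Ex.pow (Ex.v 2) 6))))))

/-- `448 kk (gp 3)`. -/
def q3E : Ex := Ex.add (Ex.c 19) (Ex.add (smE (-35) (Ex.add (sqE 0) (sqE 2)))
  (smE 16 (Ex.add (Ex.pow (Ex.v 0) 8) (Ex.add (smE 28 (Ex.mul (Ex.pow (Ex.v 0) 6) (sqE 2)))
    (Ex.add (smE 70 (Ex.mul (Ex.pow (Ex.v 0) 4) (Ex.pow (Ex.v 2) 4)))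
      (Ex.add (smE 28 (Ex.mul (sqE 0) (Ex.pow (Ex.v 2) 6))) (Ex.pow (Ex.v 2) 8)))))))

/-- The tail. -/
def etE (p : KP) : Ex := Ex.add (Ex.c p.t0) (Ex.add (smE p.t1 (sqE 0)) (Ex.add (smE p.t2 (Ex.pow (Ex.v 0) 4))
  (smE p.t3 (Ex.pow (Ex.v 0) 6))))

/-- The kernel without multipliers. -/
def hdE (p : KP) : Ex := Ex.add (smE p.h1 q1E) (Ex.add (smE p.h2 q2E) (Ex.add (smE p.h3 q3E)
  (Ex.mul (etE p) (sqE 2))))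

/-- The kernel `KQ` times `c1 c2`. -/
noncomputable def kqE (p : KP) : Ex :=
  Ex.add (Ex.mul (psE p) (hdE p))
    (Ex.add
      (Ex.mul (Ex.add (Ex.add (Ex.mul (psE p) (mtE p.Ph)) (mtE p.Pe))
        (Ex.add (smE 3 (Ex.mul (mtE p.M1) (Ex.v 4)))
          (smE 2 (Ex.mul (mtE p.M2) (subE (smE 3 (sqE 4)) (Ex.add (sqE 9) (sqE 11)))))))
        (subE (Ex.c 1) (Ex.add (sqE 0) (sqE 2))))
      (Ex.add (smE (-1) (Ex.mul (Ex.add (mtE p.M1) (smE 4 (Ex.mul (Ex.v 4) (mtE p.M2))))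
          (Ex.add (Ex.pow (Ex.v 2) 3) (smE 3 (Ex.mul (sqE 0) (Ex.v 2))))))
        (Ex.mul (mtE p.M2) (subE (Ex.c 1) (Ex.add (Ex.pow (Ex.v 0) 4)
          (Ex.add (smE 6 (Ex.mul (sqE 0) (sqE 2))) (Ex.pow (Ex.v 2) 4)))))))

namespace KQEM

theorem mtE_val (D1 D2 : ℝ) (d : Dt) (l : List MT) :
    (mtE l).val (rho D1 D2 d) = mtV l (D1 * d.x1 + D2 * d.x2) d.x1 d.x2 d.gt := by
  induction l with
  | nil => simp [mtE, mtV, Ex.val]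
  | cons t l ih =>
    have : mtE (t :: l) = Ex.add (Ex.mul (Ex.c t.c)
      (pwm (Ex.v 4) t.g (pwm (Ex.v 7) t.q (pwm (Ex.v 9) t.r (pwm (Ex.v 11) t.s (Ex.c 1)))))) (mtE l) := rfl
    rw [this]
    simp only [Ex.val, NIM.pwm_val, ih]
    simp only [mtV, List.map_cons, List.sum_cons, rho, Int.cast_one]
    ring

theorem kk1 (a e : ℝ) : kk (AY.gp 1) a e = (2 - 6 * (a ^ 2 + e ^ 2) + 4 * (a ^ 4 + 6 * a ^ 2 * e ^ 2 + e ^ 4)) / 24 := by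
  unfold kk AY.gp mu ww
  simp only [Finset.prod_range_succ, Finset.prod_range_zero]
  push_cast
  ring

theorem kk2 (a e : ℝ) : kk (AY.gp 2) a e = (7 - 15 * (a ^ 2 + e ^ 2) +
    8 * (a ^ 6 + 15 * a ^ 4 * e ^ 2 + 15 * a ^ 2 * e ^ 4 + e ^ 6)) / 120 := by
  unfold kk AY.gp mu ww
  simp only [Finset.prod_range_succ, Finset.prod_range_zero]
  push_cast
  ring

theorem kk3 (a e : ℝ) : kk (AY.gp 3) a e = (19 - 35 * (a ^ 2 + e ^ 2) +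
    16 * (a ^ 8 + 28 * a ^ 6 * e ^ 2 + 70 * a ^ 4 * e ^ 4 + 28 * a ^ 2 * e ^ 6 + e ^ 8)) / 448 := by
  unfold kk AY.gp mu ww
  simp only [Finset.prod_range_succ, Finset.prod_range_zero]
  push_cast
  ring

theorem tcf0 : tcf 0 = 1 / 2 := rfl

theorem tcf1 : tcf 1 = 1 / 8 := by
  have : tcf 1 = tcf 0 * ((2 * ((0 : ℕ) : ℝ) + 1) / (2 * ((0 : ℕ) : ℝ) + 4)) := rfl
  rw [this, tcf0]; norm_num

theorem tcf2 : tcf 2 = 1 / 16 := by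
  have : tcf 2 = tcf 1 * ((2 * ((1 : ℕ) : ℝ) + 1) / (2 * ((1 : ℕ) : ℝ) + 4)) := rfl
  rw [this, tcf1]; norm_num

theorem mu1 : mu 1 = 1 / 4 := by
  unfold mu ww
  simp only [Finset.prod_range_succ, Finset.prod_range_zero]
  norm_num

theorem mu2 : mu 2 = 1 / 8 := by
  unfold mu ww
  simp only [Finset.prod_range_succ, Finset.prod_range_zero]
  norm_num

theorem mu3 : mu 3 = 5 / 64 := by
  unfold mu ww
  simp only [Finset.prod_range_succ, Finset.prod_range_zero]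
  norm_num

theorem hdk3 (aS aR a e : ℝ) : hdk 3 aS aR a e =
    aS / 48 * (2 - 6 * (a ^ 2 + e ^ 2) + 4 * (a ^ 4 + 6 * a ^ 2 * e ^ 2 + e ^ 4)) +
    aR / 960 * (7 - 15 * (a ^ 2 + e ^ 2) + 8 * (a ^ 6 + 15 * a ^ 4 * e ^ 2 + 15 * a ^ 2 * e ^ 4 + e ^ 6)) +
    aR / 7168 * (19 - 35 * (a ^ 2 + e ^ 2) +
      16 * (a ^ 8 + 28 * a ^ 6 * e ^ 2 + 70 * a ^ 4 * e ^ 4 + 28 * a ^ 2 * e ^ 6 + e ^ 8)) := by
  unfold hdk
  have : Finset.Ico 1 3 = {1, 2} := rfl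
  rw [this, Finset.sum_pair (by norm_num), kk1, tcf0, tcf1, tcf2]
  rw [show (1 : ℕ) + 1 = 2 from rfl, show (2 : ℕ) + 1 = 3 from rfl, kk2, kk3]
  ring

theorem etl3 (κ0 u0 u1 u2 u3 a : ℝ) : etl 3 κ0 (fun y => u0 + u1 * y + u2 * y ^ 2 + u3 * y ^ 3) a =
    (κ0 - u0 + 149 / 1024) + (-u1 - 1 / 2) * a ^ 2 + (-u2 - 1 / 8) * a ^ 4 + (-u3 - 1 / 16) * a ^ 6 := by
  unfold etl
  simp only [Finset.sum_range_succ, Finset.sum_range_zero]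
  rw [tcf0, tcf1, tcf2, show (0 : ℕ) + 1 = 1 from rfl, show (1 : ℕ) + 1 = 2 from rfl, show (2 : ℕ) + 1 = 3 from rfl,
    mu1, mu2, mu3]
  ring

end KQEM

open KQEM

/-- **The value of the kernel expression.** -/
theorem kqE_val (p : KP) (D1 D2 : ℝ) (d : Dt) (c1 c2 rc rs aS aR κ0 u0 u1 u2 u3 : ℝ) (hc1 : c1 ≠ 0) (hc2 : c2 ≠ 0)
    (e0 : (p.c1 : ℝ) = c1) (e1 : (p.rc : ℝ) = c1 * rc) (e2 : (p.rs : ℝ) = c1 * rs)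
    (g1 : (p.h1 : ℝ) = c2 * aS / 48) (g2 : (p.h2 : ℝ) = c2 * aR / 960) (g3 : (p.h3 : ℝ) = c2 * aR / 7168)
    (k0 : (p.t0 : ℝ) = c2 * aR * (κ0 - u0 + 149 / 1024)) (k1 : (p.t1 : ℝ) = c2 * aR * (-u1 - 1 / 2))
    (k2 : (p.t2 : ℝ) = c2 * aR * (-u2 - 1 / 8)) (k3 : (p.t3 : ℝ) = c2 * aR * (-u3 - 1 / 16)) :
    (kqE p).val (rho D1 D2 d) = c1 * c2 * KQ 3 rc rs aS aR κ0 (fun y => u0 + u1 * y + u2 * y ^ 2 + u3 * y ^ 3)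
      (fun x1 x2 γ => psQ rc rs x1 x2 * (mtV p.Ph (D1 * x1 + D2 * x2) x1 x2 γ / c2) +
        mtV p.Pe (D1 * x1 + D2 * x2) x1 x2 γ / (c1 * c2))
      (fun x1 x2 γ => 3 * mtV p.M1 (D1 * x1 + D2 * x2) x1 x2 γ / (c1 * c2))
      (fun x1 x2 γ => 6 * mtV p.M2 (D1 * x1 + D2 * x2) x1 x2 γ / (c1 * c2)) d := by
  unfold KQ mlt
  rw [hdk3, etl3]
  simp only [kqE, psE, hdE, q1E, q2E, q3E, etE, sqE, subE, smE, Ex.val, mtE_val]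
  simp only [rho, e0, e1, e2, g1, g2, g3, k0, k1, k2, k3]
  generalize mtV p.Ph (D1 * d.x1 + D2 * d.x2) d.x1 d.x2 d.gt = Ph
  generalize mtV p.Pe (D1 * d.x1 + D2 * d.x2) d.x1 d.x2 d.gt = Pe
  generalize mtV p.M1 (D1 * d.x1 + D2 * d.x2) d.x1 d.x2 d.gt = M1
  generalize mtV p.M2 (D1 * d.x1 + D2 * d.x2) d.x1 d.x2 d.gt = M2
  push_cast
  unfold psQ
  field_simp
  ring

end Pool.Agent.Lib.MP_084b88_gt.SK
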