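import Pool.Agent.Lib.MP_084b88_gt.SK.NX
import Pool.Agent.Lib.MP_084b88_gt.SK.Env

/-!
# MP_084b88_gt, project SK: lists of null forms as expressions
-/

set_option autoImplicit false

open MeasureTheory Set Real Filter Topology
open scoped Pointwise InnerProductSpace

namespace Pool.Agent.Lib.MP_084b88_gt.SK

open Pool.Agent.Lib.MP_084b88_gt.AY

/-- A null form: `φ` (coefficients in `b`) and the exponents. -/
structure NI where
  φ : List ℤ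
  j : ℕ
  p0 : ℕ
  pX : ℕ
  p1 : ℕ
  p2 : ℕ
  k : ℕ
  l : ℕ
  mx : ℕ
  m1 : ℕ
  m2 : ℕ
  nX : ℕ
  n1 : ℕ
  n2 : ℕ

/-- The variables. -/
def rho (D1 D2 : ℝ) (d : Dt) (i : ℕ) : ℝ :=
  match i with
  | 0 => d.a
  | 1 => d.b
  | 2 => d.e
  | 3 => d.f
  | 4 => d.gt
  | 5 => d.gs
  | 6 => D1 * d.y1 + D2 * d.y2
  | 7 => D1 * d.x1 + D2 * d.x2
  | 8 => d.y1
  | 9 => d.x1
  | 10 => d.y2
  | 11 => d.x2
  | _ => 0

theorem idR_rho (D1 D2 : ℝ) (d : Dt) : idR (rho D1 D2 d) = rho D1 D2 d := by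
  funext i
  unfold idR
  split_ifs with h
  · rfl
  · obtain ⟨k, rfl⟩ := Nat.exists_eq_add_of_le (not_lt.1 h)
    rw [add_comm]; rfl

theorem swR_rho (D1 D2 : ℝ) (d : Dt) : swR (rho D1 D2 d) = rho D1 D2 d.sw := by
  funext i
  rcases Nat.lt_or_ge i 12 with h | h
  · interval_cases i
    · rfl
    · rfl
    · rfl
    · rfl
    · rfl
    · rfl
    · change -(D1 * d.x1 + D2 * d.x2) = D1 * (-d.x1) + D2 * (-d.x2); ring
    · rfl
    · rfl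
    · rfl
    · rfl
    · rfl
  · obtain ⟨k, rfl⟩ := Nat.exists_eq_add_of_le h
    rw [add_comm]; rfl

/-- `x^n y`. -/
noncomputable def pwm (x : Ex) (n : ℕ) (y : Ex) : Ex := @Nat.rec (fun _ => Ex) y (fun _ _ => Ex.mul (Ex.pow x n) y) n

/-- `u - b w`. -/
def dlE (i k : ℕ) : Ex := Ex.add (Ex.v i) (Ex.mul (Ex.c (-1)) (Ex.mul (Ex.v 1) (Ex.v k)))

/-- `u - a w`. -/
def alE (i k : ℕ) : Ex := Ex.add (Ex.v i) (Ex.mul (Ex.c (-1)) (Ex.mul (Ex.v 0) (Ex.v k)))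

/-- The monomial. -/
noncomputable def mE (j p0 pX p1 p2 k l mx m1 m2 nX n1 n2 : ℕ) : Ex :=
  pwm (Ex.v 3) j (pwm (dlE 5 4) p0 (pwm (dlE 6 7) pX (pwm (dlE 8 9) p1 (pwm (dlE 10 11) p2
    (pwm (Ex.v 5) k (pwm (Ex.v 4) l (pwm (Ex.v 7) mx (pwm (Ex.v 9) m1 (pwm (Ex.v 11) m2
    (pwm (Ex.v 6) nX (pwm (Ex.v 8) n1 (pwm (Ex.v 10) n2 (Ex.c 1)))))))))))))

/-- `∑ c_i b^i`. -/
noncomputable def horE (l : List ℤ) : Ex :=
  @List.rec ℤ (fun _ => Ex) (Ex.c 0) (fun c _ ih => Ex.add (Ex.c c) (Ex.mul (Ex.v 1) ih)) l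

/-- `∑ (i + s) c_i b^i`. -/
noncomputable def horDE (l : List ℤ) : ℕ → Ex :=
  @List.rec ℤ (fun _ => ℕ → Ex) (fun _ => Ex.c 0)
    (fun c _ ih s => Ex.add (Ex.c (Int.mul (Int.ofNat s) c)) (Ex.mul (Ex.v 1) (ih (Nat.succ s)))) l

/-- The tail. -/
noncomputable def tl (l : List ℤ) : List ℤ := @List.rec ℤ (fun _ => List ℤ) [] (fun _ t _ => t) l

/-- Add `t (n-1)` if `n ≠ 0`. -/
noncomputable def gd (n : ℕ) (t : ℕ → Ex) (y : Ex) : Ex := @Nat.rec (fun _ => Ex) y (fun m _ => Ex.add (t m) y) n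

/-- The null form as an expression. -/
noncomputable def niE (x : NI) : Ex :=
  Ex.add
    (Ex.mul (Ex.add (Ex.mul (Ex.c (Int.subNatNat 1 (Nat.add (Nat.add (Nat.add (Nat.add x.j x.p0) x.pX) x.p1) x.p2)))
        (Ex.mul (Ex.v 0) (horE x.φ)))
      (Ex.mul (horDE (tl x.φ) 1) (Ex.add (Ex.c 1) (Ex.mul (Ex.c (-1)) (Ex.mul (Ex.v 0) (Ex.v 1))))))
      (mE x.j x.p0 x.pX x.p1 x.p2 x.k x.l x.mx x.m1 x.m2 x.nX x.n1 x.n2))
    (Ex.mul (horE x.φ)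
      (gd x.j (fun m => Ex.mul (Ex.mul (Ex.c (Int.negSucc m)) (Ex.v 2))
        (mE m x.p0 x.pX x.p1 x.p2 x.k x.l x.mx x.m1 x.m2 x.nX x.n1 x.n2))
      (gd x.p0 (fun m => Ex.mul (Ex.mul (Ex.c (Int.ofNat (Nat.succ m))) (Ex.v 2))
        (mE x.j m x.pX x.p1 x.p2 x.k x.l x.mx x.m1 x.m2 x.nX x.n1 x.n2))
      (gd x.k (fun m => Ex.mul (Ex.mul (Ex.c (Int.ofNat (Nat.succ m))) (Ex.add (Ex.v 2) (alE 4 5)))
        (mE x.j x.p0 x.pX x.p1 x.p2 m x.l x.mx x.m1 x.m2 x.nX x.n1 x.n2))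
      (gd x.nX (fun m => Ex.mul (Ex.mul (Ex.c (Int.ofNat (Nat.succ m))) (alE 7 6))
        (mE x.j x.p0 x.pX x.p1 x.p2 x.k x.l x.mx x.m1 x.m2 m x.n1 x.n2))
      (gd x.n1 (fun m => Ex.mul (Ex.mul (Ex.c (Int.ofNat (Nat.succ m))) (alE 9 8))
        (mE x.j x.p0 x.pX x.p1 x.p2 x.k x.l x.mx x.m1 x.m2 x.nX m x.n2))
      (gd x.n2 (fun m => Ex.mul (Ex.mul (Ex.c (Int.ofNat (Nat.succ m))) (alE 11 10))
        (mE x.j x.p0 x.pX x.p1 x.p2 x.k x.l x.mx x.m1 x.m2 x.nX x.n1 m)) (Ex.c 0))))))))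

/-- Sum of the null forms. -/
noncomputable def nsE (l : List NI) : Ex := @List.rec NI (fun _ => Ex) (Ex.c 0) (fun x _ ih => Ex.add (niE x) ih) l

/-- Sum of the null forms. -/
def nsV (D1 D2 : ℝ) (l : List NI) (d : Dt) : ℝ :=
  (l.map fun x => NXf D1 D2 (fun b => hor x.φ b) (fun b => hor1 x.φ b)
    x.j x.p0 x.pX x.p1 x.p2 x.k x.l x.mx x.m1 x.m2 x.nX x.n1 x.n2 d).sum

namespace NIM

theorem pwm_val (ρ : ℕ → ℝ) (x : Ex) (n : ℕ) (y : Ex) : (pwm x n y).val ρ = x.val ρ ^ n * y.val ρ := by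
  cases n with
  | zero =>
    have : pwm x 0 y = y := rfl
    rw [this]; simp
  | succ n => rfl

theorem gd_val (ρ : ℕ → ℝ) (n : ℕ) (t : ℕ → Ex) (y : Ex) (v : ℝ)
    (h : n ≠ 0 → (t (n - 1)).val ρ = v) (h0 : n = 0 → v = 0) : (gd n t y).val ρ = v + y.val ρ := by
  cases n with
  | zero =>
    have : gd 0 t y = y := rfl
    rw [this, h0 rfl]; simp
  | succ n =>
    have h1 := h (Nat.succ_ne_zero n)
    rw [Nat.add_sub_cancel] at h1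
    have : gd (n + 1) t y = Ex.add (t n) y := rfl
    rw [this, ← h1]; rfl

theorem horE_val (ρ : ℕ → ℝ) (l : List ℤ) : (horE l).val ρ = hor l (ρ 1) := by
  induction l with
  | nil => simp [horE, Ex.val, hor]
  | cons c l ih =>
    have : horE (c :: l) = Ex.add (Ex.c c) (Ex.mul (Ex.v 1) (horE l)) := rfl
    rw [this]; simp only [Ex.val, hor]; rw [ih]

theorem horDE_val (ρ : ℕ → ℝ) (l : List ℤ) : ∀ s : ℕ, (horDE l s).val ρ = horD s l (ρ 1) := by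
  induction l with
  | nil => intro s; simp [horDE, Ex.val, horD]
  | cons c l ih =>
    intro s
    have : horDE (c :: l) s =
      Ex.add (Ex.c (Int.mul (Int.ofNat s) c)) (Ex.mul (Ex.v 1) (horDE l (Nat.succ s))) := rfl
    rw [this]; simp only [Ex.val, horD]; rw [ih]
    have e : ((Int.mul (Int.ofNat s) c : ℤ) : ℝ) = (s : ℝ) * (c : ℝ) := by
      change (((s : ℤ) * c : ℤ) : ℝ) = _
      push_cast; rfl
    rw [e]

theorem tl_eq (l : List ℤ) : tl l = l.tail := by cases l <;> rfl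

theorem mE_val (D1 D2 : ℝ) (d : Dt) (j p0 pX p1 p2 k l mx m1 m2 nX n1 n2 : ℕ) :
    (mE j p0 pX p1 p2 k l mx m1 m2 nX n1 n2).val (rho D1 D2 d) =
      mX D1 D2 j p0 pX p1 p2 k l mx m1 m2 nX n1 n2 d := by
  unfold mE mX
  simp only [pwm_val, dlE, Ex.val, rho, Int.cast_one, Int.cast_neg]
  ring

theorem niE_val (D1 D2 : ℝ) (d : Dt) (x : NI) : (niE x).val (rho D1 D2 d) =
    NXf D1 D2 (fun b => hor x.φ b) (fun b => hor1 x.φ b)
      x.j x.p0 x.pX x.p1 x.p2 x.k x.l x.mx x.m1 x.m2 x.nX x.n1 x.n2 d := by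
  obtain ⟨φ, j, p0, pX, p1, p2, k, l, mx, m1, m2, nX, n1, n2⟩ := x
  have hz : ∀ (n : ℕ) (u w : ℝ), n = 0 → (n : ℝ) * u * w = 0 := by
    intro n u w h; rw [h]; simp
  have hs : ∀ n : ℕ, n ≠ 0 → ((Int.ofNat (Nat.succ (n - 1)) : ℤ) : ℝ) = (n : ℝ) := by
    intro n h
    have : Nat.succ (n - 1) = n := by omega
    rw [this]; simp
  have hs' : ∀ n : ℕ, n ≠ 0 → ((Int.negSucc (n - 1) : ℤ) : ℝ) = -(n : ℝ) := by
    intro n h
    have : (n - 1) + 1 = n := by omega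
    rw [Int.cast_negSucc, this]
  simp only [niE, Ex.val]
  rw [gd_val (rho D1 D2 d) j _ _ (-(j : ℝ) * d.e * mX D1 D2 (j - 1) p0 pX p1 p2 k l mx m1 m2 nX n1 n2 d)
    (fun h => by simp only [Ex.val]; rw [mE_val, hs' j h]; rfl) (fun h => by rw [h]; simp)]
  rw [gd_val (rho D1 D2 d) p0 _ _ ((p0 : ℝ) * d.e * mX D1 D2 j (p0 - 1) pX p1 p2 k l mx m1 m2 nX n1 n2 d)
    (fun h => by simp only [Ex.val]; rw [mE_val, hs p0 h]; rfl) (hz _ _ _)]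
  rw [gd_val (rho D1 D2 d) k _ _ ((k : ℝ) * (d.e + d.gt - d.a * d.gs) *
      mX D1 D2 j p0 pX p1 p2 (k - 1) l mx m1 m2 nX n1 n2 d)
    (fun h => by
      simp only [Ex.val, alE]; rw [mE_val, hs k h]
      simp only [rho, Int.cast_neg, Int.cast_one]; ring) (hz _ _ _)]
  rw [gd_val (rho D1 D2 d) nX _ _ ((nX : ℝ) * ((D1 * d.x1 + D2 * d.x2) - d.a * (D1 * d.y1 + D2 * d.y2)) *
      mX D1 D2 j p0 pX p1 p2 k l mx m1 m2 (nX - 1) n1 n2 d)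
    (fun h => by
      simp only [Ex.val, alE]; rw [mE_val, hs nX h]
      simp only [rho, Int.cast_neg, Int.cast_one]; ring) (hz _ _ _)]
  rw [gd_val (rho D1 D2 d) n1 _ _ ((n1 : ℝ) * (d.x1 - d.a * d.y1) *
      mX D1 D2 j p0 pX p1 p2 k l mx m1 m2 nX (n1 - 1) n2 d)
    (fun h => by
      simp only [Ex.val, alE]; rw [mE_val, hs n1 h]
      simp only [rho, Int.cast_neg, Int.cast_one]; ring) (hz _ _ _)]
  rw [gd_val (rho D1 D2 d) n2 _ _ ((n2 : ℝ) * (d.x2 - d.a * d.y2) *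
      mX D1 D2 j p0 pX p1 p2 k l mx m1 m2 nX n1 (n2 - 1) d)
    (fun h => by
      simp only [Ex.val, alE]; rw [mE_val, hs n2 h]
      simp only [rho, Int.cast_neg, Int.cast_one]; ring) (hz _ _ _)]
  have e1 : ((Int.subNatNat 1 (Nat.add (Nat.add (Nat.add (Nat.add j p0) pX) p1) p2) : ℤ) : ℝ) =
      1 - ((j : ℝ) + p0 + pX + p1 + p2) := by
    change ((Int.subNatNat 1 (j + p0 + pX + p1 + p2) : ℤ) : ℝ) = _
    rw [Int.subNatNat_eq_coe]; push_cast; ring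
  rw [mE_val, horE_val, horDE_val, tl_eq, e1]
  simp only [Ex.val, rho, Int.cast_neg, Int.cast_one, Int.cast_zero]
  unfold NXf dX hor1
  ring

theorem nsE_val (D1 D2 : ℝ) (d : Dt) (l : List NI) : (nsE l).val (rho D1 D2 d) = nsV D1 D2 l d := by
  induction l with
  | nil => simp [nsE, nsV, Ex.val]
  | cons x l ih =>
    have : nsE (x :: l) = Ex.add (niE x) (nsE l) := rfl
    rw [this]; simp only [Ex.val]; rw [niE_val, ih]
    simp [nsV]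

end NIM

/-- The condition of a null form. -/
def niC (x : NI) : Prop :=
  2 ≤ 2 * x.j + (x.p0 + x.pX + x.p1 + x.p2) ∨
    (x.j = 0 ∧ x.p0 + x.pX + x.p1 + x.p2 = 1 ∧ hor x.φ (-1 : ℤ) * (-1) ^ (x.k + x.nX + x.n1 + x.n2) = hor x.φ (1 : ℤ)) ∨
    (x.j = 0 ∧ x.p0 + x.pX + x.p1 + x.p2 = 0 ∧ hor x.φ (1 : ℤ) = 0 ∧ hor x.φ (-1 : ℤ) = 0)

instance (x : NI) : Decidable (niC x) := by unfold niC; infer_instance

/-- **Lists of null forms.** -/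
theorem nsV_nul (hNQA : SpecNQA) (D1 D2 : ℝ) (l : List NI) (h : ∀ x ∈ l, niC x) : Nul (nsV D1 D2 l) := by
  induction l with
  | nil => exact Nul_congr Nul_zero fun d => by simp [nsV]
  | cons x l ih =>
    have h1 := ih fun y hy => h y (List.mem_cons_of_mem _ hy)
    have hx := h x List.mem_cons_self
    have hc : ∀ z : ℤ, (hor x.φ (z : ℤ) : ℤ) = hor x.φ (z : ℤ) := fun _ => rfl
    have hcast : ∀ z : ℤ, ((hor x.φ z : ℤ) : ℝ) = hor x.φ (z : ℝ) := fun z =>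
      NXM.hor_map (Int.castRingHom ℝ) x.φ z
    have hC : NCond (fun b => hor x.φ b) x.j (x.p0 + x.pX + x.p1 + x.p2) (x.k + x.nX + x.n1 + x.n2) := by
      have c1 := hcast 1
      have c2 := hcast (-1)
      rw [Int.cast_one] at c1
      rw [Int.cast_neg, Int.cast_one] at c2
      rcases hx with hx | ⟨a1, a2, a3⟩ | ⟨a1, a2, a3, a4⟩
      · exact Or.inl hx
      · refine Or.inr (Or.inl ⟨a1, a2, ?_⟩)
        change hor x.φ (-1 : ℝ) * _ = hor x.φ (1 : ℝ)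
        rw [← c1, ← c2, ← a3]; push_cast; rfl
      · refine Or.inr (Or.inr ⟨a1, a2, NXM.hor_bound x.φ ?_ ?_⟩)
        · rw [← c1, a3]; simp
        · rw [← c2, a4]; simp
    have h2 := NXf_nul hNQA D1 D2 (fun b => hor x.φ b) (fun b => hor1 x.φ b) (NXM.horD_cont x.φ.tail 1)
      (NXM.hor_deriv x.φ) (x.pX + x.mx + x.nX) x.j x.p0 x.pX x.p1 x.p2 x.k x.l x.mx x.m1 x.m2 x.nX x.n1 x.n2 rfl hC
    exact Nul_congr (Nul_add h2 h1) fun d => by simp [nsV]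

end Pool.Agent.Lib.MP_084b88_gt.SK
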