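import Pool.Agent.Lib.MP_084b88_gt.AY.NLV

/-!
# MP_084b88_gt, project SK: null forms with the factors `X = D1 x1 + D2 x2`, `Ys = D1 y1 + D2 y2`, `δX = D1 δ1 + D2 δ2`
-/

set_option autoImplicit false

open MeasureTheory Set Real Filter Topology
open scoped Pointwise InnerProductSpace

namespace Pool.Agent.Lib.MP_084b88_gt.SK

open Pool.Agent.Lib.MP_084b88_gt.AY

/-- The monomial. -/
def mX (D1 D2 : ℝ) (j p0 pX p1 p2 k l mX m1 m2 nX n1 n2 : ℕ) (d : Dt) : ℝ :=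
  d.f ^ j * (d.gs - d.b * d.gt) ^ p0 *
    ((D1 * d.y1 + D2 * d.y2) - d.b * (D1 * d.x1 + D2 * d.x2)) ^ pX *
    (d.y1 - d.b * d.x1) ^ p1 * (d.y2 - d.b * d.x2) ^ p2 *
    (d.gs ^ k * d.gt ^ l * (D1 * d.x1 + D2 * d.x2) ^ mX * d.x1 ^ m1 * d.x2 ^ m2 *
      (D1 * d.y1 + D2 * d.y2) ^ nX * d.y1 ^ n1 * d.y2 ^ n2)

/-- `D` of the monomial. -/
def dX (D1 D2 : ℝ) (j p0 pX p1 p2 k l mx m1 m2 nX n1 n2 : ℕ) (d : Dt) : ℝ :=
  -(d.a * ((j : ℝ) + p0 + pX + p1 + p2) * mX D1 D2 j p0 pX p1 p2 k l mx m1 m2 nX n1 n2 d) -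
    j * d.e * mX D1 D2 (j - 1) p0 pX p1 p2 k l mx m1 m2 nX n1 n2 d +
    p0 * d.e * mX D1 D2 j (p0 - 1) pX p1 p2 k l mx m1 m2 nX n1 n2 d +
    k * (d.e + d.gt - d.a * d.gs) * mX D1 D2 j p0 pX p1 p2 (k - 1) l mx m1 m2 nX n1 n2 d +
    nX * ((D1 * d.x1 + D2 * d.x2) - d.a * (D1 * d.y1 + D2 * d.y2)) *
      mX D1 D2 j p0 pX p1 p2 k l mx m1 m2 (nX - 1) n1 n2 d +
    n1 * (d.x1 - d.a * d.y1) * mX D1 D2 j p0 pX p1 p2 k l mx m1 m2 nX (n1 - 1) n2 d +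
    n2 * (d.x2 - d.a * d.y2) * mX D1 D2 j p0 pX p1 p2 k l mx m1 m2 nX n1 (n2 - 1) d

/-- The null form. -/
def NXf (D1 D2 : ℝ) (φ φ1 : ℝ → ℝ) (j p0 pX p1 p2 k l mx m1 m2 nX n1 n2 : ℕ) (d : Dt) : ℝ :=
  (d.a * φ d.b + φ1 d.b * (1 - d.a * d.b)) * mX D1 D2 j p0 pX p1 p2 k l mx m1 m2 nX n1 n2 d +
    φ d.b * dX D1 D2 j p0 pX p1 p2 k l mx m1 m2 nX n1 n2 d

namespace NXM

variable (D1 D2 : ℝ) (φ φ1 : ℝ → ℝ) (j p0 pX p1 p2 k l mx m1 m2 nX n1 n2 : ℕ) (d : Dt)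

theorem m0 : mX D1 D2 j p0 0 p1 p2 k l 0 m1 m2 0 n1 n2 d = mq j p0 p1 p2 k l m1 m2 n1 n2 d := by
  unfold mX mq; simp

theorem N0 : NXf D1 D2 φ φ1 j p0 0 p1 p2 k l 0 m1 m2 0 n1 n2 d = NQ φ φ1 j p0 p1 p2 k l m1 m2 n1 n2 d := by
  unfold NXf NQ dX dq
  simp only [m0, Nat.cast_zero]
  ring

theorem m_pX : mX D1 D2 j p0 (pX + 1) p1 p2 k l mx m1 m2 nX n1 n2 d =
    D1 * mX D1 D2 j p0 pX (p1 + 1) p2 k l mx m1 m2 nX n1 n2 d +
      D2 * mX D1 D2 j p0 pX p1 (p2 + 1) k l mx m1 m2 nX n1 n2 d := by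
  unfold mX; ring

theorem m_mX : mX D1 D2 j p0 pX p1 p2 k l (mx + 1) m1 m2 nX n1 n2 d =
    D1 * mX D1 D2 j p0 pX p1 p2 k l mx (m1 + 1) m2 nX n1 n2 d +
      D2 * mX D1 D2 j p0 pX p1 p2 k l mx m1 (m2 + 1) nX n1 n2 d := by
  unfold mX; ring

theorem m_nX : mX D1 D2 j p0 pX p1 p2 k l mx m1 m2 (nX + 1) n1 n2 d =
    D1 * mX D1 D2 j p0 pX p1 p2 k l mx m1 m2 nX (n1 + 1) n2 d +
      D2 * mX D1 D2 j p0 pX p1 p2 k l mx m1 m2 nX n1 (n2 + 1) d := by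
  unfold mX; ring

theorem m_y1 : mX D1 D2 j p0 pX p1 p2 k l mx m1 m2 nX (n1 + 1) n2 d =
    d.y1 * mX D1 D2 j p0 pX p1 p2 k l mx m1 m2 nX n1 n2 d := by
  unfold mX; ring

theorem m_y2 : mX D1 D2 j p0 pX p1 p2 k l mx m1 m2 nX n1 (n2 + 1) d =
    d.y2 * mX D1 D2 j p0 pX p1 p2 k l mx m1 m2 nX n1 n2 d := by
  unfold mX; ring

theorem N_pX : NXf D1 D2 φ φ1 j p0 (pX + 1) p1 p2 k l mx m1 m2 nX n1 n2 d =
    D1 * NXf D1 D2 φ φ1 j p0 pX (p1 + 1) p2 k l mx m1 m2 nX n1 n2 d +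
      D2 * NXf D1 D2 φ φ1 j p0 pX p1 (p2 + 1) k l mx m1 m2 nX n1 n2 d := by
  unfold NXf dX
  simp only [m_pX]
  push_cast
  ring

theorem N_mX : NXf D1 D2 φ φ1 j p0 pX p1 p2 k l (mx + 1) m1 m2 nX n1 n2 d =
    D1 * NXf D1 D2 φ φ1 j p0 pX p1 p2 k l mx (m1 + 1) m2 nX n1 n2 d +
      D2 * NXf D1 D2 φ φ1 j p0 pX p1 p2 k l mx m1 (m2 + 1) nX n1 n2 d := by
  unfold NXf dX
  simp only [m_mX]
  ring

theorem d_nX : dX D1 D2 j p0 pX p1 p2 k l mx m1 m2 (nX + 1) n1 n2 d =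
    D1 * dX D1 D2 j p0 pX p1 p2 k l mx m1 m2 nX (n1 + 1) n2 d +
      D2 * dX D1 D2 j p0 pX p1 p2 k l mx m1 m2 nX n1 (n2 + 1) d := by
  unfold dX
  simp only [Nat.add_sub_cancel]
  have a1 : (nX : ℝ) * mX D1 D2 j p0 pX p1 p2 k l mx m1 m2 nX n1 n2 d =
      nX * (D1 * mX D1 D2 j p0 pX p1 p2 k l mx m1 m2 (nX - 1) (n1 + 1) n2 d +
        D2 * mX D1 D2 j p0 pX p1 p2 k l mx m1 m2 (nX - 1) n1 (n2 + 1) d) := by
    rcases nX with _ | nX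
    · simp
    · rw [Nat.add_sub_cancel, m_nX]
  have a2 : (n1 : ℝ) * mX D1 D2 j p0 pX p1 p2 k l mx m1 m2 (nX + 1) (n1 - 1) n2 d =
      n1 * (D1 * mX D1 D2 j p0 pX p1 p2 k l mx m1 m2 nX n1 n2 d +
        D2 * mX D1 D2 j p0 pX p1 p2 k l mx m1 m2 nX (n1 - 1) (n2 + 1) d) := by
    rcases n1 with _ | n1
    · simp
    · rw [Nat.add_sub_cancel, m_nX]
  have a3 : (n2 : ℝ) * mX D1 D2 j p0 pX p1 p2 k l mx m1 m2 (nX + 1) n1 (n2 - 1) d =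
      n2 * (D1 * mX D1 D2 j p0 pX p1 p2 k l mx m1 m2 nX (n1 + 1) (n2 - 1) d +
        D2 * mX D1 D2 j p0 pX p1 p2 k l mx m1 m2 nX n1 n2 d) := by
    rcases n2 with _ | n2
    · simp
    · rw [Nat.add_sub_cancel, m_nX]
  have b1 := m_nX D1 D2 j p0 pX p1 p2 k l mx m1 m2 nX n1 n2 d
  have b2 := m_nX D1 D2 (j - 1) p0 pX p1 p2 k l mx m1 m2 nX n1 n2 d
  have b3 := m_nX D1 D2 j (p0 - 1) pX p1 p2 k l mx m1 m2 nX n1 n2 d
  have b4 := m_nX D1 D2 j p0 pX p1 p2 (k - 1) l mx m1 m2 nX n1 n2 d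
  push_cast
  linear_combination (-(d.a * ((j : ℝ) + p0 + pX + p1 + p2))) * b1 - j * d.e * b2 + p0 * d.e * b3 +
    k * (d.e + d.gt - d.a * d.gs) * b4 +
    ((D1 * d.x1 + D2 * d.x2) - d.a * (D1 * d.y1 + D2 * d.y2)) * a1 + (d.x1 - d.a * d.y1) * a2 +
    (d.x2 - d.a * d.y2) * a3

theorem N_nX : NXf D1 D2 φ φ1 j p0 pX p1 p2 k l mx m1 m2 (nX + 1) n1 n2 d =
    D1 * NXf D1 D2 φ φ1 j p0 pX p1 p2 k l mx m1 m2 nX (n1 + 1) n2 d +
      D2 * NXf D1 D2 φ φ1 j p0 pX p1 p2 k l mx m1 m2 nX n1 (n2 + 1) d := by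
  unfold NXf
  rw [d_nX, m_nX]
  ring

end NXM

open NXM

/-- The condition. -/
def NCond (φ : ℝ → ℝ) (j q s : ℕ) : Prop :=
  2 ≤ 2 * j + q ∨ (j = 0 ∧ q = 1 ∧ φ (-1) * (-1) ^ s = φ 1) ∨
    (j = 0 ∧ q = 0 ∧ ∃ K, ∀ x, |x| ≤ 1 → |φ x| ≤ K * (1 - x ^ 2))

/-- **Null forms with the factors `X`.** -/
theorem NXf_nul (hNQA : SpecNQA) (D1 D2 : ℝ) (φ φ1 : ℝ → ℝ) (hc : Continuous φ1) (hd : ∀ x, HasDerivAt φ (φ1 x) x)
    (T : ℕ) : ∀ j p0 pX p1 p2 k l mx m1 m2 nX n1 n2 : ℕ, pX + mx + nX = T →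
      NCond φ j (p0 + pX + p1 + p2) (k + nX + n1 + n2) →
      Nul (NXf D1 D2 φ φ1 j p0 pX p1 p2 k l mx m1 m2 nX n1 n2) := by
  induction T with
  | zero =>
    intro j p0 pX p1 p2 k l mx m1 m2 nX n1 n2 hT hC
    obtain rfl : pX = 0 := by omega
    obtain rfl : mx = 0 := by omega
    obtain rfl : nX = 0 := by omega
    refine Nul_congr (N1 := NQ φ φ1 j p0 p1 p2 k l m1 m2 n1 n2) ?_ fun d => N0 D1 D2 φ φ1 j p0 p1 p2 k l m1 m2 n1 n2 d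
    obtain ⟨h1, h2, h3⟩ := hNQA φ φ1 hc hd k l m1 m2 n1 n2
    rcases hC with hC | ⟨hj, hq, hC⟩ | ⟨hj, hq, hC⟩
    · exact h1 j p0 p1 p2 (by omega)
    · subst hj
      simp only [add_zero] at hC
      obtain ⟨k1, k2, k3⟩ := h2 hC
      have : (p0 = 1 ∧ p1 = 0 ∧ p2 = 0) ∨ (p0 = 0 ∧ p1 = 1 ∧ p2 = 0) ∨ (p0 = 0 ∧ p1 = 0 ∧ p2 = 1) := by omega
      rcases this with ⟨rfl, rfl, rfl⟩ | ⟨rfl, rfl, rfl⟩ | ⟨rfl, rfl, rfl⟩
      · exact k1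
      · exact k2
      · exact k3
    · subst hj
      have : p0 = 0 ∧ p1 = 0 ∧ p2 = 0 := by omega
      obtain ⟨rfl, rfl, rfl⟩ := this
      exact h3 hC
  | succ T ih =>
    intro j p0 pX p1 p2 k l mx m1 m2 nX n1 n2 hT hC
    rcases pX with _ | pX
    · rcases mx with _ | mx
      · rcases nX with _ | nX
        · omega
        · refine Nul_congr (Nul_add (Nul_smul (ih j p0 0 p1 p2 k l 0 m1 m2 nX (n1 + 1) n2 (by omega) ?_) D1)
            (Nul_smul (ih j p0 0 p1 p2 k l 0 m1 m2 nX n1 (n2 + 1) (by omega) ?_) D2))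
            fun d => N_nX D1 D2 φ φ1 j p0 0 p1 p2 k l 0 m1 m2 nX n1 n2 d
          · have e : k + (nX + 1) + n1 + n2 = k + nX + (n1 + 1) + n2 := by ring
            rw [← e]; exact hC
          · have e : k + (nX + 1) + n1 + n2 = k + nX + n1 + (n2 + 1) := by ring
            rw [← e]; exact hC
      · exact Nul_congr (Nul_add (Nul_smul (ih j p0 0 p1 p2 k l mx (m1 + 1) m2 nX n1 n2 (by omega) hC) D1)
            (Nul_smul (ih j p0 0 p1 p2 k l mx m1 (m2 + 1) nX n1 n2 (by omega) hC) D2))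
            fun d => N_mX D1 D2 φ φ1 j p0 0 p1 p2 k l mx m1 m2 nX n1 n2 d
    · refine Nul_congr (Nul_add (Nul_smul (ih j p0 pX (p1 + 1) p2 k l mx m1 m2 nX n1 n2 (by omega) ?_) D1)
            (Nul_smul (ih j p0 pX p1 (p2 + 1) k l mx m1 m2 nX n1 n2 (by omega) ?_) D2))
            fun d => N_pX D1 D2 φ φ1 j p0 pX p1 p2 k l mx m1 m2 nX n1 n2 d
      · have e : p0 + (pX + 1) + p1 + p2 = p0 + pX + (p1 + 1) + p2 := by ring
        rw [← e]; exact hC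
      · have e : p0 + (pX + 1) + p1 + p2 = p0 + pX + p1 + (p2 + 1) := by ring
        rw [← e]; exact hC

/-! ## Polynomial functions -/

/-- `∑ c_i x^i`. -/
def hor {R : Type*} [CommRing R] (l : List ℤ) (x : R) : R :=
  match l with
  | [] => 0
  | c :: l => (c : R) + x * hor l x

/-- `∑ i c_i x^i`, shifted: `∑ (i + s) c_i x^i`. -/
def horD {R : Type*} [CommRing R] (s : ℕ) (l : List ℤ) (x : R) : R :=
  match l with
  | [] => 0
  | c :: l => ((s : R) * (c : R)) + x * horD (s + 1) l x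

/-- The derivative. -/
def hor1 {R : Type*} [CommRing R] (l : List ℤ) (x : R) : R := horD 1 l.tail x

namespace NXM

theorem hor_aux (l : List ℤ) : ∀ (s : ℕ) (x : ℝ),
    HasDerivAt (fun x : ℝ => x ^ (s + 1) * hor l x) (x ^ s * horD (s + 1) l x) x := by
  induction l with
  | nil => intro s x; simpa [hor, horD] using hasDerivAt_const x (0 : ℝ)
  | cons c l ih =>
    intro s x
    have h1 : HasDerivAt (fun x : ℝ => x ^ (s + 1) * (c : ℝ)) (((s + 1 : ℕ) : ℝ) * x ^ s * c) x := by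
      have := (hasDerivAt_pow (s + 1) x).mul_const (c : ℝ)
      simpa using this
    have h3 := h1.add (ih (s + 1) x)
    have e1 : (fun x : ℝ => x ^ (s + 1) * hor (c :: l) x) =
        (fun x => x ^ (s + 1) * (c : ℝ)) + fun x => x ^ (s + 1 + 1) * hor l x := by
      funext x; simp only [hor, Pi.add_apply]; ring
    rw [e1]
    refine h3.congr_deriv ?_
    simp only [horD]
    push_cast; ring

theorem hor_deriv (l : List ℤ) (x : ℝ) : HasDerivAt (fun x : ℝ => hor l x) (hor1 l x) x := by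
  cases l with
  | nil => simpa [hor, hor1, horD] using hasDerivAt_const x (0 : ℝ)
  | cons c l =>
    have h := (hor_aux l 0 x).const_add (c : ℝ)
    simpa [hor, hor1] using h

theorem hor_cont (l : List ℤ) : Continuous fun x : ℝ => hor l x := by
  induction l with
  | nil => exact continuous_const
  | cons c l ih => exact continuous_const.add (continuous_id.mul ih)

theorem horD_cont (l : List ℤ) : ∀ s, Continuous fun x : ℝ => horD s l x := by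
  induction l with
  | nil => intro s; exact continuous_const
  | cons c l ih => intro s; exact continuous_const.add (continuous_id.mul (ih (s + 1)))

theorem hor_map {R S : Type*} [CommRing R] [CommRing S] (f : R →+* S) (l : List ℤ) (x : R) :
    f (hor l x) = hor l (f x) := by
  induction l with
  | nil => simp [hor]
  | cons c l ih => simp [hor, ih]

theorem hor_bound (l : List ℤ) (h1 : hor l (1 : ℝ) = 0) (h2 : hor l (-1 : ℝ) = 0) :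
    ∃ K, ∀ x : ℝ, |x| ≤ 1 → |hor l x| ≤ K * (1 - x ^ 2) := by
  obtain ⟨K, hK⟩ := isCompact_Icc.exists_bound_of_continuousOn (s := Icc (-1 : ℝ) 1) (f := fun x : ℝ => hor1 l x)
    (horD_cont l.tail 1).continuousOn
  have hlip : ∀ x ∈ Icc (-1 : ℝ) 1, ∀ y ∈ Icc (-1 : ℝ) 1, |hor l y - hor l x| ≤ K * |y - x| := by
    intro x hx y hy
    have := Convex.norm_image_sub_le_of_norm_hasDerivWithin_le (f := fun x : ℝ => hor l x) (f' := fun x => hor1 l x)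
      (s := Icc (-1 : ℝ) 1) (C := K) (fun z _ => (hor_deriv l z).hasDerivWithinAt) (fun z hz => hK z hz)
      (convex_Icc _ _) hx hy
    simpa [Real.norm_eq_abs] using this
  have hK0 : 0 ≤ K := (norm_nonneg _).trans (hK 0 ⟨by norm_num, by norm_num⟩)
  refine ⟨K, fun x hx => ?_⟩
  have hx' := abs_le.1 hx
  have a1 := hlip 1 ⟨by norm_num, by norm_num⟩ x ⟨hx'.1, hx'.2⟩
  have a2 := hlip (-1) ⟨by norm_num, by norm_num⟩ x ⟨hx'.1, hx'.2⟩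
  rw [h1, sub_zero] at a1
  rw [h2, sub_zero] at a2
  rw [abs_of_nonpos (by linarith [hx'.2] : x - 1 ≤ 0)] at a1
  rw [abs_of_nonneg (by linarith [hx'.1] : 0 ≤ x - -1)] at a2
  rcases le_total 0 x with h | h
  · refine a1.trans (mul_le_mul_of_nonneg_left ?_ hK0)
    nlinarith [hx'.2]
  · refine a2.trans (mul_le_mul_of_nonneg_left ?_ hK0)
    nlinarith [hx'.1]

end NXM

end Pool.Agent.Lib.MP_084b88_gt.SK
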