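import Pool.Agent.Lib.MP_084b88_gt.SK.Alg
import Pool.Agent.Lib.MP_084b88_gt.SK.Blk

/-!
# MP_084b88_gt, project SK: polynomials, certificates, soundness
-/

set_option autoImplicit false

open MvPolynomial

namespace Pool.Agent.Lib.MP_084b88_gt.SK

/-- Radices as a function. -/
def rF (rs : List ℕ) (i : ℕ) : ℕ := rs.getD i 1

/-- The monomial with the number `φ`. -/
noncomputable def mon (rs : List ℕ) (φ : ℕ) : MvPolynomial ℕ ℤ :=
  ∏ i ∈ Finset.range rs.length, X i ^ ((φ / st (rF rs) i) % rF rs i)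

namespace PolM

theorem st_succ' (r : ℕ → ℕ) (i : ℕ) : st r (i + 1) = r 0 * st (fun j => r (j + 1)) i := by
  induction i with
  | zero => simp [st]
  | succ i ih =>
    have h1 : st r (i + 1 + 1) = st r (i + 1) * r (i + 1) := rfl
    have h2 : st (fun j => r (j + 1)) (i + 1) = st (fun j => r (j + 1)) i * r (i + 1) := rfl
    rw [h1, h2, ih, mul_assoc]

theorem rF_cons (x : ℕ) (rs : List ℕ) : (fun j => rF (x :: rs) (j + 1)) = rF rs := by
  funext j; simp [rF]

theorem st_len (rs : List ℕ) : st (rF rs) rs.length = rs.prod := by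
  induction rs with
  | nil => rfl
  | cons x rs ih =>
    rw [List.length_cons, st_succ', rF_cons, ih, List.prod_cons]
    simp [rF]

theorem sum_digits (r : ℕ → ℕ) (n : ℕ) : ∀ φ : ℕ,
    ∑ i ∈ Finset.range n, st r i * ((φ / st r i) % r i) = φ % st r n := by
  induction n with
  | zero => intro φ; simp [st, Nat.mod_one]
  | succ n ih =>
    intro φ
    rw [Finset.sum_range_succ, ih]
    have : st r (n + 1) = st r n * r n := rfl
    rw [this, Nat.mod_mul]

theorem hat_mon (rs : List ℕ) (B : ℤ) (φ : ℕ) (h : φ < rs.prod) : hat (rF rs) B (mon rs φ) = B ^ φ := by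
  unfold mon hat
  rw [map_prod]
  have : ∀ i ∈ Finset.range rs.length, (MvPolynomial.eval fun i => B ^ st (rF rs) i)
      (X i ^ ((φ / st (rF rs) i) % rF rs i)) = B ^ (st (rF rs) i * ((φ / st (rF rs) i) % rF rs i)) := by
    intro i _
    rw [map_pow, MvPolynomial.eval_X, ← pow_mul]
  rw [Finset.prod_congr rfl this, Finset.prod_pow_eq_pow_sum, sum_digits, st_len, Nat.mod_eq_of_lt h]

theorem deg_mon (rs : List ℕ) (φ i : ℕ) : (mon rs φ).degreeOf i ≤ (φ / st (rF rs) i) % rF rs i := by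
  unfold mon
  refine (MvPolynomial.degreeOf_prod_le i _ _).trans ?_
  have h1 : ∀ j ∈ Finset.range rs.length, degreeOf i ((X j : MvPolynomial ℕ ℤ) ^ ((φ / st (rF rs) j) % rF rs j)) ≤
      if j = i then (φ / st (rF rs) i) % rF rs i else 0 := by
    intro j _
    refine (MvPolynomial.degreeOf_pow_le i _ _).trans ?_
    by_cases h : j = i
    · subst h
      rw [if_pos rfl, MvPolynomial.degreeOf_X_self, mul_one]
    · rw [if_neg h, MvPolynomial.degreeOf_X_of_ne (Ne.symm h)]
      simp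
  refine (Finset.sum_le_sum h1).trans ?_
  rw [Finset.sum_ite_eq']
  split_ifs
  · exact le_refl _
  · exact Nat.zero_le _

theorem nb_mon (rs : List ℕ) (φ : ℕ) : nb (mon rs φ) ≤ 1 := by
  unfold mon
  have hp : ∀ (s : Finset ℕ) (f : ℕ → MvPolynomial ℕ ℤ), (∀ i ∈ s, nb (f i) ≤ 1) → nb (∏ i ∈ s, f i) ≤ 1 := by
    classical
    intro s f
    induction s using Finset.induction_on with
    | empty => intro _; rw [Finset.prod_empty]; exact (nb_C 1).trans (by simp)
    | insert a s ha ih =>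
      intro h
      rw [Finset.prod_insert ha]
      refine (nb_mul _ _).trans ?_
      have h1 := h a (Finset.mem_insert_self a s)
      have h2 := ih fun i hi => h i (Finset.mem_insert_of_mem hi)
      calc nb (f a) * nb (∏ i ∈ s, f i) ≤ 1 * 1 := Nat.mul_le_mul h1 h2
        _ = 1 := rfl
  refine hp _ _ fun i _ => ?_
  rw [MvPolynomial.X_pow_eq_monomial]
  exact (AlgM.nb_monomial _ _).trans (by simp)

theorem deg_C (c : ℤ) (i : ℕ) : (C c : MvPolynomial ℕ ℤ).degreeOf i = 0 := MvPolynomial.degreeOf_C c i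

end PolM

open PolM

/-! ## Certified polynomials -/

/-- Value, degrees and size. -/
structure Good (rs : List ℕ) (B : ℤ) (P : MvPolynomial ℕ ℤ) (v : ℤ) (d : ℕ → ℕ) (m : ℕ) : Prop where
  hv : hat (rF rs) B P = v
  hd : ∀ i, P.degreeOf i ≤ d i
  hm : nb P ≤ m

namespace Good

variable {rs : List ℕ} {B : ℤ}

theorem add {P Q : MvPolynomial ℕ ℤ} {v w : ℤ} {d : ℕ → ℕ} {m n : ℕ} (h : Good rs B P v d m)
    (h' : Good rs B Q w d n) : Good rs B (P + Q) (v + w) d (m + n) where
  hv := by rw [map_add, h.hv, h'.hv]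
  hd := fun i => (MvPolynomial.degreeOf_add_le i P Q).trans (max_le (h.hd i) (h'.hd i))
  hm := (nb_add P Q).trans (Nat.add_le_add h.hm h'.hm)

theorem mul {P Q : MvPolynomial ℕ ℤ} {v w : ℤ} {d e : ℕ → ℕ} {m n : ℕ} (h : Good rs B P v d m)
    (h' : Good rs B Q w e n) : Good rs B (P * Q) (v * w) (fun i => d i + e i) (m * n) where
  hv := by rw [map_mul, h.hv, h'.hv]
  hd := fun i => (MvPolynomial.degreeOf_mul_le i P Q).trans (Nat.add_le_add (h.hd i) (h'.hd i))
  hm := (nb_mul P Q).trans (Nat.mul_le_mul h.hm h'.hm)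

theorem const (c : ℤ) (d : ℕ → ℕ) : Good rs B (C c) c d c.natAbs where
  hv := MvPolynomial.eval_C c
  hd := fun i => by rw [deg_C]; exact Nat.zero_le _
  hm := nb_C c

theorem zero (d : ℕ → ℕ) : Good rs B 0 0 d 0 where
  hv := map_zero _
  hd := fun i => by rw [MvPolynomial.degreeOf_zero]; exact Nat.zero_le _
  hm := by simp [nb]

theorem mono {P : MvPolynomial ℕ ℤ} {v : ℤ} {d e : ℕ → ℕ} {m n : ℕ} (h : Good rs B P v d m)
    (hde : ∀ i, d i ≤ e i) (hmn : m ≤ n) : Good rs B P v e n where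
  hv := h.hv
  hd := fun i => (h.hd i).trans (hde i)
  hm := h.hm.trans hmn

end Good

/-! ## Leaves -/

/-- Bounds as a function. -/
def dF (rd : List (ℕ × ℕ)) (i : ℕ) : ℕ := (rd.map Prod.snd).getD i 0

theorem ifle_true' {a b : ℕ} {x : Bool} (h : ifle a b x false = true) : a ≤ b ∧ x = true := ifle_true h

namespace PolM

theorem dck_cons (x : ℕ × ℕ) (rd : List (ℕ × ℕ)) (φ : ℕ) (h : dck (x :: rd) φ = true) :
    φ % x.1 ≤ x.2 ∧ dck rd (φ / x.1) = true := by
  have h1 : dck (x :: rd) φ = ifle (Nat.mod φ x.1) x.2 (fN (Nat.div φ x.1) (dck rd)) false := rfl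
  rw [h1] at h
  obtain ⟨h2, h3⟩ := ifle_true h
  rw [fN_eq] at h3
  exact ⟨h2, h3⟩

theorem dck_nil (φ : ℕ) (h : dck [] φ = true) : φ = 0 := Nat.le_zero.1 (ifle_true h).1

theorem dck_spec (rd : List (ℕ × ℕ)) (hr : ∀ x ∈ rd, 0 < x.1) : ∀ φ : ℕ, dck rd φ = true →
    (∀ i, (φ / st (rF (rd.map Prod.fst)) i) % rF (rd.map Prod.fst) i ≤ dF rd i) ∧
      φ < (rd.map Prod.fst).prod := by
  induction rd with
  | nil =>
    intro φ h
    rw [dck_nil φ h]
    refine ⟨fun i => ?_, by simp⟩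
    rw [Nat.zero_div, Nat.zero_mod]; exact Nat.zero_le _
  | cons x rd ih =>
    intro φ h
    obtain ⟨h1, h2⟩ := dck_cons x rd φ h
    obtain ⟨h3, h4⟩ := ih (fun y hy => hr y (List.mem_cons_of_mem _ hy)) _ h2
    have hx := hr x List.mem_cons_self
    constructor
    · intro i
      cases i with
      | zero => simpa [st, rF, dF] using h1
      | succ i =>
        rw [List.map_cons, st_succ', rF_cons]
        have e1 : rF (x.1 :: rd.map Prod.fst) 0 = x.1 := by simp [rF]
        have e2 : rF (x.1 :: rd.map Prod.fst) (i + 1) = rF (rd.map Prod.fst) i := by simp [rF]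
        have e3 : dF (x :: rd) (i + 1) = dF rd i := by simp [dF]
        rw [e1, e2, e3, ← Nat.div_div_eq_div_mul]
        exact h3 i
    · rw [List.map_cons, List.prod_cons]
      rw [Nat.div_lt_iff_lt_mul hx] at h4
      rw [mul_comm]; exact h4

theorem dck_append (ri ro : List (ℕ × ℕ)) (hr : ∀ x ∈ ri, 0 < x.1) (k : ℕ) (hk : dck ro k = true) :
    ∀ s : ℕ, dck ri s = true → dck (ri ++ ro) (k * (ri.map Prod.fst).prod + s) = true := by
  induction ri with
  | nil =>
    intro s hs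
    rw [dck_nil s hs]
    simpa using hk
  | cons x ri ih =>
    intro s hs
    obtain ⟨h1, h2⟩ := dck_cons x ri s hs
    have hx := hr x List.mem_cons_self
    have h3 := ih (fun y hy => hr y (List.mem_cons_of_mem _ hy)) _ h2
    have e1 : k * ((x :: ri).map Prod.fst).prod + s = x.1 * (k * (ri.map Prod.fst).prod) + s := by
      rw [List.map_cons, List.prod_cons]; ring
    rw [e1]
    have h4 : dck ((x :: ri) ++ ro) (x.1 * (k * (ri.map Prod.fst).prod) + s) =
        ifle (Nat.mod (x.1 * (k * (ri.map Prod.fst).prod) + s) x.1) x.2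
          (fN (Nat.div (x.1 * (k * (ri.map Prod.fst).prod) + s) x.1) (dck (ri ++ ro))) false := rfl
    rw [h4, fN_eq, ifle_eq]
    have e2 : Nat.mod (x.1 * (k * (ri.map Prod.fst).prod) + s) x.1 = s % x.1 := Nat.mul_add_mod _ _ _
    have e3 : Nat.div (x.1 * (k * (ri.map Prod.fst).prod) + s) x.1 = k * (ri.map Prod.fst).prod + s / x.1 := by
      change (x.1 * (k * (ri.map Prod.fst).prod) + s) / x.1 = _
      rw [Nat.mul_add_div hx]
    rw [e2, e3, if_pos h1]
    exact h3

end PolM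

/-- The polynomial with outer number `k` and inner terms `tp`; `S` the number of inner slots. -/
noncomputable def pol (rs : List ℕ) (S k : ℕ) (tp : List (ℕ × ℤ)) : MvPolynomial ℕ ℤ :=
  (tp.map fun e => C e.2 * mon rs (k * S + e.1)).sum

/-- `∑ c B^s`. -/
def pkv (B : ℤ) (tp : List (ℕ × ℤ)) : ℤ := (tp.map fun e => e.2 * B ^ e.1).sum

/-- `∑ |c|`. -/
def abv (tp : List (ℕ × ℤ)) : ℕ := (tp.map fun e => e.2.natAbs).sum

theorem pol_good (ri ro : List (ℕ × ℕ)) (hri : ∀ x ∈ ri, 0 < x.1) (hro : ∀ x ∈ ro, 0 < x.1) (B : ℤ) (k : ℕ)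
    (hk : dck ro k = true) (tp : List (ℕ × ℤ)) (ht : ∀ e ∈ tp, dck ri e.1 = true) :
    Good ((ri ++ ro).map Prod.fst) B (pol ((ri ++ ro).map Prod.fst) (ri.map Prod.fst).prod k tp)
      ((B ^ (ri.map Prod.fst).prod) ^ k * pkv B tp) (dF (ri ++ ro)) (abv tp) := by
  induction tp with
  | nil => simpa [pol, pkv, abv] using Good.zero (dF (ri ++ ro))
  | cons e tp ih =>
    have h1 := ih fun e' he' => ht e' (List.mem_cons_of_mem _ he')
    have h2 := PolM.dck_append ri ro hri k hk e.1 (ht e List.mem_cons_self)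
    obtain ⟨h3, h4⟩ := PolM.dck_spec (ri ++ ro) (fun x hx => by
      rcases List.mem_append.1 hx with h | h
      · exact hri x h
      · exact hro x h) _ h2
    have hm0 : Good ((ri ++ ro).map Prod.fst) B
        (mon ((ri ++ ro).map Prod.fst) (k * (ri.map Prod.fst).prod + e.1))
        (B ^ (k * (ri.map Prod.fst).prod + e.1)) (dF (ri ++ ro)) 1 :=
      ⟨PolM.hat_mon _ _ _ h4, fun i => (PolM.deg_mon _ _ i).trans (h3 i), PolM.nb_mon _ _⟩
    have hm := ((Good.const (rs := (ri ++ ro).map Prod.fst) (B := B) e.2 (fun _ => 0)).mul hm0).mono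
      (e := dF (ri ++ ro)) (fun i => by rw [zero_add]) (le_refl _)
    have h5 := hm.add h1
    have e1 : pol ((ri ++ ro).map Prod.fst) (ri.map Prod.fst).prod k (e :: tp) =
      C e.2 * mon ((ri ++ ro).map Prod.fst) (k * (ri.map Prod.fst).prod + e.1) +
        pol ((ri ++ ro).map Prod.fst) (ri.map Prod.fst).prod k tp := by
      simp [pol]
    have e2 : (B ^ (ri.map Prod.fst).prod) ^ k * pkv B (e :: tp) =
        e.2 * B ^ (k * (ri.map Prod.fst).prod + e.1) + (B ^ (ri.map Prod.fst).prod) ^ k * pkv B tp := by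
      simp only [pkv, List.map_cons, List.sum_cons]
      rw [pow_add, mul_comm k, pow_mul]; ring
    have e3 : abv (e :: tp) = e.2.natAbs * 1 + abv tp := by simp [abv]
    rw [e1, e2, e3]
    exact h5

end Pool.Agent.Lib.MP_084b88_gt.SK
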