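import Pool.Agent.Lib.MP_084b88_gt.SK.Poly

/-!
# MP_084b88_gt, project SK: soundness of the sum of squares certificates
-/

set_option autoImplicit false

open MvPolynomial

namespace Pool.Agent.Lib.MP_084b88_gt.SK

/-- Global parameters of a certificate: base `B`, digits `b = 2^c` with offset `o`, degrees of the inner and outer variables. -/
structure Pm where
  B : ℕ
  b : ℕ
  o : ℕ
  c : ℕ
  di : List Dg
  dO : List Dg

namespace Pm

variable (p : Pm)

/-- Radices. -/
def rs : List ℕ := (p.di ++ p.dO).map Dg.r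

/-- Number of inner slots. -/
def S : ℕ := (p.di.map Dg.r).prod

/-- Inner polynomial times outer monomial. -/
noncomputable def pol (k : ℕ) (tp : List (ℕ × ℤ)) : MvPolynomial ℕ ℤ := SK.pol p.rs p.S k tp

/-- The element number `s` of a block. -/
noncomputable def zP (cs : List (ℕ × List (ℕ × List (ℕ × ℤ)))) (s : ℕ) : MvPolynomial ℕ ℤ :=
  (cs.map fun c => (c.2.map fun e => if e.1 = s then p.pol c.1 e.2 else 0).sum).sum

/-- A block. -/
noncomputable def insP (x : Ins) : MvPolynomial ℕ ℤ :=
  qR p.b p.o x.rows ((List.range x.rows.length).map fun j => p.zP x.cs (p.c * j))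

/-- A multiplier. -/
noncomputable def mP (m : List (ℕ × List (ℕ × ℤ))) : MvPolynomial ℕ ℤ := (m.map fun e => p.pol e.1 e.2).sum

/-- A multiplier times its blocks. -/
noncomputable def mbP (x : MB) : MvPolynomial ℕ ℤ := p.mP x.m * (x.bl.map p.insP).sum

/-- The whole sum. -/
noncomputable def sosP (ms : List MB) : MvPolynomial ℕ ℤ := (ms.map p.mbP).sum

/-- Static checks. -/
structure OK : Prop where
  hb : p.b = 2 ^ p.c
  hc : 0 < p.c
  ho : p.o ≤ p.b
  hdi : dgOK p.di = true
  hdO : dgOK p.dO = true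

end Pm

namespace SosM

open BlkM

theorem dgOK_spec (l : List Dg) (h : dgOK l = true) : ∀ x ∈ l, 2 * x.z + x.m < x.r := by
  induction l with
  | nil => intro x hx; simp at hx
  | cons y l ih =>
    have h1 : dgOK (y :: l) = ifle (Nat.succ (Nat.add (Nat.mul 2 y.z) y.m)) y.r (dgOK l) false := rfl
    rw [h1] at h
    obtain ⟨h2, h3⟩ := ifle_true h
    intro x hx
    rcases List.mem_cons.1 hx with h4 | h4
    · rw [h4]; exact h2
    · exact ih h3 x h4

theorem brec_true {x y : Bool} (h : @Bool.rec (fun _ => Bool) false x y = true) : y = true ∧ x = true := by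
  cases y
  · exact absurd (show false = true from h) (by decide)
  · exact ⟨rfl, h⟩

theorem iabs_eq (a : ℤ) : iabs a = a.natAbs := by cases a <;> rfl

theorem ckT_spec (rd : List (ℕ × ℕ)) (k : ℕ → Bool) (tp : List (ℕ × ℤ)) : ∀ acc : ℕ, ckT rd k tp acc = true →
    (∀ e ∈ tp, dck rd e.1 = true) ∧ k (acc + abv tp) = true := by
  induction tp with
  | nil =>
    intro acc h
    have h' : k acc = true := h
    exact ⟨by simp, by simpa [abv] using h'⟩
  | cons e tp ih =>
    intro acc h
    have h1 : ckT rd k (e :: tp) acc =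
      @Bool.rec (fun _ => Bool) false (fN (Nat.add acc (iabs e.2)) (ckT rd k tp)) (dck rd e.1) := rfl
    rw [h1] at h
    obtain ⟨h2, h3⟩ := brec_true h
    rw [fN_eq] at h3
    obtain ⟨h4, h5⟩ := ih _ h3
    refine ⟨fun e' he' => ?_, ?_⟩
    · rcases List.mem_cons.1 he' with h6 | h6
      · rw [h6]; exact h2
      · exact h4 e' h6
    · have : acc + abv (e :: tp) = Nat.add acc (iabs e.2) + abv tp := by
        rw [iabs_eq]; simp only [abv, List.map_cons, List.sum_cons]
        change acc + (e.2.natAbs + _) = acc + e.2.natAbs + _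
        omega
      rw [this]; exact h5

/-- Size of a list of entries. -/
def abE (es : List (ℕ × List (ℕ × ℤ))) : ℕ := (es.map fun e => abv e.2).sum

theorem ckE_spec (rd : List (ℕ × ℕ)) (k : ℕ → Bool) (es : List (ℕ × List (ℕ × ℤ))) : ∀ acc : ℕ,
    ckE rd k es acc = true → (∀ e ∈ es, ∀ t ∈ e.2, dck rd t.1 = true) ∧ k (acc + abE es) = true := by
  induction es with
  | nil =>
    intro acc h
    have h' : k acc = true := h
    exact ⟨by simp, by simpa [abE] using h'⟩
  | cons e es ih =>
    intro acc h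
    have h1 : ckE rd k (e :: es) acc = ckT rd (ckE rd k es) e.2 acc := rfl
    rw [h1] at h
    obtain ⟨h2, h3⟩ := ckT_spec _ _ _ _ h
    obtain ⟨h4, h5⟩ := ih _ h3
    refine ⟨fun e' he' => ?_, ?_⟩
    · rcases List.mem_cons.1 he' with h6 | h6
      · rw [h6]; exact h2
      · exact h4 e' h6
    · have : acc + abE (e :: es) = acc + abv e.2 + abE es := by
        simp only [abE, List.map_cons, List.sum_cons]; omega
      rw [this]; exact h5

/-- Size of the elements of a block. -/
def abC (cs : List (ℕ × List (ℕ × List (ℕ × ℤ)))) : ℕ := (cs.map fun c => abE c.2).sum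

theorem ckC_spec (ri ro : List (ℕ × ℕ)) (k : ℕ → Bool) (cs : List (ℕ × List (ℕ × List (ℕ × ℤ)))) : ∀ acc : ℕ,
    ckC ri ro k cs acc = true →
      (∀ c ∈ cs, dck ro c.1 = true ∧ ∀ e ∈ c.2, ∀ t ∈ e.2, dck ri t.1 = true) ∧ k (acc + abC cs) = true := by
  induction cs with
  | nil =>
    intro acc h
    have h' : k acc = true := h
    exact ⟨by simp, by simpa [abC] using h'⟩
  | cons c cs ih =>
    intro acc h
    have h1 : ckC ri ro k (c :: cs) acc =
      @Bool.rec (fun _ => Bool) false (ckE ri (ckC ri ro k cs) c.2 acc) (dck ro c.1) := rfl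
    rw [h1] at h
    obtain ⟨h2, h3⟩ := brec_true h
    obtain ⟨h4, h5⟩ := ckE_spec _ _ _ _ h3
    obtain ⟨h6, h7⟩ := ih _ h5
    refine ⟨fun e' he' => ?_, ?_⟩
    · rcases List.mem_cons.1 he' with h8 | h8
      · rw [h8]; exact ⟨h2, h4⟩
      · exact h6 e' h8
    · have : acc + abC (c :: cs) = acc + abE c.2 + abC cs := by
        simp only [abC, List.map_cons, List.sum_cons]; omega
      rw [this]; exact h7

theorem ckM_spec (ri ro : List (ℕ × ℕ)) (k : ℕ → Bool) (m : List (ℕ × List (ℕ × ℤ))) : ∀ acc : ℕ,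
    ckM ri ro k m acc = true →
      (∀ e ∈ m, dck ro e.1 = true ∧ ∀ t ∈ e.2, dck ri t.1 = true) ∧ k (acc + abE m) = true := by
  induction m with
  | nil =>
    intro acc h
    have h' : k acc = true := h
    exact ⟨by simp, by simpa [abE] using h'⟩
  | cons c m ih =>
    intro acc h
    have h1 : ckM ri ro k (c :: m) acc =
      @Bool.rec (fun _ => Bool) false (ckT ri (ckM ri ro k m) c.2 acc) (dck ro c.1) := rfl
    rw [h1] at h
    obtain ⟨h2, h3⟩ := brec_true h
    obtain ⟨h4, h5⟩ := ckT_spec _ _ _ _ h3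
    obtain ⟨h6, h7⟩ := ih _ h5
    refine ⟨fun e' he' => ?_, ?_⟩
    · rcases List.mem_cons.1 he' with h8 | h8
      · rw [h8]; exact ⟨h2, h4⟩
      · exact h6 e' h8
    · have : acc + abE (c :: m) = acc + abv c.2 + abE m := by
        simp only [abE, List.map_cons, List.sum_cons]; omega
      rw [this]; exact h7

theorem ckB_spec (b : ℕ) (di dO : List Dg) (k : ℕ → Bool) (bl : List Ins) : ∀ acc : ℕ,
    ckB b di dO k bl acc = true →
      (∀ x ∈ bl, ∀ c ∈ x.cs, dck (dO.map fun d => (d.r, d.z)) c.1 = true ∧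
        ∀ e ∈ c.2, ∀ t ∈ e.2, dck (di.map fun d => (d.r, d.z)) t.1 = true) ∧
      k (acc + (bl.map fun x => b * (abC x.cs * abC x.cs)).sum) = true := by
  induction bl with
  | nil =>
    intro acc h
    have h' : k acc = true := h
    exact ⟨by simp, by simpa using h'⟩
  | cons x bl ih =>
    intro acc h
    have h1 : ckB b di dO k (x :: bl) acc = ckC (di.map fun d => (d.r, d.z)) (dO.map fun d => (d.r, d.z))
      (fun s => fN (Nat.add acc (Nat.mul b (Nat.mul s s))) (ckB b di dO k bl)) x.cs 0 := rfl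
    rw [h1] at h
    obtain ⟨h2, h3⟩ := ckC_spec _ _ _ _ _ h
    rw [fN_eq, zero_add] at h3
    obtain ⟨h4, h5⟩ := ih _ h3
    refine ⟨fun e' he' => ?_, ?_⟩
    · rcases List.mem_cons.1 he' with h8 | h8
      · rw [h8]; exact h2
      · exact h4 e' h8
    · have : acc + ((x :: bl).map fun x => b * (abC x.cs * abC x.cs)).sum =
          Nat.add acc (Nat.mul b (Nat.mul (abC x.cs) (abC x.cs))) +
            (bl.map fun x => b * (abC x.cs * abC x.cs)).sum := by
        simp only [List.map_cons, List.sum_cons]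
        change acc + (b * (abC x.cs * abC x.cs) + _) = acc + b * (abC x.cs * abC x.cs) + _
        omega
      rw [this]; exact h5

/-- The checks of one multiplier and its blocks. -/
structure MBok (di dO : List Dg) (x : MB) : Prop where
  hz : ∀ y ∈ x.bl, ∀ c ∈ y.cs, dck (dO.map fun d => (d.r, d.z)) c.1 = true ∧
        ∀ e ∈ c.2, ∀ t ∈ e.2, dck (di.map fun d => (d.r, d.z)) t.1 = true
  hm : ∀ e ∈ x.m, dck (dO.map fun d => (d.r, d.m)) e.1 = true ∧
        ∀ t ∈ e.2, dck (di.map fun d => (d.r, d.m)) t.1 = true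

/-- Size of one multiplier with its blocks. -/
def abMB (b : ℕ) (x : MB) : ℕ := (x.bl.map fun y => b * (abC y.cs * abC y.cs)).sum * abE x.m

theorem ckS_spec (b : ℕ) (di dO : List Dg) (k : ℕ → Bool) (ms : List MB) : ∀ acc : ℕ,
    ckS b di dO k ms acc = true →
      (∀ x ∈ ms, MBok di dO x) ∧ k (acc + (ms.map (abMB b)).sum) = true := by
  induction ms with
  | nil =>
    intro acc h
    have h' : k acc = true := h
    exact ⟨by simp, by simpa using h'⟩
  | cons x ms ih =>
    intro acc h
    have h1 : ckS b di dO k (x :: ms) acc = ckB b di dO (fun s =>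
      ckM (di.map fun d => (d.r, d.m)) (dO.map fun d => (d.r, d.m))
      (fun t => fN (Nat.add acc (Nat.mul s t)) (ckS b di dO k ms)) x.m 0) x.bl 0 := rfl
    rw [h1] at h
    obtain ⟨h2, h3⟩ := ckB_spec _ _ _ _ _ _ h
    obtain ⟨h4, h5⟩ := ckM_spec _ _ _ _ _ h3
    rw [fN_eq, zero_add, zero_add] at h5
    obtain ⟨h6, h7⟩ := ih _ h5
    refine ⟨fun e' he' => ?_, ?_⟩
    · rcases List.mem_cons.1 he' with h8 | h8
      · rw [h8]; exact ⟨h2, h4⟩
      · exact h6 e' h8
    · have : acc + ((x :: ms).map (abMB b)).sum = Nat.add acc (Nat.mul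
          (x.bl.map fun y => b * (abC y.cs * abC y.cs)).sum (abE x.m)) + (ms.map (abMB b)).sum := by
        simp only [List.map_cons, List.sum_cons]
        change acc + (abMB b x + _) = acc + abMB b x + _
        omega
      rw [this]; exact h7

/-! ### Packing -/

theorem pkT_eq {α : Type} (B : ℕ) (k : ℤ → α) (tp : List (ℕ × ℤ)) : ∀ acc : ℤ,
    pkT B k tp acc = k (acc + pkv (B : ℤ) tp) := by
  induction tp with
  | nil => intro acc; simp [pkT, pkv]
  | cons e tp ih =>
    intro acc
    have h : pkT B k (e :: tp) acc =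
      fI (Int.add acc (Int.mul e.2 (Int.ofNat (Nat.pow B e.1)))) fun acc => pkT B k tp acc := rfl
    rw [h, fI_eq, ih]
    congr 1
    simp only [pkv, List.map_cons, List.sum_cons]
    have e1 : Int.ofNat (Nat.pow B e.1) = (B : ℤ) ^ e.1 := by
      change ((B ^ e.1 : ℕ) : ℤ) = _; push_cast; rfl
    rw [e1]
    change acc + e.2 * (B : ℤ) ^ e.1 + _ = _
    ring

theorem pkE_eq {α : Type} (B : ℕ) (es : List (ℕ × List (ℕ × ℤ))) : ∀ k : List (ℕ × ℤ) → α,
    pkE B es k = k (es.map fun e => (e.1, pkv (B : ℤ) e.2)) := by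
  induction es with
  | nil => intro k; rfl
  | cons e es ih =>
    intro k
    have h : pkE B (e :: es) k = pkT B (fun v => pkE B es fun r => k (List.cons (e.1, v) r)) e.2 0 := rfl
    rw [h, pkT_eq, ih, zero_add]
    rfl

theorem pkC_eq {α : Type} (B : ℕ) (cs : List (ℕ × List (ℕ × List (ℕ × ℤ)))) : ∀ k : List Cls → α,
    pkC B cs k = k (cs.map fun c => ⟨c.1, c.2.map fun e => (e.1, pkv (B : ℤ) e.2), []⟩) := by
  induction cs with
  | nil => intro k; rfl
  | cons c cs ih =>
    intro k
    have h : pkC B (c :: cs) k = pkE B c.2 fun es => pkC B cs fun r => k (List.cons ⟨c.1, es, []⟩ r) := rfl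
    rw [h, pkE_eq, ih]
    rfl

/-- The packed block. -/
def pcl (B : ℕ) (cs : List (ℕ × List (ℕ × List (ℕ × ℤ)))) : List Cls :=
  cs.map fun c => ⟨c.1, c.2.map fun e => (e.1, pkv (B : ℤ) e.2), []⟩

theorem sumB_spec (O : ℤ) (B b o c : ℕ) (hc : 0 < c) (hb : b = 2 ^ c) (bl : List Ins) : ∀ acc : List (ℕ × ℤ),
    (∀ {α : Type} (bad : α) (k : List (ℕ × ℤ) → α), sumB B b o c bad k bl acc = bad) ∨
      ∃ r, (∀ {α : Type} (bad : α) (k : List (ℕ × ℤ) → α), sumB B b o c bad k bl acc = k r) ∧
        conc O r = conc O acc + (bl.map fun x =>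
          qR b o x.rows ((List.range x.rows.length).map fun j => zf O (pcl B x.cs) (c * j))).sum := by
  induction bl with
  | nil => intro acc; exact Or.inr ⟨acc, fun _ k => rfl, by simp⟩
  | cons x bl ih =>
    intro acc
    have hdef : ∀ {α : Type} (bad : α) (k : List (ℕ × ℤ) → α), sumB B b o c bad k (x :: bl) acc =
        blk b o c bad (fun acc => sumB B b o c bad k bl acc) (pcl B x.cs) x.rows acc := by
      intro α bad k
      have : sumB B b o c bad k (x :: bl) acc =
        pkC B x.cs fun cl => blk b o c bad (fun acc => sumB B b o c bad k bl acc) cl x.rows acc := rfl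
      rw [this, pkC_eq]; rfl
    have hT : ∀ d ∈ pcl B x.cs, d.T = [] := by
      intro d hd
      obtain ⟨c', _, rfl⟩ := List.mem_map.1 hd
      rfl
    rcases blk_spec O b o c hc hb (pcl B x.cs) x.rows hT acc with h1 | ⟨r1, h1, h2⟩
    · left; intro α bad k; rw [hdef]; exact h1 _ _
    · rcases ih r1 with h3 | ⟨r2, h3, h4⟩
      · left; intro α bad k; rw [hdef, h1]; exact h3 _ _
      · right
        refine ⟨r2, fun bad k => by rw [hdef, h1]; exact h3 _ _, ?_⟩
        rw [h4, h2, List.map_cons, List.sum_cons]; ring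

theorem mulP_spec (O : ℤ) (σ : List (ℕ × ℤ)) (m : List (ℕ × ℤ)) : ∀ total : List (ℕ × ℤ),
    ∃ r, (∀ {α : Type} (k : List (ℕ × ℤ) → α), mulP σ k m total = k r) ∧
      conc O r = conc O total + conc O m * conc O σ := by
  induction m with
  | nil => intro total; exact ⟨total, fun k => rfl, by simp [conc]⟩
  | cons e m ih =>
    intro total
    obtain ⟨r1, h1, h2⟩ := mrgS_spec O e.2 e.1 σ total
    obtain ⟨r2, h3, h4⟩ := ih r1
    refine ⟨r2, fun k => ?_, ?_⟩
    · have : mulP σ k (e :: m) total = mrgS e.2 e.1 σ total fun total => mulP σ k m total := rfl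
      rw [this, h1]; exact h3 k
    · rw [h4, h2]
      have : conc O (e :: m) = e.2 * O ^ e.1 + conc O m := by simp [conc]
      rw [this]; ring

theorem sosC_spec (O : ℤ) (B b o c : ℕ) (hc : 0 < c) (hb : b = 2 ^ c) (ms : List MB) : ∀ total : List (ℕ × ℤ),
    (∀ {α : Type} (bad : α) (k : List (ℕ × ℤ) → α), sosC B b o c bad k ms total = bad) ∨
      ∃ r, (∀ {α : Type} (bad : α) (k : List (ℕ × ℤ) → α), sosC B b o c bad k ms total = k r) ∧
        conc O r = conc O total + (ms.map fun x => conc O (x.m.map fun e => (e.1, pkv (B : ℤ) e.2)) *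
          (x.bl.map fun y =>
            qR b o y.rows ((List.range y.rows.length).map fun j => zf O (pcl B y.cs) (c * j))).sum).sum := by
  induction ms with
  | nil => intro acc; exact Or.inr ⟨acc, fun _ k => rfl, by simp⟩
  | cons x ms ih =>
    intro total
    have hdef : ∀ {α : Type} (bad : α) (k : List (ℕ × ℤ) → α), sosC B b o c bad k (x :: ms) total =
        sumB B b o c bad (fun σ => mulP σ (fun total => sosC B b o c bad k ms total)
          (x.m.map fun e => (e.1, pkv (B : ℤ) e.2)) total) x.bl [] := by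
      intro α bad k
      have : sosC B b o c bad k (x :: ms) total =
        sumB B b o c bad (fun σ => pkE B x.m fun m => mulP σ (fun total => sosC B b o c bad k ms total) m total)
          x.bl [] := rfl
      rw [this]
      congr 1
      funext σ
      rw [pkE_eq]
    rcases sumB_spec O B b o c hc hb x.bl [] with h1 | ⟨r1, h1, h2⟩
    · left; intro α bad k; rw [hdef]; exact h1 _ _
    · obtain ⟨r2, h3, h4⟩ := mulP_spec O r1 (x.m.map fun e => (e.1, pkv (B : ℤ) e.2)) total
      rcases ih r2 with h5 | ⟨r3, h5, h6⟩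
      · left; intro α bad k; rw [hdef, h1, h3]; exact h5 _ _
      · right
        refine ⟨r3, fun bad k => by rw [hdef, h1, h3]; exact h5 _ _, ?_⟩
        have e0 : conc O [] = 0 := rfl
        rw [h6, h4, h2, e0, zero_add, List.map_cons, List.sum_cons]; ring

theorem allZ_spec (O : ℤ) (l : List (ℕ × ℤ)) (h : allZ l = true) : conc O l = 0 := by
  induction l with
  | nil => rfl
  | cons e l ih =>
    have h1 : allZ (e :: l) = @Int.rec (fun _ => Bool) (fun n => ifle n 0 (allZ l) false) (fun _ => false) e.2 := rfl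
    rw [h1] at h
    cases he : e.2 with
    | ofNat n =>
      rw [he] at h
      obtain ⟨h2, h3⟩ := ifle_true (show ifle n 0 (allZ l) false = true from h)
      have : n = 0 := Nat.le_zero.1 h2
      have h4 := ih h3
      simp only [conc, List.map_cons, List.sum_cons] at h4 ⊢
      rw [h4, he, this]; simp
    | negSucc n =>
      rw [he] at h
      exact absurd (show false = true from h) (by decide)

/-! ### Degrees and sizes of the blocks -/

theorem C_nat (n : ℕ) : (C ((n : ℕ) : ℤ) : MvPolynomial ℕ ℤ) = (n : MvPolynomial ℕ ℤ) :=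
  map_natCast (C : ℤ →+* MvPolynomial ℕ ℤ) n

theorem dotR_good (b o : ℕ) (hb : 0 < b) (ho : o ≤ b) (d : ℕ → ℕ) (zs : List (MvPolynomial ℕ ℤ))
    (hd : ∀ z ∈ zs, ∀ i, z.degreeOf i ≤ d i) : ∀ v : ℕ,
    (∀ i, (dotR b o v zs).degreeOf i ≤ d i) ∧ nb (dotR b o v zs) ≤ b * (zs.map nb).sum := by
  have hc : ∀ v : ℕ, (((v % b : ℕ) : MvPolynomial ℕ ℤ) - (o : MvPolynomial ℕ ℤ)) = C (((v % b : ℕ) : ℤ) - (o : ℤ)) := by
    intro v
    rw [map_sub, C_nat, C_nat]
  induction zs with
  | nil =>
    intro v
    refine ⟨fun i => ?_, by simp [dotR, nb]⟩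
    rw [show dotR b o v ([] : List (MvPolynomial ℕ ℤ)) = 0 from rfl, MvPolynomial.degreeOf_zero]
    exact Nat.zero_le _
  | cons z zs ih =>
    intro v
    obtain ⟨h1, h2⟩ := ih (fun z' hz' => hd z' (List.mem_cons_of_mem _ hz')) (v / b)
    have e1 : dotR b o v (z :: zs) = C (((v % b : ℕ) : ℤ) - (o : ℤ)) * z + dotR b o (v / b) zs := by
      rw [← hc]; rfl
    constructor
    · intro i
      rw [e1]
      refine (MvPolynomial.degreeOf_add_le i _ _).trans (max_le ?_ (h1 i))
      refine (MvPolynomial.degreeOf_mul_le i _ _).trans ?_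
      rw [PolM.deg_C, zero_add]
      exact hd z List.mem_cons_self i
    · rw [e1, List.map_cons, List.sum_cons, mul_add]
      refine (nb_add _ _).trans (Nat.add_le_add ?_ h2)
      refine (nb_mul _ _).trans (Nat.mul_le_mul_right _ ((nb_C _).trans ?_))
      have h3 : v % b < b := Nat.mod_lt _ hb
      omega

theorem qR_good (b o : ℕ) (hb : 0 < b) (ho : o ≤ b) (d : ℕ → ℕ) (vs : List ℕ)
    (zs : List (MvPolynomial ℕ ℤ)) (hd : ∀ z ∈ zs, ∀ i, z.degreeOf i ≤ d i) :
    (∀ i, (qR b o vs zs).degreeOf i ≤ 2 * d i) ∧ nb (qR b o vs zs) ≤ b * ((zs.map nb).sum * (zs.map nb).sum) := by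
  induction zs generalizing vs with
  | nil =>
    have e0 : qR b o vs ([] : List (MvPolynomial ℕ ℤ)) = 0 := by cases vs <;> rfl
    rw [e0]
    refine ⟨fun i => ?_, by simp [nb]⟩
    rw [MvPolynomial.degreeOf_zero]; exact Nat.zero_le _
  | cons z zs ih =>
    cases vs with
    | nil =>
      have e0 : qR b o [] (z :: zs) = 0 := rfl
      rw [e0]
      refine ⟨fun i => ?_, by simp [nb]⟩
      rw [MvPolynomial.degreeOf_zero]; exact Nat.zero_le _
    | cons v vs =>
      obtain ⟨h1, h2⟩ := ih vs fun z' hz' => hd z' (List.mem_cons_of_mem _ hz')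
      obtain ⟨h3, h4⟩ := dotR_good b o hb ho d (z :: zs) hd v
      have e1 : qR b o (v :: vs) (z :: zs) = z * dotR b o v (z :: zs) + qR b o vs zs := rfl
      rw [e1]
      constructor
      · intro i
        refine (MvPolynomial.degreeOf_add_le i _ _).trans (max_le ?_ (h1 i))
        refine (MvPolynomial.degreeOf_mul_le i _ _).trans ?_
        have h5 := hd z List.mem_cons_self i
        have h6 := h3 i
        omega
      · refine (nb_add _ _).trans ?_
        have h5 : nb (z * dotR b o v (z :: zs)) ≤ nb z * (b * (((z :: zs).map nb).sum)) :=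
          (nb_mul _ _).trans (Nat.mul_le_mul_left _ h4)
        rw [List.map_cons, List.sum_cons] at h5 ⊢
        refine (Nat.add_le_add h5 h2).trans ?_
        generalize nb z = x
        generalize (zs.map nb).sum = y
        calc x * (b * (x + y)) + b * (y * y) ≤ b * (x * (x + y)) + b * (y * (x + y)) := by
              refine Nat.add_le_add (le_of_eq (by ring)) (Nat.mul_le_mul_left _ (Nat.mul_le_mul_left _ (Nat.le_add_left _ _)))
          _ = b * ((x + y) * (x + y)) := by ring

end SosM

end Pool.Agent.Lib.MP_084b88_gt.SK
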