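import Pool.Agent.Lib.MP_084b88_gt.SK.ExD

/-!
# MP_084b88_gt, project SK, checker v2: the kernel functions

Everything modulo `K1 + 1 = 2^K`, natural numbers, lazy lists with keys (`KL`, keys increasing), no continuations.
-/

set_option autoImplicit false

namespace Pool.Agent.Lib.MP_084b88_gt.SK

/-- Lists with keys. -/
inductive KL
  | nil
  | cons (k v : ℕ) (t : KL)

/-- Elements: shift and signed value. -/
inductive EL
  | nil
  | pos (s u : ℕ) (t : EL)
  | neg (s u : ℕ) (t : EL)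

/-- Classes: key, elements, `V = -∑ |u|` modulo `2^K`, accumulator. -/
inductive CL
  | nil
  | cons (k : ℕ) (es : EL) (V : ℕ) (T : KL) (t : CL)

/-- Lists of lists. -/
inductive LL
  | nil
  | cons (l : KL) (t : LL)

/-- Merge `l`, values changed by `f`, keys shifted by `dk`, into `m`. -/
noncomputable def mg (f : ℕ → ℕ) (dk : ℕ) (l : KL) : KL → KL :=
  @KL.rec (fun _ => KL → KL) (fun m => m)
    (fun kx vx _ ihl m => @KL.rec (fun _ => KL)
      (KL.cons (Nat.add dk kx) (f vx) (ihl KL.nil))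
      (fun ky vy m' ihm =>
        @Bool.rec (fun _ => KL) (KL.cons ky vy ihm)
          (@Bool.rec (fun _ => KL) (KL.cons (Nat.add dk kx) (f vx) (ihl (KL.cons ky vy m')))
            (KL.cons ky (Nat.add (f vx) vy) (ihl m')) (Nat.ble ky (Nat.add dk kx)))
          (Nat.ble (Nat.add dk kx) ky)) m) l

/-- Reduce the values, shift the keys. -/
noncomputable def rdl (K1 dk : ℕ) (l : KL) : KL :=
  @KL.rec (fun _ => KL) KL.nil (fun k v _ ih => KL.cons (Nat.add dk k) (Nat.land v K1) ih) l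

/-- `acc + ∑ (digit_(s-i) v - o) u + o ∑ |u|`. -/
noncomputable def rwE (b v i : ℕ) (es : EL) : ℕ → ℕ :=
  @EL.rec (fun _ => ℕ → ℕ) (fun acc => acc)
    (fun s u _ ih acc => ih (Nat.add acc (Nat.mul (Nat.mod (Nat.shiftRight v (Nat.sub s i)) b) u)))
    (fun s u _ ih acc => ih (Nat.add acc (Nat.mul (Nat.sub b (Nat.mod (Nat.shiftRight v (Nat.sub s i)) b)) u))) es

/-- One row. -/
noncomputable def rwS (b o K1 v i : ℕ) (cl : CL) : KL :=
  @CL.rec (fun _ => KL) KL.nil
    (fun k es V _ _ ih => KL.cons k (Nat.land (rwE b v i es (Nat.mul o V)) K1) ih) cl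

/-- Use and remove the elements `i`. -/
noncomputable def upS (M i : ℕ) (r : KL) (cl : CL) : CL :=
  @CL.rec (fun _ => CL) CL.nil
    (fun k es V T _ ih => @EL.rec (fun _ => CL) (CL.cons k EL.nil V T ih)
      (fun s u es' _ => @Bool.rec (fun _ => CL) (CL.cons k es V T ih)
        (CL.cons k es' (Nat.add V u) (mg (Nat.mul u) 0 r T) ih) (Nat.beq s i))
      (fun s u es' _ => @Bool.rec (fun _ => CL) (CL.cons k es V T ih)
        (CL.cons k es' (Nat.add V u) (mg (fun v => Nat.mul u (Nat.sub M v)) 0 r T) ih) (Nat.beq s i)) es) cl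

/-- Move a finished first class to the output. -/
noncomputable def popS {α : Type} (K1 : ℕ) (cl : CL) (out : LL) (k : CL → LL → α) : α :=
  @CL.rec (fun _ => α) (k CL.nil out)
    (fun c es V T t _ => @EL.rec (fun _ => α) (k t (LL.cons (rdl K1 c T) out))
      (fun _ _ _ _ => k (CL.cons c es V T t) out) (fun _ _ _ _ => k (CL.cons c es V T t) out) es) cl

/-- All rows. -/
noncomputable def rnS {α : Type} (b o c K1 M : ℕ) (k : CL → LL → α) (rows : List ℕ) : ℕ → CL → LL → α :=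
  @List.rec ℕ (fun _ => ℕ → CL → LL → α) (fun _ cl out => k cl out)
    (fun v _ ih i cl out => popS K1 (upS M i (rwS b o K1 v i cl) cl) out (ih (Nat.add i c))) rows

/-- Collect the classes; `bad` if an element is left. -/
noncomputable def fnS {α : Type} (K1 : ℕ) (bad : α) (k : LL → α) (cl : CL) : LL → α :=
  @CL.rec (fun _ => LL → α) k
    (fun c es _ T _ ih out => @EL.rec (fun _ => α) (ih (LL.cons (rdl K1 c T) out)) (fun _ _ _ _ => bad)
      (fun _ _ _ _ => bad) es) cl

/-- Merge pairs of neighbours. -/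
noncomputable def prU (l : LL) : LL :=
  @LL.rec (fun _ => LL → LL) (fun pend => pend)
    (fun x _ ih pend => @LL.rec (fun _ => LL) (ih (LL.cons x LL.nil))
      (fun y _ _ => LL.cons (mg (fun v => v) 0 x y) (ih LL.nil)) pend) l LL.nil

/-- Merge everything, one after the other. -/
noncomputable def mgA (l : LL) : KL :=
  @LL.rec (fun _ => KL) KL.nil (fun x _ ih => mg (fun v => v) 0 x ih) l

/-- `n` rounds of pairs, then everything. -/
noncomputable def mgT (n : ℕ) (l : LL) : KL :=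
  mgA (@Nat.rec (fun _ => LL) l (fun _ r => prU r) n)

/-- Packed value, signed: `∑ c B^s`, positive and negative parts. -/
noncomputable def pkP (B : ℕ) (tp : List (ℕ × ℤ)) : ℕ :=
  @List.rec (ℕ × ℤ) (fun _ => ℕ) 0 (fun e _ ih => @Int.rec (fun _ => ℕ)
    (fun n => Nat.add (Nat.mul n (Nat.pow B e.1)) ih) (fun _ => ih) e.2) tp

/-- Negative part. -/
noncomputable def pkN (B : ℕ) (tp : List (ℕ × ℤ)) : ℕ :=
  @List.rec (ℕ × ℤ) (fun _ => ℕ) 0 (fun e _ ih => @Int.rec (fun _ => ℕ)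
    (fun _ => ih) (fun n => Nat.add (Nat.mul (Nat.succ n) (Nat.pow B e.1)) ih) e.2) tp

/-- Elements of one class. -/
noncomputable def elS (B : ℕ) (es : List (ℕ × List (ℕ × ℤ))) : EL :=
  @List.rec (ℕ × List (ℕ × ℤ)) (fun _ => EL) EL.nil
    (fun e _ ih => @Bool.rec (fun _ => EL) (EL.neg e.1 (Nat.sub (pkN B e.2) (pkP B e.2)) ih)
      (EL.pos e.1 (Nat.sub (pkP B e.2) (pkN B e.2)) ih) (Nat.ble (pkN B e.2) (pkP B e.2))) es

/-- Sum of the absolute values. -/
noncomputable def smU (es : EL) : ℕ :=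
  @EL.rec (fun _ => ℕ) 0 (fun _ u _ ih => Nat.add u ih) (fun _ u _ ih => Nat.add u ih) es

/-- The classes of a block. -/
noncomputable def clS (B K1 M : ℕ) (cs : List (ℕ × List (ℕ × List (ℕ × ℤ)))) : CL :=
  @List.rec (ℕ × List (ℕ × List (ℕ × ℤ))) (fun _ => CL) CL.nil
    (fun c _ ih => CL.cons c.1 (elS B c.2) (Nat.sub M (Nat.land (smU (elS B c.2)) K1)) KL.nil ih) cs

/-- Blocks of one multiplier. -/
noncomputable def blS {α : Type} (B b o c K1 M : ℕ) (bad : α) (k : LL → α) (bl : List Ins) : LL → α :=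
  @List.rec Ins (fun _ => LL → α) k
    (fun x _ ih out => rnS b o c K1 M (fun cl out => fnS K1 bad ih cl out) x.rows 0 (clS B K1 M x.cs) out) bl

/-- `tot + m σ`. -/
noncomputable def mpS (B M : ℕ) (σ : KL) (m : List (ℕ × List (ℕ × ℤ))) : KL → KL :=
  @List.rec (ℕ × List (ℕ × ℤ)) (fun _ => KL → KL) (fun t => t)
    (fun e _ ih t => ih (@Bool.rec (fun _ => KL)
      (mg (fun v => Nat.mul (Nat.sub (pkN B e.2) (pkP B e.2)) (Nat.sub M v)) e.1 σ t)
      (mg (Nat.mul (Nat.sub (pkP B e.2) (pkN B e.2))) e.1 σ t) (Nat.ble (pkN B e.2) (pkP B e.2)))) m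

/-- Force a list, then go on. -/
noncomputable def fcL {α : Type} (x : α) (l : KL) : α :=
  @KL.rec (fun _ => α) x (fun _ v _ ih => @Bool.rec (fun _ => α) ih ih (Nat.ble v 0)) l

/-- The whole sum. -/
noncomputable def soS {α : Type} (B b o c K1 M n : ℕ) (bad : α) (k : KL → α) (ms : List MB) : KL → α :=
  @List.rec MB (fun _ => KL → α) k
    (fun x _ ih tot => blS B b o c K1 M bad (fun ll =>
      ih (mpS B M (rdl K1 0 (mgT n ll)) x.m tot)) x.bl LL.nil) ms

/-- All values vanish modulo `2^K`. -/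
noncomputable def azS (K1 : ℕ) (l : KL) : Bool :=
  @KL.rec (fun _ => Bool) true (fun _ v _ ih => @Bool.rec (fun _ => Bool) false ih (Nat.ble (Nat.land v K1) 0)) l

/-- `acc + l m`. -/
noncomputable def mlS (K1 : ℕ) (m l : KL) : KL → KL :=
  @KL.rec (fun _ => KL → KL) (fun acc => acc)
    (fun k v _ ih acc => ih (mg (fun w => Nat.land (Nat.mul v w) K1) k m acc)) l

/-- Residue of an integer. -/
noncomputable def rsI (K1 M : ℕ) (n : ℤ) : ℕ :=
  @Int.rec (fun _ => ℕ) (fun n => n) (fun n => Nat.sub M (Nat.land (Nat.succ n) K1)) n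

/-- Element number `i`. -/
noncomputable def nthL (env : LL) : ℕ → KL :=
  @LL.rec (fun _ => ℕ → KL) (fun _ => KL.nil) (fun x _ ih i => @Nat.rec (fun _ => KL) x (fun j _ => ih j) i) env

/-- The packed value of an expression. -/
noncomputable def exV (K1 M : ℕ) (env : LL) (e : Ex) : KL :=
  @Ex.rec (fun _ => KL) (fun i => nthL env i) (fun c => KL.cons 0 (rsI K1 M c) KL.nil)
    (fun _ _ x y => mg (fun v => v) 0 x y)
    (fun _ _ x y => mlS K1 y x KL.nil)
    (fun _ n x => @Nat.rec (fun _ => KL) (KL.cons 0 1 KL.nil) (fun _ y => mlS K1 y x KL.nil) n) e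

/-! ### Environments -/

/-- Entries of an environment: a variable or a constant. -/
inductive VE
  | x (i : ℕ)
  | c (n : ℤ)

/-- The environment, all numbers forced. -/
noncomputable def mkV {α : Type} (f : ℕ → ℕ) (S B K1 M : ℕ) (l : List VE) : (LL → α) → α :=
  @List.rec VE (fun _ => (LL → α) → α) (fun k => k LL.nil)
    (fun e _ ih k => @VE.rec (fun _ => α)
      (fun i => fN (Nat.div (f i) S) fun t => fN (Nat.pow B (Nat.mod (f i) S)) fun v => ih fun r =>
        k (LL.cons (KL.cons t v KL.nil) r))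
      (fun n => fN (rsI K1 M n) fun v => ih fun r => k (LL.cons (KL.cons 0 v KL.nil) r)) e) l

/-! ### Explicit polynomials -/

/-- Packed values, residues. -/
noncomputable def pkM (B M K1 : ℕ) (tp : List (ℕ × ℤ)) : ℕ :=
  Nat.add (pkP B tp) (Nat.sub M (Nat.land (pkN B tp) K1))

/-- An explicit polynomial. -/
noncomputable def xpV (B M K1 : ℕ) (Z : List (ℕ × List (ℕ × ℤ))) : KL :=
  @List.rec (ℕ × List (ℕ × ℤ)) (fun _ => KL) KL.nil (fun e _ ih => KL.cons e.1 (pkM B M K1 e.2) ih) Z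

/-- `∑ digit_i w_i`. -/
noncomputable def swK (l : List (ℕ × ℕ)) : ℕ → ℕ :=
  @List.rec (ℕ × ℕ) (fun _ => ℕ → ℕ) (fun _ => 0)
    (fun x _ ih φ => Nat.add (Nat.mul (Nat.mod φ x.1) x.2) (ih (Nat.div φ x.1))) l

/-- Change the slots. -/
noncomputable def swT (li : List (ℕ × ℕ)) (tp : List (ℕ × ℤ)) : List (ℕ × ℤ) :=
  @List.rec (ℕ × ℤ) (fun _ => List (ℕ × ℤ)) [] (fun e _ ih => List.cons (swK li e.1, e.2) ih) tp

/-- The explicit polynomial after the exchange, as a list of lists. -/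
noncomputable def swZ (B M K1 : ℕ) (li lo : List (ℕ × ℕ)) (Z : List (ℕ × List (ℕ × ℤ))) : LL :=
  @List.rec (ℕ × List (ℕ × ℤ)) (fun _ => LL) LL.nil
    (fun e _ ih => LL.cons (KL.cons (swK lo e.1) (pkM B M K1 (swT li e.2)) KL.nil) ih) Z

/-- `-l`. -/
noncomputable def ngL (K1 M : ℕ) (l : KL) : KL :=
  @KL.rec (fun _ => KL) KL.nil (fun k v _ ih => KL.cons k (Nat.sub M (Nat.land v K1)) ih) l

/-! ### Degrees and sizes of expressions -/

/-- A weighted degree. -/
noncomputable def exD (w : List ℕ) (e : Ex) : ℕ :=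
  @Ex.rec (fun _ => ℕ) (fun i => nth 0 w i) (fun _ => 0)
    (fun _ _ x y => @Bool.rec (fun _ => ℕ) x y (Nat.ble x y)) (fun _ _ x y => Nat.add x y) (fun _ n x => Nat.mul n x) e

/-- The size, `w` the sizes of the variables. -/
noncomputable def exZ (w : List ℕ) (e : Ex) : ℕ :=
  @Ex.rec (fun _ => ℕ) (fun i => nth 0 w i) (fun c => iabs c)
    (fun _ _ x y => Nat.add x y) (fun _ _ x y => Nat.mul x y) (fun _ n x => Nat.pow x n) e

/-- The degrees are small enough. -/
noncomputable def dgE (wa wb wo : List ℕ) (ra rb ro : ℕ) (x : Bool) (e : Ex) : Bool :=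
  @Bool.rec (fun _ => Bool) false (@Bool.rec (fun _ => Bool) false (@Bool.rec (fun _ => Bool) false x
    (Nat.ble (Nat.succ (exD wo e)) ro)) (Nat.ble (Nat.succ (exD wb e)) rb)) (Nat.ble (Nat.succ (exD wa e)) ra)

end Pool.Agent.Lib.MP_084b88_gt.SK
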