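import Pool.Agent.Lib.MP_084b88_gt.SK.CPM
import Pool.Agent.Lib.MP_084b88_gt.SK.VD

/-!
# MP_084b88_gt, project SK, SpecH: statements around the half identity of checker v2

The check proves `∑_(env ∈ l) G(env ρ) = S(ρ) + Z(ρ) - Z(ρ ∘ psI)` for all `ρ`, `S` the sum of squares, `psI` the plain exchange
`0 ↔ 1, 2 ↔ 3, ..` of the variables. At `ρ` and `ρ ∘ psI` together `Z` cancels.
-/

set_option autoImplicit false

open MeasureTheory Set Real Filter Topology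
open scoped Pointwise InnerProductSpace

namespace Pool.Agent.Lib.MP_084b88_gt.SK

open Pool.Agent.Lib.MP_084b88_gt.CW Pool.Agent.Lib.MP_084b88_gt.SY Pool.Agent.Lib.MP_084b88_gt.AY

/-- The value. -/
def VE.val {R : Type*} [CommRing R] (ρ : ℕ → R) : VE → R
  | .x i => ρ i
  | .c n => (n : R)

/-- The values of an environment. -/
noncomputable def vE {R : Type*} [CommRing R] (env : List VE) (ρ : ℕ → R) (j : ℕ) : R := (nth (VE.c 0) env j).val ρ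

/-- The plain exchange. -/
def psI (i : ℕ) : ℕ := if i % 2 = 0 then i + 1 else i - 1

/-- Parameters with `n` variables, two of them inner. -/
structure PN (p : Pm) (n ra rb ro : ℕ) : Prop where
  ok : p.OK
  rd : RdOK p ra rb ro
  hl : p.rs.length = n

/-- **The result of the check**: `∑_(env ∈ l) G(env ρ) = S(ρ) + Z(ρ) - Z(ρ ∘ psI)`. -/
def HId (p : Pm) (ms : List MB) (l : List (List VE)) (G : Ex) (Z : (ℕ → ℝ) → ℝ) : Prop :=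
  ∀ ρ : ℕ → ℝ, (l.map fun env => G.val (vE env ρ)).sum = ev ρ (p.sosP ms) + Z ρ - Z fun i => ρ (psI i)

/-! ## The form with `x, y` -/

/-- The environment of the form with `x, y`. -/
def eX : List VE := [.x 0, .x 1, .x 2, .x 3, .x 4, .x 5, .x 6, .x 7, .x 8, .x 9, .x 10, .x 11]

/-- The domain; invariant under `psI`. -/
structure DomR (ρ : ℕ → ℝ) : Prop where
  ae : |ρ 0| + |ρ 2| ≤ 1
  bf : |ρ 1| + |ρ 3| ≤ 1
  gt : |ρ 4| ≤ 1 / 3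
  gs : |ρ 5| ≤ 1 / 3
  x1 : 1 / 2 ≤ ρ 9 ^ 2 + ρ 11 ^ 2
  x2 : ρ 9 ^ 2 + ρ 11 ^ 2 ≤ 1
  y1 : 1 / 2 ≤ ρ 8 ^ 2 + ρ 10 ^ 2
  y2 : ρ 8 ^ 2 + ρ 10 ^ 2 ≤ 1
  b1 : (ρ 8 - ρ 1 * ρ 9) ^ 2 + (ρ 10 - ρ 1 * ρ 11) ^ 2 ≤ 2 * (ρ 9 * ρ 10 - ρ 11 * ρ 8) ^ 2
  a1 : (ρ 9 - ρ 0 * ρ 8) ^ 2 + (ρ 11 - ρ 0 * ρ 10) ^ 2 ≤ 2 * (ρ 9 * ρ 10 - ρ 11 * ρ 8) ^ 2

/-- The multipliers are the products of atoms (result of the check `mckN`). -/
def MlOK (p : Pm) (env : List VE) (ml : List (List ℕ × MB)) : Prop :=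
  ∀ x ∈ ml, ∀ ρ : ℕ → ℝ, ev ρ (p.mP x.2.m) = (muE2 x.1).val (vE env ρ)

/-- The same for coupling items. -/
def ClOK (p : Pm) (env : List VE) (cl : List CI) : Prop :=
  ∀ x ∈ cl, ∀ ρ : ℕ → ℝ, ev ρ (p.mP x.m2) = 2 * (muE2 x.ids).val (vE env ρ) ∧
    ev ρ (p.mP x.mn) = -(muE2 x.ids).val (vE env ρ)

/-- **SNX** (150 lines, adapt CPM): the sum of squares with coupling items is nonnegative on the domain. -/
def SpecSNX : Prop :=
  ∀ (p : Pm) (ra rb ro : ℕ), PN p 12 ra rb ro → ∀ (ml : List (List ℕ × MB)) (cl : List CI),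
    MlOK p eX ml → ClOK p eX cl → cbs p cl = true →
    (∀ x ∈ ml, ∀ y ∈ x.2.bl, PsdOK p.b p.o y.rows) → (∀ x ∈ cl, ∀ y ∈ x.bl, PsdOK p.b p.o y.rows) →
    ∀ ρ : ℕ → ℝ, DomR ρ → 0 ≤ ev ρ (p.sosP (ml.map Prod.snd ++ cl.flatMap CI.mbs))

/-- Signs of the mirror symmetry, twelve variables. -/
def sgX : List ℕ := [1, 1, 0, 1, 0, 1, 1, 0, 1, 0, 1, 0]

/-- **HFX** (80 lines; soundness of `pyE` as in CON): the rule of the half identity, form with `x, y`. `rho d` and its plain exchange lie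
in `DomR`; `G2(rho d.sw) = G2(rho d ∘ psI)` by the parity `sgX`. -/
def SpecHFX : Prop :=
  ∀ (p : Pm) (ms : List MB) (G G0 : Ex) (Z : (ℕ → ℝ) → ℝ), HId p ms [eX] (Ex.add (smE 2 G) G0) Z →
    (∀ ρ : ℕ → ℝ, DomR ρ → 0 ≤ ev ρ (p.sosP ms)) → pyE sgX (Ex.add (smE 2 G) G0) = 1 →
    (∀ (D1 D2 : ℝ) (d : Dt), G0.val (rho D1 D2 d.sw) = G0.val (rho D1 D2 d)) → PosG G G0

/-- **TLS** (20 lines): the tail is symmetric. -/
def SpecTLS : Prop :=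
  ∀ (c1 rc rs t : ℤ) (D1 D2 : ℝ) (d : Dt), (tlE c1 rc rs t).val (rho D1 D2 d.sw) = (tlE c1 rc rs t).val (rho D1 D2 d)

/-! ## The vertex form -/

/-- The environment at the weights `w` (seven numbers). -/
def eW (w : List ℤ) : List VE := [.x 0, .x 1, .x 2, .x 3, .x 4, .x 5, .x 6, .x 7] ++ w.map VE.c

/-- The environment after the plain exchange: `t, q1, p1, c1, q2, p2, c2` becomes `t, p1, q1, c1, p2, q2, c2`. -/
noncomputable def eV (w : List ℤ) : List VE := [.x 1, .x 0, .x 3, .x 2, .x 5, .x 4, .x 7, .x 6] ++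
  [.c (nth 0 w 0), .c (nth 0 w 2), .c (nth 0 w 1), .c (nth 0 w 3), .c (nth 0 w 5), .c (nth 0 w 4), .c (nth 0 w 6)]

/-- The domain. -/
structure DomV (ρ : ℕ → ℝ) : Prop where
  ae : |ρ 0| + |ρ 2| ≤ 1
  bf : |ρ 1| + |ρ 3| ≤ 1
  gt : |ρ 4| ≤ 1 / 3
  gs : |ρ 5| ≤ 1 / 3

/-- **SNV** (30 lines): the sum of squares is nonnegative, eight variables; atoms without `x, y`. -/
def SpecSNV : Prop :=
  ∀ (p : Pm) (w : List ℤ) (ml : List (List ℕ × MB)), MlOK p (eW w) ml → (∀ x ∈ ml, ∀ i ∈ x.1, i < 6 ∨ 12 ≤ i) →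
    (∀ x ∈ ml, ∀ y ∈ x.2.bl, PsdOK p.b p.o y.rows) →
    ∀ ρ : ℕ → ℝ, DomV ρ → 0 ≤ ev ρ (p.sosP (ml.map Prod.snd))

/-- **HFV** (80 lines): the rule of the half identity at symmetric weights, and of the full identity at all weights. -/
def SpecHFV : Prop :=
  ∀ (p : Pm) (ms : List MB) (G : Ex), FrmW G → (∀ ρ : ℕ → ℝ, DomV ρ → 0 ≤ ev ρ (p.sosP ms)) →
    (∀ (t q1 c1 q2 c2 : ℤ) (Z : (ℕ → ℝ) → ℝ), HId p ms [eW [t, q1, q1, c1, q2, q2, c2]] G Z →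
      PosW G fun i => ((nth 0 [t, q1, q1, c1, q2, q2, c2] i : ℤ) : ℝ)) ∧
    (∀ (w : List ℤ), w.length = 7 → HId p ms [eW w, eV w] G (fun _ => 0) → PosW G fun i => ((nth 0 w i : ℤ) : ℝ))

end Pool.Agent.Lib.MP_084b88_gt.SK
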