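import Pool.Agent.Lib.MP_084b88_gt.SK.SpecW

/-!
# MP_084b88_gt, project SK, SpecV: the vertex form with the Legendre multiplier `μ2 = 6 M2/(c1 c2)`
-/

set_option autoImplicit false

open MeasureTheory Set Real Filter Topology
open scoped Pointwise InnerProductSpace

namespace Pool.Agent.Lib.MP_084b88_gt.SK

open Pool.Agent.Lib.MP_084b88_gt.CW Pool.Agent.Lib.MP_084b88_gt.SY Pool.Agent.Lib.MP_084b88_gt.AY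

/-- The kernel `KR` times `c1 c2`, with `M2 = p.kp.M2` (monomials in `γ, X` only). -/
noncomputable def krV (p : KW) : Ex :=
  Ex.add (Ex.mul (psW p.kp) (hrE p.kp))
    (Ex.add
      (Ex.mul (Ex.add (Ex.mul (psW p.kp) (mtE p.kp.Ph)) (Ex.add (smE 3 (Ex.mul (mwE p.M) (Ex.v 4)))
          (smE 2 (Ex.mul (mtE p.kp.M2) (subE (smE 3 (Ex.mul (Ex.v 8) (sqE 4))) (Ex.add (Ex.v 10) (Ex.v 13)))))))
        (subE (Ex.c 1) (Ex.add (sqE 0) (sqE 2))))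
      (Ex.add
        (smE (-1) (Ex.mul (Ex.add (mwE p.M) (smE 4 (Ex.mul (Ex.v 8) (Ex.mul (Ex.v 4) (mtE p.kp.M2)))))
          (Ex.add (Ex.pow (Ex.v 2) 3) (smE 3 (Ex.mul (sqE 0) (Ex.v 2))))))
        (Ex.mul (Ex.mul (Ex.v 8) (mtE p.kp.M2)) (subE (Ex.c 1) (Ex.add (Ex.pow (Ex.v 0) 4)
          (Ex.add (smE 6 (Ex.mul (sqE 0) (sqE 2))) (Ex.pow (Ex.v 2) 4)))))))

/-- The whole expression: `2 (krV + null forms) + tail`. -/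
noncomputable def gV (p : KW) (ns : List NW) (t : ℤ) : Ex :=
  Ex.add (smE 2 (Ex.add (krV p) (nwsE ns))) (tlW p.kp.c1 p.kp.rc p.kp.rs t)

/-- **XGV**: generators from the vertex form (`SpecXGW` with `μ2`). -/
def SpecXGV : Prop :=
  SpecKRJ → SpecGVK → SpecNQA →
    (∀ rc rs : ℝ, -1 ≤ rc → rc ≤ 4 / 5 → -1 ≤ rs → rs ≤ 4 / 5 → ∃ N1 : ℕ, ∀ n : ℕ, N1 ≤ n → ∀ d : Dt,
      Dom (1 / 3) (1 / 2) 1 d → TLM.TLd rc rs d ≤ ∑ k ∈ Finset.Ico 3 n, tcf k * (mu (k + 1) * TTd (k + 1) rc rs d)) →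
    ∀ (iso : Bool) (p : KW) (t : ℤ) (ns : List NW),
    (∀ (D1 D2 : ℝ) (d : Dt), Dom (1 / 3) (1 / 2) 1 d →
      0 ≤ (gV p ns t).val (rhoW iso D1 D2 d) + (gV p ns t).val (rhoW iso D1 D2 d.sw)) →
    (∀ x ∈ ns, nwC x) → (∀ x ∈ p.kp.Ph, x.r = 0 ∧ x.s = 0) → (∀ x ∈ p.kp.M2, x.r = 0 ∧ x.s = 0) →
    ∀ (g : GP) (c1 c2 : ℝ), (iso = true → g.rs = g.rc ∧ p.kp.rs = p.kp.rc) →
    LnR p.kp ⟨c1, c2, g.rc, g.rs, g.aS, g.aR, 8488263 / 10 ^ 7, 10008 / 10000, -(51625 / 100000),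
      -(14486 / 1000000), -(24545 / 100000)⟩ →
    (t : ℝ) = c2 * g.aR / (3 * 10 ^ 8) →
    g.rc ≤ 4 / 5 → g.rs ≤ 4 / 5 → -1 ≤ g.rc → -1 ≤ g.rs → 0 ≤ g.aS → 0 ≤ g.aR →
    (∀ X x1 x2 γ : ℝ, 1 / 2 ≤ x1 ^ 2 + x2 ^ 2 → x1 ^ 2 + x2 ^ 2 ≤ 1 → |γ| ≤ 1 / 3 →
      mtV p.kp.Ph X x1 x2 γ / c2 ≤ g.C * γ ^ 2 + g.l * (γ * X) + g.m * X ^ 2 + g.eps -
          g.k * (x1 ^ 2 + x2 ^ 2 + 3 * γ ^ 2 - 3 / 4) ^ 2) →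
    GV8 g

end Pool.Agent.Lib.MP_084b88_gt.SK
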