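import Pool.Agent.Lib.MP_084b88_gt.SK.TLE
import Pool.Agent.Lib.MP_084b88_gt.AY.SpecX

/-!
# MP_084b88_gt, project SK, SpecW: the kernel `KR` (eU = 1) as an expression; the vertex form

Vertex form: the variables `0..7 = a, b, e, f, gt, gs, Ys, X` and the weights `8..14 = 1, q1, p1, c1, q2, p2, c2`
(`q` = moving square `y²`, `p` = fixed square `x²`, `c = x y`; family 1: first coordinate or, isotropic, both together).
The expression `G` is linear in the weights; `G(ρ) + G(swW ρ) ≥ 0` is checked at the vertices of a polytope of weights.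
-/

set_option autoImplicit false

open MeasureTheory Set Real Filter Topology
open scoped Pointwise InnerProductSpace

namespace Pool.Agent.Lib.MP_084b88_gt.SK

open Pool.Agent.Lib.MP_084b88_gt.CW Pool.Agent.Lib.MP_084b88_gt.SY Pool.Agent.Lib.MP_084b88_gt.AY

/-! ## I. The kernel `KR` in the form with `x, y` -/

/-- `E2 (a+e) + E2 (a-e) - 2 E2 a`, scaled. -/
def e2E (t0 t1 t2 t3 : ℤ) : Ex := Ex.add (smE t0 (sqE 2))
  (Ex.add (smE t1 (Ex.add (smE 6 (Ex.mul (sqE 0) (sqE 2))) (Ex.pow (Ex.v 2) 4)))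
  (Ex.add (smE t2 (Ex.add (smE 15 (Ex.mul (Ex.pow (Ex.v 0) 4) (sqE 2)))
    (Ex.add (smE 15 (Ex.mul (sqE 0) (Ex.pow (Ex.v 2) 4))) (Ex.pow (Ex.v 2) 6))))
  (smE t3 (Ex.add (smE 28 (Ex.mul (Ex.pow (Ex.v 0) 6) (sqE 2)))
    (Ex.add (smE 70 (Ex.mul (Ex.pow (Ex.v 0) 4) (Ex.pow (Ex.v 2) 4)))
      (Ex.add (smE 28 (Ex.mul (sqE 0) (Ex.pow (Ex.v 2) 6))) (Ex.pow (Ex.v 2) 8)))))))

/-- The kernel without multipliers. -/
def hrE (p : KP) : Ex := Ex.add (smE p.h1 q1E) (Ex.add (smE p.h2 q2E) (Ex.add (smE p.h3 q3E)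
  (e2E p.t0 p.t1 p.t2 p.t3)))

/-- The part with `Φ` and the multipliers (as in `kqE`). -/
noncomputable def mlE (p : KP) : Ex :=
  Ex.add
      (Ex.mul (Ex.add (Ex.add (Ex.mul (psE p) (mtE p.Ph)) (mtE p.Pe))
        (Ex.add (smE 3 (Ex.mul (mtE p.M1) (Ex.v 4)))
          (smE 2 (Ex.mul (mtE p.M2) (subE (smE 3 (sqE 4)) (Ex.add (sqE 9) (sqE 11)))))))
        (subE (Ex.c 1) (Ex.add (sqE 0) (sqE 2))))
      (Ex.add (smE (-1) (Ex.mul (Ex.add (mtE p.M1) (smE 4 (Ex.mul (Ex.v 4) (mtE p.M2))))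
          (Ex.add (Ex.pow (Ex.v 2) 3) (smE 3 (Ex.mul (sqE 0) (Ex.v 2))))))
        (Ex.mul (mtE p.M2) (subE (Ex.c 1) (Ex.add (Ex.pow (Ex.v 0) 4)
          (Ex.add (smE 6 (Ex.mul (sqE 0) (sqE 2))) (Ex.pow (Ex.v 2) 4))))))

/-- The kernel `KR` times `c1 c2`. -/
noncomputable def krE (p : KP) : Ex := Ex.add (Ex.mul (psE p) (hrE p)) (mlE p)

/-- Second antiderivative of `etl 3 κ0 UC`, with `τ0 = κ0 - u0 + 149/1024` and so on. -/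
noncomputable def E2f (κ0 u0 u1 u2 u3 x : ℝ) : ℝ :=
  (κ0 - u0 + 149 / 1024) * x ^ 2 / 2 + (-u1 - 1 / 2) * x ^ 4 / 12 + (-u2 - 1 / 8) * x ^ 6 / 30 + (-u3 - 1 / 16) * x ^ 8 / 56

/-- The integer parameters belong to the real ones (`KR`). -/
structure LnR (p : KP) (q : RP) : Prop where
  hc1 : 0 < q.c1
  hc2 : 0 < q.c2
  e0 : (p.c1 : ℝ) = q.c1
  e1 : (p.rc : ℝ) = q.c1 * q.rc
  e2 : (p.rs : ℝ) = q.c1 * q.rs
  g1 : (p.h1 : ℝ) = q.c2 * q.aS / 48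
  g2 : (p.h2 : ℝ) = q.c2 * q.aR / 960
  g3 : (p.h3 : ℝ) = q.c2 * q.aR / 7168
  k0 : (p.t0 : ℝ) = q.c2 * q.aR * (q.κ0 - q.u0 + 149 / 1024)
  k1 : (p.t1 : ℝ) = q.c2 * q.aR * (-q.u1 - 1 / 2) / 6
  k2 : (p.t2 : ℝ) = q.c2 * q.aR * (-q.u2 - 1 / 8) / 15
  k3 : (p.t3 : ℝ) = q.c2 * q.aR * (-q.u3 - 1 / 16) / 28

/-- The result of the kernel checks of a certificate in the form with `x, y`. -/
def PosG (G G0 : Ex) : Prop := ∀ (D1 D2 : ℝ) (d : Dt), Dom (1 / 3) (1 / 2) 1 d →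
  0 ≤ G.val (rho D1 D2 d) + G.val (rho D1 D2 d.sw) + G0.val (rho D1 D2 d)

/-- **XGR** (200 lines; adapt KQE, Fin.cert_real, GVC, TLE from `KQ` to `KR`: value of `krE`, derivatives of `E2f`, monotonicity in
`Φ`, then `SpecKRJ`, `SpecGVK`, `nsV_nul`, `tlE_val`). -/
def SpecXGR : Prop :=
  SpecKRJ → SpecGVK → SpecNQA →
    (∀ rc rs : ℝ, -1 ≤ rc → rc ≤ 4 / 5 → -1 ≤ rs → rs ≤ 4 / 5 → ∃ N1 : ℕ, ∀ n : ℕ, N1 ≤ n → ∀ d : Dt,
      Dom (1 / 3) (1 / 2) 1 d → TLM.TLd rc rs d ≤ ∑ k ∈ Finset.Ico 3 n, tcf k * (mu (k + 1) * TTd (k + 1) rc rs d)) →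
    ∀ (kp : KP) (t : ℤ) (ns : List NI), PosG (Ex.add (krE kp) (nsE ns)) (tlE kp.c1 kp.rc kp.rs t) →
    (∀ x ∈ ns, niC x) → ∀ (g : GP) (c1 c2 : ℝ),
    LnR kp ⟨c1, c2, g.rc, g.rs, g.aS, g.aR, 8488263 / 10 ^ 7, 10008 / 10000, -(51625 / 100000),
      -(14486 / 1000000), -(24545 / 100000)⟩ →
    (t : ℝ) = c2 * g.aR / (3 * 10 ^ 8) →
    g.rc ≤ 4 / 5 → g.rs ≤ 4 / 5 → -1 ≤ g.rc → -1 ≤ g.rs → 0 ≤ g.aS → 0 ≤ g.aR →
    (∀ X x1 x2 γ : ℝ, 1 / 2 ≤ x1 ^ 2 + x2 ^ 2 → x1 ^ 2 + x2 ^ 2 ≤ 1 → |γ| ≤ 1 / 3 →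
      psQ g.rc g.rs x1 x2 * (mtV kp.Ph X x1 x2 γ / c2) + mtV kp.Pe X x1 x2 γ / (c1 * c2) ≤
        psQ g.rc g.rs x1 x2 * (g.C * γ ^ 2 + g.l * (γ * X) + g.m * X ^ 2 + g.eps -
          g.k * (x1 ^ 2 + x2 ^ 2 + 3 * γ ^ 2 - 3 / 4) ^ 2)) →
    GV8 g

/-! ## II. The vertex form: expressions -/

/-- The variables and the weights; `iso`: both coordinates together. -/
def rhoW (iso : Bool) (D1 D2 : ℝ) (d : Dt) (i : ℕ) : ℝ :=
  match i with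
  | 0 => d.a
  | 1 => d.b
  | 2 => d.e
  | 3 => d.f
  | 4 => d.gt
  | 5 => d.gs
  | 6 => D1 * d.y1 + D2 * d.y2
  | 7 => D1 * d.x1 + D2 * d.x2
  | 8 => 1
  | 9 => d.y1 ^ 2 + if iso then d.y2 ^ 2 else 0
  | 10 => d.x1 ^ 2 + if iso then d.x2 ^ 2 else 0
  | 11 => d.x1 * d.y1 + if iso then d.x2 * d.y2 else 0
  | 12 => if iso then 0 else d.y2 ^ 2
  | 13 => if iso then 0 else d.x2 ^ 2
  | 14 => if iso then 0 else d.x2 * d.y2
  | _ => 0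

/-- Exchange of the two points. -/
def swW {R : Type*} [CommRing R] (ρ : ℕ → R) (j : ℕ) : R :=
  match j with
  | 0 => -ρ 1
  | 1 => -ρ 0
  | 2 => ρ 3
  | 3 => -ρ 2
  | 4 => ρ 5
  | 5 => -ρ 4
  | 6 => -ρ 7
  | 7 => ρ 6
  | 8 => ρ 8
  | 9 => ρ 10
  | 10 => ρ 9
  | 11 => -ρ 11
  | 12 => ρ 13
  | 13 => ρ 12
  | 14 => -ρ 14
  | _ => 0

/-- Weights of the multipliers: `0, 1, 2` for `1, p1, p2`. -/
def wix (i : ℕ) : ℕ := @Nat.rec (fun _ => ℕ) 8 (fun j _ => @Nat.rec (fun _ => ℕ) 10 (fun _ _ => 13) j) i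

/-- Monomials `c γ^g X^q · (weight w)`. -/
structure MW where
  c : ℤ
  g : ℕ
  q : ℕ
  w : ℕ

/-- As an expression. -/
noncomputable def mwE (l : List MW) : Ex :=
  @List.rec MW (fun _ => Ex) (Ex.c 0) (fun t _ ih => Ex.add (Ex.mul (Ex.c t.c)
    (pwm (Ex.v 4) t.g (pwm (Ex.v 7) t.q (Ex.v (wix t.w))))) ih) l

/-- The weights of the multipliers at a point. -/
def wx (iso : Bool) (x1 x2 : ℝ) (w : ℕ) : ℝ :=
  match w with
  | 0 => 1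
  | 1 => x1 ^ 2 + if iso then x2 ^ 2 else 0
  | _ => if iso then 0 else x2 ^ 2

/-- The value. -/
def mwV (iso : Bool) (l : List MW) (X x1 x2 γ : ℝ) : ℝ := (l.map fun t => (t.c : ℝ) * (γ ^ t.g * X ^ t.q * wx iso x1 x2 t.w)).sum

/-- Parameters: `kp` for `c1, rc, rs, h, t, Ph` (`Pe, M1, M2` not used), the multiplier `M`. -/
structure KW where
  kp : KP
  M : List MW

/-- `c1 ψ`. -/
def psW (p : KP) : Ex := subE (smE p.c1 (Ex.v 8)) (Ex.add (smE p.rc (Ex.v 10)) (smE p.rs (Ex.v 13)))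

/-- The kernel `KR` times `c1 c2` (`μ2 = 0`). -/
noncomputable def krW (p : KW) : Ex :=
  Ex.add (Ex.mul (psW p.kp) (hrE p.kp))
    (Ex.add
      (Ex.mul (Ex.add (Ex.mul (psW p.kp) (mtE p.kp.Ph)) (smE 3 (Ex.mul (mwE p.M) (Ex.v 4))))
        (subE (Ex.c 1) (Ex.add (sqE 0) (sqE 2))))
      (smE (-1) (Ex.mul (mwE p.M) (Ex.add (Ex.pow (Ex.v 2) 3) (smE 3 (Ex.mul (sqE 0) (Ex.v 2)))))))

/-- A weighted null form: `φ(b) f^j δ0^p0 δX^pX gs^k gt^l X^mx Ys^nX` times the weight `w`: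
`0`: 1; `1, 2, 3`: `x1², x1 δ1, δ1²`; `4, 5, 6`: `x2², x2 δ2, δ2²`. -/
structure NW where
  φ : List ℤ
  j : ℕ
  p0 : ℕ
  pX : ℕ
  k : ℕ
  l : ℕ
  mx : ℕ
  nX : ℕ
  w : ℕ

/-- Number of factors `δ` in the weight. -/
noncomputable def wdg (w : ℕ) : ℕ := nth 0 [0, 0, 1, 2, 0, 1, 2] w

/-- The weight as an expression. -/
noncomputable def wtE (w : ℕ) : Ex :=
  nth (Ex.v 8) [Ex.v 8, Ex.v 10, subE (Ex.v 11) (Ex.mul (Ex.v 1) (Ex.v 10)),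
    Ex.add (Ex.v 9) (subE (Ex.mul (sqE 1) (Ex.v 10)) (smE 2 (Ex.mul (Ex.v 1) (Ex.v 11)))),
    Ex.v 13, subE (Ex.v 14) (Ex.mul (Ex.v 1) (Ex.v 13)),
    Ex.add (Ex.v 12) (subE (Ex.mul (sqE 1) (Ex.v 13)) (smE 2 (Ex.mul (Ex.v 1) (Ex.v 14))))] w

/-- The monomial without weight. -/
noncomputable def mwM (j p0 pX k l mx nX : ℕ) : Ex :=
  pwm (Ex.v 3) j (pwm (dlE 5 4) p0 (pwm (dlE 6 7) pX (pwm (Ex.v 5) k (pwm (Ex.v 4) l (pwm (Ex.v 7) mx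
    (pwm (Ex.v 6) nX (Ex.c 1)))))))

/-- The weighted null form as an expression. -/
noncomputable def nwE (x : NW) : Ex :=
  Ex.mul (wtE x.w) (Ex.add
    (Ex.mul (Ex.add (Ex.mul (Ex.c (Int.subNatNat 1 (Nat.add (Nat.add (Nat.add x.j x.p0) x.pX) (wdg x.w))))
        (Ex.mul (Ex.v 0) (horE x.φ)))
      (Ex.mul (horDE (tl x.φ) 1) (Ex.add (Ex.c 1) (Ex.mul (Ex.c (-1)) (Ex.mul (Ex.v 0) (Ex.v 1))))))
      (mwM x.j x.p0 x.pX x.k x.l x.mx x.nX))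
    (Ex.mul (horE x.φ)
      (gd x.j (fun m => Ex.mul (Ex.mul (Ex.c (Int.negSucc m)) (Ex.v 2)) (mwM m x.p0 x.pX x.k x.l x.mx x.nX))
      (gd x.p0 (fun m => Ex.mul (Ex.mul (Ex.c (Int.ofNat (Nat.succ m))) (Ex.v 2)) (mwM x.j m x.pX x.k x.l x.mx x.nX))
      (gd x.k (fun m => Ex.mul (Ex.mul (Ex.c (Int.ofNat (Nat.succ m))) (Ex.add (Ex.v 2) (alE 4 5)))
        (mwM x.j x.p0 x.pX m x.l x.mx x.nX))
      (gd x.nX (fun m => Ex.mul (Ex.mul (Ex.c (Int.ofNat (Nat.succ m))) (alE 7 6))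
        (mwM x.j x.p0 x.pX x.k x.l x.mx m)) (Ex.c 0)))))))

/-- Sum of the null forms. -/
noncomputable def nwsE (l : List NW) : Ex := @List.rec NW (fun _ => Ex) (Ex.c 0) (fun x _ ih => Ex.add (nwE x) ih) l

/-- The condition of a weighted null form. -/
def nwC (x : NW) : Prop :=
  2 ≤ 2 * x.j + (x.p0 + x.pX + wdg x.w) ∨
    (x.j = 0 ∧ x.p0 + x.pX + wdg x.w = 1 ∧ hor x.φ (-1 : ℤ) * (-1) ^ (x.k + x.nX) = hor x.φ (1 : ℤ)) ∨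
    (x.j = 0 ∧ x.p0 + x.pX + wdg x.w = 0 ∧ hor x.φ (1 : ℤ) = 0 ∧ hor x.φ (-1 : ℤ) = 0)

noncomputable instance (x : NW) : Decidable (nwC x) := by unfold nwC; infer_instance

/-- `c1 p` of the tail. -/
def pW (rc rs : ℤ) : Ex := Ex.add (smE rc (Ex.v 10)) (smE rs (Ex.v 13))

/-- `c1 q` of the tail. -/
def qW (rc rs : ℤ) : Ex := Ex.add (smE rc (Ex.v 9)) (smE rs (Ex.v 12))

/-- `c1 c` of the tail. -/
def cW (rc rs : ℤ) : Ex := Ex.add (smE rc (Ex.v 11)) (smE rs (Ex.v 14))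

/-- The tail minorant (as `tlE`). -/
def tlW (c1 rc rs t : ℤ) : Ex :=
  smE t (Ex.mul (Ex.pow (subE (Ex.v 0) (Ex.v 1)) 2)
    (Ex.add
      (smE 56658 (Ex.add
        (subE (smE (20 * c1) (Ex.mul (Ex.v 8) h2E)) (smE 10 (Ex.add (Ex.mul (pW rc rs) (Ex.add (abE 1 1) (smE 2 (abE 2 0))))
          (Ex.mul (qW rc rs) (Ex.add (abE 1 1) (smE 2 (abE 0 2)))))))
        (subE (smE (16 * c1) (Ex.mul (Ex.v 8) h4E)) (smE 4 (Ex.add
          (Ex.mul (pW rc rs) (Ex.add (abE 1 3) (ad3 (smE 2 (abE 2 2)) (smE 3 (abE 3 1)) (smE 4 (abE 4 0)))))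
          (Ex.mul (qW rc rs) (Ex.add (abE 3 1) (ad3 (smE 2 (abE 2 2)) (smE 3 (abE 1 3)) (smE 4 (abE 0 4)))))))))
      )
      (Ex.add
        (Ex.add
          (smE (47985 * 15) (subE (Ex.add (pW rc rs) (qW rc rs)) (smE 2 (Ex.mul (cW rc rs) (Ex.add (Ex.v 0) (Ex.v 1))))))
          (smE (39312 * 10) (subE (Ex.mul (Ex.add (pW rc rs) (qW rc rs)) h2E) (smE 2 (Ex.mul (cW rc rs) h3E)))))
        (Ex.add
          (smE (30638 * 8) (subE (Ex.mul (Ex.add (pW rc rs) (qW rc rs)) h4E) (smE 2 (Ex.mul (cW rc rs) h5E))))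
          (Ex.mul (Ex.v 8) (Ex.add (Ex.c (-(300 * c1))) (smE (-(7500 * c1)) h2E)))))))

/-- The whole expression: `2 (krW + null forms) + tail`. -/
noncomputable def gW (p : KW) (ns : List NW) (t : ℤ) : Ex :=
  Ex.add (smE 2 (Ex.add (krW p) (nwsE ns))) (tlW p.kp.c1 p.kp.rc p.kp.rs t)

/-! ## III. The vertex form: positivity at weights -/

/-- Variables from eight reals and the weights `w 0, .., w 6`. -/
def r8 (a b e f gt gs Y X : ℝ) (w : ℕ → ℝ) (i : ℕ) : ℝ :=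
  match i with
  | 0 => a
  | 1 => b
  | 2 => e
  | 3 => f
  | 4 => gt
  | 5 => gs
  | 6 => Y
  | 7 => X
  | k + 8 => if k < 7 then w k else 0

/-- Positivity at the weights `w`. -/
def PosW (G : Ex) (w : ℕ → ℝ) : Prop :=
  ∀ a b e f gt gs Y X : ℝ, |a| + |e| ≤ 1 → |b| + |f| ≤ 1 → |gt| ≤ 1 / 3 → |gs| ≤ 1 / 3 →
    0 ≤ G.val (r8 a b e f gt gs Y X w) + G.val (swW (r8 a b e f gt gs Y X w))

/-- Codes: `0` zero, `1` of degree 0 in the weights, `2` linear, `3` bad. -/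
def cadd (x y : ℕ) : ℕ := if x = 0 then y else if y = 0 then x else if x = y then x else 3

/-- Linear in the weights. -/
noncomputable def lnE (e : Ex) : ℕ :=
  @Ex.rec (fun _ => ℕ) (fun i => if i < 8 then 1 else 2) (fun c => if c = 0 then 0 else 1)
    (fun _ _ x y => cadd x y) (fun _ _ x y => if x = 0 ∨ y = 0 then 0 else if x + y ≤ 3 then x + y - 1 else 3)
    (fun _ n x => if n = 0 then 1 else if x = 0 then 0 else if x = 1 then 1 else if n = 1 then x else 3) e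

/-- Codes: `0` zero, `1` even, `2` odd, `3` bad; `s` = signs of the variables (0 or 1). -/
noncomputable def pyE (s : List ℕ) (e : Ex) : ℕ :=
  @Ex.rec (fun _ => ℕ) (fun i => 1 + nth 0 s i) (fun c => if c = 0 then 0 else 1)
    (fun _ _ x y => cadd x y)
    (fun _ _ x y => if x = 0 ∨ y = 0 then 0 else if 3 ≤ x ∨ 3 ≤ y then 3 else if x = y then 1 else 2)
    (fun _ n x => if n = 0 then 1 else if x = 0 then 0 else if 3 ≤ x then 3 else if n % 2 = 0 then 1 else x) e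

/-- Signs of the central symmetry. -/
def sgC : List ℕ := [0, 0, 1, 1, 1, 1, 1, 1, 0, 0, 0, 0, 0, 0, 0]

/-- Signs of the mirror symmetry. -/
def sgM : List ℕ := [1, 1, 0, 1, 0, 1, 1, 0, 0, 0, 0, 1, 0, 0, 1]

/-- `G` has the right form. -/
def FrmW (G : Ex) : Prop := lnE G = 2 ∧ pyE sgC G = 1 ∧ pyE sgM G = 1

/-- Seven weights. -/
noncomputable def w7 (t q1 p1 c1 q2 p2 c2 : ℝ) (i : ℕ) : ℝ := nth 0 [t, q1, p1, c1, q2, p2, c2] i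

/-- **CON** (150 lines): the weights with positivity form a convex cone, invariant under exchange and mirror.
Linear: `val` at `s w + t w'`; induction on the expression (code 1: independent of the weights). Exchange: `swW (r8 .. w)` is
`r8` of the exchanged data with the exchanged weights, `swW (swW ρ)` differs from `ρ` by the central symmetry `sgC`. Mirror: `sgM`;
`swW` of the mirrored variables is the variables `swW ρ` with the signs of `sgM` plus `sgC`. -/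
def SpecCON : Prop :=
  ∀ G : Ex, FrmW G →
    (∀ (w w' : ℕ → ℝ) (s t : ℝ), 0 ≤ s → 0 ≤ t → PosW G w → PosW G w' → PosW G fun i => s * w i + t * w' i) ∧
    (∀ t q1 p1 c1 q2 p2 c2 : ℝ, PosW G (w7 t q1 p1 c1 q2 p2 c2) → PosW G (w7 t p1 q1 (-c1) p2 q2 (-c2))) ∧
    (∀ t q1 p1 c1 q2 p2 c2 : ℝ, PosW G (w7 t q1 p1 c1 q2 p2 c2) → PosW G (w7 t q1 p1 (-c1) q2 p2 (-c2)))

/-- **HU1** (100 lines, from CON): three vertices in the isotropic case. `q, p ∈ [1/2, 1]`, `|c| ≤ (p+q)/2`: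
`(q,p)` is a convex combination of the four corners, `c = θ (p+q)/2` with `|θ| ≤ 1`. -/
def SpecHU1 : Prop :=
  ∀ G : Ex, FrmW G → PosW G (w7 4 4 4 4 0 0 0) → PosW G (w7 4 2 4 3 0 0 0) → PosW G (w7 4 2 2 2 0 0 0) →
    ∀ t q p c : ℝ, t = 1 → 1 / 2 ≤ q → q ≤ 1 → 1 / 2 ≤ p → p ≤ 1 → |c| ≤ (q + p) / 2 → PosW G (w7 t q p c 0 0 0)

/-- The corners of the trapezoid `1/2 ≤ u1 + u2 ≤ 1`, `u ≥ 0`, times 2. -/
def crn : List (ℝ × ℝ) := [(2, 0), (0, 2), (1, 0), (0, 1)]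

/-- **HU2** (150 lines, from CON): two families, 14 vertices (times 4). `p = ∑ λ_i crn_i`, `q = ∑ μ_j crn_j`, product weights
`λ_i μ_j`; at the pair `(i, j)` the third weights are `θ1 (q1+p1)/2`, `θ2 (q2+p2)/2` with the fixed `|θ| ≤ 1` of the point; then signs.
Pairs `i > j` by exchange, the other signs by mirror. -/
def SpecHU2 : Prop :=
  ∀ G : Ex, FrmW G →
    (∀ i j : ℕ, i ≤ j → j < 4 → ∀ s : ℝ,
      (s = 1 ∨ (s = -1 ∧ 0 < (nth (0, 0) crn i).1 + (nth (0, 0) crn j).1 ∧ 0 < (nth (0, 0) crn i).2 + (nth (0, 0) crn j).2)) →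
      PosW G (w7 4 (2 * (nth (0, 0) crn j).1) (2 * (nth (0, 0) crn i).1) ((nth (0, 0) crn i).1 + (nth (0, 0) crn j).1)
        (2 * (nth (0, 0) crn j).2) (2 * (nth (0, 0) crn i).2) (s * ((nth (0, 0) crn i).2 + (nth (0, 0) crn j).2)))) →
    ∀ t q1 p1 c1 q2 p2 c2 : ℝ, t = 1 → 0 ≤ q1 → 0 ≤ q2 → 1 / 2 ≤ q1 + q2 → q1 + q2 ≤ 1 → 0 ≤ p1 → 0 ≤ p2 →
      1 / 2 ≤ p1 + p2 → p1 + p2 ≤ 1 → |c1| ≤ (q1 + p1) / 2 → |c2| ≤ (q2 + p2) / 2 → PosW G (w7 t q1 p1 c1 q2 p2 c2)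

/-- **NSW** (150 lines): the weighted null forms at the point: for both families `niE_val` of the items with
`(p1, m1)` or `(p2, m2)` from the weight, isotropic: the sum of the two. -/
def SpecNSW : Prop :=
  SpecNQA → ∀ (iso : Bool) (D1 D2 : ℝ) (ns : List NW), (∀ x ∈ ns, nwC x) →
    Nul fun d => (nwsE ns).val (rhoW iso D1 D2 d)

/-- **XGW** (200 lines, from NSW, KRJ; as XGR): generators from the vertex form. -/
def SpecXGW : Prop :=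
  SpecKRJ → SpecGVK → SpecNQA →
    (∀ rc rs : ℝ, -1 ≤ rc → rc ≤ 4 / 5 → -1 ≤ rs → rs ≤ 4 / 5 → ∃ N1 : ℕ, ∀ n : ℕ, N1 ≤ n → ∀ d : Dt,
      Dom (1 / 3) (1 / 2) 1 d → TLM.TLd rc rs d ≤ ∑ k ∈ Finset.Ico 3 n, tcf k * (mu (k + 1) * TTd (k + 1) rc rs d)) →
    ∀ (iso : Bool) (p : KW) (t : ℤ) (ns : List NW),
    (∀ (D1 D2 : ℝ) (d : Dt), Dom (1 / 3) (1 / 2) 1 d →
      0 ≤ (gW p ns t).val (rhoW iso D1 D2 d) + (gW p ns t).val (rhoW iso D1 D2 d.sw)) →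
    (∀ x ∈ ns, nwC x) → (∀ x ∈ p.kp.Ph, x.r = 0 ∧ x.s = 0) → ∀ (g : GP) (c1 c2 : ℝ), (iso = true → g.rs = g.rc ∧ p.kp.rs = p.kp.rc) →
    LnR p.kp ⟨c1, c2, g.rc, g.rs, g.aS, g.aR, 8488263 / 10 ^ 7, 10008 / 10000, -(51625 / 100000),
      -(14486 / 1000000), -(24545 / 100000)⟩ →
    (t : ℝ) = c2 * g.aR / (3 * 10 ^ 8) →
    g.rc ≤ 4 / 5 → g.rs ≤ 4 / 5 → -1 ≤ g.rc → -1 ≤ g.rs → 0 ≤ g.aS → 0 ≤ g.aR →
    (∀ X x1 x2 γ : ℝ, 1 / 2 ≤ x1 ^ 2 + x2 ^ 2 → x1 ^ 2 + x2 ^ 2 ≤ 1 → |γ| ≤ 1 / 3 →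
      mtV p.kp.Ph X x1 x2 γ / c2 ≤ g.C * γ ^ 2 + g.l * (γ * X) + g.m * X ^ 2 + g.eps -
          g.k * (x1 ^ 2 + x2 ^ 2 + 3 * γ ^ 2 - 3 / 4) ^ 2) →
    GV8 g

/-- **PVW** (80 lines, from CON, HU1, HU2): positivity at the weights of every point of `Dom` from the vertices.
`|c1| ≤ (q1+p1)/2` because `|xy| ≤ (x²+y²)/2`; `rhoW iso D1 D2 d = r8 .. (w7 ..)` and `rhoW .. d.sw = swW (rhoW .. d)`. -/
def SpecPVW : Prop :=
  ∀ G : Ex, FrmW G →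
    (PosW G (w7 4 4 4 4 0 0 0) → PosW G (w7 4 2 4 3 0 0 0) → PosW G (w7 4 2 2 2 0 0 0) →
      ∀ (D1 D2 : ℝ) (d : Dt), Dom (1 / 3) (1 / 2) 1 d →
        0 ≤ G.val (rhoW true D1 D2 d) + G.val (rhoW true D1 D2 d.sw)) ∧
    ((∀ i j : ℕ, i ≤ j → j < 4 → ∀ s : ℝ,
      (s = 1 ∨ (s = -1 ∧ 0 < (nth (0, 0) crn i).1 + (nth (0, 0) crn j).1 ∧ 0 < (nth (0, 0) crn i).2 + (nth (0, 0) crn j).2)) →
      PosW G (w7 4 (2 * (nth (0, 0) crn j).1) (2 * (nth (0, 0) crn i).1) ((nth (0, 0) crn i).1 + (nth (0, 0) crn j).1)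
        (2 * (nth (0, 0) crn j).2) (2 * (nth (0, 0) crn i).2) (s * ((nth (0, 0) crn i).2 + (nth (0, 0) crn j).2)))) →
      ∀ (D1 D2 : ℝ) (d : Dt), Dom (1 / 3) (1 / 2) 1 d →
        0 ≤ G.val (rhoW false D1 D2 d) + G.val (rhoW false D1 D2 d.sw))

end Pool.Agent.Lib.MP_084b88_gt.SK
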