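import Pool.Agent.Lib.MP_084b88_gt.SK.GVC
import Pool.Agent.Lib.MP_084b88_gt.AY.UCB

/-!
# MP_084b88_gt, project SK: the tail minorant as an expression; final form of a certificate
-/

set_option autoImplicit false

open MeasureTheory Set Real Filter Topology
open scoped Pointwise InnerProductSpace

namespace Pool.Agent.Lib.MP_084b88_gt.SK

open Pool.Agent.Lib.MP_084b88_gt.CW Pool.Agent.Lib.MP_084b88_gt.SY Pool.Agent.Lib.MP_084b88_gt.AY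

/-- `a^i b^k`. -/
def abE (i k : ℕ) : Ex := Ex.mul (Ex.pow (Ex.v 0) i) (Ex.pow (Ex.v 1) k)

/-- Sum of three. -/
def ad3 (x y z : Ex) : Ex := Ex.add x (Ex.add y z)

/-- `h_2`. -/
def h2E : Ex := ad3 (abE 2 0) (abE 1 1) (abE 0 2)

/-- `h_3`. -/
def h3E : Ex := Ex.add (abE 3 0) (ad3 (abE 2 1) (abE 1 2) (abE 0 3))

/-- `h_4`. -/
def h4E : Ex := Ex.add (abE 4 0) (Ex.add (abE 3 1) (ad3 (abE 2 2) (abE 1 3) (abE 0 4)))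

/-- `h_5`. -/
def h5E : Ex := ad3 (abE 5 0) (abE 4 1) (Ex.add (abE 3 2) (ad3 (abE 2 3) (abE 1 4) (abE 0 5)))

/-- `c1 p`. -/
def pE (rc rs : ℤ) : Ex := Ex.add (smE rc (sqE 9)) (smE rs (sqE 11))

/-- `c1 q`. -/
def qE (rc rs : ℤ) : Ex := Ex.add (smE rc (sqE 8)) (smE rs (sqE 10))

/-- `c1 c`. -/
def cE (rc rs : ℤ) : Ex := Ex.add (smE rc (Ex.mul (Ex.v 9) (Ex.v 8))) (smE rs (Ex.mul (Ex.v 11) (Ex.v 10)))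

/-- The tail minorant, times `c1 · 3 · 10^8`, times `t`. -/
def tlE (c1 rc rs t : ℤ) : Ex :=
  smE t (Ex.mul (Ex.pow (subE (Ex.v 0) (Ex.v 1)) 2)
    (Ex.add
      (smE 56658 (Ex.add
        (subE (smE (20 * c1) h2E) (smE 10 (Ex.add (Ex.mul (pE rc rs) (Ex.add (abE 1 1) (smE 2 (abE 2 0))))
          (Ex.mul (qE rc rs) (Ex.add (abE 1 1) (smE 2 (abE 0 2)))))))
        (subE (smE (16 * c1) h4E) (smE 4 (Ex.add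
          (Ex.mul (pE rc rs) (Ex.add (abE 1 3) (ad3 (smE 2 (abE 2 2)) (smE 3 (abE 3 1)) (smE 4 (abE 4 0)))))
          (Ex.mul (qE rc rs) (Ex.add (abE 3 1) (ad3 (smE 2 (abE 2 2)) (smE 3 (abE 1 3)) (smE 4 (abE 0 4)))))))))
      )
      (Ex.add
        (Ex.add
          (smE (47985 * 15) (subE (Ex.add (pE rc rs) (qE rc rs)) (smE 2 (Ex.mul (cE rc rs) (Ex.add (Ex.v 0) (Ex.v 1))))))
          (smE (39312 * 10) (subE (Ex.mul (Ex.add (pE rc rs) (qE rc rs)) h2E) (smE 2 (Ex.mul (cE rc rs) h3E)))))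
        (Ex.add
          (smE (30638 * 8) (subE (Ex.mul (Ex.add (pE rc rs) (qE rc rs)) h4E) (smE 2 (Ex.mul (cE rc rs) h5E))))
          (Ex.add (Ex.c (-(300 * c1))) (smE (-(7500 * c1)) h2E))))))

theorem tlE_val (c1' rc' rs' t : ℤ) (c1 c2 rc rs aR D1 D2 : ℝ) (d : Dt) (e0 : (c1' : ℝ) = c1) (e1 : (rc' : ℝ) = c1 * rc)
    (e2 : (rs' : ℝ) = c1 * rs) (ht : (t : ℝ) = c2 * aR / (3 * 10 ^ 8)) :
    (tlE c1' rc' rs' t).val (rho D1 D2 d) = c1 * c2 * (aR * TLM.TLd rc rs d) := by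
  unfold TLM.TLd TLM.TLp
  simp only [tlE, h2E, h3E, h4E, h5E, pE, qE, cE, ad3, abE, sqE, subE, smE, Ex.val, rho]
  push_cast
  simp only [e0, e1, e2, ht]
  ring

/-- The bound of `ψ (v + 3γ² - 3/4)²`, linear in `x1², x2²`. -/
noncomputable def kst_lin (rc rs rc' rs' x1 x2 γ : ℝ) : ℝ :=
  (9 * γ ^ 4 - 9 / 2 * γ ^ 2 + 1 / 16) * (1 - (rc * x1 ^ 2 + rs * x2 ^ 2)) +
    6 * γ ^ 2 * (x1 ^ 2 + x2 ^ 2) - 6 * γ ^ 2 * (rc' * x1 ^ 2 + rs' * x2 ^ 2)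

theorem kst_bound (rc rs rc' rs' x1 x2 γ : ℝ) (h1 : 1 / 2 ≤ x1 ^ 2 + x2 ^ 2) (h2 : x1 ^ 2 + x2 ^ 2 ≤ 1)
    (hp : 0 ≤ psQ rc rs x1 x2) (hc : ∀ v : ℝ, 1 / 2 ≤ v → v ≤ 1 → rc' ≤ v * rc)
    (hs : ∀ v : ℝ, 1 / 2 ≤ v → v ≤ 1 → rs' ≤ v * rs) :
    psQ rc rs x1 x2 * (x1 ^ 2 + x2 ^ 2 + 3 * γ ^ 2 - 3 / 4) ^ 2 ≤ kst_lin rc rs rc' rs' x1 x2 γ := by
  have a1 := hc _ h1 h2
  have a2 := hs _ h1 h2
  have b1 : 0 ≤ (x1 ^ 2 + x2 ^ 2 - 1 / 2) * (1 - (x1 ^ 2 + x2 ^ 2)) :=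
    mul_nonneg (by linarith) (by linarith)
  have b2 := mul_nonneg hp b1
  have b3 : 0 ≤ 6 * γ ^ 2 * (x1 ^ 2 * ((x1 ^ 2 + x2 ^ 2) * rc - rc')) := by
    have : 0 ≤ (x1 ^ 2 + x2 ^ 2) * rc - rc' := by linarith
    positivity
  have b4 : 0 ≤ 6 * γ ^ 2 * (x2 ^ 2 * ((x1 ^ 2 + x2 ^ 2) * rs - rs')) := by
    have : 0 ≤ (x1 ^ 2 + x2 ^ 2) * rs - rs' := by linarith
    positivity
  unfold kst_lin
  unfold psQ at b2 ⊢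
  nlinarith [b2, b3, b4]

/-- The upper bound of the root. -/
theorem UC_ge' : ∀ y ∈ Icc (0 : ℝ) 1, √(1 - y) ≤
    (10008 / 10000 : ℝ) + (-(51625 / 100000 : ℝ)) * y + (-(14486 / 1000000 : ℝ)) * y ^ 2 +
      (-(24545 / 100000 : ℝ)) * y ^ 3 := by
  intro y hy
  have h := UC_ge y hy
  unfold UC at h
  linarith

/-- **Valid generators from certificates**, with the fixed `κ0`, `U` and the tail. -/
theorem gv8_tl (hKRI : SpecKRI) (hGVK : SpecGVK) (hNQA : SpecNQA)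
    (hTLM : ∀ rc rs : ℝ, -1 ≤ rc → rc ≤ 4 / 5 → -1 ≤ rs → rs ≤ 4 / 5 → ∃ N1 : ℕ, ∀ n : ℕ, N1 ≤ n → ∀ d : Dt,
      Dom (1 / 3) (1 / 2) 1 d → TLM.TLd rc rs d ≤ ∑ k ∈ Finset.Ico 3 n, tcf k * (mu (k + 1) * TTd (k + 1) rc rs d))
    {p : Pm} {ra rb ro : ℕ} (hp : P12 p ra rb ro) (kp : KP) (t : ℤ) (ns : List NI)
    (ml : List (List ℕ × MB))
    (hck : chk p ra rb ro (Ex.add (kqE kp) (nsE ns)) (tlE kp.c1 kp.rc kp.rs t) (ml.map Prod.snd) = true)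
    (hmc : mckA p ra rb ro ml = true) (hps : ∀ x ∈ ml, ∀ y ∈ x.2.bl, PsdOK p.b p.o y.rows)
    (hns : ∀ x ∈ ns, niC x) (g : GP) (c1 c2 : ℝ)
    (hq : Lnk kp ⟨c1, c2, g.rc, g.rs, g.aS, g.aR, 8488263 / 10 ^ 7, 10008 / 10000, -(51625 / 100000),
      -(14486 / 1000000), -(24545 / 100000)⟩)
    (ht : (t : ℝ) = c2 * g.aR / (3 * 10 ^ 8))
    (hrc : g.rc ≤ 4 / 5) (hrs : g.rs ≤ 4 / 5) (hrc' : -1 ≤ g.rc) (hrs' : -1 ≤ g.rs) (haS : 0 ≤ g.aS) (haR : 0 ≤ g.aR)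
    (hPh : ∀ X x1 x2 γ : ℝ, 1 / 2 ≤ x1 ^ 2 + x2 ^ 2 → x1 ^ 2 + x2 ^ 2 ≤ 1 → |γ| ≤ 1 / 3 →
      psQ g.rc g.rs x1 x2 * (mtV kp.Ph X x1 x2 γ / c2) + mtV kp.Pe X x1 x2 γ / (c1 * c2) ≤
        psQ g.rc g.rs x1 x2 * (g.C * γ ^ 2 + g.l * (γ * X) + g.m * X ^ 2 + g.eps -
          g.k * (x1 ^ 2 + x2 ^ 2 + 3 * γ ^ 2 - 3 / 4) ^ 2)) :
    GV8 g := by
  refine gv8_of hKRI hGVK hNQA hp kp ns (tlE kp.c1 kp.rc kp.rs t) ml hck hmc hps hns g c1 c2 (8488263 / 10 ^ 7)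
    (10008 / 10000) (-(51625 / 100000)) (-(14486 / 1000000)) (-(24545 / 100000)) hq hrc hrs haS haR k0_lt UC_ge' hPh ?_
  intro D1 D2
  obtain ⟨N1, hN⟩ := hTLM g.rc g.rs hrc' hrc hrs' hrs
  refine ⟨N1, fun n hn d hd => ?_⟩
  rw [tlE_val kp.c1 kp.rc kp.rs t c1 c2 g.rc g.rs g.aR D1 D2 d hq.e0 hq.e1 hq.e2 ht]
  have hc : (c1 * c2 : ℝ) ≠ 0 := (mul_pos hq.hc1 hq.hc2).ne'
  rw [mul_div_cancel_left₀ _ hc]
  exact mul_le_mul_of_nonneg_left (hN n hn d hd) haR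

end Pool.Agent.Lib.MP_084b88_gt.SK
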