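import Pool.Agent.Lib.MP_084b88_gt.SK.VZ

/-!
# MP_084b88_gt, project SK, checker v2: the check
-/

set_option autoImplicit false

open MvPolynomial

namespace Pool.Agent.Lib.MP_084b88_gt.SK

/-- An environment with its degrees and sizes. -/
structure EvD where
  env : List VE
  wa : List ℕ
  wb : List ℕ
  wo : List ℕ
  wn : List ℕ

/-- Parameters of the checker. -/
structure Q2 where
  ra : ℕ
  rb : ℕ
  ro : ℕ
  K : ℕ
  n : ℕ
  li : List (ℕ × ℕ)
  lo : List (ℕ × ℕ)
  zi : ℕ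
  zo : ℕ

/-- Degrees in the variables `0`, `1`, the others; size; bound of the variables. -/
def VE.w0 : VE → ℕ
  | .x 0 => 1
  | _ => 0

/-- Degree in the variable 1. -/
def VE.w1 : VE → ℕ
  | .x 1 => 1
  | _ => 0

/-- Degree in the other variables. -/
def VE.wo : VE → ℕ
  | .x (_ + 2) => 1
  | _ => 0

/-- Size. -/
def VE.sz : VE → ℕ
  | .x _ => 1
  | .c n => n.natAbs

/-- The variable is one of the first `n`. -/
def VE.lt (n : ℕ) : VE → Bool
  | .x i => Nat.blt i n
  | .c _ => true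

/-- The data of an environment are right. -/
structure EvOK (p : Pm) (x : EvD) : Prop where
  ha : x.wa = x.env.map VE.w0
  hb : x.wb = x.env.map VE.w1
  ho : x.wo = x.env.map VE.wo
  hn : x.wn = x.env.map VE.sz
  hl : x.env.all (VE.lt p.rs.length) = true

/-- The parameters are right. -/
structure QOK (p : Pm) (q : Q2) (ro : List ℕ) : Prop where
  ok : p.OK
  ho : p.b = p.o + p.o
  two : Two p q.ra q.rb ro
  rd : RdOK p q.ra q.rb q.ro
  sw : SwOK p ro q.li q.lo
  hdl : p.di.length = 2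
  zi1 : q.zi < q.ra
  zi2 : q.zi < q.rb
  zo : q.zo < q.ro
  hB : p.B ^ p.S ≤ 2 ^ q.K

/-- The sum of the values of the expression in the environments. -/
noncomputable def evS (f : ℕ → ℕ) (S B K1 M : ℕ) (G : Ex) (es : List EvD) : KL :=
  @List.rec EvD (fun _ => KL) KL.nil
    (fun x _ ih => mg (fun v => v) 0 (mkV f S B K1 M x.env fun env => exV K1 M env G) ih) es

/-- Degrees and sizes of the expression in the environments. -/
noncomputable def exC2 (ra rb ro : ℕ) (G : Ex) (k : ℕ → Bool) (es : List EvD) : ℕ → Bool :=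
  @List.rec EvD (fun _ => ℕ → Bool) (fun acc => k acc)
    (fun x _ ih acc => dgE x.wa x.wb x.wo ra rb ro (fN (Nat.add acc (exZ x.wn G)) ih) G) es

/-- Sum of explicit polynomials. -/
noncomputable def xS (B M K1 : ℕ) (xs : List (List (ℕ × List (ℕ × ℤ)))) : KL :=
  @List.rec (List (ℕ × List (ℕ × ℤ))) (fun _ => KL) KL.nil (fun x _ ih => mg (fun v => v) 0 (xpV B M K1 x) ih) xs

/-- Sizes of explicit polynomials. -/
noncomputable def ckX (ri ro : List (ℕ × ℕ)) (k : ℕ → Bool) (xs : List (List (ℕ × List (ℕ × ℤ)))) : ℕ → Bool :=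
  @List.rec (List (ℕ × List (ℕ × ℤ))) (fun _ => ℕ → Bool) (fun acc => k acc)
    (fun x _ ih acc => ckM ri ro ih x acc) xs

/-- Radices and the largest digits. -/
def rmx (l : List Dg) : List (ℕ × ℕ) := l.map fun d => (d.r, d.r - 1)

/-- **The check.** -/
noncomputable def chV (p : Pm) (q : Q2) (es : List EvD) (G : Ex) (Z : List (ℕ × List (ℕ × ℤ)))
    (xs : List (List (ℕ × List (ℕ × ℤ)))) (ms : List MB) : Bool :=
  exC2 q.ra q.rb q.ro G (fun s1 =>
    ckM (p.di.map fun d => (d.r, q.zi)) (p.dO.map fun d => (d.r, q.zo)) (fun s2 =>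
      ckX (rmx p.di) (rmx p.dO) (fun s3 =>
        ckS p.b p.di p.dO (fun s4 =>
          ifle (Nat.succ (Nat.add (Nat.add s1 (Nat.mul 2 s2)) (Nat.add s3 s4))) p.B
            (fN (Nat.pow 2 q.K) fun M => fN (Nat.pred M) fun K1 =>
              soS p.B p.b p.o p.c K1 M q.n false (azS K1) ms
                (mg (fun v => v) 0
                  (ngL K1 M (mg (fun v => v) 0 (evS (st (rF p.rs)) p.S p.B K1 M G es)
                    (mgT q.n (swZ p.B M K1 q.li q.lo Z))))
                  (mg (fun v => v) 0 (xpV p.B M K1 Z) (xS p.B M K1 xs)))) false) ms 0) xs 0) Z 0) es 0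

/-- **The check of a part**: the blocks `ms` give the explicit polynomial `X`. -/
noncomputable def chP (p : Pm) (q : Q2) (X : List (ℕ × List (ℕ × ℤ))) (ms : List MB) : Bool :=
  ckX (rmx p.di) (rmx p.dO) (fun s3 =>
    ckS p.b p.di p.dO (fun s4 =>
      ifle (Nat.succ (Nat.add s3 s4)) p.B
        (fN (Nat.pow 2 q.K) fun M => fN (Nat.pred M) fun K1 =>
          soS p.B p.b p.o p.c K1 M q.n false (azS K1) ms (ngL K1 M (xpV p.B M K1 X))) false) ms 0) [X] 0

/-- One multiplier: the explicit polynomial is the expression. -/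
noncomputable def mck1 (p : Pm) (q : Q2) (x : EvD) (env : LL) (K1 M : ℕ) (m : List (ℕ × List (ℕ × ℤ))) (e : Ex)
    (r : Bool) : Bool :=
  dgE x.wa x.wb x.wo q.ra q.rb q.ro (ckM (p.di.map fun d => (d.r, d.m)) (p.dO.map fun d => (d.r, d.m)) (fun s =>
    ifle (Nat.succ (Nat.add (exZ x.wn e) s)) p.B
      (@Bool.rec (fun _ => Bool) false r
        (azS K1 (mg (fun v => v) 0 (ngL K1 M (exV K1 M env e)) (xpV p.B M K1 m)))) false) m 0) e

/-- **The check of the multipliers.** -/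
noncomputable def mckL (p : Pm) (q : Q2) (x : EvD) (l : List (List (ℕ × List (ℕ × ℤ)) × Ex)) : Bool :=
  fN (Nat.pow 2 q.K) fun M => fN (Nat.pred M) fun K1 =>
    mkV (st (rF p.rs)) p.S p.B K1 M x.env fun env =>
      @List.rec (List (ℕ × List (ℕ × ℤ)) × Ex) (fun _ => Bool) true (fun y _ ih => mck1 p q x env K1 M y.1 y.2 ih) l

namespace VCM

/-! ### Degrees and sizes -/

theorem exD_eq (w : List ℕ) (e : Ex) : exD w e = e.wd (nth 0 w) := by
  induction e with
  | v i => rfl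
  | c n => rfl
  | add x y ihx ihy =>
    have h : exD w (.add x y) = @Bool.rec (fun _ => ℕ) (exD w x) (exD w y) (Nat.ble (exD w x) (exD w y)) := rfl
    rw [h, ihx, ihy]
    simp only [Ex.wd]
    cases hb : Nat.ble (x.wd (nth 0 w)) (y.wd (nth 0 w)) with
    | true =>
      change y.wd (nth 0 w) = _
      rw [max_eq_right (Nat.le_of_ble_eq_true hb)]
    | false =>
      change x.wd (nth 0 w) = _
      rw [max_eq_left]
      by_contra hh
      rw [Nat.ble_eq_true_of_le (by omega)] at hb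
      exact absurd hb (by decide)
  | mul x y ihx ihy =>
    have h : exD w (.mul x y) = Nat.add (exD w x) (exD w y) := rfl
    rw [h, ihx, ihy]; rfl
  | pow x n ih =>
    have h : exD w (.pow x n) = Nat.mul n (exD w x) := rfl
    rw [h, ih]; rfl

theorem exZ_nb (w : List ℕ) (σ : ℕ → MvPolynomial ℕ ℤ) (hσ : ∀ j, nb (σ j) ≤ nth 0 w j) (e : Ex) :
    nb (e.val σ) ≤ exZ w e := by
  induction e with
  | v i => exact hσ i
  | c n =>
    have h : exZ w (.c n) = iabs n := rfl
    have e1 : ((n : ℤ) : MvPolynomial ℕ ℤ) = C n := by simp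
    change nb ((n : ℤ) : MvPolynomial ℕ ℤ) ≤ _
    rw [h, e1, SosM.iabs_eq]
    exact nb_C n
  | add x y ihx ihy => exact (nb_add _ _).trans (Nat.add_le_add ihx ihy)
  | mul x y ihx ihy => exact (nb_mul _ _).trans (Nat.mul_le_mul ihx ihy)
  | pow x n ih =>
    change nb (x.val σ ^ n) ≤ (exZ w x) ^ n
    induction n with
    | zero =>
      rw [pow_zero, pow_zero]
      exact (nb_C 1).trans (by simp)
    | succ n ihn =>
      rw [pow_succ, pow_succ]
      exact (nb_mul _ _).trans (Nat.mul_le_mul ihn ih)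

/-- Small degrees and a bound of the size. -/
structure Gd (p : Pm) (P : MvPolynomial ℕ ℤ) (m : ℕ) : Prop where
  hd : ∀ i, P.degreeOf i < rF p.rs i
  hm : nb P ≤ m

theorem Gd.add {p : Pm} {P Q : MvPolynomial ℕ ℤ} {m n : ℕ} (h : Gd p P m) (h' : Gd p Q n) : Gd p (P + Q) (m + n) where
  hd := fun i => lt_of_le_of_lt (MvPolynomial.degreeOf_add_le i P Q) (max_lt (h.hd i) (h'.hd i))
  hm := (nb_add P Q).trans (Nat.add_le_add h.hm h'.hm)

theorem Gd.neg {p : Pm} {P : MvPolynomial ℕ ℤ} {m : ℕ} (h : Gd p P m) : Gd p (-P) m where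
  hd := fun i => by rw [MvPolynomial.degreeOf_neg]; exact h.hd i
  hm := by rw [nb_neg]; exact h.hm

theorem rF_pos {p : Pm} (hp : p.OK) (i : ℕ) : 0 < rF p.rs i := lt_of_le_of_lt (Nat.zero_le _) (SosM.dF_lt hp i)

theorem Gd.zero {p : Pm} (hp : p.OK) : Gd p 0 0 where
  hd := fun i => by rw [MvPolynomial.degreeOf_zero]; exact rF_pos hp i
  hm := by simp [nb]

theorem Gd.sum {p : Pm} (hp : p.OK) {ι : Type*} (l : List ι) (P : ι → MvPolynomial ℕ ℤ) (m : ι → ℕ)
    (h : ∀ x ∈ l, Gd p (P x) (m x)) : Gd p (l.map P).sum (l.map m).sum := by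
  induction l with
  | nil => exact Gd.zero hp
  | cons x l ih =>
    rw [List.map_cons, List.sum_cons, List.map_cons, List.sum_cons]
    exact (h x List.mem_cons_self).add (ih fun y hy => h y (List.mem_cons_of_mem _ hy))

theorem deg_x (i j : ℕ) : (X j : MvPolynomial ℕ ℤ).degreeOf i ≤ if j = i then 1 else 0 := by
  split_ifs with h
  · rw [h, MvPolynomial.degreeOf_X_self]
  · rw [MvPolynomial.degreeOf_X_of_ne (Ne.symm h)]

theorem deg_cst (i : ℕ) (n : ℤ) : ((n : ℤ) : MvPolynomial ℕ ℤ).degreeOf i = 0 := by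
  have e1 : ((n : ℤ) : MvPolynomial ℕ ℤ) = C n := by simp
  rw [e1, PolM.deg_C]

theorem nth_w (f : VE → ℕ) (hf : f (VE.c 0) = 0) (env : List VE) (j : ℕ) :
    nth 0 (env.map f) j = f (nth (VE.c 0) env j) := EnvM.nth_map (VE.c 0) 0 f hf env j

/-- Expressions. -/
theorem gd_ex {p : Pm} {q : Q2} {ro : List ℕ} (hq : QOK p q ro) {x : EvD} (hx : EvOK p x) (e : Ex)
    (h1 : e.wd (nth 0 x.wa) < q.ra) (h2 : e.wd (nth 0 x.wb) < q.rb) (h3 : e.wd (nth 0 x.wo) < q.ro) :
    Gd p (e.val (vE x.env fun i => X i)) (exZ x.wn e) := by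
  have hlt : ∀ j i, nth (VE.c 0) x.env j = VE.x i → i < p.rs.length := by
    intro j i hji
    rcases EnvM.nth_mem (VE.c 0) x.env j with h | h
    · rw [h] at hji; exact absurd hji (by simp)
    · rw [hji] at h
      have := List.all_eq_true.1 hx.hl _ h
      exact of_decide_eq_true (by simpa [VE.lt, Nat.blt_eq] using this)
  constructor
  · intro i
    by_cases hi0 : i = 0
    · subst hi0
      refine lt_of_le_of_lt (Ex.deg 0 _ (nth 0 x.wa) (fun j => ?_) e) (by rw [hq.rd.ha]; exact h1)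
      rw [hx.ha, nth_w VE.w0 rfl]
      unfold vE
      cases nth (VE.c 0) x.env j with
      | x k =>
        refine (deg_x 0 k).trans ?_
        cases k with
        | zero => simp [VE.w0]
        | succ k => simp
      | c n => change ((n : ℤ) : MvPolynomial ℕ ℤ).degreeOf 0 ≤ _; rw [deg_cst]; exact Nat.zero_le _
    by_cases hi1 : i = 1
    · subst hi1
      refine lt_of_le_of_lt (Ex.deg 1 _ (nth 0 x.wb) (fun j => ?_) e) (by rw [hq.rd.hb]; exact h2)
      rw [hx.hb, nth_w VE.w1 rfl]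
      unfold vE
      cases nth (VE.c 0) x.env j with
      | x k =>
        refine (deg_x 1 k).trans ?_
        split_ifs with hk
        · rw [hk]; simp [VE.w1]
        · exact Nat.zero_le _
      | c n => change ((n : ℤ) : MvPolynomial ℕ ℤ).degreeOf 1 ≤ _; rw [deg_cst]; exact Nat.zero_le _
    by_cases hin : i < p.rs.length
    · refine lt_of_le_of_lt (Ex.deg i _ (nth 0 x.wo) (fun j => ?_) e)
        (lt_of_lt_of_le h3 (hq.rd.ho i (by omega) hin))
      rw [hx.ho, nth_w VE.wo rfl]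
      unfold vE
      cases nth (VE.c 0) x.env j with
      | x k =>
        refine (deg_x i k).trans ?_
        split_ifs with hk
        · match k, hk with
          | 0, hk => omega
          | 1, hk => omega
          | k + 2, _ => simp [VE.wo]
        · exact Nat.zero_le _
      | c n => change ((n : ℤ) : MvPolynomial ℕ ℤ).degreeOf i ≤ _; rw [deg_cst]; exact Nat.zero_le _
    · refine lt_of_le_of_lt (Ex.deg i _ (fun _ => 0) (fun j => ?_) e) (by rw [Ex.wd_zero]; exact rF_pos hq.ok i)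
      unfold vE
      cases hj : nth (VE.c 0) x.env j with
      | x k =>
        refine (deg_x i k).trans ?_
        have := hlt j k hj
        rw [if_neg (by omega)]
      | c n => change ((n : ℤ) : MvPolynomial ℕ ℤ).degreeOf i ≤ _; rw [deg_cst]
  · refine exZ_nb x.wn _ (fun j => ?_) e
    rw [hx.hn, nth_w VE.sz rfl]
    unfold vE
    cases nth (VE.c 0) x.env j with
    | x k => exact (AlgM.nb_monomial _ _).trans (by simp [VE.sz])
    | c n =>
      change nb ((n : ℤ) : MvPolynomial ℕ ℤ) ≤ n.natAbs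
      have e1 : ((n : ℤ) : MvPolynomial ℕ ℤ) = C n := by simp
      rw [e1]; exact nb_C n

/-- Explicit polynomials. -/
theorem gd_mP_gen {p : Pm} (hp : p.OK) {f g : Dg → ℕ} (m : List (ℕ × List (ℕ × ℤ))) (hm : VPM.XOK p f g m) :
    (∀ i, (p.mP m).degreeOf i ≤ dF ((p.di.map fun d => (d.r, f d)) ++ (p.dO.map fun d => (d.r, g d))) i) ∧
      nb (p.mP m) ≤ SosM.abE m := by
  have hg : ∀ e ∈ m, Good p.rs p.B (p.pol e.1 e.2) (((p.B : ℤ) ^ p.S) ^ e.1 * pkv (p.B : ℤ) e.2)
      (dF ((p.di.map fun d => (d.r, f d)) ++ (p.dO.map fun d => (d.r, g d)))) (abv e.2) := by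
    intro e he
    obtain ⟨h1, h2⟩ := hm e he
    have h := pol_good (p.di.map fun d => (d.r, f d)) (p.dO.map fun d => (d.r, g d)) (fun x hx => by
      obtain ⟨d, hd, rfl⟩ := List.mem_map.1 hx
      have := SosM.dgOK_spec _ hp.hdi d hd
      show 0 < d.r
      omega) (fun x hx => by
      obtain ⟨d, hd, rfl⟩ := List.mem_map.1 hx
      have := SosM.dgOK_spec _ hp.hdO d hd
      show 0 < d.r
      omega) (p.B : ℤ) e.1 h1 e.2 h2
    have e1 : ((p.di.map fun d => (d.r, f d)) ++ (p.dO.map fun d => (d.r, g d))).map Prod.fst = p.rs := by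
      simp [Pm.rs, Function.comp_def]
    have e2 : ((p.di.map fun d => (d.r, f d)).map Prod.fst).prod = p.S := by
      simp [Pm.S, Function.comp_def]
    rw [e1, e2] at h
    exact h
  have hs := SosM.good_sum (rs := p.rs) (B := (p.B : ℤ)) _ m (fun e => p.pol e.1 e.2) _ _ hg
  exact ⟨hs.hd, hs.hm⟩

theorem dF_lt_of (p : Pm) {f g : Dg → ℕ} (hf : ∀ d ∈ p.di, f d < d.r) (hg : ∀ d ∈ p.dO, g d < d.r) (i : ℕ) :
    dF ((p.di.map fun d => (d.r, f d)) ++ (p.dO.map fun d => (d.r, g d))) i < rF p.rs i := by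
  unfold dF rF Pm.rs
  have key : ∀ (l : List (ℕ × ℕ)), (∀ x ∈ l, x.2 < x.1) → ∀ i, (l.map Prod.snd).getD i 0 < (l.map Prod.fst).getD i 1 := by
    intro l
    induction l with
    | nil => intro _ i; simp
    | cons x l ih =>
      intro hl i
      cases i with
      | zero => simpa using hl x List.mem_cons_self
      | succ i => simpa using ih (fun y hy => hl y (List.mem_cons_of_mem _ hy)) i
  have h := key ((p.di.map fun d => (d.r, f d)) ++ (p.dO.map fun d => (d.r, g d))) (fun x hx => by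
    rcases List.mem_append.1 hx with h | h
    · obtain ⟨d, hd, rfl⟩ := List.mem_map.1 h
      exact hf d hd
    · obtain ⟨d, hd, rfl⟩ := List.mem_map.1 h
      exact hg d hd) i
  have e : ((p.di.map fun d => (d.r, f d)) ++ (p.dO.map fun d => (d.r, g d))).map Prod.fst =
      (p.di ++ p.dO).map Dg.r := by simp [Function.comp_def]
  rw [e] at h
  exact h

theorem gd_x {p : Pm} (hp : p.OK) (m : List (ℕ × List (ℕ × ℤ)))
    (hm : VPM.XOK p (fun d => d.r - 1) (fun d => d.r - 1) m) : Gd p (p.mP m) (SosM.abE m) := by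
  obtain ⟨h1, h2⟩ := gd_mP_gen hp m hm
  refine ⟨fun i => lt_of_le_of_lt (h1 i) (dF_lt_of p (fun d hd => ?_) (fun d hd => ?_) i), h2⟩
  · have := SosM.dgOK_spec _ hp.hdi d hd
    omega
  · have := SosM.dgOK_spec _ hp.hdO d hd
    omega

theorem gd_m {p : Pm} (hp : p.OK) (m : List (ℕ × List (ℕ × ℤ)))
    (hm : VPM.XOK p Dg.m Dg.m m) : Gd p (p.mP m) (SosM.abE m) := by
  obtain ⟨h1, h2⟩ := gd_mP_gen hp m hm
  refine ⟨fun i => lt_of_le_of_lt (h1 i) (dF_lt_of p (fun d hd => ?_) (fun d hd => ?_) i), h2⟩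
  · have := SosM.dgOK_spec _ hp.hdi d hd
    omega
  · have := SosM.dgOK_spec _ hp.hdO d hd
    omega

theorem psI_psI (i : ℕ) : psI (psI i) = i := by unfold psI; split_ifs <;> omega

theorem psI_inj : Function.Injective psI := fun a b h => by rw [← psI_psI a, h, psI_psI]

theorem nb_rename (P : MvPolynomial ℕ ℤ) : nb (rename psI P) ≤ nb P := by
  have h : rename psI P = ∑ e ∈ P.support, monomial (Finsupp.mapDomain psI e) (P.coeff e) := by
    conv_lhs => rw [P.as_sum]
    rw [map_sum]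
    refine Finset.sum_congr rfl fun e _ => ?_
    rw [MvPolynomial.rename_monomial]
  rw [h]
  refine (AlgM.nb_le_sum _ _).trans ?_
  unfold nb
  exact Finset.sum_le_sum fun e _ => AlgM.nb_monomial _ _

theorem psI_ge {i : ℕ} (h : 2 ≤ i) : 2 ≤ psI i := by unfold psI; split_ifs <;> omega

/-- The explicit polynomial and its exchange. -/
theorem gd_z {p : Pm} {q : Q2} {ro : List ℕ} (hq : QOK p q ro) (m : List (ℕ × List (ℕ × ℤ)))
    (hm : VPM.XOK p (fun _ => q.zi) (fun _ => q.zo) m) :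
    Gd p (p.mP m) (SosM.abE m) ∧ Gd p (rename psI (p.mP m)) (SosM.abE m) := by
  obtain ⟨h1, h2⟩ := gd_mP_gen hq.ok m hm
  have hr := hq.two.hr
  have hlen := hq.hdl
  -- the bounds
  have hb : ∀ i, (i < 2 → dF ((p.di.map fun d => (d.r, q.zi)) ++ (p.dO.map fun d => (d.r, q.zo))) i = q.zi) ∧
      (2 ≤ i → dF ((p.di.map fun d => (d.r, q.zi)) ++ (p.dO.map fun d => (d.r, q.zo))) i ≤ q.zo) ∧
      (p.rs.length ≤ i → dF ((p.di.map fun d => (d.r, q.zi)) ++ (p.dO.map fun d => (d.r, q.zo))) i = 0) := by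
    intro i
    have e : ((p.di.map fun d => (d.r, q.zi)) ++ (p.dO.map fun d => (d.r, q.zo))).map Prod.snd =
        List.replicate 2 q.zi ++ List.replicate p.dO.length q.zo := by
      have e1 : (p.di.map fun d => (d.r, q.zi)).map Prod.snd = List.replicate 2 q.zi := by
        rw [List.map_map, ← hlen]
        exact List.map_const' ..
      have e2 : (p.dO.map fun d => (d.r, q.zo)).map Prod.snd = List.replicate p.dO.length q.zo := by
        rw [List.map_map]
        exact List.map_const' ..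
      rw [List.map_append, e1, e2]
    unfold dF
    rw [e]
    refine ⟨fun hi => ?_, fun hi => ?_, fun hi => ?_⟩
    · interval_cases i <;> rfl
    · obtain ⟨k, rfl⟩ := Nat.exists_eq_add_of_le' hi
      change (List.replicate p.dO.length q.zo).getD k 0 ≤ q.zo
      by_cases hk : k < p.dO.length
      · rw [List.getD_replicate _ hk]
      · rw [List.getD_eq_default _ _ (by rw [List.length_replicate]; omega)]; exact Nat.zero_le _
    · apply List.getD_eq_default
      have : p.rs.length = 2 + p.dO.length := by unfold Pm.rs; rw [List.length_map, List.length_append, hlen]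
      simp only [List.length_append, List.length_replicate]
      omega
  have hlen2 : 2 ≤ p.rs.length := by rw [hr]; simp
  constructor
  · refine ⟨fun i => lt_of_le_of_lt (h1 i) ?_, h2⟩
    by_cases hi0 : i = 0
    · subst hi0; rw [(hb 0).1 (by norm_num), hq.rd.ha]; exact hq.zi1
    by_cases hi1 : i = 1
    · subst hi1; rw [(hb 1).1 (by norm_num), hq.rd.hb]; exact hq.zi2
    by_cases hin : i < p.rs.length
    · exact lt_of_le_of_lt ((hb i).2.1 (by omega)) (lt_of_lt_of_le hq.zo (hq.rd.ho i (by omega) hin))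
    · rw [(hb i).2.2 (by omega)]; exact rF_pos hq.ok i
  · refine ⟨fun i => ?_, (nb_rename _).trans h2⟩
    have e : (rename psI (p.mP m)).degreeOf i = (p.mP m).degreeOf (psI i) := by
      have := MvPolynomial.degreeOf_rename_of_injective (p := p.mP m) psI_inj (psI i)
      rwa [psI_psI] at this
    rw [e]
    refine lt_of_le_of_lt (h1 _) ?_
    by_cases hi0 : i = 0
    · subst hi0; rw [(hb (psI 0)).1 (by decide), hq.rd.ha]; exact hq.zi1
    by_cases hi1 : i = 1
    · subst hi1; rw [(hb (psI 1)).1 (by decide), hq.rd.hb]; exact hq.zi2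
    by_cases hin : i < p.rs.length
    · exact lt_of_le_of_lt ((hb _).2.1 (psI_ge (by omega))) (lt_of_lt_of_le hq.zo (hq.rd.ho i (by omega) hin))
    · rw [(hb (psI i)).2.2 ?_]
      · exact rF_pos hq.ok i
      · by_contra hh
        have := hq.sw.hl (psI i) (by omega)
        rw [psI_psI] at this
        exact hin this

theorem gd_sos {p : Pm} (hp : p.OK) (ms : List MB) (h : ∀ x ∈ ms, SosM.MBok p.di p.dO x) :
    Gd p (p.sosP ms) (ms.map (SosM.abMB p.b)).sum := by
  have h5 := SosM.sosP_good hp ms h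
  exact ⟨fun i => lt_of_le_of_lt (h5.hd i) (SosM.dF_lt hp i), h5.hm⟩

/-! ### Kernel functions -/

theorem dgE_spec {wa wb wo : List ℕ} {ra rb ro : ℕ} {x : Bool} {e : Ex} (h : dgE wa wb wo ra rb ro x e = true) :
    e.wd (nth 0 wa) < ra ∧ e.wd (nth 0 wb) < rb ∧ e.wd (nth 0 wo) < ro ∧ x = true := by
  unfold dgE at h
  obtain ⟨h1, h2⟩ := SosM.brec_true h
  obtain ⟨h3, h4⟩ := SosM.brec_true h2
  obtain ⟨h5, h6⟩ := SosM.brec_true h4
  have g1 := Nat.le_of_ble_eq_true h1
  have g2 := Nat.le_of_ble_eq_true h3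
  have g3 := Nat.le_of_ble_eq_true h5
  rw [exD_eq] at g1 g2 g3
  exact ⟨g1, g2, g3, h6⟩

theorem exC2_spec (ra rb ro : ℕ) (G : Ex) (k : ℕ → Bool) (es : List EvD) : ∀ acc : ℕ,
    exC2 ra rb ro G k es acc = true →
      (∀ x ∈ es, G.wd (nth 0 x.wa) < ra ∧ G.wd (nth 0 x.wb) < rb ∧ G.wd (nth 0 x.wo) < ro) ∧
        k (acc + (es.map fun x => exZ x.wn G).sum) = true := by
  induction es with
  | nil =>
    intro acc h
    have h' : k acc = true := h
    exact ⟨by simp, by simpa using h'⟩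
  | cons x es ih =>
    intro acc h
    have h1 : exC2 ra rb ro G k (x :: es) acc =
      dgE x.wa x.wb x.wo ra rb ro (fN (Nat.add acc (exZ x.wn G)) (exC2 ra rb ro G k es)) G := rfl
    rw [h1] at h
    obtain ⟨h2, h3, h4, h5⟩ := dgE_spec h
    rw [fN_eq] at h5
    obtain ⟨h6, h7⟩ := ih _ h5
    refine ⟨fun y hy => ?_, ?_⟩
    · rcases List.mem_cons.1 hy with h8 | h8
      · rw [h8]; exact ⟨h2, h3, h4⟩
      · exact h6 y h8
    · have : acc + ((x :: es).map fun x => exZ x.wn G).sum = Nat.add acc (exZ x.wn G) +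
          (es.map fun x => exZ x.wn G).sum := by
        simp only [List.map_cons, List.sum_cons]
        change acc + (exZ x.wn G + _) = acc + exZ x.wn G + _
        omega
      rw [this]; exact h7

theorem ckX_spec (ri ro : List (ℕ × ℕ)) (k : ℕ → Bool) (xs : List (List (ℕ × List (ℕ × ℤ)))) : ∀ acc : ℕ,
    ckX ri ro k xs acc = true →
      (∀ x ∈ xs, ∀ e ∈ x, dck ro e.1 = true ∧ ∀ t ∈ e.2, dck ri t.1 = true) ∧
        k (acc + (xs.map SosM.abE).sum) = true := by
  induction xs with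
  | nil =>
    intro acc h
    have h' : k acc = true := h
    exact ⟨by simp, by simpa using h'⟩
  | cons x xs ih =>
    intro acc h
    have h1 : ckX ri ro k (x :: xs) acc = ckM ri ro (ckX ri ro k xs) x acc := rfl
    rw [h1] at h
    obtain ⟨h2, h3⟩ := SosM.ckM_spec _ _ _ _ _ h
    obtain ⟨h4, h5⟩ := ih _ h3
    refine ⟨fun y hy => ?_, ?_⟩
    · rcases List.mem_cons.1 hy with h8 | h8
      · rw [h8]; exact h2
      · exact h4 y h8
    · have : acc + ((x :: xs).map SosM.abE).sum = acc + SosM.abE x + (xs.map SosM.abE).sum := by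
        simp only [List.map_cons, List.sum_cons]; omega
      rw [this]; exact h5

variable {A : Type*} [CommRing A]

theorem ev_val {p : Pm} {K1 M : ℕ} (hM' : Mod A K1 M) {O : A} {h : MvPolynomial ℕ ℤ →+* A} (hh : Hm p A O h) (x : EvD)
    (hx : EvOK p x) (G : Ex) :
    (mkV (st (rF p.rs)) p.S p.B K1 M x.env fun env => exV K1 M env G).cc O = h (G.val (vE x.env fun i => X i)) := by
  obtain ⟨env, h1, h2⟩ := VRM.mkV_spec hM' O (st (rF p.rs)) p.S p.B x.env
  rw [h1, VRM.exV_cc hM', Ex.val_map]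
  congr 1
  funext j
  rw [h2, VPM.h_vE hh x.env (fun i hi => ?_) j]
  have := List.all_eq_true.1 hx.hl _ hi
  exact of_decide_eq_true (by simpa [VE.lt, Nat.blt_eq] using this)

theorem evS_cc {p : Pm} {K1 M : ℕ} (hM' : Mod A K1 M) {O : A} {h : MvPolynomial ℕ ℤ →+* A} (hh : Hm p A O h) (G : Ex)
    (es : List EvD) (he : ∀ x ∈ es, EvOK p x) :
    (evS (st (rF p.rs)) p.S p.B K1 M G es).cc O = h (es.map fun x => G.val (vE x.env fun i => X i)).sum := by
  induction es with
  | nil => simp [evS, KL.cc]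
  | cons x es ih =>
    have h1 : evS (st (rF p.rs)) p.S p.B K1 M G (x :: es) = mg (fun v => v) 0
      (mkV (st (rF p.rs)) p.S p.B K1 M x.env fun env => exV K1 M env G) (evS (st (rF p.rs)) p.S p.B K1 M G es) := rfl
    rw [h1, VRM.mg_id, ev_val hM' hh x (he x List.mem_cons_self), ih fun y hy => he y (List.mem_cons_of_mem _ hy),
      List.map_cons, List.sum_cons, map_add]

theorem xS_cc {p : Pm} {ra rb : ℕ} {ro : List ℕ} (hp : p.OK) (ht : Two p ra rb ro) {K1 M : ℕ} (hM' : Mod A K1 M) {O : A}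
    {h : MvPolynomial ℕ ℤ →+* A} (hh : Hm p A O h) {f g : Dg → ℕ} (xs : List (List (ℕ × List (ℕ × ℤ))))
    (hx : ∀ x ∈ xs, VPM.XOK p f g x) : (xS p.B M K1 xs).cc O = h (xs.map p.mP).sum := by
  induction xs with
  | nil => simp [xS, KL.cc]
  | cons x xs ih =>
    have h1 : xS p.B M K1 (x :: xs) = mg (fun v => v) 0 (xpV p.B M K1 x) (xS p.B M K1 xs) := rfl
    rw [h1, VRM.mg_id, VRM.xpV_cc hM', ih fun y hy => hx y (List.mem_cons_of_mem _ hy), List.map_cons, List.sum_cons,
      map_add, VPM.h_mP hp ht hh (hx x List.mem_cons_self)]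

end VCM

open VCM

/-- **The theorem of the check.** -/
theorem chV_spec {p : Pm} {q : Q2} {ro : List ℕ} (hq : QOK p q ro) (es : List EvD) (he : ∀ x ∈ es, EvOK p x) (G : Ex)
    (Z : List (ℕ × List (ℕ × ℤ))) (xs : List (List (ℕ × List (ℕ × ℤ)))) (ms : List MB)
    (h : chV p q es G Z xs ms = true) :
    (es.map fun x => G.val (vE x.env fun i => X i)).sum + rename psI (p.mP Z) =
      p.sosP ms + (xs.map p.mP).sum + p.mP Z := by
  obtain ⟨h1, h2⟩ := exC2_spec _ _ _ _ _ _ _ h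
  obtain ⟨h3, h4⟩ := SosM.ckM_spec _ _ _ _ _ h2
  obtain ⟨h5, h6⟩ := ckX_spec _ _ _ _ _ h4
  obtain ⟨h7, h8⟩ := SosM.ckS_spec _ _ _ _ _ _ h6
  obtain ⟨h9, h10⟩ := ifle_true h8
  rw [fN_eq, fN_eq] at h10
  have hM' := VZM.mod_hM q.K
  have hh := VZM.hm_hM p (2 ^ q.K)
  have hZ : VPM.XOK p (fun _ => q.zi) (fun _ => q.zo) Z := fun e he' => h3 e he'
  have hX : ∀ x ∈ xs, VPM.XOK p (fun d => d.r - 1) (fun d => d.r - 1) x := fun x hx e he' => h5 x hx e he'
  have e2 : Nat.pred (Nat.pow 2 q.K) = 2 ^ q.K - 1 := rfl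
  have e3 : Nat.pow 2 q.K = 2 ^ q.K := rfl
  rw [e2, e3] at h10
  obtain ⟨gz1, gz2⟩ := gd_z hq Z hZ
  have hgs : Gd p (es.map fun x => G.val (vE x.env fun i => X i)).sum (es.map fun x => exZ x.wn G).sum :=
    Gd.sum hq.ok es _ _ fun x hx => gd_ex hq (he x hx) G (h1 x hx).1 (h1 x hx).2.1 (h1 x hx).2.2
  have hxs : Gd p (xs.map p.mP).sum (xs.map SosM.abE).sum := Gd.sum hq.ok xs _ _ fun x hx => gd_x hq.ok x (hX x hx)
  have hss := gd_sos hq.ok ms h7
  have hg := (((hgs.add gz2).neg.add (gz1.add hxs)).add hss)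
  have hval : hM p (2 ^ q.K) (-((es.map fun x => G.val (vE x.env fun i => X i)).sum + rename psI (p.mP Z)) +
      (p.mP Z + (xs.map p.mP).sum) + p.sosP ms) = 0 := by
    rcases VRM.soS_spec hM' Polynomial.X p.B p.b p.o p.c q.n hq.ok.hc hq.ok.hb hq.ho ms
      (mg (fun v => v) 0 (ngL (2 ^ q.K - 1) (2 ^ q.K) (mg (fun v => v) 0
        (evS (st (rF p.rs)) p.S p.B (2 ^ q.K - 1) (2 ^ q.K) G es)
          (mgT q.n (swZ p.B (2 ^ q.K) (2 ^ q.K - 1) q.li q.lo Z))))
        (mg (fun v => v) 0 (xpV p.B (2 ^ q.K) (2 ^ q.K - 1) Z) (xS p.B (2 ^ q.K) (2 ^ q.K - 1) xs))) with k1 | ⟨r, k1, k2⟩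
    · rw [k1 false (azS (2 ^ q.K - 1))] at h10; exact absurd h10 (by decide)
    · rw [k1 false (azS (2 ^ q.K - 1))] at h10
      have k3 := VRM.azS_cc hM' Polynomial.X r h10
      rw [k2, VRM.mg_id, VRM.mg_id, VRM.ngL_cc hM', VRM.mg_id, evS_cc hM' hh G es he, VRM.mgT_cc, VRM.swZ_cc hM',
        VRM.xpV_cc hM', xS_cc hq.ok hq.two hM' hh xs hX] at k3
      rw [map_add, map_add, map_neg, map_add, map_add, VPM.h_sosP hq.ok hq.two hh ms h7,
        VPM.h_mP hq.ok hq.two hh hZ, VPM.h_mPps hq.ok hq.two hq.sw hh hZ]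
      rw [← k3]
  have hzero := VZM.zero_mod hq.two (2 ^ q.K) _ hg.hd (lt_of_le_of_lt hg.hm ?_) hq.hB hval
  · linear_combination -hzero
  · change 0 + (es.map fun x => exZ x.wn G).sum + 2 * (0 + SosM.abE Z) + (0 + (xs.map SosM.abE).sum +
      (0 + (ms.map (SosM.abMB p.b)).sum)) + 1 ≤ p.B at h9
    omega

/-- **The theorem of the check of a part.** -/
theorem chP_spec {p : Pm} {q : Q2} {ro : List ℕ} (hq : QOK p q ro) (Y : List (ℕ × List (ℕ × ℤ))) (ms : List MB)
    (h : chP p q Y ms = true) : p.sosP ms = p.mP Y := by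
  obtain ⟨h5, h6⟩ := ckX_spec _ _ _ _ _ h
  obtain ⟨h7, h8⟩ := SosM.ckS_spec _ _ _ _ _ _ h6
  obtain ⟨h9, h10⟩ := ifle_true h8
  rw [fN_eq, fN_eq] at h10
  have hM' := VZM.mod_hM q.K
  have hh := VZM.hm_hM p (2 ^ q.K)
  have hX : VPM.XOK p (fun d => d.r - 1) (fun d => d.r - 1) Y := fun e he' => h5 Y (by simp) e he'
  have e2 : Nat.pred (Nat.pow 2 q.K) = 2 ^ q.K - 1 := rfl
  have e3 : Nat.pow 2 q.K = 2 ^ q.K := rfl
  rw [e2, e3] at h10
  have hxs := gd_x hq.ok Y hX
  have hss := gd_sos hq.ok ms h7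
  have hg := hxs.neg.add hss
  have hval : hM p (2 ^ q.K) (-(p.mP Y) + p.sosP ms) = 0 := by
    rcases VRM.soS_spec hM' Polynomial.X p.B p.b p.o p.c q.n hq.ok.hc hq.ok.hb hq.ho ms
      (ngL (2 ^ q.K - 1) (2 ^ q.K) (xpV p.B (2 ^ q.K) (2 ^ q.K - 1) Y)) with k1 | ⟨r, k1, k2⟩
    · rw [k1 false (azS (2 ^ q.K - 1))] at h10; exact absurd h10 (by decide)
    · rw [k1 false (azS (2 ^ q.K - 1))] at h10
      have k3 := VRM.azS_cc hM' Polynomial.X r h10
      rw [k2, VRM.ngL_cc hM', VRM.xpV_cc hM'] at k3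
      rw [map_add, map_neg, VPM.h_sosP hq.ok hq.two hh ms h7, VPM.h_mP hq.ok hq.two hh hX]
      exact k3
  have hzero := VZM.zero_mod hq.two (2 ^ q.K) _ hg.hd (lt_of_le_of_lt hg.hm ?_) hq.hB hval
  · linear_combination hzero
  · have h9' : (0 + ([Y].map SosM.abE).sum) + (0 + (ms.map (SosM.abMB p.b)).sum) + 1 ≤ p.B := h9
    simp only [List.map_cons, List.map_nil, List.sum_cons, List.sum_nil] at h9'
    omega

/-- **The theorem of the check of the multipliers.** -/
theorem mckL_spec {p : Pm} {q : Q2} {ro : List ℕ} (hq : QOK p q ro) (x : EvD) (hx : EvOK p x)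
    (l : List (List (ℕ × List (ℕ × ℤ)) × Ex)) (h : mckL p q x l = true) :
    ∀ y ∈ l, p.mP y.1 = y.2.val (vE x.env fun i => X i) := by
  unfold mckL at h
  rw [fN_eq, fN_eq] at h
  have e2 : Nat.pred (Nat.pow 2 q.K) = 2 ^ q.K - 1 := rfl
  have e3 : Nat.pow 2 q.K = 2 ^ q.K := rfl
  rw [e2, e3] at h
  have hM' := VZM.mod_hM q.K
  have hh := VZM.hm_hM p (2 ^ q.K)
  obtain ⟨env, k1, k2⟩ := VRM.mkV_spec hM' Polynomial.X (st (rF p.rs)) p.S p.B x.env
  rw [k1] at h
  have kv : ∀ e : Ex, (exV (2 ^ q.K - 1) (2 ^ q.K) env e).cc Polynomial.X =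
      hM p (2 ^ q.K) (e.val (vE x.env fun i => X i)) := by
    intro e
    have := ev_val hM' hh x hx e
    rwa [k1] at this
  induction l with
  | nil => intro y hy; simp at hy
  | cons z l ih =>
    have h' : mck1 p q x env (2 ^ q.K - 1) (2 ^ q.K) z.1 z.2
      (@List.rec (List (ℕ × List (ℕ × ℤ)) × Ex) (fun _ => Bool) true
        (fun y _ ih => mck1 p q x env (2 ^ q.K - 1) (2 ^ q.K) y.1 y.2 ih) l) = true := h
    obtain ⟨a1, a2, a3, a4⟩ := dgE_spec h'
    obtain ⟨a5, a6⟩ := SosM.ckM_spec _ _ _ _ _ a4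
    obtain ⟨a7, a8⟩ := ifle_true a6
    obtain ⟨a9, a10⟩ := SosM.brec_true a8
    intro y hy
    rcases List.mem_cons.1 hy with h3 | h3
    · rw [h3]
      have hm : VPM.XOK p Dg.m Dg.m z.1 := fun e he' => a5 e he'
      have k3 := VRM.azS_cc hM' Polynomial.X _ a9
      rw [VRM.mg_id, VRM.ngL_cc hM', VRM.xpV_cc hM', kv] at k3
      have hg := (gd_ex hq hx z.2 a1 a2 a3).neg.add (gd_m hq.ok z.1 hm)
      have hzero := VZM.zero_mod hq.two (2 ^ q.K) _ hg.hd (lt_of_le_of_lt hg.hm ?_) hq.hB (by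
        rw [map_add, map_neg, VPM.h_mP hq.ok hq.two hh hm]; exact k3)
      · linear_combination hzero
      · change exZ x.wn z.2 + (0 + SosM.abE z.1) + 1 ≤ p.B at a7
        omega
    · exact ih a10 y h3

end Pool.Agent.Lib.MP_084b88_gt.SK
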