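import Pool.Agent.Lib.MP_084b88_gt.SK.SpecW

/-!
# MP_084b88_gt, project SK: decoders of certificate data

The data of the certificates are packed in natural numbers. Nothing has to be proved about the decoders: the certificates speak
about the decoded lists.
-/

set_option autoImplicit false

namespace Pool.Agent.Lib.MP_084b88_gt.SK

/-- Terms `(slot, c)` of an inner polynomial: 10 bits for the slot, 80 bits for `c + 2^79`. -/
noncomputable def dcT (N : ℕ) : List (ℕ × ℤ) :=
  @Nat.rec (fun _ => ℕ → List (ℕ × ℤ)) (fun _ => [])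
    (fun _ ih N => ifle N 0 [] (fN (Nat.shiftRight N 90) fun R => List.cons
      (Nat.land N 1023, Int.subNatNat (Nat.land (Nat.shiftRight N 10) 1208925819614629174706175) 604462909807314587353088)
      (ih R))) 1000 N

/-- An explicit polynomial: outer numbers and packed inner polynomials. -/
noncomputable def dcX (l : List (ℕ × ℕ)) : List (ℕ × List (ℕ × ℤ)) :=
  @List.rec (ℕ × ℕ) (fun _ => List (ℕ × List (ℕ × ℤ))) [] (fun x _ ih => List.cons (x.1, dcT x.2) ih) l

/-- `t` small terms: 16 bits for the slot, 16 bits for `c + 2^15`. -/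
noncomputable def dcS {α : Type} (t : ℕ) : ℕ → (List (ℕ × ℤ) → ℕ → α) → α :=
  @Nat.rec (fun _ => ℕ → (List (ℕ × ℤ) → ℕ → α) → α) (fun N k => k [] N)
    (fun _ ih N k => fN (Nat.land N 65535) fun s => fN (Nat.land (Nat.shiftRight N 16) 65535) fun c =>
      fN (Nat.shiftRight N 32) fun R => ih R fun l R => k (List.cons (s, Int.subNatNat c 32768) l) R) t

/-- Elements of a class: `i + 1`, number of terms, terms. -/
noncomputable def dcE (c N : ℕ) : List (ℕ × List (ℕ × ℤ)) :=
  @Nat.rec (fun _ => ℕ → List (ℕ × List (ℕ × ℤ))) (fun _ => [])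
    (fun _ ih N => ifle N 0 [] (fN (Nat.mul c (Nat.pred (Nat.land N 65535))) fun s =>
      fN (Nat.land (Nat.shiftRight N 16) 65535) fun t => fN (Nat.shiftRight N 32) fun R =>
        dcS t R fun l R => List.cons (s, l) (ih R))) 1000 N

/-- The elements of a block. -/
noncomputable def dcB (c : ℕ) (l : List (ℕ × ℕ)) : List (ℕ × List (ℕ × List (ℕ × ℤ))) :=
  @List.rec (ℕ × ℕ) (fun _ => List (ℕ × List (ℕ × List (ℕ × ℤ)))) [] (fun x _ ih => List.cons (x.1, dcE c x.2) ih) l

/-- Coefficients: 80 bits for `c + 2^79`. -/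
noncomputable def dcφ (N : ℕ) : List ℤ :=
  @Nat.rec (fun _ => ℕ → List ℤ) (fun _ => [])
    (fun _ ih N => ifle N 0 [] (fN (Nat.shiftRight N 80) fun R => List.cons
      (Int.subNatNat (Nat.land N 1208925819614629174706175) 604462909807314587353088) (ih R))) 100 N

/-- Null forms: thirteen exponents of four bits, then the coefficients. -/
noncomputable def dcN (l : List ℕ) : List NI :=
  @List.rec ℕ (fun _ => List NI) [] (fun N _ ih => List.cons
    (fN (Nat.land N 15) fun j => fN (Nat.land (Nat.shiftRight N 4) 15) fun p0 =>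
      fN (Nat.land (Nat.shiftRight N 8) 15) fun pX => fN (Nat.land (Nat.shiftRight N 12) 15) fun p1 =>
      fN (Nat.land (Nat.shiftRight N 16) 15) fun p2 => fN (Nat.land (Nat.shiftRight N 20) 15) fun k =>
      fN (Nat.land (Nat.shiftRight N 24) 15) fun l => fN (Nat.land (Nat.shiftRight N 28) 15) fun mx =>
      fN (Nat.land (Nat.shiftRight N 32) 15) fun m1 => fN (Nat.land (Nat.shiftRight N 36) 15) fun m2 =>
      fN (Nat.land (Nat.shiftRight N 40) 15) fun nX => fN (Nat.land (Nat.shiftRight N 44) 15) fun n1 =>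
      fN (Nat.land (Nat.shiftRight N 48) 15) fun n2 => fN (Nat.shiftRight N 52) fun R =>
        NI.mk (dcφ R) j p0 pX p1 p2 k l mx m1 m2 nX n1 n2) ih) l

/-- Weighted null forms: eight exponents of four bits, then the coefficients. -/
noncomputable def dcW (l : List ℕ) : List NW :=
  @List.rec ℕ (fun _ => List NW) [] (fun N _ ih => List.cons
    (fN (Nat.land N 15) fun j => fN (Nat.land (Nat.shiftRight N 4) 15) fun p0 =>
      fN (Nat.land (Nat.shiftRight N 8) 15) fun pX => fN (Nat.land (Nat.shiftRight N 12) 15) fun k =>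
      fN (Nat.land (Nat.shiftRight N 16) 15) fun l => fN (Nat.land (Nat.shiftRight N 20) 15) fun mx =>
      fN (Nat.land (Nat.shiftRight N 24) 15) fun nX => fN (Nat.land (Nat.shiftRight N 28) 15) fun w =>
      fN (Nat.shiftRight N 32) fun R => NW.mk (dcφ R) j p0 pX k l mx nX w) ih) l

end Pool.Agent.Lib.MP_084b88_gt.SK
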