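import Pool.Agent.Lib.MP_084b88_gt.SK.VU

/-!
# MP_084b88_gt, project SK, checker v2: the half identity, form with `x, y` and vertex form
-/

set_option autoImplicit false

open MvPolynomial

namespace Pool.Agent.Lib.MP_084b88_gt.SK

/-- Terms with coefficient `-1`. -/
def ngX (xs : List (List (ℕ × List (ℕ × ℤ)))) : List XT := xs.map fun F => ⟨-1, false, F⟩

/-- The antisymmetric part. -/
def zX (Z : List (ℕ × List (ℕ × ℤ))) : List XT := [⟨-1, false, Z⟩, ⟨1, true, Z⟩]

namespace VGM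

open VCM VUM VFM

theorem pl_neg (p : Pm) (F : List (ℕ × List (ℕ × ℤ))) : XT.pl p ⟨-1, false, F⟩ = -p.mP F := by
  unfold XT.pl
  simp

theorem pl_false (p : Pm) (c : ℤ) (F : List (ℕ × List (ℕ × ℤ))) : XT.pl p ⟨c, false, F⟩ = C c * p.mP F := rfl

theorem pl_true (p : Pm) (c : ℤ) (F : List (ℕ × List (ℕ × ℤ))) : XT.pl p ⟨c, true, F⟩ = C c * rename psI (p.mP F) := rfl

theorem ngX_sum (p : Pm) (xs : List (List (ℕ × List (ℕ × ℤ)))) :
    ((ngX xs).map (XT.pl p)).sum = -(xs.map p.mP).sum := by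
  unfold ngX
  induction xs with
  | nil => simp
  | cons F xs ih =>
    rw [List.map_cons, List.map_cons, List.sum_cons, List.map_cons, List.sum_cons, ih, pl_neg]; ring

theorem zX_sum (p : Pm) (Z : List (ℕ × List (ℕ × ℤ))) :
    ((zX Z).map (XT.pl p)).sum = -p.mP Z + rename psI (p.mP Z) := by
  unfold zX
  simp only [List.map_cons, List.map_nil, List.sum_cons, List.sum_nil, pl_neg, pl_true]
  simp

theorem eX_id (ρ : ℕ → ℝ) (env : List VE) (hl : env.length ≤ 15) (e15 : List VE) (he : e15.length = 15)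
    (h : ∀ j < 15, nth (VE.c 0) e15 j = VE.x j) : vE e15 (vE env ρ) = vE env ρ := by
  have hnil : ∀ (l : List VE) (j : ℕ), l.length ≤ j → nth (VE.c 0) l j = VE.c 0 := by
    intro l
    induction l with
    | nil => intro j _; rfl
    | cons x l ih =>
      intro j hj
      cases j with
      | zero => simp at hj
      | succ j => exact ih j (by simpa using hj)
  funext j
  by_cases hj : j < 15
  · have e1 : vE e15 (vE env ρ) j = (nth (VE.c 0) e15 j).val (vE env ρ) := rfl
    rw [e1, h j hj]; rfl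
  · have e1 : vE e15 (vE env ρ) j = (nth (VE.c 0) e15 j).val (vE env ρ) := rfl
    have e2 : vE env ρ j = (nth (VE.c 0) env j).val ρ := rfl
    rw [e1, e2, hnil e15 j (by omega), hnil env j (by omega)]
    simp [VE.val]

end VGM

open VGM VFM

/-- **A part**: the blocks give the explicit polynomial. -/
theorem part_of {p : Pm} {q : Q2} {ro : List ℕ} (hq : QOK p q ro) (Y : List (ℕ × List (ℕ × ℤ))) (ms : List MB)
    (h : chU p q [] (Ex.c 0) [⟨1, false, Y⟩] ms = true) : p.sosP ms = p.mP Y := by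
  have h1 := chU_spec hq [] (by simp) (Ex.c 0) _ ms h
  simp only [List.map_nil, List.sum_nil, List.map_cons, List.sum_cons, pl_false] at h1
  rw [← h1]; simp

/-- **The half identity**: the expression `G` is the explicit polynomial `F`, then `F = SOS + parts + Z - Z ∘ psI`. -/
theorem hid_x {p : Pm} {q : Q2} {ro : List ℕ} (hq : QOK p q ro) (es : List EvD) (he : ∀ x ∈ es, EvOK p x) (G : Ex)
    (F Z : List (ℕ × List (ℕ × ℤ))) (xs : List (List (ℕ × List (ℕ × ℤ)))) (ms ms' : List MB)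
    (hF : chU p q es G [⟨-1, false, F⟩] [] = true)
    (hx : (xs.map p.mP).sum = p.sosP ms')
    (h : chU p q [] (Ex.c 0) (⟨1, false, F⟩ :: (zX Z ++ ngX xs)) ms = true) :
    HId p (ms ++ ms') (es.map EvD.env) G fun ρ => ev ρ (p.mP Z) := by
  intro ρ
  have h1 := chU_spec hq es he G _ [] hF
  have h2 := chU_spec hq [] (by simp) (Ex.c 0) _ ms h
  rw [List.map_cons, List.map_append, List.sum_cons, List.sum_append, zX_sum, ngX_sum, pl_false, List.map_nil,
    List.sum_nil, hx] at h2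
  have e0 : p.sosP ([] : List MB) = 0 := rfl
  rw [List.map_cons, List.map_nil, List.sum_cons, List.sum_nil, pl_neg, e0] at h1
  have h3 := congrArg (ev ρ) h1
  have h4 := congrArg (ev ρ) h2
  simp only [map_add, map_neg, map_zero, map_mul, map_one, ev_rename] at h3 h4
  have e1 : (ev ρ) (es.map fun x => G.val (vE x.env fun i => X i)).sum =
      ((es.map EvD.env).map fun env => G.val (vE env ρ)).sum := by
    rw [map_list_sum, List.map_map, List.map_map]
    congr 1
    refine List.map_congr_left fun x _ => ?_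
    exact ev_vE ρ x.env G
  rw [e1] at h3
  rw [CplM.sosP_append, map_add]
  linear_combination h3 + h4

/-! ## The vertex form -/

/-- All fifteen variables. -/
def e15 : List VE := [.x 0, .x 1, .x 2, .x 3, .x 4, .x 5, .x 6, .x 7, .x 8, .x 9, .x 10, .x 11, .x 12, .x 13, .x 14]

/-- The coefficient of the variable `i`: `s = st i / S`. -/
structure WX where
  i : ℕ
  s : ℕ
  F : List (ℕ × List (ℕ × ℤ))

/-- Shift the outer numbers. -/
noncomputable def shX (s : ℕ) (F : List (ℕ × List (ℕ × ℤ))) : List (ℕ × List (ℕ × ℤ)) :=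
  @List.rec (ℕ × List (ℕ × ℤ)) (fun _ => List (ℕ × List (ℕ × ℤ))) []
    (fun e _ ih => List.cons (Nat.add e.1 s, e.2) ih) F

/-- All outer numbers are below `R`. -/
noncomputable def kbd (R : ℕ) (F : List (ℕ × List (ℕ × ℤ))) : Bool :=
  @List.rec (ℕ × List (ℕ × ℤ)) (fun _ => Bool) true
    (fun e _ ih => @Bool.rec (fun _ => Bool) false ih (Nat.ble (Nat.succ e.1) R)) F

/-- Below `R`, in pieces. -/
noncomputable def kbs (R : ℕ) (sx : List WX) : Bool :=
  @List.rec WX (fun _ => Bool) true (fun x _ ih => @Bool.rec (fun _ => Bool) false ih (kbd R x.F)) sx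

/-- The data are right. -/
structure WOK (p : Pm) (R : ℕ) (sx : List WX) : Prop where
  hR : R * p.S = st (rF p.rs) 8
  hi : ∀ x ∈ sx, 8 ≤ x.i ∧ x.i < p.rs.length
  hs : ∀ x ∈ sx, x.s * p.S = st (rF p.rs) x.i
  hr : ∀ x ∈ sx, 1 < rF p.rs x.i
  hk : kbs R sx = true

/-- The terms `-X_i F_i`. -/
noncomputable def wsX (sx : List WX) : List XT := sx.map fun x => ⟨-1, false, shX x.s x.F⟩

/-- The terms at the weights `w`. -/
noncomputable def wsW (w : List ℤ) (sx : List WX) : List XT := sx.map fun x => ⟨nth 0 w (x.i - 8), false, x.F⟩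

/-- The exchanged weights. -/
noncomputable def exW7 (w : List ℤ) : List ℤ :=
  [nth 0 w 0, nth 0 w 2, nth 0 w 1, nth 0 w 3, nth 0 w 5, nth 0 w 4, nth 0 w 6]

/-- The exchanged terms at the exchanged weights. -/
noncomputable def wsV (w : List ℤ) (sx : List WX) : List XT := sx.map fun x => ⟨nth 0 (exW7 w) (x.i - 8), true, x.F⟩

namespace VGM

theorem shX_eq (s : ℕ) (F : List (ℕ × List (ℕ × ℤ))) : shX s F = F.map fun e => (e.1 + s, e.2) := by
  induction F with
  | nil => rfl
  | cons e F ih =>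
    have h : shX s (e :: F) = (e.1 + s, e.2) :: shX s F := rfl
    rw [h, ih]; rfl

theorem kbd_spec (R : ℕ) (F : List (ℕ × List (ℕ × ℤ))) (h : kbd R F = true) : ∀ e ∈ F, e.1 < R := by
  induction F with
  | nil => intro e he; simp at he
  | cons x F ih =>
    obtain ⟨h1, h2⟩ := SosM.brec_true (show @Bool.rec (fun _ => Bool) false (kbd R F) (Nat.ble (Nat.succ x.1) R) = true from h)
    intro e he
    rcases List.mem_cons.1 he with h3 | h3
    · rw [h3]; exact Nat.le_of_ble_eq_true h1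
    · exact ih h2 e h3

theorem kbs_spec (R : ℕ) (sx : List WX) (h : kbs R sx = true) : ∀ x ∈ sx, ∀ e ∈ x.F, e.1 < R := by
  induction sx with
  | nil => intro x hx; simp at hx
  | cons y sx ih =>
    obtain ⟨h1, h2⟩ := SosM.brec_true (show @Bool.rec (fun _ => Bool) false (kbs R sx) (kbd R y.F) = true from h)
    intro x hx
    rcases List.mem_cons.1 hx with h3 | h3
    · rw [h3]; exact kbd_spec R y.F h1
    · exact ih h2 x h3

theorem rs_pos {p : Pm} (hp : p.OK) (i : ℕ) : 0 < rF p.rs i := VCM.rF_pos hp i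

theorem digit_zero (r : ℕ → ℕ) (φ i : ℕ) (hr : ∀ i, 0 < r i) (h8 : φ < st r 8) (hi : 8 ≤ i) : φ / st r i % r i = 0 := by
  have hpos : ∀ n, 0 < st r n := by
    intro n
    induction n with
    | zero => exact Nat.one_pos
    | succ n ih => exact Nat.mul_pos ih (hr n)
  have h : st r 8 ≤ st r i := Nat.le_of_dvd (hpos i) (CplM.st_dvd r i 8 hi)
  rw [Nat.div_eq_of_lt (lt_of_lt_of_le h8 h), Nat.zero_mod]

/-- The monomials do not contain the variables from 8 on. -/
theorem ev_mon8 {p : Pm} (hp : p.OK) (φ : ℕ) (h8 : φ < st (rF p.rs) 8) (ρ ρ' : ℕ → ℝ) (h : ∀ i < 8, ρ i = ρ' i) :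
    ev ρ (mon p.rs φ) = ev ρ' (mon p.rs φ) := by
  unfold mon
  rw [map_prod, map_prod]
  refine Finset.prod_congr rfl fun i _ => ?_
  rw [map_pow, map_pow]
  by_cases hi : i < 8
  · have e1 : ev ρ (X i) = ρ i := by simp [ev]
    have e2 : ev ρ' (X i) = ρ' i := by simp [ev]
    rw [e1, e2, h i hi]
  · rw [digit_zero _ φ i (rs_pos hp) h8 (by omega), pow_zero, pow_zero]

theorem ev_C (ρ : ℕ → ℝ) (c : ℤ) : ev ρ (C c) = c := by simp [ev]

theorem ev_mP8 {p : Pm} (hp : p.OK) (R : ℕ) (hR : R * p.S = st (rF p.rs) 8) (F : List (ℕ × List (ℕ × ℤ)))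
    (hk : ∀ e ∈ F, e.1 < R) {f g : Dg → ℕ} (hF : VPM.XOK p f g F) (ρ ρ' : ℕ → ℝ) (h : ∀ i < 8, ρ i = ρ' i) :
    ev ρ (p.mP F) = ev ρ' (p.mP F) := by
  unfold Pm.mP Pm.pol pol
  rw [map_list_sum, map_list_sum, List.map_map, List.map_map]
  congr 1
  refine List.map_congr_left fun e he => ?_
  simp only [Function.comp_apply]
  rw [map_list_sum, map_list_sum, List.map_map, List.map_map]
  congr 1
  refine List.map_congr_left fun t ht => ?_
  simp only [Function.comp_apply]
  rw [map_mul, map_mul, ev_C, ev_C, ev_mon8 hp _ ?_ ρ ρ' h]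
  have h1 := (VPM.dok_lt hp (hF e he) t ht).1
  have h2 := hk e he
  rw [← hR]
  calc e.1 * p.S + t.1 < e.1 * p.S + p.S := by omega
    _ = (e.1 + 1) * p.S := by ring
    _ ≤ R * p.S := Nat.mul_le_mul_right _ h2

/-- The shifted polynomial is the product with the variable. -/
theorem mP_shX {p : Pm} (hp : p.OK) (R : ℕ) (hR : R * p.S = st (rF p.rs) 8) (x : WX) (hi : 8 ≤ x.i)
    (hi2 : x.i < p.rs.length) (hs : x.s * p.S = st (rF p.rs) x.i) (hr : 1 < rF p.rs x.i) (hk : ∀ e ∈ x.F, e.1 < R)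
    {f g : Dg → ℕ} (hF : VPM.XOK p f g x.F) : p.mP (shX x.s x.F) = X x.i * p.mP x.F := by
  rw [shX_eq]
  unfold Pm.mP Pm.pol pol
  rw [List.map_map, ← List.sum_map_mul_left]
  congr 1
  refine List.map_congr_left fun e he => ?_
  simp only [Function.comp_apply]
  rw [← List.sum_map_mul_left]
  congr 1
  refine List.map_congr_left fun t ht => ?_
  have h1 := (VPM.dok_lt hp (hF e he) t ht).1
  have h2 := hk e he
  have h8 : e.1 * p.S + t.1 < st (rF p.rs) 8 := by
    rw [← hR]
    calc e.1 * p.S + t.1 < e.1 * p.S + p.S := by omega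
      _ = (e.1 + 1) * p.S := by ring
      _ ≤ R * p.S := Nat.mul_le_mul_right _ h2
  have e1 : (e.1 + x.s) * p.S + t.1 = e.1 * p.S + t.1 + st (rF p.rs) x.i := by rw [← hs]; ring
  rw [e1, CplM.mon_shift p.rs (rs_pos hp) x.i _ hi2 (by rw [digit_zero _ _ _ (rs_pos hp) h8 hi]; omega)]
  ring

/-- The digit checks of the polynomials `F` follow from those of the shifted ones: not needed, they are checked. -/
theorem e15_x : ∀ j < 15, nth (VE.c 0) e15 j = VE.x j := by
  intro j hj
  interval_cases j <;> rfl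

end VGM

/-- The polynomials have small digits. -/
noncomputable def wck (p : Pm) (q : Q2) (sx : List WX) : Bool :=
  @List.rec WX (fun _ => Bool) true
    (fun x _ ih => ckM (p.di.map fun d => (d.r, q.zi)) (p.dO.map fun d => (d.r, q.zo)) (fun _ => ih) x.F 0) sx

namespace VGM

theorem wck_spec {p : Pm} {q : Q2} (sx : List WX) (h : wck p q sx = true) :
    ∀ x ∈ sx, VPM.XOK p (fun _ => q.zi) (fun _ => q.zo) x.F := by
  induction sx with
  | nil => intro x hx; simp at hx
  | cons y sx ih =>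
    obtain ⟨h1, h2⟩ := SosM.ckM_spec _ _ _ _ _ (show ckM (p.di.map fun d => (d.r, q.zi))
      (p.dO.map fun d => (d.r, q.zo)) (fun _ => wck p q sx) y.F 0 = true from h)
    intro x hx
    rcases List.mem_cons.1 hx with h3 | h3
    · rw [h3]; exact fun e he => h1 e he
    · exact ih h2 x h3

end VGM

/-- **The expression in the vertex form**: `G(ρ) = ∑ ρ_i F_i(ρ)`. -/
theorem wgt_of {p : Pm} {q : Q2} {ro : List ℕ} (hq : QOK p q ro) (E : EvD) (hE : EvOK p E) (hE15 : E.env = e15) (G : Ex)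
    (R : ℕ) (sx : List WX) (hw : WOK p R sx) (hc : wck p q sx = true) (h : chU p q [E] G (wsX sx) [] = true) (ρ : ℕ → ℝ) :
    G.val (vE e15 ρ) = (sx.map fun x => ρ x.i * ev ρ (p.mP x.F)).sum := by
  have h1 := chU_spec hq [E] (List.forall_mem_cons.2 ⟨hE, List.forall_mem_nil _⟩) G _ [] h
  have e0 : p.sosP ([] : List MB) = 0 := rfl
  have hk := kbs_spec R sx hw.hk
  have hF := wck_spec sx hc
  have e1 : ((wsX sx).map (XT.pl p)).sum = -(sx.map fun x => X x.i * p.mP x.F).sum := by
    unfold wsX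
    have : ∀ l : List WX, (∀ x ∈ l, x ∈ sx) → ((l.map fun x => (⟨-1, false, shX x.s x.F⟩ : XT)).map (XT.pl p)).sum =
        -(l.map fun x => X x.i * p.mP x.F).sum := by
      intro l
      induction l with
      | nil => intro _; simp
      | cons x l ih =>
        intro hl
        have hx := hl x List.mem_cons_self
        rw [List.map_cons, List.map_cons, List.sum_cons, List.map_cons, List.sum_cons,
          ih fun y hy => hl y (List.mem_cons_of_mem _ hy), pl_neg,
          mP_shX hq.ok R hw.hR x (hw.hi x hx).1 (hw.hi x hx).2 (hw.hs x hx) (hw.hr x hx) (hk x hx) (hF x hx)]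
        ring
    exact this sx fun x hx => hx
  rw [List.map_cons, List.map_nil, List.sum_cons, List.sum_nil, e1, e0, hE15] at h1
  have h2 := congrArg (ev ρ) h1
  rw [map_add, map_add, map_neg, map_zero, ev_vE, map_list_sum, List.map_map] at h2
  have e2 : (sx.map (⇑(ev ρ) ∘ fun x => X x.i * p.mP x.F)).sum = (sx.map fun x => ρ x.i * ev ρ (p.mP x.F)).sum := by
    congr 1
    refine List.map_congr_left fun x _ => ?_
    simp only [Function.comp_apply]
    rw [map_mul]
    simp [ev]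
  rw [e2] at h2
  linear_combination h2

/-- Symmetric weights: the half identity. -/
theorem hid_w {p : Pm} {q : Q2} {ro : List ℕ} (hq : QOK p q ro) (G : Ex) (R : ℕ) (sx : List WX) (hw : WOK p R sx)
    (hc : wck p q sx = true) (hG : ∀ ρ : ℕ → ℝ, G.val (vE e15 ρ) = (sx.map fun x => ρ x.i * ev ρ (p.mP x.F)).sum)
    (w : List ℤ) (hl : w.length = 7) (Z : List (ℕ × List (ℕ × ℤ))) (xs : List (List (ℕ × List (ℕ × ℤ))))
    (ms ms' : List MB) (hx : (xs.map p.mP).sum = p.sosP ms')
    (h : chU p q [] (Ex.c 0) (wsW w sx ++ (zX Z ++ ngX xs)) ms = true) :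
    HId p (ms ++ ms') [eW w] G fun ρ => ev ρ (p.mP Z) := by
  intro ρ
  have h2 := chU_spec hq [] (by simp) (Ex.c 0) _ ms h
  have hk := kbs_spec R sx hw.hk
  have hF := wck_spec sx hc
  rw [List.map_append, List.map_append, List.sum_append, List.sum_append, zX_sum, ngX_sum, List.map_nil, List.sum_nil,
    hx] at h2
  have h4 := congrArg (ev ρ) h2
  simp only [map_add, map_neg, map_zero, ev_rename] at h4
  have hv := hG (vE (eW w) ρ)
  rw [eX_id ρ (eW w) (by simp [eW, hl]) e15 rfl e15_x] at hv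
  have hW : ∀ i, 8 ≤ i → vE (eW w) ρ i = ((nth 0 w (i - 8) : ℤ) : ℝ) := by
    intro i hi
    obtain ⟨k, rfl⟩ := Nat.exists_eq_add_of_le' hi
    rw [Nat.add_sub_cancel]
    unfold vE eW
    have : nth (VE.c 0) ([VE.x 0, .x 1, .x 2, .x 3, .x 4, .x 5, .x 6, .x 7] ++ w.map VE.c) (k + 8) =
      nth (VE.c 0) (w.map VE.c) k := rfl
    rw [this, EnvM.nth_map 0 (VE.c 0) VE.c rfl]
    rfl
  have h8 : ∀ i < 8, vE (eW w) ρ i = ρ i := by
    intro i hi
    interval_cases i <;> rfl
  have e2 : (ev ρ) ((wsW w sx).map (XT.pl p)).sum = (sx.map fun x => vE (eW w) ρ x.i * ev (vE (eW w) ρ) (p.mP x.F)).sum := by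
    unfold wsW
    rw [map_list_sum, List.map_map, List.map_map]
    congr 1
    refine List.map_congr_left fun x hx => ?_
    simp only [Function.comp_apply]
    rw [pl_false, map_mul, ev_C, hW x.i (hw.hi x hx).1, ev_mP8 hq.ok R hw.hR x.F (hk x hx) (hF x hx) _ _ h8]
  rw [e2, ← hv] at h4
  rw [CplM.sosP_append, map_add, List.map_cons, List.map_nil, List.sum_cons, List.sum_nil]
  linear_combination h4

/-- All weights: the full identity. -/
theorem hid_v {p : Pm} {q : Q2} {ro : List ℕ} (hq : QOK p q ro) (G : Ex) (R : ℕ) (sx : List WX) (hw : WOK p R sx)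
    (hc : wck p q sx = true) (hG : ∀ ρ : ℕ → ℝ, G.val (vE e15 ρ) = (sx.map fun x => ρ x.i * ev ρ (p.mP x.F)).sum)
    (w : List ℤ) (hl : w.length = 7) (xs : List (List (ℕ × List (ℕ × ℤ))))
    (ms ms' : List MB) (hx : (xs.map p.mP).sum = p.sosP ms')
    (h : chU p q [] (Ex.c 0) (wsW w sx ++ (wsV w sx ++ ngX xs)) ms = true) :
    HId p (ms ++ ms') [eW w, eV w] G fun _ => 0 := by
  intro ρ
  have h2 := chU_spec hq [] (by simp) (Ex.c 0) _ ms h
  have hk := kbs_spec R sx hw.hk
  have hF := wck_spec sx hc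
  rw [List.map_append, List.map_append, List.sum_append, List.sum_append, ngX_sum, List.map_nil, List.sum_nil,
    hx] at h2
  have h4 := congrArg (ev ρ) h2
  simp only [map_add, map_neg, map_zero] at h4
  have hv := hG (vE (eW w) ρ)
  rw [eX_id ρ (eW w) (by simp [eW, hl]) e15 rfl e15_x] at hv
  have hv2 := hG (vE (eV w) ρ)
  rw [eX_id ρ (eV w) (by simp [eV]) e15 rfl e15_x] at hv2
  have hW : ∀ i, 8 ≤ i → vE (eW w) ρ i = ((nth 0 w (i - 8) : ℤ) : ℝ) := by
    intro i hi
    obtain ⟨k, rfl⟩ := Nat.exists_eq_add_of_le' hi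
    rw [Nat.add_sub_cancel]
    unfold vE eW
    have : nth (VE.c 0) ([VE.x 0, .x 1, .x 2, .x 3, .x 4, .x 5, .x 6, .x 7] ++ w.map VE.c) (k + 8) =
      nth (VE.c 0) (w.map VE.c) k := rfl
    rw [this, EnvM.nth_map 0 (VE.c 0) VE.c rfl]
    rfl
  have h8 : ∀ i < 8, vE (eW w) ρ i = ρ i := by
    intro i hi
    interval_cases i <;> rfl
  have hW2 : ∀ i, 8 ≤ i → vE (eV w) ρ i = ((nth 0 (exW7 w) (i - 8) : ℤ) : ℝ) := by
    intro i hi
    obtain ⟨k, rfl⟩ := Nat.exists_eq_add_of_le' hi
    rw [Nat.add_sub_cancel]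
    unfold vE eV
    have : nth (VE.c 0) ([VE.x 1, .x 0, .x 3, .x 2, .x 5, .x 4, .x 7, .x 6] ++
      [.c (nth 0 w 0), .c (nth 0 w 2), .c (nth 0 w 1), .c (nth 0 w 3), .c (nth 0 w 5), .c (nth 0 w 4), .c (nth 0 w 6)])
        (k + 8) = nth (VE.c 0) ((exW7 w).map VE.c) k := rfl
    rw [this, EnvM.nth_map 0 (VE.c 0) VE.c rfl]
    rfl
  have h82 : ∀ i < 8, vE (eV w) ρ i = (fun i => ρ (psI i)) i := by
    intro i hi
    interval_cases i <;> rfl
  have e2 : (ev ρ) ((wsW w sx).map (XT.pl p)).sum = (sx.map fun x => vE (eW w) ρ x.i * ev (vE (eW w) ρ) (p.mP x.F)).sum := by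
    unfold wsW
    rw [map_list_sum, List.map_map, List.map_map]
    congr 1
    refine List.map_congr_left fun x hx => ?_
    simp only [Function.comp_apply]
    rw [pl_false, map_mul, ev_C, hW x.i (hw.hi x hx).1, ev_mP8 hq.ok R hw.hR x.F (hk x hx) (hF x hx) _ _ h8]
  have e3 : (ev ρ) ((wsV w sx).map (XT.pl p)).sum = (sx.map fun x => vE (eV w) ρ x.i * ev (vE (eV w) ρ) (p.mP x.F)).sum := by
    unfold wsV
    rw [map_list_sum, List.map_map, List.map_map]
    congr 1
    refine List.map_congr_left fun x hx => ?_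
    simp only [Function.comp_apply]
    rw [pl_true, map_mul, ev_C, ev_rename, hW2 x.i (hw.hi x hx).1,
      ev_mP8 hq.ok R hw.hR x.F (hk x hx) (hF x hx) _ _ h82]
  rw [e2, e3, ← hv, ← hv2] at h4
  rw [CplM.sosP_append, map_add, List.map_cons, List.map_cons, List.map_nil, List.sum_cons, List.sum_cons, List.sum_nil]
  linear_combination h4

end Pool.Agent.Lib.MP_084b88_gt.SK
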