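import Pool.Agent.Lib.MP_084b88_gt.SK.VR
import Pool.Agent.Lib.MP_084b88_gt.SK.SpecH

/-!
# MP_084b88_gt, project SK, checker v2: from polynomials to the ring with `2^K = 0`
-/

set_option autoImplicit false

open MvPolynomial

namespace Pool.Agent.Lib.MP_084b88_gt.SK

/-- A homomorphism with the right values at the variables. -/
structure Hm (p : Pm) (A : Type*) [CommRing A] (O : A) (h : MvPolynomial ℕ ℤ →+* A) : Prop where
  hx : ∀ i < p.rs.length, h (X i) = (p.B : A) ^ (st (rF p.rs) i % p.S) * O ^ (st (rF p.rs) i / p.S)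

/-- Two inner variables. -/
structure Two (p : Pm) (ra rb : ℕ) (ro : List ℕ) : Prop where
  hr : p.rs = ra :: rb :: ro
  hS : p.S = ra * rb
  ha : 2 ≤ ra
  hb : 2 ≤ rb

/-- The data of the exchange. -/
structure SwOK (p : Pm) (ro : List ℕ) (li lo : List (ℕ × ℕ)) : Prop where
  hi : li = [(rF p.rs 0, st (rF p.rs) 1), (rF p.rs 1, 1)]
  ho : lo.map Prod.fst = ro
  hw : ∀ j < ro.length, (lo.map Prod.snd).getD j 0 = st (rF p.rs) (psI (j + 2)) / p.S
  hd : ∀ j < ro.length, p.S ∣ st (rF p.rs) (psI (j + 2))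
  hl : ∀ i < p.rs.length, psI i < p.rs.length

namespace VPM

variable {A : Type*} [CommRing A]

theorem h_mon_gen (h : MvPolynomial ℕ ℤ →+* A) (rs : List ℕ) (B O : A) (u v : ℕ → ℕ)
    (hx : ∀ i < rs.length, h (X i) = B ^ u i * O ^ v i) (φ : ℕ) :
    h (mon rs φ) = B ^ (∑ i ∈ Finset.range rs.length, ((φ / st (rF rs) i) % rF rs i) * u i) *
      O ^ (∑ i ∈ Finset.range rs.length, ((φ / st (rF rs) i) % rF rs i) * v i) := by
  unfold mon
  rw [map_prod]
  have : ∀ i ∈ Finset.range rs.length, h (X i ^ ((φ / st (rF rs) i) % rF rs i)) =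
      B ^ (((φ / st (rF rs) i) % rF rs i) * u i) * O ^ (((φ / st (rF rs) i) % rF rs i) * v i) := by
    intro i hi
    rw [map_pow, hx i (Finset.mem_range.1 hi), mul_pow, ← pow_mul, ← pow_mul, mul_comm (u i), mul_comm (v i)]
  rw [Finset.prod_congr rfl this, Finset.prod_mul_distrib, Finset.prod_pow_eq_pow_sum, Finset.prod_pow_eq_pow_sum]

theorem st0 (r : ℕ → ℕ) : st r 0 = 1 := rfl

theorem st1 (ra : ℕ) (l : List ℕ) : st (rF (ra :: l)) 1 = ra := by
  change 1 * rF (ra :: l) 0 = ra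
  rw [one_mul]; rfl

theorem st2 (ra rb : ℕ) (ro : List ℕ) (j : ℕ) : st (rF (ra :: rb :: ro)) (j + 2) = ra * rb * st (rF ro) j := by
  rw [PolM.st_succ', PolM.rF_cons, PolM.st_succ', PolM.rF_cons]
  have e1 : rF (ra :: rb :: ro) 0 = ra := rfl
  have e2 : rF (rb :: ro) 0 = rb := rfl
  rw [e1, e2, mul_assoc]

theorem rF2 (ra rb : ℕ) (ro : List ℕ) (j : ℕ) : rF (ra :: rb :: ro) (j + 2) = rF ro j := rfl

theorem sum_two (ra rb : ℕ) (ro : List ℕ) (φ : ℕ) (w : ℕ → ℕ) :
    ∑ i ∈ Finset.range (ra :: rb :: ro).length, ((φ / st (rF (ra :: rb :: ro)) i) % rF (ra :: rb :: ro) i) * w i =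
      (φ % ra) * w 0 + ((φ / ra) % rb) * w 1 +
        ∑ j ∈ Finset.range ro.length, ((φ / (ra * rb) / st (rF ro) j) % rF ro j) * w (j + 2) := by
  rw [List.length_cons, List.length_cons, Finset.sum_range_succ', Finset.sum_range_succ']
  have e0 : (φ / st (rF (ra :: rb :: ro)) 0) % rF (ra :: rb :: ro) 0 = φ % ra := by
    rw [st0, Nat.div_one]; rfl
  have e1 : (φ / st (rF (ra :: rb :: ro)) (0 + 1)) % rF (ra :: rb :: ro) (0 + 1) = (φ / ra) % rb := by
    rw [zero_add, st1]; rfl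
  rw [e0, e1]
  have e2 : ∀ j ∈ Finset.range ro.length, ((φ / st (rF (ra :: rb :: ro)) (j + 1 + 1)) % rF (ra :: rb :: ro) (j + 1 + 1)) *
      w (j + 1 + 1) = ((φ / (ra * rb) / st (rF ro) j) % rF ro j) * w (j + 2) := by
    intro j _
    rw [st2, rF2, Nat.div_div_eq_div_mul]
  rw [Finset.sum_congr rfl e2]
  ring

theorem two_len {p : Pm} {ra rb : ℕ} {ro : List ℕ} (ht : Two p ra rb ro) : p.rs.length = ro.length + 2 := by
  rw [ht.hr]; rfl

/-- **The value of a monomial.** -/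
theorem h_mon {p : Pm} {ra rb : ℕ} {ro : List ℕ} (ht : Two p ra rb ro) {O : A} {h : MvPolynomial ℕ ℤ →+* A}
    (hh : Hm p A O h) (φ : ℕ) (hφ : φ < p.rs.prod) : h (mon p.rs φ) = (p.B : A) ^ (φ % p.S) * O ^ (φ / p.S) := by
  have hra : 0 < ra := by have := ht.ha; omega
  have hrb : 0 < rb := by have := ht.hb; omega
  have hS0 : 0 < ra * rb := Nat.mul_pos hra hrb
  have h1 : 1 < ra * rb := by
    calc 1 < 2 * 2 := by norm_num
      _ ≤ ra * rb := Nat.mul_le_mul ht.ha ht.hb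
  have h2 : ra < ra * rb := by
    calc ra = ra * 1 := (mul_one _).symm
      _ < ra * rb := Nat.mul_lt_mul_of_pos_left (by have := ht.hb; omega) hra
  rw [h_mon_gen h p.rs (p.B : A) O (fun i => st (rF p.rs) i % p.S) (fun i => st (rF p.rs) i / p.S) hh.hx φ]
  rw [ht.hS, ht.hr] at *
  rw [sum_two, sum_two]
  have u0 : st (rF (ra :: rb :: ro)) 0 % (ra * rb) = 1 := Nat.mod_eq_of_lt h1
  have u1 : st (rF (ra :: rb :: ro)) 1 % (ra * rb) = ra := by rw [st1]; exact Nat.mod_eq_of_lt h2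
  have v0 : st (rF (ra :: rb :: ro)) 0 / (ra * rb) = 0 := Nat.div_eq_of_lt h1
  have v1 : st (rF (ra :: rb :: ro)) 1 / (ra * rb) = 0 := by rw [st1]; exact Nat.div_eq_of_lt h2
  have u2 : ∀ j, st (rF (ra :: rb :: ro)) (j + 2) % (ra * rb) = 0 := fun j => by rw [st2]; exact Nat.mul_mod_right _ _
  have v2 : ∀ j, st (rF (ra :: rb :: ro)) (j + 2) / (ra * rb) = st (rF ro) j := fun j => by
    rw [st2]; exact Nat.mul_div_cancel_left _ hS0
  simp only [u0, u1, v0, v1, u2, v2, mul_zero, Finset.sum_const_zero, mul_one, add_zero, zero_add]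
  have e1 : φ % ra + φ / ra % rb * ra = φ % (ra * rb) := by rw [Nat.mod_mul, mul_comm]
  have e2 : ∑ j ∈ Finset.range ro.length, ((φ / (ra * rb) / st (rF ro) j) % rF ro j) * st (rF ro) j = φ / (ra * rb) := by
    have e3 : ∀ j ∈ Finset.range ro.length, ((φ / (ra * rb) / st (rF ro) j) % rF ro j) * st (rF ro) j =
        st (rF ro) j * ((φ / (ra * rb) / st (rF ro) j) % rF ro j) := fun j _ => mul_comm _ _
    rw [Finset.sum_congr rfl e3, PolM.sum_digits, PolM.st_len]
    apply Nat.mod_eq_of_lt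
    rw [List.prod_cons, List.prod_cons, ← mul_assoc] at hφ
    exact Nat.div_lt_of_lt_mul hφ
  rw [e1, e2]

theorem swK_nil (φ : ℕ) : swK [] φ = 0 := rfl

theorem swK_cons (x : ℕ × ℕ) (l : List (ℕ × ℕ)) (φ : ℕ) : swK (x :: l) φ = φ % x.1 * x.2 + swK l (φ / x.1) := rfl

theorem swK_eq (l : List (ℕ × ℕ)) : ∀ φ : ℕ, swK l φ =
    ∑ j ∈ Finset.range l.length, ((φ / st (rF (l.map Prod.fst)) j) % rF (l.map Prod.fst) j) * (l.map Prod.snd).getD j 0 := by
  induction l with
  | nil => intro φ; simp [swK_nil]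
  | cons x l ih =>
    intro φ
    rw [swK_cons, ih, List.length_cons, Finset.sum_range_succ', List.map_cons, List.map_cons]
    have e0 : (φ / st (rF (x.1 :: l.map Prod.fst)) 0) % rF (x.1 :: l.map Prod.fst) 0 *
        (x.2 :: l.map Prod.snd).getD 0 0 = φ % x.1 * x.2 := by
      rw [st0, Nat.div_one]; rfl
    have e2 : ∀ j ∈ Finset.range l.length, ((φ / st (rF (x.1 :: l.map Prod.fst)) (j + 1)) %
        rF (x.1 :: l.map Prod.fst) (j + 1)) * (x.2 :: l.map Prod.snd).getD (j + 1) 0 =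
        ((φ / x.1 / st (rF (l.map Prod.fst)) j) % rF (l.map Prod.fst) j) * (l.map Prod.snd).getD j 0 := by
      intro j _
      rw [PolM.st_succ', PolM.rF_cons]
      have e3 : rF (x.1 :: l.map Prod.fst) 0 = x.1 := rfl
      rw [e3, ← Nat.div_div_eq_div_mul]
      rfl
    rw [Finset.sum_congr rfl e2, e0]; ring

/-- **The value of an exchanged monomial.** -/
theorem h_monps {p : Pm} {ra rb : ℕ} {ro : List ℕ} (ht : Two p ra rb ro) {li lo : List (ℕ × ℕ)} (hs : SwOK p ro li lo)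
    {O : A} {h : MvPolynomial ℕ ℤ →+* A} (hh : Hm p A O h) (φ : ℕ) :
    h (rename psI (mon p.rs φ)) = (p.B : A) ^ (swK li (φ % p.S)) * O ^ (swK lo (φ / p.S)) := by
  have hra : 0 < ra := by have := ht.ha; omega
  have hrb : 0 < rb := by have := ht.hb; omega
  have hS0 : 0 < ra * rb := Nat.mul_pos hra hrb
  have h1 : 1 < ra * rb := by
    calc 1 < 2 * 2 := by norm_num
      _ ≤ ra * rb := Nat.mul_le_mul ht.ha ht.hb
  have h2 : ra < ra * rb := by
    calc ra = ra * 1 := (mul_one _).symm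
      _ < ra * rb := Nat.mul_lt_mul_of_pos_left (by have := ht.hb; omega) hra
  have hg := h_mon_gen (h.comp (rename psI : MvPolynomial ℕ ℤ →ₐ[ℤ] MvPolynomial ℕ ℤ).toRingHom) p.rs (p.B : A) O
    (fun i => st (rF p.rs) (psI i) % p.S) (fun i => st (rF p.rs) (psI i) / p.S) (fun i hi => by
      change h (rename psI (X i)) = _
      rw [MvPolynomial.rename_X]
      exact hh.hx _ (hs.hl i hi)) φ
  change h (rename psI (mon p.rs φ)) = _ at hg
  rw [hg]
  have hi := hs.hi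
  have ho := hs.ho
  have hw := hs.hw
  have hd := hs.hd
  rw [ht.hS, ht.hr] at *
  rw [sum_two, sum_two]
  have u0 : st (rF (ra :: rb :: ro)) (psI 0) % (ra * rb) = ra := by
    change st (rF (ra :: rb :: ro)) 1 % (ra * rb) = ra
    rw [st1]; exact Nat.mod_eq_of_lt h2
  have u1 : st (rF (ra :: rb :: ro)) (psI 1) % (ra * rb) = 1 := Nat.mod_eq_of_lt h1
  have v0 : st (rF (ra :: rb :: ro)) (psI 0) / (ra * rb) = 0 := by
    change st (rF (ra :: rb :: ro)) 1 / (ra * rb) = 0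
    rw [st1]; exact Nat.div_eq_of_lt h2
  have v1 : st (rF (ra :: rb :: ro)) (psI 1) / (ra * rb) = 0 := Nat.div_eq_of_lt h1
  have e3 : ∀ j ∈ Finset.range ro.length, ((φ / (ra * rb) / st (rF ro) j) % rF ro j) *
      (st (rF (ra :: rb :: ro)) (psI (j + 2)) % (ra * rb)) = 0 := by
    intro j hj
    rw [Nat.mod_eq_zero_of_dvd (hd j (Finset.mem_range.1 hj)), mul_zero]
  have e4 : ∀ j ∈ Finset.range ro.length, ((φ / (ra * rb) / st (rF ro) j) % rF ro j) *
      (st (rF (ra :: rb :: ro)) (psI (j + 2)) / (ra * rb)) =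
      ((φ / (ra * rb) / st (rF ro) j) % rF ro j) * (lo.map Prod.snd).getD j 0 := by
    intro j hj
    rw [hw j (Finset.mem_range.1 hj)]
  rw [Finset.sum_congr rfl e3, Finset.sum_congr rfl e4, u0, u1, v0, v1, Finset.sum_const_zero, add_zero, mul_one,
    mul_zero, mul_zero, add_zero, zero_add]
  have e5 : swK lo (φ / (ra * rb)) = ∑ j ∈ Finset.range ro.length, ((φ / (ra * rb) / st (rF ro) j) % rF ro j) *
      (lo.map Prod.snd).getD j 0 := by
    have hlen : lo.length = ro.length := by rw [← ho, List.length_map]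
    rw [swK_eq, ho, hlen]
  have e6 : swK li (φ % (ra * rb)) = φ % ra * ra + φ / ra % rb := by
    have a0 : rF (ra :: rb :: ro) 0 = ra := rfl
    have a1 : rF (ra :: rb :: ro) 1 = rb := rfl
    rw [hi, swK_cons, swK_cons, swK_nil, st1, a0, a1]
    simp only [mul_one, add_zero]
    rw [Nat.mod_mul_right_mod, Nat.mod_mul_right_div_self, Nat.mod_mod]
  rw [e5, e6]

/-! ### Polynomials -/

theorem prod_rs (p : Pm) : ((p.di.map fun d => (d.r, d.z)) ++ (p.dO.map fun d => (d.r, d.z))).map Prod.fst = p.rs := by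
  simp [Pm.rs, Function.comp_def]

/-- The checks of a polynomial: digits with some bounds `f, g`. -/
def DOK (p : Pm) (f g : Dg → ℕ) (k : ℕ) (tp : List (ℕ × ℤ)) : Prop :=
  dck (p.dO.map fun d => (d.r, g d)) k = true ∧ ∀ e ∈ tp, dck (p.di.map fun d => (d.r, f d)) e.1 = true

theorem dok_lt {p : Pm} (hp : p.OK) {f g : Dg → ℕ} {k : ℕ} {tp : List (ℕ × ℤ)} (h : DOK p f g k tp) :
    ∀ e ∈ tp, e.1 < p.S ∧ k * p.S + e.1 < p.rs.prod := by
  intro e he
  have hr1 : ∀ x ∈ p.di.map fun d => (d.r, f d), 0 < x.1 := fun x hx => by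
    obtain ⟨d, hd, rfl⟩ := List.mem_map.1 hx
    have := SosM.dgOK_spec _ hp.hdi d hd
    show 0 < d.r
    omega
  have hr2 : ∀ x ∈ p.dO.map fun d => (d.r, g d), 0 < x.1 := fun x hx => by
    obtain ⟨d, hd, rfl⟩ := List.mem_map.1 hx
    have := SosM.dgOK_spec _ hp.hdO d hd
    show 0 < d.r
    omega
  have h1 := (PolM.dck_spec _ hr1 e.1 (h.2 e he)).2
  have h2 := PolM.dck_append _ _ hr1 k h.1 e.1 (h.2 e he)
  have h3 := (PolM.dck_spec _ (fun x hx => by
    rcases List.mem_append.1 hx with h | h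
    · exact hr1 x h
    · exact hr2 x h) _ h2).2
  have e1 : ((p.di.map fun d => (d.r, f d)).map Prod.fst).prod = p.S := by
    simp [Pm.S, Function.comp_def]
  have e2 : (((p.di.map fun d => (d.r, f d)) ++ (p.dO.map fun d => (d.r, g d))).map Prod.fst) = p.rs := by
    simp [Pm.rs, Function.comp_def]
  rw [e1] at h1 h3
  rw [e2] at h3
  exact ⟨h1, h3⟩

theorem pkv_cast (B : ℕ) (tp : List (ℕ × ℤ)) : ((pkv (B : ℤ) tp : ℤ) : A) = (tp.map fun e => (e.2 : A) * (B : A) ^ e.1).sum := by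
  induction tp with
  | nil => simp [pkv]
  | cons e tp ih =>
    have h : pkv (B : ℤ) (e :: tp) = e.2 * (B : ℤ) ^ e.1 + pkv (B : ℤ) tp := by simp [pkv]
    rw [h, Int.cast_add, ih, List.map_cons, List.sum_cons, Int.cast_mul, Int.cast_pow, Int.cast_natCast]

theorem h_C (h : MvPolynomial ℕ ℤ →+* A) (c : ℤ) : h (C c) = (c : A) := by
  have : (C c : MvPolynomial ℕ ℤ) = ((c : ℤ) : MvPolynomial ℕ ℤ) := by simp
  rw [this, map_intCast]

theorem h_pol {p : Pm} {ra rb : ℕ} {ro : List ℕ} (hp : p.OK) (ht : Two p ra rb ro) {O : A} {h : MvPolynomial ℕ ℤ →+* A}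
    (hh : Hm p A O h) {f g : Dg → ℕ} {k : ℕ} {tp : List (ℕ × ℤ)} (hd : DOK p f g k tp) :
    h (p.pol k tp) = O ^ k * ((pkv (p.B : ℤ) tp : ℤ) : A) := by
  unfold Pm.pol pol
  rw [map_list_sum, List.map_map, pkv_cast, ← List.sum_map_mul_left]
  congr 1
  refine List.map_congr_left fun e he => ?_
  obtain ⟨h1, h2⟩ := dok_lt hp hd e he
  simp only [Function.comp_apply]
  rw [map_mul, h_C, h_mon ht hh _ h2]
  have hS : 0 < p.S := lt_of_le_of_lt (Nat.zero_le _) h1
  have e1 : (k * p.S + e.1) % p.S = e.1 := by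
    rw [Nat.mul_add_mod_self_right]; exact Nat.mod_eq_of_lt h1
  have e2 : (k * p.S + e.1) / p.S = k := by
    rw [mul_comm, Nat.mul_add_div hS, Nat.div_eq_of_lt h1, add_zero]
  rw [e1, e2]; ring

theorem h_polps {p : Pm} {ra rb : ℕ} {ro : List ℕ} (hp : p.OK) (ht : Two p ra rb ro) {li lo : List (ℕ × ℕ)}
    (hs : SwOK p ro li lo) {O : A} {h : MvPolynomial ℕ ℤ →+* A}
    (hh : Hm p A O h) {f g : Dg → ℕ} {k : ℕ} {tp : List (ℕ × ℤ)} (hd : DOK p f g k tp) :
    h (rename psI (p.pol k tp)) =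
      ((pkv (p.B : ℤ) (tp.map fun t => (swK li t.1, t.2)) : ℤ) : A) * O ^ (swK lo k) := by
  have e0 : rename psI (p.pol k tp) = (tp.map fun e => C e.2 * rename psI (mon p.rs (k * p.S + e.1))).sum := by
    unfold Pm.pol pol
    rw [map_list_sum, List.map_map]
    congr 1
    refine List.map_congr_left fun e _ => ?_
    simp only [Function.comp_apply]
    rw [map_mul, MvPolynomial.rename_C]
  rw [e0, map_list_sum, List.map_map, pkv_cast, List.map_map, ← List.sum_map_mul_right]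
  congr 1
  refine List.map_congr_left fun e he => ?_
  obtain ⟨h1, h2⟩ := dok_lt hp hd e he
  simp only [Function.comp_apply]
  rw [map_mul, h_C, h_monps ht hs hh]
  have hS : 0 < p.S := lt_of_le_of_lt (Nat.zero_le _) h1
  have e1 : (k * p.S + e.1) % p.S = e.1 := by
    rw [Nat.mul_add_mod_self_right]; exact Nat.mod_eq_of_lt h1
  have e2 : (k * p.S + e.1) / p.S = k := by
    rw [mul_comm, Nat.mul_add_div hS, Nat.div_eq_of_lt h1, add_zero]
  rw [e1, e2]; ring

/-- The checks of an explicit polynomial. -/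
def XOK (p : Pm) (f g : Dg → ℕ) (m : List (ℕ × List (ℕ × ℤ))) : Prop := ∀ e ∈ m, DOK p f g e.1 e.2

theorem h_mP {p : Pm} {ra rb : ℕ} {ro : List ℕ} (hp : p.OK) (ht : Two p ra rb ro) {O : A} {h : MvPolynomial ℕ ℤ →+* A}
    (hh : Hm p A O h) {f g : Dg → ℕ} {m : List (ℕ × List (ℕ × ℤ))} (hd : XOK p f g m) : h (p.mP m) = VRM.xvA p.B O m := by
  unfold Pm.mP VRM.xvA
  rw [map_list_sum, List.map_map]
  congr 1
  refine List.map_congr_left fun e he => ?_
  simp only [Function.comp_apply]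
  rw [h_pol hp ht hh (hd e he)]; ring

theorem h_mPps {p : Pm} {ra rb : ℕ} {ro : List ℕ} (hp : p.OK) (ht : Two p ra rb ro) {li lo : List (ℕ × ℕ)}
    (hs : SwOK p ro li lo) {O : A} {h : MvPolynomial ℕ ℤ →+* A} (hh : Hm p A O h) {f g : Dg → ℕ}
    {m : List (ℕ × List (ℕ × ℤ))} (hd : XOK p f g m) :
    h (rename psI (p.mP m)) = VRM.xvA p.B O (m.map fun e => (swK lo e.1, e.2.map fun t => (swK li t.1, t.2))) := by
  unfold Pm.mP VRM.xvA
  rw [map_list_sum, map_list_sum, List.map_map, List.map_map, List.map_map]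
  congr 1
  refine List.map_congr_left fun e he => ?_
  simp only [Function.comp_apply]
  rw [h_polps hp ht hs hh (hd e he)]

theorem h_zP {p : Pm} {ra rb : ℕ} {ro : List ℕ} (hp : p.OK) (ht : Two p ra rb ro) {O : A} {h : MvPolynomial ℕ ℤ →+* A}
    (hh : Hm p A O h) (cs : List (ℕ × List (ℕ × List (ℕ × ℤ)))) (hz : SosM.ZOK p cs) (s : ℕ) :
    h (p.zP cs s) = VRM.zdA p.B O (fun t => if t = s then 1 else 0) cs := by
  unfold Pm.zP VRM.zdA
  rw [map_list_sum, List.map_map]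
  congr 1
  refine List.map_congr_left fun c hc => ?_
  simp only [Function.comp_apply]
  rw [map_list_sum, List.map_map, ← List.sum_map_mul_left]
  congr 1
  refine List.map_congr_left fun e he => ?_
  simp only [Function.comp_apply]
  obtain ⟨h1, h2⟩ := hz c hc
  by_cases hs : e.1 = s
  · rw [if_pos hs, if_pos hs, h_pol hp ht hh (f := Dg.z) (g := Dg.z) ⟨h1, h2 e he⟩]; ring
  · rw [if_neg hs, if_neg hs, map_zero]; ring

theorem h_insP {p : Pm} {ra rb : ℕ} {ro : List ℕ} (hp : p.OK) (ht : Two p ra rb ro) {O : A} {h : MvPolynomial ℕ ℤ →+* A}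
    (hh : Hm p A O h) (x : Ins) (hz : SosM.ZOK p x.cs) : h (p.insP x) = VRM.bvA p.b p.o p.c p.B O x := by
  unfold Pm.insP VRM.bvA
  rw [qR_map, List.map_map]
  congr 1
  refine List.map_congr_left fun j _ => ?_
  exact h_zP hp ht hh x.cs hz _

theorem h_sosP {p : Pm} {ra rb : ℕ} {ro : List ℕ} (hp : p.OK) (ht : Two p ra rb ro) {O : A} {h : MvPolynomial ℕ ℤ →+* A}
    (hh : Hm p A O h) (ms : List MB) (hm : ∀ x ∈ ms, SosM.MBok p.di p.dO x) :
    h (p.sosP ms) = VRM.svA p.b p.o p.c p.B O ms := by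
  unfold Pm.sosP VRM.svA
  rw [map_list_sum, List.map_map]
  congr 1
  refine List.map_congr_left fun x hx => ?_
  simp only [Function.comp_apply]
  unfold Pm.mbP
  have h1 := hm x hx
  rw [map_mul, h_mP hp ht hh (f := Dg.m) (g := Dg.m) (fun e he => h1.hm e he), map_list_sum, List.map_map]
  congr 2
  refine List.map_congr_left fun y hy => ?_
  exact h_insP hp ht hh y (h1.hz y hy)

/-- The environment. -/
theorem h_vE {p : Pm} {O : A} {h : MvPolynomial ℕ ℤ →+* A} (hh : Hm p A O h) (env : List VE)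
    (hv : ∀ i, VE.x i ∈ env → i < p.rs.length) (j : ℕ) :
    h (vE env (fun i => X i) j) = VRM.vlV O (st (rF p.rs)) p.S p.B (nth (VE.c 0) env j) := by
  unfold vE
  rcases EnvM.nth_mem (VE.c 0) env j with h1 | h1
  · rw [h1]; simp [VE.val, VRM.vlV]
  · generalize nth (VE.c 0) env j = e at h1
    cases e with
    | x i => exact hh.hx i (hv i h1)
    | c n =>
      change h ((n : ℤ) : MvPolynomial ℕ ℤ) = (n : A)
      rw [map_intCast]

end VPM

end Pool.Agent.Lib.MP_084b88_gt.SK
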