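import Pool.Agent.Lib.MP_084b88_gt.SK.VD
import Pool.Agent.Lib.MP_084b88_gt.SK.Ex

/-!
# MP_084b88_gt, project SK, checker v2: the values of the kernel functions in a ring where `2^K = 0`
-/

set_option autoImplicit false

namespace Pool.Agent.Lib.MP_084b88_gt.SK

/-- Value of a list. -/
def KL.cc {A : Type*} [CommRing A] (O : A) : KL → A
  | .nil => 0
  | .cons k v t => (v : A) * O ^ k + t.cc O

/-- All values satisfy `P`. -/
def KL.All (P : ℕ → Prop) : KL → Prop
  | .nil => True
  | .cons _ v t => P v ∧ t.All P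

/-- Value of a list of lists. -/
def LL.cc {A : Type*} [CommRing A] (O : A) : LL → A
  | .nil => 0
  | .cons l t => l.cc O + t.cc O

/-- A functional of the elements. -/
def EL.sm {A : Type*} [CommRing A] (φ : ℕ → A) : EL → A
  | .nil => 0
  | .pos s u t => φ s * u + t.sm φ
  | .neg s u t => -(φ s * u) + t.sm φ

/-- Sum of the absolute values. -/
def EL.ab {A : Type*} [CommRing A] : EL → A
  | .nil => 0
  | .pos _ u t => u + t.ab
  | .neg _ u t => u + t.ab

/-- The shift occurs. -/
def EL.Mem (s : ℕ) : EL → Prop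
  | .nil => False
  | .pos s' _ t => s' = s ∨ t.Mem s
  | .neg s' _ t => s' = s ∨ t.Mem s

/-- The shift occurs. -/
def CL.Mem (s : ℕ) : CL → Prop
  | .nil => False
  | .cons _ es _ _ t => es.Mem s ∨ t.Mem s

/-- A functional of the elements. -/
def CL.dot {A : Type*} [CommRing A] (O : A) (φ : ℕ → A) : CL → A
  | .nil => 0
  | .cons k es _ _ t => O ^ k * es.sm φ + t.dot O φ

/-- The accumulators. -/
def CL.tT {A : Type*} [CommRing A] (O : A) : CL → A
  | .nil => 0
  | .cons k _ _ T t => O ^ k * T.cc O + t.tT O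

/-- The numbers `V` are right. -/
def CL.VOK (A : Type*) [CommRing A] : CL → Prop
  | .nil => True
  | .cons _ es V _ t => (V : A) = -(es.ab : A) ∧ t.VOK A

/-- The parameters of the modular arithmetic. -/
structure Mod (A : Type*) [CommRing A] (K1 M : ℕ) : Prop where
  h0 : (M : A) = 0
  h1 : ∀ v : ℕ, Nat.land v K1 = v % M
  h2 : 0 < M

namespace VRM

variable {A : Type*} [CommRing A]

theorem land_cast {K1 M : ℕ} (hM : Mod A K1 M) (v : ℕ) : ((Nat.land v K1 : ℕ) : A) = v := by
  rw [hM.h1]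
  conv_rhs => rw [← Nat.div_add_mod v M]
  push_cast
  rw [hM.h0, zero_mul, zero_add]

theorem land_lt {K1 M : ℕ} (hM : Mod A K1 M) (v : ℕ) : Nat.land v K1 < M := by
  rw [hM.h1]; exact Nat.mod_lt _ hM.h2

theorem subM_cast {K1 M : ℕ} (hM : Mod A K1 M) {v : ℕ} (h : v ≤ M) : ((Nat.sub M v : ℕ) : A) = -(v : A) := by
  have : ((M - v : ℕ) : A) = (M : A) - (v : A) := Nat.cast_sub h
  change ((M - v : ℕ) : A) = _
  rw [this, hM.h0, zero_sub]

theorem all_mono {P Q : ℕ → Prop} (h : ∀ v, P v → Q v) : ∀ l : KL, l.All P → l.All Q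
  | .nil, _ => trivial
  | .cons _ _ t, hl => ⟨h _ hl.1, all_mono h t hl.2⟩

theorem all_triv {P : ℕ → Prop} (h : ∀ v, P v) : ∀ l : KL, l.All P
  | .nil => trivial
  | .cons _ _ t => ⟨h _, all_triv h t⟩

theorem mg_nil (f : ℕ → ℕ) (dk : ℕ) (m : KL) : mg f dk .nil m = m := rfl

theorem mg_cons_nil (f : ℕ → ℕ) (dk kx vx : ℕ) (l : KL) :
    mg f dk (.cons kx vx l) .nil = .cons (dk + kx) (f vx) (mg f dk l .nil) := rfl

theorem mg_cons_cons (f : ℕ → ℕ) (dk kx vx ky vy : ℕ) (l m : KL) :
    mg f dk (.cons kx vx l) (.cons ky vy m) =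
      @Bool.rec (fun _ => KL) (KL.cons ky vy (mg f dk (.cons kx vx l) m))
          (@Bool.rec (fun _ => KL) (KL.cons (Nat.add dk kx) (f vx) (mg f dk l (KL.cons ky vy m)))
            (KL.cons ky (Nat.add (f vx) vy) (mg f dk l m)) (Nat.ble ky (Nat.add dk kx)))
          (Nat.ble (Nat.add dk kx) ky) := rfl

theorem mg_cc (O c : A) (f : ℕ → ℕ) (dk : ℕ) (l : KL) : ∀ m : KL, l.All (fun v => ((f v : ℕ) : A) = c * v) →
    (mg f dk l m).cc O = c * O ^ dk * l.cc O + m.cc O := by
  induction l with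
  | nil => intro m _; rw [mg_nil]; simp [KL.cc]
  | cons kx vx l ih =>
    intro m hl
    obtain ⟨h1, h2⟩ := hl
    induction m with
    | nil =>
      rw [mg_cons_nil]
      simp only [KL.cc, ih .nil h2, h1, pow_add]; ring
    | cons ky vy m ihm =>
      rw [mg_cons_cons]
      cases hb : Nat.ble (Nat.add dk kx) ky with
      | false =>
        change (KL.cons ky vy (mg f dk (.cons kx vx l) m)).cc O = _
        simp only [KL.cc] at ihm ⊢
        rw [ihm]; ring
      | true =>
        cases hb2 : Nat.ble ky (Nat.add dk kx) with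
        | false =>
          change (KL.cons (Nat.add dk kx) (f vx) (mg f dk l (KL.cons ky vy m))).cc O = _
          simp only [KL.cc]
          rw [ih _ h2]
          have e : O ^ Nat.add dk kx = O ^ dk * O ^ kx := pow_add O dk kx
          rw [e, h1]
          simp only [KL.cc]; ring
        | true =>
          have e1 : dk + kx = ky := le_antisymm (Nat.le_of_ble_eq_true hb) (Nat.le_of_ble_eq_true hb2)
          change (KL.cons ky (Nat.add (f vx) vy) (mg f dk l m)).cc O = _
          simp only [KL.cc]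
          rw [ih _ h2]
          have e : ((Nat.add (f vx) vy : ℕ) : A) = (f vx : A) + vy := Nat.cast_add _ _
          rw [e, h1, ← e1, pow_add]
          ring

theorem mg_id (O : A) (l m : KL) : (mg (fun v => v) 0 l m).cc O = l.cc O + m.cc O := by
  rw [mg_cc O 1 _ 0 l m (all_triv (fun v => by rw [one_mul]) l)]; simp

theorem rdl_cc {K1 M : ℕ} (hM : Mod A K1 M) (O : A) (dk : ℕ) : ∀ l : KL, (rdl K1 dk l).cc O = O ^ dk * l.cc O
  | .nil => by simp [rdl, KL.cc]
  | .cons k v l => by
    have h : rdl K1 dk (.cons k v l) = .cons (Nat.add dk k) (Nat.land v K1) (rdl K1 dk l) := rfl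
    rw [h]
    simp only [KL.cc]
    rw [rdl_cc hM O dk l, land_cast hM]
    have e : O ^ Nat.add dk k = O ^ dk * O ^ k := pow_add O dk k
    rw [e]; ring

theorem rdl_all {K1 M : ℕ} (hM : Mod A K1 M) (dk : ℕ) : ∀ l : KL, (rdl K1 dk l).All fun v => v ≤ M
  | .nil => trivial
  | .cons _ v l => ⟨(land_lt hM v).le, rdl_all hM dk l⟩

/-- Signed digit. -/
def hdA (A : Type*) [CommRing A] (b o v t : ℕ) : A := (((v >>> t) % b : ℕ) : A) - (o : A)

theorem rwE_cast (b o v i : ℕ) (hb : b = o + o) (hb0 : 0 < b) : ∀ (es : EL) (acc : ℕ),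
    ((rwE b v i es acc : ℕ) : A) = (acc : A) + es.sm (fun s => hdA A b o v (s - i)) + (o : A) * es.ab
  | .nil, acc => by simp [rwE, EL.sm, EL.ab]
  | .pos s u t, acc => by
    have h : rwE b v i (.pos s u t) acc =
      rwE b v i t (Nat.add acc (Nat.mul (Nat.mod (Nat.shiftRight v (Nat.sub s i)) b) u)) := rfl
    rw [h, rwE_cast b o v i hb hb0 t]
    have e : ((Nat.add acc (Nat.mul (Nat.mod (Nat.shiftRight v (Nat.sub s i)) b) u) : ℕ) : A) =
        (acc : A) + (((v >>> (s - i)) % b : ℕ) : A) * u := by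
      change ((acc + ((v >>> (s - i)) % b) * u : ℕ) : A) = _
      push_cast; rfl
    rw [e]
    simp only [EL.sm, EL.ab, hdA]; ring
  | .neg s u t, acc => by
    have h : rwE b v i (.neg s u t) acc =
      rwE b v i t (Nat.add acc (Nat.mul (Nat.sub b (Nat.mod (Nat.shiftRight v (Nat.sub s i)) b)) u)) := rfl
    rw [h, rwE_cast b o v i hb hb0 t]
    have e : ((Nat.add acc (Nat.mul (Nat.sub b (Nat.mod (Nat.shiftRight v (Nat.sub s i)) b)) u) : ℕ) : A) =
        (acc : A) + ((o : A) + o - (((v >>> (s - i)) % b : ℕ) : A)) * u := by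
      change ((acc + (b - (v >>> (s - i)) % b) * u : ℕ) : A) = _
      rw [Nat.cast_add, Nat.cast_mul, Nat.cast_sub (Nat.mod_lt _ hb0).le]
      congr 2
      rw [show ((b : ℕ) : A) = (o : A) + o by rw [hb]; push_cast; ring]
    rw [e]
    simp only [EL.sm, EL.ab, hdA]; ring

theorem rwS_cc {K1 M : ℕ} (hM : Mod A K1 M) (O : A) (b o v i : ℕ) (hb : b = o + o) (hb0 : 0 < b) : ∀ cl : CL,
    cl.VOK A → (rwS b o K1 v i cl).cc O = cl.dot O (fun s => hdA A b o v (s - i))
  | .nil, _ => rfl
  | .cons k es V T t, h => by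
    have h1 : rwS b o K1 v i (.cons k es V T t) =
      .cons k (Nat.land (rwE b v i es (Nat.mul o V)) K1) (rwS b o K1 v i t) := rfl
    rw [h1]
    simp only [KL.cc, CL.dot]
    rw [land_cast hM, rwE_cast b o v i hb hb0, rwS_cc hM O b o v i hb hb0 t h.2]
    have e : ((Nat.mul o V : ℕ) : A) = (o : A) * V := Nat.cast_mul _ _
    rw [e, h.1]; ring

theorem rwS_all {K1 M : ℕ} (hM : Mod A K1 M) (b o v i : ℕ) : ∀ cl : CL,
    (rwS b o K1 v i cl).All fun v => v ≤ M
  | .nil => trivial
  | .cons _ _ _ _ t => ⟨(land_lt hM _).le, rwS_all hM b o v i t⟩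

/-- Result of `upS`. -/
structure UpR (A : Type*) [CommRing A] (O : A) (i : ℕ) (R : A) (cl cl' : CL) (hs : A) : Prop where
  tt : cl'.tT O = cl.tT O + hs * R
  dt : ∀ φ : ℕ → A, cl.dot O φ = cl'.dot O φ + φ i * hs
  vo : cl'.VOK A
  mm : ∀ p : ℕ → Prop, p i → (∀ s, cl'.Mem s → p s) → ∀ s, cl.Mem s → p s

theorem upR_same {O : A} {i : ℕ} {R : A} {t t' : CL} {hs : A} (h : UpR A O i R t t' hs) (k : ℕ) (es : EL) (V : ℕ) (T : KL)
    (hV : (V : A) = -(es.ab : A)) : UpR A O i R (.cons k es V T t) (.cons k es V T t') hs where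
  tt := by simp only [CL.tT]; rw [h.tt]; ring
  dt := fun φ => by simp only [CL.dot]; rw [h.dt φ]; ring
  vo := ⟨hV, h.vo⟩
  mm := fun p hp hm s hs' => by
    rcases hs' with h1 | h1
    · exact hm s (Or.inl h1)
    · exact h.mm p hp (fun s hs => hm s (Or.inr hs)) s h1

theorem upS_spec {K1 M : ℕ} (hM : Mod A K1 M) (O : A) (i : ℕ) (r : KL) (hr : r.All fun v => v ≤ M) : ∀ cl : CL,
    cl.VOK A → ∃ hs : A, UpR A O i (r.cc O) cl (upS M i r cl) hs
  | .nil, _ => ⟨0, by simp [upS], fun φ => by simp [upS], trivial, fun p _ hm => hm⟩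
  | .cons k .nil V T t, h => by
    obtain ⟨hs, h1⟩ := upS_spec hM O i r hr t h.2
    have e : upS M i r (.cons k .nil V T t) = .cons k .nil V T (upS M i r t) := rfl
    rw [e]
    exact ⟨hs, upR_same h1 k .nil V T h.1⟩
  | .cons k (.pos s u es) V T t, h => by
    obtain ⟨hs, h1⟩ := upS_spec hM O i r hr t h.2
    have e : upS M i r (.cons k (.pos s u es) V T t) =
      @Bool.rec (fun _ => CL) (CL.cons k (.pos s u es) V T (upS M i r t))
        (CL.cons k es (Nat.add V u) (mg (Nat.mul u) 0 r T) (upS M i r t)) (Nat.beq s i) := rfl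
    rw [e]
    cases hb : Nat.beq s i with
    | false => exact ⟨hs, upR_same h1 k _ V T h.1⟩
    | true =>
      have hsi : s = i := Nat.eq_of_beq_eq_true hb
      have hT : (mg (Nat.mul u) 0 r T).cc O = (u : A) * r.cc O + T.cc O := by
        rw [mg_cc O (u : A) (Nat.mul u) 0 r T (all_triv (fun v => Nat.cast_mul u v) r)]; simp
      refine ⟨hs + O ^ k * u, ?_, fun φ => ?_, ?_, fun p hp hm s' hs' => ?_⟩
      · simp only [CL.tT]; rw [h1.tt, hT]; ring
      · simp only [CL.dot, EL.sm]; rw [h1.dt φ, hsi]; ring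
      · refine ⟨?_, h1.vo⟩
        have e2 : ((Nat.add V u : ℕ) : A) = (V : A) + u := Nat.cast_add _ _
        rw [e2, h.1]
        simp only [EL.ab]; ring
      · rcases hs' with (h2 | h2) | h2
        · rw [← h2, hsi]; exact hp
        · exact hm s' (Or.inl h2)
        · exact h1.mm p hp (fun s hs => hm s (Or.inr hs)) s' h2
  | .cons k (.neg s u es) V T t, h => by
    obtain ⟨hs, h1⟩ := upS_spec hM O i r hr t h.2
    have e : upS M i r (.cons k (.neg s u es) V T t) =
      @Bool.rec (fun _ => CL) (CL.cons k (.neg s u es) V T (upS M i r t))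
        (CL.cons k es (Nat.add V u) (mg (fun v => Nat.mul u (Nat.sub M v)) 0 r T) (upS M i r t)) (Nat.beq s i) := rfl
    rw [e]
    cases hb : Nat.beq s i with
    | false => exact ⟨hs, upR_same h1 k _ V T h.1⟩
    | true =>
      have hsi : s = i := Nat.eq_of_beq_eq_true hb
      have hT : (mg (fun v => Nat.mul u (Nat.sub M v)) 0 r T).cc O = -(u : A) * r.cc O + T.cc O := by
        rw [mg_cc O (-(u : A)) _ 0 r T (all_mono (fun v hv => ?_) r hr)]
        · simp
        · have e1 : ((Nat.mul u (Nat.sub M v) : ℕ) : A) = (u : A) * ((Nat.sub M v : ℕ) : A) := Nat.cast_mul _ _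
          rw [e1, subM_cast hM hv]; ring
      refine ⟨hs - O ^ k * u, ?_, fun φ => ?_, ?_, fun p hp hm s' hs' => ?_⟩
      · simp only [CL.tT]; rw [h1.tt, hT]; ring
      · simp only [CL.dot, EL.sm]; rw [h1.dt φ, hsi]; ring
      · refine ⟨?_, h1.vo⟩
        have e2 : ((Nat.add V u : ℕ) : A) = (V : A) + u := Nat.cast_add _ _
        rw [e2, h.1]
        simp only [EL.ab]; ring
      · rcases hs' with (h2 | h2) | h2
        · rw [← h2, hsi]; exact hp
        · exact hm s' (Or.inl h2)
        · exact h1.mm p hp (fun s hs => hm s (Or.inr hs)) s' h2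

theorem popS_spec {K1 M : ℕ} (hM : Mod A K1 M) (O : A) (cl : CL) (out : LL) (h : cl.VOK A) :
    ∃ (cl' : CL) (out' : LL), (∀ {α : Type} (k : CL → LL → α), popS K1 cl out k = k cl' out') ∧
      cl'.tT O + out'.cc O = cl.tT O + out.cc O ∧ (∀ φ : ℕ → A, cl'.dot O φ = cl.dot O φ) ∧ cl'.VOK A ∧
      (∀ s, cl.Mem s ↔ cl'.Mem s) := by
  cases cl with
  | nil => exact ⟨.nil, out, fun k => rfl, rfl, fun φ => rfl, trivial, fun s => Iff.rfl⟩
  | cons c es V T t =>
    cases es with
    | nil =>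
      refine ⟨t, .cons (rdl K1 c T) out, fun k => rfl, ?_, fun φ => ?_, h.2, fun s => ?_⟩
      · simp only [LL.cc, CL.tT]; rw [rdl_cc hM]; ring
      · simp only [CL.dot, EL.sm]; ring
      · simp only [CL.Mem, EL.Mem, false_or]
    | pos s u es => exact ⟨_, out, fun k => rfl, rfl, fun φ => rfl, h, fun s => Iff.rfl⟩
    | neg s u es => exact ⟨_, out, fun k => rfl, rfl, fun φ => rfl, h, fun s => Iff.rfl⟩

/-- The element number `s`. -/
def zfV (O : A) (cl : CL) (s : ℕ) : A := cl.dot O (fun t => if t = s then 1 else 0)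

theorem sm_congr (φ ψ : ℕ → A) : ∀ es : EL, (∀ s, es.Mem s → φ s = ψ s) → es.sm φ = es.sm ψ
  | .nil, _ => rfl
  | .pos s u t, h => by
    simp only [EL.sm]; rw [h s (Or.inl rfl), sm_congr φ ψ t fun s hs => h s (Or.inr hs)]
  | .neg s u t, h => by
    simp only [EL.sm]; rw [h s (Or.inl rfl), sm_congr φ ψ t fun s hs => h s (Or.inr hs)]

theorem dot_congr (O : A) (φ ψ : ℕ → A) : ∀ cl : CL, (∀ s, cl.Mem s → φ s = ψ s) → cl.dot O φ = cl.dot O ψ
  | .nil, _ => rfl
  | .cons k es V T t, h => by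
    simp only [CL.dot]
    rw [sm_congr φ ψ es fun s hs => h s (Or.inl hs), dot_congr O φ ψ t fun s hs => h s (Or.inr hs)]

theorem sm_sum (n : ℕ) (F : ℕ → ℕ → A) (w : ℕ → A) : ∀ es : EL,
    es.sm (fun s => ∑ j ∈ Finset.range n, w j * F j s) = ∑ j ∈ Finset.range n, w j * es.sm (F j)
  | .nil => by simp [EL.sm]
  | .pos s u t => by
    simp only [EL.sm]
    rw [sm_sum n F w t, Finset.sum_mul, ← Finset.sum_add_distrib]
    exact Finset.sum_congr rfl fun j _ => by ring
  | .neg s u t => by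
    simp only [EL.sm]
    rw [sm_sum n F w t, Finset.sum_mul, ← Finset.sum_neg_distrib, ← Finset.sum_add_distrib]
    exact Finset.sum_congr rfl fun j _ => by ring

theorem dot_sum (O : A) (n : ℕ) (F : ℕ → ℕ → A) (w : ℕ → A) : ∀ cl : CL,
    cl.dot O (fun s => ∑ j ∈ Finset.range n, w j * F j s) = ∑ j ∈ Finset.range n, w j * cl.dot O (F j)
  | .nil => by simp [CL.dot]
  | .cons k es V T t => by
    simp only [CL.dot]
    rw [sm_sum n F w es, dot_sum O n F w t, Finset.mul_sum, ← Finset.sum_add_distrib]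
    exact Finset.sum_congr rfl fun j _ => by ring

/-- Expansion of a functional in the elements. -/
theorem dot_expand (O : A) (φ : ℕ → A) (i c n : ℕ) (hc : 0 < c) (cl : CL)
    (h : ∀ s, cl.Mem s → ∃ j < n, s = i + c * j) :
    cl.dot O φ = ∑ j ∈ Finset.range n, φ (i + c * j) * zfV O cl (i + c * j) := by
  unfold zfV
  rw [← dot_sum O n (fun j s => if s = i + c * j then 1 else 0) (fun j => φ (i + c * j)) cl]
  refine dot_congr O _ _ cl fun s hs => ?_
  obtain ⟨j, hj, rfl⟩ := h s hs
  rw [Finset.sum_eq_single_of_mem j (Finset.mem_range.2 hj)]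
  · simp
  · intro j' _ hj'
    rw [if_neg, mul_zero]
    intro h2
    have h3 : c * j = c * j' := by omega
    exact hj' (Nat.eq_of_mul_eq_mul_left hc h3).symm

theorem sm_zero (φ : ℕ → A) (es : EL) (h : ∀ s, es.Mem s → φ s = 0) : es.sm φ = 0 := by
  rw [sm_congr φ (fun _ => 0) es h]
  clear h
  induction es with
  | nil => rfl
  | pos s u t ih => simp only [EL.sm]; rw [ih]; ring
  | neg s u t ih => simp only [EL.sm]; rw [ih]; ring

theorem dot_zero (O : A) (φ : ℕ → A) (cl : CL) (h : ∀ s, cl.Mem s → φ s = 0) : cl.dot O φ = 0 := by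
  induction cl with
  | nil => rfl
  | cons k es V T t ih =>
    simp only [CL.dot]
    rw [sm_zero φ es fun s hs => h s (Or.inl hs), ih fun s hs => h s (Or.inr hs)]; ring

theorem rnS_spec {K1 M : ℕ} (hM : Mod A K1 M) (O : A) (b o c : ℕ) (hc : 0 < c) (hb : b = 2 ^ c) (ho : b = o + o)
    (rows : List ℕ) : ∀ (i : ℕ) (cl : CL) (out : LL), cl.VOK A →
    ∃ (cl' : CL) (out' : LL), (∀ {α : Type} (k : CL → LL → α), rnS b o c K1 M k rows i cl out = k cl' out') ∧
      ((∀ s, ¬ cl'.Mem s) → (∀ s, cl.Mem s → ∃ j < rows.length, s = i + c * j) ∧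
        cl'.tT O + out'.cc O = cl.tT O + out.cc O +
          qR b o rows ((List.range rows.length).map fun j => zfV O cl (i + c * j))) := by
  have hb0 : 0 < b := by rw [hb]; positivity
  induction rows with
  | nil =>
    intro i cl out _
    exact ⟨cl, out, fun k => rfl, fun h => ⟨fun s hs => absurd hs (h s), by simp [qR]⟩⟩
  | cons v rows ih =>
    intro i cl out hv
    have h1 := rwS_cc hM O b o v i ho hb0 cl hv
    obtain ⟨hs, h3⟩ := upS_spec hM O i (rwS b o K1 v i cl) (rwS_all hM b o v i cl) cl hv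
    obtain ⟨cl1, out1, h4, h5, h6, h6v, h6m⟩ := popS_spec hM O _ out h3.vo
    obtain ⟨cl', out', h7, h8⟩ := ih (i + c) cl1 out1 h6v
    refine ⟨cl', out', fun k => ?_, fun h => ?_⟩
    · have : rnS b o c K1 M k (v :: rows) i cl out =
        popS K1 (upS M i (rwS b o K1 v i cl) cl) out (rnS b o c K1 M k rows (Nat.add i c)) := rfl
      rw [this, h4]
      exact h7 k
    · obtain ⟨h9, h10⟩ := h8 h
      have hmem : ∀ s, cl.Mem s → ∃ j < (v :: rows).length, s = i + c * j := by
        refine h3.mm (fun s => ∃ j < (v :: rows).length, s = i + c * j) ⟨0, by simp, by simp⟩ fun s hs' => ?_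
        obtain ⟨j, hj, hje⟩ := h9 s ((h6m s).1 hs')
        exact ⟨j + 1, by simpa using hj, by rw [hje]; ring⟩
      refine ⟨hmem, ?_⟩
      have hz0 : zfV O cl1 i = 0 := by
        refine dot_zero O _ cl1 fun s hs' => ?_
        obtain ⟨j, _, hje⟩ := h9 s hs'
        rw [if_neg]; omega
      have hzi : zfV O cl i = hs := by
        have := h3.dt (fun t => if t = i then 1 else 0)
        unfold zfV at hz0 ⊢
        rw [this, ← h6, hz0, if_pos rfl]; ring
      have hzj : ∀ j, zfV O cl (i + c * (j + 1)) = zfV O cl1 (i + c + c * j) := by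
        intro j
        have := h3.dt (fun t => if t = i + c * (j + 1) then 1 else 0)
        unfold zfV
        have hne : ¬ (i = i + c * (j + 1)) := by
          have : 0 < c * (j + 1) := Nat.mul_pos hc (Nat.succ_pos j)
          omega
        rw [this, if_neg hne, zero_mul, add_zero, ← h6]
        have e1 : i + c * (j + 1) = i + c + c * j := by ring
        rw [e1]
      have hconc : (rwS b o K1 v i cl).cc O =
          dotR b o v ((List.range (v :: rows).length).map fun j => zfV O cl (i + c * j)) := by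
        rw [h1, dot_expand O _ i c (v :: rows).length hc cl hmem, BlkM.dotR_range]
        refine Finset.sum_congr rfl fun j _ => ?_
        congr 1
        unfold hdA PsdM.sd dig
        rw [Nat.add_sub_cancel_left, Nat.shiftRight_eq_div_pow, pow_mul, ← hb]
        exact (Int.cast_sub _ _).trans (congrArg₂ _ (Int.cast_natCast _) (Int.cast_natCast _)) |>.symm
      have h11 : (upS M i (rwS b o K1 v i cl) cl).tT O + out.cc O = cl1.tT O + out1.cc O := h5.symm
      rw [h10, ← h11, h3.tt]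
      rw [List.length_cons, List.range_succ_eq_map, List.map_cons, List.map_map]
      rw [List.length_cons, List.range_succ_eq_map, List.map_cons, List.map_map] at hconc
      simp only [qR]
      rw [← hconc, mul_zero, add_zero, hzi]
      have e2 : (List.range rows.length).map ((fun j => zfV O cl (i + c * j)) ∘ Nat.succ) =
          (List.range rows.length).map fun j => zfV O cl1 (i + c + c * j) := by
        refine List.map_congr_left fun j _ => ?_
        exact hzj j
      rw [e2]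
      ring

theorem fnS_spec {K1 M : ℕ} (hM : Mod A K1 M) (O : A) : ∀ (cl : CL) (out : LL),
    (∀ {α : Type} (bad : α) (k : LL → α), fnS K1 bad k cl out = bad) ∨
      ((∀ s, ¬ cl.Mem s) ∧ ∃ out', (∀ {α : Type} (bad : α) (k : LL → α), fnS K1 bad k cl out = k out') ∧
        out'.cc O = cl.tT O + out.cc O)
  | .nil, out => Or.inr ⟨fun _ h => h, out, fun _ k => rfl, by simp [CL.tT]⟩
  | .cons c (.pos s u es) V T t, out => Or.inl fun bad k => rfl
  | .cons c (.neg s u es) V T t, out => Or.inl fun bad k => rfl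
  | .cons c .nil V T t, out => by
    rcases fnS_spec hM O t (.cons (rdl K1 c T) out) with h | ⟨h1, out', h2, h3⟩
    · exact Or.inl fun bad k => h bad k
    · refine Or.inr ⟨fun s hs => ?_, out', fun bad k => h2 bad k, ?_⟩
      · rcases hs with h4 | h4
        · exact h4
        · exact h1 s h4
      · rw [h3]; simp only [LL.cc, CL.tT]; rw [rdl_cc hM]; ring

/-- The inner function of `prU`. -/
noncomputable def prW (l : LL) : LL → LL :=
  @LL.rec (fun _ => LL → LL) (fun pend => pend)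
    (fun x _ ih pend => @LL.rec (fun _ => LL) (ih (LL.cons x LL.nil))
      (fun y _ _ => LL.cons (mg (fun v => v) 0 x y) (ih LL.nil)) pend) l

theorem prW_cc (O : A) : ∀ l : LL, (prW l .nil).cc O = l.cc O ∧ ∀ y : KL, (prW l (.cons y .nil)).cc O = l.cc O + y.cc O
  | .nil => ⟨rfl, fun y => by change (LL.cons y .nil).cc O = _; simp only [LL.cc]; ring⟩
  | .cons x l => by
    obtain ⟨h1, h2⟩ := prW_cc O l
    constructor
    · change (prW l (.cons x .nil)).cc O = _
      rw [h2]; simp only [LL.cc]; ring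
    · intro y
      change (LL.cons (mg (fun v => v) 0 x y) (prW l .nil)).cc O = _
      simp only [LL.cc]
      rw [h1, mg_id]; ring

theorem mgA_cc (O : A) : ∀ l : LL, (mgA l).cc O = l.cc O
  | .nil => rfl
  | .cons x l => by
    change (mg (fun v => v) 0 x (mgA l)).cc O = _
    rw [mg_id, mgA_cc O l]; rfl

theorem mgT_cc (O : A) (n : ℕ) (l : LL) : (mgT n l).cc O = l.cc O := by
  have : ∀ n : ℕ, (@Nat.rec (fun _ => LL) l (fun _ r => prU r) n : LL).cc O = l.cc O := by
    intro n
    induction n with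
    | zero => rfl
    | succ n ih =>
      change (prW (@Nat.rec (fun _ => LL) l (fun _ r => prU r) n : LL) .nil).cc O = _
      rw [(prW_cc O _).1, ih]
  unfold mgT
  rw [mgA_cc, this]

theorem pk_int (B : ℕ) (tp : List (ℕ × ℤ)) : (pkP B tp : ℤ) - (pkN B tp : ℤ) = pkv (B : ℤ) tp := by
  induction tp with
  | nil => simp [pkP, pkN, pkv]
  | cons e tp ih =>
    obtain ⟨s, c⟩ := e
    have e2 : pkv (B : ℤ) ((s, c) :: tp) = c * (B : ℤ) ^ s + pkv (B : ℤ) tp := by simp [pkv]
    rw [e2, ← ih]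
    cases c with
    | ofNat n =>
      have h1 : pkP B ((s, Int.ofNat n) :: tp) = Nat.add (Nat.mul n (Nat.pow B s)) (pkP B tp) := rfl
      have h2 : pkN B ((s, Int.ofNat n) :: tp) = pkN B tp := rfl
      rw [h1, h2]
      change (((n * B ^ s + pkP B tp : ℕ) : ℤ)) - _ = _
      push_cast
      rw [Int.ofNat_eq_natCast]; ring
    | negSucc n =>
      have h1 : pkP B ((s, Int.negSucc n) :: tp) = pkP B tp := rfl
      have h2 : pkN B ((s, Int.negSucc n) :: tp) = Nat.add (Nat.mul (Nat.succ n) (Nat.pow B s)) (pkN B tp) := rfl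
      rw [h1, h2]
      change _ - (((n.succ * B ^ s + pkN B tp : ℕ) : ℤ)) = _
      push_cast
      rw [Int.negSucc_eq]; ring

theorem pk_cast (B : ℕ) (tp : List (ℕ × ℤ)) : (pkP B tp : A) - (pkN B tp : A) = ((pkv (B : ℤ) tp : ℤ) : A) := by
  rw [← pk_int]; push_cast; rfl

theorem elS_sm (B : ℕ) (φ : ℕ → A) (es : List (ℕ × List (ℕ × ℤ))) :
    (elS B es).sm φ = (es.map fun e => φ e.1 * ((pkv (B : ℤ) e.2 : ℤ) : A)).sum := by
  induction es with
  | nil => rfl
  | cons e es ih =>
    have h : elS B (e :: es) = @Bool.rec (fun _ => EL) (EL.neg e.1 (Nat.sub (pkN B e.2) (pkP B e.2)) (elS B es))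
      (EL.pos e.1 (Nat.sub (pkP B e.2) (pkN B e.2)) (elS B es)) (Nat.ble (pkN B e.2) (pkP B e.2)) := rfl
    rw [h, List.map_cons, List.sum_cons, ← ih, ← pk_cast]
    cases hb : Nat.ble (pkN B e.2) (pkP B e.2) with
    | false =>
      change (EL.neg e.1 (Nat.sub (pkN B e.2) (pkP B e.2)) (elS B es)).sm φ = _
      have hle : pkP B e.2 ≤ pkN B e.2 := by
        by_contra hh
        rw [Nat.ble_eq_true_of_le (by omega)] at hb
        exact absurd hb (by decide)
      simp only [EL.sm]
      have e1 : ((Nat.sub (pkN B e.2) (pkP B e.2) : ℕ) : A) = (pkN B e.2 : A) - pkP B e.2 := Nat.cast_sub hle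
      rw [e1]; ring
    | true =>
      change (EL.pos e.1 (Nat.sub (pkP B e.2) (pkN B e.2)) (elS B es)).sm φ = _
      have hle : pkN B e.2 ≤ pkP B e.2 := Nat.le_of_ble_eq_true hb
      simp only [EL.sm]
      have e1 : ((Nat.sub (pkP B e.2) (pkN B e.2) : ℕ) : A) = (pkP B e.2 : A) - pkN B e.2 := Nat.cast_sub hle
      rw [e1]

theorem smU_ab : ∀ es : EL, ((smU es : ℕ) : A) = es.ab
  | .nil => by simp [smU, EL.ab]
  | .pos s u t => by
    have h : smU (.pos s u t) = Nat.add u (smU t) := rfl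
    have e : ((Nat.add u (smU t) : ℕ) : A) = (u : A) + (smU t : ℕ) := Nat.cast_add _ _
    rw [h, e, smU_ab t]; rfl
  | .neg s u t => by
    have h : smU (.neg s u t) = Nat.add u (smU t) := rfl
    have e : ((Nat.add u (smU t) : ℕ) : A) = (u : A) + (smU t : ℕ) := Nat.cast_add _ _
    rw [h, e, smU_ab t]; rfl

/-- The functional on the data of a block. -/
def zdA (B : ℕ) (O : A) (φ : ℕ → A) (cs : List (ℕ × List (ℕ × List (ℕ × ℤ)))) : A :=
  (cs.map fun c => O ^ c.1 * (c.2.map fun e => φ e.1 * ((pkv (B : ℤ) e.2 : ℤ) : A)).sum).sum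

theorem clS_spec {K1 M : ℕ} (hM : Mod A K1 M) (B : ℕ) (O : A) (cs : List (ℕ × List (ℕ × List (ℕ × ℤ)))) :
    (clS B K1 M cs).VOK A ∧ (clS B K1 M cs).tT O = 0 ∧ ∀ φ : ℕ → A, (clS B K1 M cs).dot O φ = zdA B O φ cs := by
  induction cs with
  | nil => exact ⟨trivial, rfl, fun φ => rfl⟩
  | cons c cs ih =>
    obtain ⟨h1, h2, h3⟩ := ih
    have h : clS B K1 M (c :: cs) =
      .cons c.1 (elS B c.2) (Nat.sub M (Nat.land (smU (elS B c.2)) K1)) .nil (clS B K1 M cs) := rfl
    rw [h]
    refine ⟨⟨?_, h1⟩, ?_, fun φ => ?_⟩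
    · rw [subM_cast hM (land_lt hM _).le, land_cast hM, smU_ab]
    · simp only [CL.tT, KL.cc]; rw [h2]; ring
    · simp only [CL.dot]
      rw [h3, elS_sm]
      simp [zdA]

/-- The value of a block. -/
def bvA (b o c B : ℕ) (O : A) (x : Ins) : A :=
  qR b o x.rows ((List.range x.rows.length).map fun j => zdA B O (fun t => if t = c * j then 1 else 0) x.cs)

theorem blS_spec {K1 M : ℕ} (hM : Mod A K1 M) (O : A) (B b o c : ℕ) (hc : 0 < c) (hb : b = 2 ^ c) (ho : b = o + o)
    (bl : List Ins) : ∀ out : LL,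
    (∀ {α : Type} (bad : α) (k : LL → α), blS B b o c K1 M bad k bl out = bad) ∨
      ∃ out', (∀ {α : Type} (bad : α) (k : LL → α), blS B b o c K1 M bad k bl out = k out') ∧
        out'.cc O = out.cc O + (bl.map (bvA b o c B O)).sum := by
  induction bl with
  | nil => intro out; exact Or.inr ⟨out, fun _ k => rfl, by simp⟩
  | cons x bl ih =>
    intro out
    obtain ⟨g1, g2, g3⟩ := clS_spec hM B O x.cs
    obtain ⟨cl', out1, h1, h2⟩ := rnS_spec hM O b o c hc hb ho x.rows 0 (clS B K1 M x.cs) out g1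
    have hdef : ∀ {α : Type} (bad : α) (k : LL → α), blS B b o c K1 M bad k (x :: bl) out =
        fnS K1 bad (blS B b o c K1 M bad k bl) cl' out1 := by
      intro α bad k
      have : blS B b o c K1 M bad k (x :: bl) out = rnS b o c K1 M (fun cl out =>
        fnS K1 bad (blS B b o c K1 M bad k bl) cl out) x.rows 0 (clS B K1 M x.cs) out := rfl
      rw [this, h1]
    rcases fnS_spec hM O cl' out1 with h3 | ⟨h3, out2, h4, h5⟩
    · left; intro α bad k; rw [hdef]; exact h3 _ _
    · rcases ih out2 with h6 | ⟨out3, h6, h7⟩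
      · left; intro α bad k; rw [hdef, h4]; exact h6 _ _
      · right
        refine ⟨out3, fun bad k => by rw [hdef, h4]; exact h6 _ _, ?_⟩
        obtain ⟨_, h8⟩ := h2 h3
        rw [h7, h5, h8, g2, List.map_cons, List.sum_cons]
        have e : ((List.range x.rows.length).map fun j => zfV O (clS B K1 M x.cs) (0 + c * j)) =
            (List.range x.rows.length).map fun j => zdA B O (fun t => if t = c * j then 1 else 0) x.cs := by
          refine List.map_congr_left fun j _ => ?_
          unfold zfV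
          rw [g3, zero_add]
        rw [e]
        unfold bvA
        ring

/-- Value of an explicit polynomial. -/
def xvA (B : ℕ) (O : A) (m : List (ℕ × List (ℕ × ℤ))) : A := (m.map fun e => ((pkv (B : ℤ) e.2 : ℤ) : A) * O ^ e.1).sum

theorem mpS_cc {K1 M : ℕ} (hM : Mod A K1 M) (B : ℕ) (O : A) (σ : KL) (hσ : σ.All fun v => v ≤ M)
    (m : List (ℕ × List (ℕ × ℤ))) : ∀ t : KL, (mpS B M σ m t).cc O = t.cc O + xvA B O m * σ.cc O := by
  induction m with
  | nil => intro t; simp [mpS, xvA]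
  | cons e m ih =>
    intro t
    have h : mpS B M σ (e :: m) t = mpS B M σ m (@Bool.rec (fun _ => KL)
      (mg (fun v => Nat.mul (Nat.sub (pkN B e.2) (pkP B e.2)) (Nat.sub M v)) e.1 σ t)
      (mg (Nat.mul (Nat.sub (pkP B e.2) (pkN B e.2))) e.1 σ t) (Nat.ble (pkN B e.2) (pkP B e.2))) := rfl
    have h2 : xvA B O (e :: m) = ((pkv (B : ℤ) e.2 : ℤ) : A) * O ^ e.1 + xvA B O m := by simp [xvA]
    rw [h, ih, h2, ← pk_cast]
    cases hb : Nat.ble (pkN B e.2) (pkP B e.2) with
    | false =>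
      have hle : pkP B e.2 ≤ pkN B e.2 := by
        by_contra hh
        rw [Nat.ble_eq_true_of_le (by omega)] at hb
        exact absurd hb (by decide)
      have e1 : ((Nat.sub (pkN B e.2) (pkP B e.2) : ℕ) : A) = (pkN B e.2 : A) - pkP B e.2 := Nat.cast_sub hle
      change (mg (fun v => Nat.mul (Nat.sub (pkN B e.2) (pkP B e.2)) (Nat.sub M v)) e.1 σ t).cc O + _ = _
      rw [mg_cc O ((pkP B e.2 : A) - pkN B e.2) _ e.1 σ t (all_mono (fun v hv => ?_) σ hσ)]
      · ring
      · have e2 : ((Nat.mul (Nat.sub (pkN B e.2) (pkP B e.2)) (Nat.sub M v) : ℕ) : A) =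
            ((Nat.sub (pkN B e.2) (pkP B e.2) : ℕ) : A) * ((Nat.sub M v : ℕ) : A) := Nat.cast_mul _ _
        rw [e2, e1, subM_cast hM hv]; ring
    | true =>
      have hle : pkN B e.2 ≤ pkP B e.2 := Nat.le_of_ble_eq_true hb
      have e1 : ((Nat.sub (pkP B e.2) (pkN B e.2) : ℕ) : A) = (pkP B e.2 : A) - pkN B e.2 := Nat.cast_sub hle
      change (mg (Nat.mul (Nat.sub (pkP B e.2) (pkN B e.2))) e.1 σ t).cc O + _ = _
      rw [mg_cc O ((pkP B e.2 : A) - pkN B e.2) _ e.1 σ t (all_triv (fun v => ?_) σ)]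
      · ring
      · have e2 : ((Nat.mul (Nat.sub (pkP B e.2) (pkN B e.2)) v : ℕ) : A) =
            ((Nat.sub (pkP B e.2) (pkN B e.2) : ℕ) : A) * (v : A) := Nat.cast_mul _ _
        rw [e2, e1]

/-- The value of the whole sum. -/
def svA (b o c B : ℕ) (O : A) (ms : List MB) : A :=
  (ms.map fun x => xvA B O x.m * (x.bl.map (bvA b o c B O)).sum).sum

theorem soS_spec {K1 M : ℕ} (hM : Mod A K1 M) (O : A) (B b o c n : ℕ) (hc : 0 < c) (hb : b = 2 ^ c) (ho : b = o + o)
    (ms : List MB) : ∀ tot : KL,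
    (∀ {α : Type} (bad : α) (k : KL → α), soS B b o c K1 M n bad k ms tot = bad) ∨
      ∃ r, (∀ {α : Type} (bad : α) (k : KL → α), soS B b o c K1 M n bad k ms tot = k r) ∧
        r.cc O = tot.cc O + svA b o c B O ms := by
  induction ms with
  | nil => intro tot; exact Or.inr ⟨tot, fun _ k => rfl, by simp [svA]⟩
  | cons x ms ih =>
    intro tot
    have hdef : ∀ {α : Type} (bad : α) (k : KL → α), soS B b o c K1 M n bad k (x :: ms) tot =
        blS B b o c K1 M bad (fun ll => soS B b o c K1 M n bad k ms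
          (mpS B M (rdl K1 0 (mgT n ll)) x.m tot)) x.bl LL.nil := fun bad k => rfl
    rcases blS_spec hM O B b o c hc hb ho x.bl .nil with h1 | ⟨out, h1, h2⟩
    · left; intro α bad k; rw [hdef]; exact h1 _ _
    · rcases ih (mpS B M (rdl K1 0 (mgT n out)) x.m tot) with h3 | ⟨r, h3, h4⟩
      · left; intro α bad k; rw [hdef, h1]; exact h3 _ _
      · right
        refine ⟨r, fun bad k => by rw [hdef, h1]; exact h3 _ _, ?_⟩
        rw [h4, mpS_cc hM B O _ (rdl_all hM 0 _), rdl_cc hM, mgT_cc, h2]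
        simp only [svA, List.map_cons, List.sum_cons, LL.cc, pow_zero]; ring

theorem azS_cc {K1 M : ℕ} (hM : Mod A K1 M) (O : A) : ∀ l : KL, azS K1 l = true → l.cc O = 0
  | .nil, _ => rfl
  | .cons k v l, h => by
    have h1 : azS K1 (.cons k v l) = @Bool.rec (fun _ => Bool) false (azS K1 l) (Nat.ble (Nat.land v K1) 0) := rfl
    rw [h1] at h
    obtain ⟨h2, h3⟩ := SosM.brec_true h
    have h4 : Nat.land v K1 = 0 := Nat.le_zero.1 (Nat.le_of_ble_eq_true h2)
    have h5 : (v : A) = 0 := by rw [← land_cast hM v, h4, Nat.cast_zero]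
    simp only [KL.cc]
    rw [azS_cc hM O l h3, h5]; ring

/-! ### Expressions -/

theorem mlS_cc {K1 M : ℕ} (hM : Mod A K1 M) (O : A) (m : KL) : ∀ l acc : KL,
    (mlS K1 m l acc).cc O = acc.cc O + l.cc O * m.cc O
  | .nil, acc => by simp [mlS, KL.cc]
  | .cons k v l, acc => by
    have h : mlS K1 m (.cons k v l) acc = mlS K1 m l (mg (fun w => Nat.land (Nat.mul v w) K1) k m acc) := rfl
    rw [h, mlS_cc hM O m l, mg_cc O (v : A) _ k m acc (all_triv (fun w => ?_) m)]
    · simp only [KL.cc]; ring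
    · rw [land_cast hM]; exact Nat.cast_mul _ _

theorem rsI_cast {K1 M : ℕ} (hM : Mod A K1 M) (n : ℤ) : ((rsI K1 M n : ℕ) : A) = (n : A) := by
  cases n with
  | ofNat n =>
    change ((n : ℕ) : A) = ((Int.ofNat n : ℤ) : A)
    rw [Int.ofNat_eq_natCast, Int.cast_natCast]
  | negSucc n =>
    change ((Nat.sub M (Nat.land (Nat.succ n) K1) : ℕ) : A) = _
    rw [subM_cast hM (land_lt hM _).le, land_cast hM, Int.cast_negSucc]

theorem nthL_nil (i : ℕ) : nthL .nil i = .nil := rfl

/-- **Expressions.** -/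
theorem exV_cc {K1 M : ℕ} (hM : Mod A K1 M) (O : A) (env : LL) (e : Ex) :
    (exV K1 M env e).cc O = e.val fun i => (nthL env i).cc O := by
  induction e with
  | v i => rfl
  | c n =>
    have h : exV K1 M env (.c n) = .cons 0 (rsI K1 M n) .nil := rfl
    rw [h]
    simp only [KL.cc, Ex.val, pow_zero, mul_one, add_zero]
    exact rsI_cast hM n
  | add x y ihx ihy =>
    have h : exV K1 M env (.add x y) = mg (fun v => v) 0 (exV K1 M env x) (exV K1 M env y) := rfl
    rw [h, mg_id, ihx, ihy]; rfl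
  | mul x y ihx ihy =>
    have h : exV K1 M env (.mul x y) = mlS K1 (exV K1 M env y) (exV K1 M env x) .nil := rfl
    rw [h, mlS_cc hM, ihx, ihy]
    simp only [KL.cc, Ex.val, zero_add]
  | pow x n ih =>
    have h0 : exV K1 M env (.pow x n) =
      @Nat.rec (fun _ => KL) (KL.cons 0 1 KL.nil) (fun _ y => mlS K1 y (exV K1 M env x) KL.nil) n := rfl
    rw [h0]
    simp only [Ex.val]
    rw [← ih]
    clear h0
    induction n with
    | zero => simp [KL.cc]
    | succ n ihn =>
      change (mlS K1 (@Nat.rec (fun _ => KL) (KL.cons 0 1 KL.nil) (fun _ y => mlS K1 y (exV K1 M env x) KL.nil) n)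
        (exV K1 M env x) KL.nil).cc O = _
      rw [mlS_cc hM, ihn, pow_succ]
      simp only [KL.cc]
      ring

/-! ### Environments and explicit polynomials -/

/-- Value of an environment entry. -/
def vlV (O : A) (f : ℕ → ℕ) (S B : ℕ) : VE → A
  | .x i => (B : A) ^ (f i % S) * O ^ (f i / S)
  | .c n => (n : A)

theorem mkV_spec {K1 M : ℕ} (hM : Mod A K1 M) (O : A) (f : ℕ → ℕ) (S B : ℕ) (l : List VE) : ∃ env : LL,
    (∀ {α : Type} (k : LL → α), mkV f S B K1 M l k = k env) ∧
      ∀ j, (nthL env j).cc O = vlV O f S B (nth (VE.c 0) l j) := by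
  induction l with
  | nil =>
    refine ⟨.nil, fun k => rfl, fun j => ?_⟩
    have : nth (VE.c 0) ([] : List VE) j = VE.c 0 := rfl
    rw [this, nthL_nil]
    simp [KL.cc, vlV]
  | cons e l ih =>
    obtain ⟨env, h1, h2⟩ := ih
    cases e with
    | x i =>
      refine ⟨.cons (.cons (f i / S) (B ^ (f i % S)) .nil) env, fun k => ?_, fun j => ?_⟩
      · have h : mkV f S B K1 M (VE.x i :: l) k = fN (Nat.div (f i) S) fun t => fN (Nat.pow B (Nat.mod (f i) S)) fun v =>
          mkV f S B K1 M l fun r => k (LL.cons (KL.cons t v KL.nil) r) := rfl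
        rw [h, fN_eq, fN_eq, h1]; rfl
      · cases j with
        | zero =>
          change (KL.cons (f i / S) (B ^ (f i % S)) .nil).cc O = (B : A) ^ (f i % S) * O ^ (f i / S)
          simp [KL.cc]
        | succ j => exact h2 j
    | c n =>
      refine ⟨.cons (.cons 0 (rsI K1 M n) .nil) env, fun k => ?_, fun j => ?_⟩
      · have h : mkV f S B K1 M (VE.c n :: l) k = fN (rsI K1 M n) fun v =>
          mkV f S B K1 M l fun r => k (LL.cons (KL.cons 0 v KL.nil) r) := rfl
        rw [h, fN_eq, h1]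
      · cases j with
        | zero =>
          change (KL.cons 0 (rsI K1 M n) .nil).cc O = (n : A)
          simp only [KL.cc, pow_zero, mul_one, add_zero]
          exact rsI_cast hM n
        | succ j => exact h2 j

theorem pkM_cast {K1 M : ℕ} (hM : Mod A K1 M) (B : ℕ) (tp : List (ℕ × ℤ)) :
    ((pkM B M K1 tp : ℕ) : A) = ((pkv (B : ℤ) tp : ℤ) : A) := by
  have h : ((pkM B M K1 tp : ℕ) : A) = (pkP B tp : A) + ((Nat.sub M (Nat.land (pkN B tp) K1) : ℕ) : A) :=
    Nat.cast_add _ _
  rw [h, subM_cast hM (land_lt hM _).le, land_cast hM, ← pk_cast]; ring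

theorem xpV_cc {K1 M : ℕ} (hM : Mod A K1 M) (B : ℕ) (O : A) (Z : List (ℕ × List (ℕ × ℤ))) :
    (xpV B M K1 Z).cc O = xvA B O Z := by
  induction Z with
  | nil => rfl
  | cons e Z ih =>
    have h : xpV B M K1 (e :: Z) = .cons e.1 (pkM B M K1 e.2) (xpV B M K1 Z) := rfl
    rw [h]
    simp only [KL.cc]
    rw [ih, pkM_cast hM]
    simp [xvA]

theorem swT_eq (li : List (ℕ × ℕ)) (tp : List (ℕ × ℤ)) : swT li tp = tp.map fun e => (swK li e.1, e.2) := by
  induction tp with
  | nil => rfl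
  | cons e tp ih =>
    have h : swT li (e :: tp) = (swK li e.1, e.2) :: swT li tp := rfl
    rw [h, ih]; rfl

theorem swZ_cc {K1 M : ℕ} (hM : Mod A K1 M) (B : ℕ) (O : A) (li lo : List (ℕ × ℕ)) (Z : List (ℕ × List (ℕ × ℤ))) :
    (swZ B M K1 li lo Z).cc O = xvA B O (Z.map fun e => (swK lo e.1, e.2.map fun t => (swK li t.1, t.2))) := by
  induction Z with
  | nil => rfl
  | cons e Z ih =>
    have h : swZ B M K1 li lo (e :: Z) = .cons (.cons (swK lo e.1) (pkM B M K1 (swT li e.2)) .nil) (swZ B M K1 li lo Z) := rfl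
    rw [h]
    simp only [LL.cc, KL.cc]
    rw [ih, pkM_cast hM, swT_eq]
    simp [xvA]

theorem ngL_cc {K1 M : ℕ} (hM : Mod A K1 M) (O : A) : ∀ l : KL, (ngL K1 M l).cc O = -l.cc O
  | .nil => by simp [ngL, KL.cc]
  | .cons k v t => by
    have h : ngL K1 M (.cons k v t) = .cons k (Nat.sub M (Nat.land v K1)) (ngL K1 M t) := rfl
    rw [h]
    simp only [KL.cc]
    rw [ngL_cc hM O t, subM_cast hM (land_lt hM _).le, land_cast hM]; ring

end VRM

end Pool.Agent.Lib.MP_084b88_gt.SK
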