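import Pool.Agent.Lib.MP_084b88_gt.SK.VF

/-!
# MP_084b88_gt, project SK, checker v2: the check with explicit terms

`∑_(env) G(env) + ∑ c σ^f(F) = SOS`, the explicit polynomials `F` with coefficients `c`, exchanged (`f`) or not.
-/

set_option autoImplicit false

open MvPolynomial

namespace Pool.Agent.Lib.MP_084b88_gt.SK

/-- An explicit term: coefficient, exchanged?, polynomial. -/
structure XT where
  c : ℤ
  s : Bool
  F : List (ℕ × List (ℕ × ℤ))

/-- The polynomial of an explicit term. -/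
noncomputable def XT.pl (p : Pm) (t : XT) : MvPolynomial ℕ ℤ :=
  C t.c * if t.s then rename psI (p.mP t.F) else p.mP t.F

/-- A nonzero list. -/
def badL : KL := KL.cons 0 1 KL.nil

/-- Go over `n` entries with value 0. -/
noncomputable def stpZ (K1 n : ℕ) : KL → KL :=
  @Nat.rec (fun _ => KL → KL) (fun l => l)
    (fun _ ih l => @KL.rec (fun _ => KL) KL.nil
      (fun _ v t _ => @Bool.rec (fun _ => KL) badL (ih t) (Nat.ble (Nat.land v K1) 0)) l) n

/-- All values vanish, in pieces (small recursion depth). -/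
noncomputable def azC (K1 n : ℕ) : KL → Bool :=
  @Nat.rec (fun _ => KL → Bool) (fun _ => false)
    (fun _ ih l => @KL.rec (fun _ => Bool) true (fun k v t _ => ih (stpZ K1 200 (KL.cons k v t))) l) n

/-- Values of the explicit terms. -/
noncomputable def xtS (B K1 M n : ℕ) (li lo : List (ℕ × ℕ)) (ts : List XT) : KL :=
  @List.rec XT (fun _ => KL) KL.nil
    (fun t _ ih => @Int.rec (fun _ => KL)
      (fun m => mg (Nat.mul m) 0 (@Bool.rec (fun _ => KL) (xpV B M K1 t.F) (mgT n (swZ B M K1 li lo t.F)) t.s) ih)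
      (fun m => mg (fun v => Nat.mul (Nat.succ m) (Nat.sub M (Nat.land v K1))) 0
        (@Bool.rec (fun _ => KL) (xpV B M K1 t.F) (mgT n (swZ B M K1 li lo t.F)) t.s) ih) t.c) ts

/-- Sizes of the explicit terms. -/
noncomputable def ckT2 (ri ro : List (ℕ × ℕ)) (k : ℕ → Bool) (ts : List XT) : ℕ → Bool :=
  @List.rec XT (fun _ => ℕ → Bool) (fun acc => k acc)
    (fun t _ ih acc => ckM ri ro (fun s => fN (Nat.add acc (Nat.mul (iabs t.c) s)) ih) t.F 0) ts

/-- **The check with explicit terms.** -/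
noncomputable def chU (p : Pm) (q : Q2) (es : List EvD) (G : Ex) (ts : List XT) (ms : List MB) : Bool :=
  exC2 q.ra q.rb q.ro G (fun s1 =>
    ckT2 (p.di.map fun d => (d.r, q.zi)) (p.dO.map fun d => (d.r, q.zo)) (fun s2 =>
      ckS p.b p.di p.dO (fun s4 =>
        ifle (Nat.succ (Nat.add (Nat.add s1 s2) s4)) p.B
          (fN (Nat.pow 2 q.K) fun M => fN (Nat.pred M) fun K1 =>
            soS p.B p.b p.o p.c K1 M q.n false (azC K1 100000) ms
              (ngL K1 M (mg (fun v => v) 0 (evS (st (rF p.rs)) p.S p.B K1 M G es)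
                (xtS p.B K1 M q.n q.li q.lo ts)))) false) ms 0) ts 0) es 0

namespace VUM

theorem stpZ_cc {A : Type*} [CommRing A] {K1 M : ℕ} (hM : Mod A K1 M) (O : A) (n : ℕ) : ∀ l : KL,
    (stpZ K1 n l).cc O = l.cc O ∨ stpZ K1 n l = badL := by
  induction n with
  | zero => intro l; exact Or.inl rfl
  | succ n ih =>
    intro l
    cases l with
    | nil => exact Or.inl rfl
    | cons k v t =>
      have h : stpZ K1 (n + 1) (.cons k v t) =
        @Bool.rec (fun _ => KL) badL (stpZ K1 n t) (Nat.ble (Nat.land v K1) 0) := rfl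
      rw [h]
      cases hb : Nat.ble (Nat.land v K1) 0 with
      | false => exact Or.inr rfl
      | true =>
        have h4 : Nat.land v K1 = 0 := Nat.le_zero.1 (Nat.le_of_ble_eq_true hb)
        have h5 : (v : A) = 0 := by rw [← VRM.land_cast hM v, h4, Nat.cast_zero]
        rcases ih t with h6 | h6
        · left
          change (stpZ K1 n t).cc O = _
          rw [h6]
          simp only [KL.cc]
          rw [h5]; ring
        · right; exact h6

theorem azC_cc {A : Type*} [CommRing A] {K1 M : ℕ} (hM : Mod A K1 M) (O : A) (n : ℕ) : ∀ l : KL,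
    azC K1 n l = true → l.cc O = 0 := by
  induction n with
  | zero => intro l h; exact absurd (show false = true from h) (by decide)
  | succ n ih =>
    intro l h
    cases l with
    | nil => rfl
    | cons k v t =>
      have h' : azC K1 n (stpZ K1 200 (.cons k v t)) = true := h
      have h2 := ih _ h'
      rcases stpZ_cc hM O 200 (.cons k v t) with h3 | h3
      · rw [← h3]; exact h2
      · rw [h3] at h2
        have h4 : (1 : A) = 0 := by
          have : (badL.cc O : A) = 1 := by simp [badL, KL.cc]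
          rw [← this]; exact h2
        calc (KL.cons k v t).cc O = (KL.cons k v t).cc O * 1 := (mul_one _).symm
          _ = 0 := by rw [h4, mul_zero]

theorem mg_pos {A : Type*} [CommRing A] (O : A) (m : ℕ) (l acc : KL) :
    (mg (Nat.mul m) 0 l acc).cc O = (m : A) * l.cc O + acc.cc O := by
  rw [VRM.mg_cc O (m : A) (Nat.mul m) 0 l acc (VRM.all_triv (fun v => Nat.cast_mul m v) l)]; simp

theorem mg_neg {A : Type*} [CommRing A] {K1 M : ℕ} (hM : Mod A K1 M) (O : A) (m : ℕ) (l acc : KL) :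
    (mg (fun v => Nat.mul (Nat.succ m) (Nat.sub M (Nat.land v K1))) 0 l acc).cc O =
      -((m : A) + 1) * l.cc O + acc.cc O := by
  rw [VRM.mg_cc O (-((m : A) + 1)) _ 0 l acc (VRM.all_triv (fun v => ?_) l)]
  · simp
  · have e : ((Nat.mul (Nat.succ m) (Nat.sub M (Nat.land v K1)) : ℕ) : A) =
      ((Nat.succ m : ℕ) : A) * ((Nat.sub M (Nat.land v K1) : ℕ) : A) := Nat.cast_mul _ _
    rw [e, VRM.subM_cast hM (VRM.land_lt hM v).le, VRM.land_cast hM, Nat.cast_succ]; ring

theorem xtS_cc {A : Type*} [CommRing A] {p : Pm} {q : Q2} {ro : List ℕ} (hq : QOK p q ro) {K1 M : ℕ} (hM : Mod A K1 M)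
    {O : A} {h : MvPolynomial ℕ ℤ →+* A} (hh : Hm p A O h) {f g : Dg → ℕ} (ts : List XT)
    (ht : ∀ t ∈ ts, VPM.XOK p f g t.F) :
    (xtS p.B K1 M q.n q.li q.lo ts).cc O = h (ts.map (XT.pl p)).sum := by
  induction ts with
  | nil => simp [xtS, KL.cc]
  | cons t ts ih =>
    have hF := ht t List.mem_cons_self
    have ih' := ih fun y hy => ht y (List.mem_cons_of_mem _ hy)
    have hV : (@Bool.rec (fun _ => KL) (xpV p.B M K1 t.F) (mgT q.n (swZ p.B M K1 q.li q.lo t.F)) t.s).cc O =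
        h (if t.s then rename psI (p.mP t.F) else p.mP t.F) := by
      cases t.s with
      | true =>
        change (mgT q.n (swZ p.B M K1 q.li q.lo t.F)).cc O = h (rename psI (p.mP t.F))
        rw [VRM.mgT_cc, VRM.swZ_cc hM, VPM.h_mPps hq.ok hq.two hq.sw hh hF]
      | false =>
        change (xpV p.B M K1 t.F).cc O = h (p.mP t.F)
        rw [VRM.xpV_cc hM, VPM.h_mP hq.ok hq.two hh hF]
    have h1 : xtS p.B K1 M q.n q.li q.lo (t :: ts) = @Int.rec (fun _ => KL)
      (fun m => mg (Nat.mul m) 0 (@Bool.rec (fun _ => KL) (xpV p.B M K1 t.F)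
        (mgT q.n (swZ p.B M K1 q.li q.lo t.F)) t.s) (xtS p.B K1 M q.n q.li q.lo ts))
      (fun m => mg (fun v => Nat.mul (Nat.succ m) (Nat.sub M (Nat.land v K1))) 0
        (@Bool.rec (fun _ => KL) (xpV p.B M K1 t.F) (mgT q.n (swZ p.B M K1 q.li q.lo t.F)) t.s)
          (xtS p.B K1 M q.n q.li q.lo ts)) t.c := rfl
    rw [h1, List.map_cons, List.sum_cons, map_add, ← ih']
    unfold XT.pl
    rw [map_mul, VPM.h_C]
    cases t.c with
    | ofNat m =>
      change (mg (Nat.mul m) 0 _ _).cc O = _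
      rw [mg_pos, hV, Int.ofNat_eq_natCast, Int.cast_natCast]
    | negSucc m =>
      change (mg (fun v => Nat.mul (Nat.succ m) (Nat.sub M (Nat.land v K1))) 0 _ _).cc O = _
      rw [mg_neg hM, hV, Int.cast_negSucc]
      push_cast; ring

theorem ckT2_spec (ri ro : List (ℕ × ℕ)) (k : ℕ → Bool) (ts : List XT) : ∀ acc : ℕ,
    ckT2 ri ro k ts acc = true →
      (∀ t ∈ ts, ∀ e ∈ t.F, dck ro e.1 = true ∧ ∀ u ∈ e.2, dck ri u.1 = true) ∧
        k (acc + (ts.map fun t => t.c.natAbs * SosM.abE t.F).sum) = true := by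
  induction ts with
  | nil =>
    intro acc h
    have h' : k acc = true := h
    exact ⟨by simp, by simpa using h'⟩
  | cons t ts ih =>
    intro acc h
    have h1 : ckT2 ri ro k (t :: ts) acc =
      ckM ri ro (fun s => fN (Nat.add acc (Nat.mul (iabs t.c) s)) (ckT2 ri ro k ts)) t.F 0 := rfl
    rw [h1] at h
    obtain ⟨h2, h3⟩ := SosM.ckM_spec _ _ _ _ _ h
    rw [fN_eq, zero_add] at h3
    obtain ⟨h4, h5⟩ := ih _ h3
    refine ⟨fun y hy => ?_, ?_⟩
    · rcases List.mem_cons.1 hy with h8 | h8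
      · rw [h8]; exact h2
      · exact h4 y h8
    · have : acc + ((t :: ts).map fun t => t.c.natAbs * SosM.abE t.F).sum =
          Nat.add acc (Nat.mul (iabs t.c) (SosM.abE t.F)) + (ts.map fun t => t.c.natAbs * SosM.abE t.F).sum := by
        rw [SosM.iabs_eq, List.map_cons, List.sum_cons]
        change acc + (t.c.natAbs * SosM.abE t.F + _) = acc + t.c.natAbs * SosM.abE t.F + _
        omega
      rw [this]; exact h5

theorem gd_C {p : Pm} (c : ℤ) {P : MvPolynomial ℕ ℤ} {m : ℕ} (h : VCM.Gd p P m) :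
    VCM.Gd p (C c * P) (c.natAbs * m) where
  hd := fun i => by
    refine lt_of_le_of_lt (MvPolynomial.degreeOf_mul_le i _ _) ?_
    rw [PolM.deg_C, zero_add]; exact h.hd i
  hm := (nb_mul _ _).trans (Nat.mul_le_mul (nb_C c) h.hm)

theorem gd_pl {p : Pm} {q : Q2} {ro : List ℕ} (hq : QOK p q ro) (t : XT)
    (ht : VPM.XOK p (fun _ => q.zi) (fun _ => q.zo) t.F) :
    VCM.Gd p (t.pl p) (t.c.natAbs * SosM.abE t.F) := by
  obtain ⟨h1, h2⟩ := VCM.gd_z hq t.F ht
  unfold XT.pl
  refine gd_C t.c ?_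
  cases t.s with
  | true => exact h2
  | false => exact h1

end VUM

open VCM VUM

/-- **The theorem of the check with explicit terms.** -/
theorem chU_spec {p : Pm} {q : Q2} {ro : List ℕ} (hq : QOK p q ro) (es : List EvD) (he : ∀ x ∈ es, EvOK p x) (G : Ex)
    (ts : List XT) (ms : List MB) (h : chU p q es G ts ms = true) :
    (es.map fun x => G.val (vE x.env fun i => X i)).sum + (ts.map (XT.pl p)).sum = p.sosP ms := by
  obtain ⟨h1, h2⟩ := exC2_spec _ _ _ _ _ _ _ h
  obtain ⟨h3, h4⟩ := ckT2_spec _ _ _ _ _ h2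
  obtain ⟨h7, h8⟩ := SosM.ckS_spec _ _ _ _ _ _ h4
  obtain ⟨h9, h10⟩ := ifle_true h8
  rw [fN_eq, fN_eq] at h10
  have hM' := VZM.mod_hM q.K
  have hh := VZM.hm_hM p (2 ^ q.K)
  have hT : ∀ t ∈ ts, VPM.XOK p (fun _ => q.zi) (fun _ => q.zo) t.F := fun t ht e he' => h3 t ht e he'
  have e2 : Nat.pred (Nat.pow 2 q.K) = 2 ^ q.K - 1 := rfl
  have e3 : Nat.pow 2 q.K = 2 ^ q.K := rfl
  rw [e2, e3] at h10
  have hgs : Gd p (es.map fun x => G.val (vE x.env fun i => X i)).sum (es.map fun x => exZ x.wn G).sum :=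
    Gd.sum hq.ok es _ _ fun x hx => gd_ex hq (he x hx) G (h1 x hx).1 (h1 x hx).2.1 (h1 x hx).2.2
  have hts : Gd p (ts.map (XT.pl p)).sum (ts.map fun t => t.c.natAbs * SosM.abE t.F).sum :=
    Gd.sum hq.ok ts _ _ fun t ht => gd_pl hq t (hT t ht)
  have hss := gd_sos hq.ok ms h7
  have hg := ((hgs.add hts).neg.add hss)
  have hval : hM p (2 ^ q.K) (-((es.map fun x => G.val (vE x.env fun i => X i)).sum + (ts.map (XT.pl p)).sum) +
      p.sosP ms) = 0 := by
    rcases VRM.soS_spec hM' Polynomial.X p.B p.b p.o p.c q.n hq.ok.hc hq.ok.hb hq.ho ms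
      (ngL (2 ^ q.K - 1) (2 ^ q.K) (mg (fun v => v) 0 (evS (st (rF p.rs)) p.S p.B (2 ^ q.K - 1) (2 ^ q.K) G es)
        (xtS p.B (2 ^ q.K - 1) (2 ^ q.K) q.n q.li q.lo ts))) with k1 | ⟨r, k1, k2⟩
    · rw [k1 false (azC (2 ^ q.K - 1) 100000)] at h10; exact absurd h10 (by decide)
    · rw [k1 false (azC (2 ^ q.K - 1) 100000)] at h10
      have k3 := azC_cc hM' Polynomial.X 100000 r h10
      rw [k2, VRM.ngL_cc hM', VRM.mg_id, evS_cc hM' hh G es he, xtS_cc hq hM' hh ts hT] at k3
      rw [map_add, map_neg, map_add, VPM.h_sosP hq.ok hq.two hh ms h7]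
      exact k3
  have hzero := VZM.zero_mod hq.two (2 ^ q.K) _ hg.hd (lt_of_le_of_lt hg.hm ?_) hq.hB hval
  · linear_combination -hzero
  · change 0 + (es.map fun x => exZ x.wn G).sum + (0 + (ts.map fun t => t.c.natAbs * SosM.abE t.F).sum) +
      (0 + (ms.map (SosM.abMB p.b)).sum) + 1 ≤ p.B at h9
    omega

end Pool.Agent.Lib.MP_084b88_gt.SK
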