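import Pool.Agent.Lib.MP_084b88_gt.SK.VP

/-!
# MP_084b88_gt, project SK, checker v2: a polynomial with value 0 modulo `2^K` is 0
-/

set_option autoImplicit false

open MvPolynomial

namespace Pool.Agent.Lib.MP_084b88_gt.SK

/-- The homomorphism to the polynomials in the outer variable. -/
noncomputable def hψ (p : Pm) : MvPolynomial ℕ ℤ →+* Polynomial ℤ :=
  MvPolynomial.eval₂Hom (Polynomial.C : ℤ →+* Polynomial ℤ) fun i =>
    Polynomial.C ((p.B : ℤ) ^ (st (rF p.rs) i % p.S)) * Polynomial.X ^ (st (rF p.rs) i / p.S)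

/-- The homomorphism modulo `M`. -/
noncomputable def hM (p : Pm) (M : ℕ) : MvPolynomial ℕ ℤ →+* Polynomial (ZMod M) :=
  (Polynomial.mapRingHom (Int.castRingHom (ZMod M))).comp (hψ p)

namespace VZM

theorem hm_hM (p : Pm) (M : ℕ) : Hm p (Polynomial (ZMod M)) Polynomial.X (hM p M) := by
  constructor
  intro i _
  unfold hM hψ
  simp

theorem mod_hM (K : ℕ) : Mod (Polynomial (ZMod (2 ^ K))) (2 ^ K - 1) (2 ^ K) where
  h0 := by
    have h1 : (((2 ^ K : ℕ) : ℕ) : Polynomial (ZMod (2 ^ K))) = Polynomial.C (((2 ^ K : ℕ) : ℕ) : ZMod (2 ^ K)) := by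
      rw [Polynomial.C_eq_natCast]
    rw [h1, ZMod.natCast_self, map_zero]
  h1 := fun v => Nat.and_two_pow_sub_one_eq_mod v K
  h2 := by positivity

theorem hat_eq (p : Pm) (P : MvPolynomial ℕ ℤ) :
    hat (rF p.rs) p.B P = Polynomial.eval ((p.B : ℤ) ^ p.S) (hψ p P) := by
  have h : hat (rF p.rs) p.B = (Polynomial.evalRingHom ((p.B : ℤ) ^ p.S)).comp (hψ p) := by
    refine MvPolynomial.ringHom_ext (fun c => ?_) fun i => ?_
    · unfold hat hψ; simp
    · unfold hat hψ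
      simp only [MvPolynomial.eval_X, RingHom.comp_apply, MvPolynomial.coe_eval₂Hom, MvPolynomial.eval₂_X,
        Polynomial.coe_evalRingHom, Polynomial.eval_mul, Polynomial.eval_C, Polynomial.eval_pow, Polynomial.eval_X]
      rw [← pow_mul, ← pow_add, Nat.mod_add_div]
  rw [h]; rfl

/-- Exponent of the inner variable. -/
def Ue (p : Pm) (e : ℕ →₀ ℕ) : ℕ := ∑ i ∈ e.support, (st (rF p.rs) i % p.S) * e i

/-- Exponent of the outer variable. -/
def Ve (p : Pm) (e : ℕ →₀ ℕ) : ℕ := ∑ i ∈ e.support, (st (rF p.rs) i / p.S) * e i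

theorem hψ_eq (p : Pm) (P : MvPolynomial ℕ ℤ) :
    hψ p P = ∑ e ∈ P.support, Polynomial.C (P.coeff e * (p.B : ℤ) ^ Ue p e) * Polynomial.X ^ Ve p e := by
  unfold hψ
  rw [MvPolynomial.coe_eval₂Hom, MvPolynomial.eval₂_eq]
  refine Finset.sum_congr rfl fun e _ => ?_
  have h1 : ∀ i ∈ e.support, (Polynomial.C ((p.B : ℤ) ^ (st (rF p.rs) i % p.S)) *
      Polynomial.X ^ (st (rF p.rs) i / p.S)) ^ e i = Polynomial.C ((p.B : ℤ) ^ ((st (rF p.rs) i % p.S) * e i)) *
        Polynomial.X ^ ((st (rF p.rs) i / p.S) * e i) := by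
    intro i _
    rw [mul_pow, ← Polynomial.C_pow, ← pow_mul, ← pow_mul]
  rw [Finset.prod_congr rfl h1, Finset.prod_mul_distrib, Finset.prod_pow_eq_pow_sum, ← map_prod,
    Finset.prod_pow_eq_pow_sum, ← mul_assoc, ← Polynomial.C_mul]
  rfl

theorem Ue_le {p : Pm} {ra rb : ℕ} {ro : List ℕ} (ht : Two p ra rb ro) (e : ℕ →₀ ℕ)
    (he : ∀ i, e i < rF p.rs i) : Ue p e ≤ p.S - 1 := by
  have hra : 0 < ra := by have := ht.ha; omega
  have hrb : 0 < rb := by have := ht.hb; omega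
  have hS0 : 0 < ra * rb := Nat.mul_pos hra hrb
  have h1 : 1 < ra * rb := by
    calc 1 < 2 * 2 := by norm_num
      _ ≤ ra * rb := Nat.mul_le_mul ht.ha ht.hb
  have h2 : ra < ra * rb := by
    calc ra = ra * 1 := (mul_one _).symm
      _ < ra * rb := Nat.mul_lt_mul_of_pos_left (by have := ht.hb; omega) hra
  have hz : ∀ i, p.rs.length ≤ i → e i = 0 := by
    intro i hi
    have := he i
    rw [SosM.rF_one p.rs i hi] at this; omega
  have hsub : e.support ⊆ Finset.range p.rs.length := by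
    intro i hi
    rw [Finset.mem_range]
    by_contra h
    exact (Finsupp.mem_support_iff.1 hi) (hz i (not_lt.1 h))
  have h3 : Ue p e ≤ ∑ i ∈ Finset.range p.rs.length, (st (rF p.rs) i % p.S) * e i :=
    Finset.sum_le_sum_of_subset hsub
  refine h3.trans ?_
  have he0 := he 0
  have he1 := he 1
  rw [ht.hS, ht.hr] at *
  rw [List.length_cons, List.length_cons, Finset.sum_range_succ', Finset.sum_range_succ']
  have u0 : st (rF (ra :: rb :: ro)) 0 % (ra * rb) = 1 := Nat.mod_eq_of_lt h1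
  have u1 : st (rF (ra :: rb :: ro)) (0 + 1) % (ra * rb) = ra := by
    rw [zero_add, VPM.st1]; exact Nat.mod_eq_of_lt h2
  have u2 : ∀ j ∈ Finset.range ro.length, st (rF (ra :: rb :: ro)) (j + 1 + 1) % (ra * rb) * e (j + 1 + 1) = 0 := by
    intro j _
    rw [VPM.st2, Nat.mul_mod_right, zero_mul]
  rw [Finset.sum_congr rfl u2, Finset.sum_const_zero, u0, u1, zero_add, zero_add, one_mul]
  have b0 : e 0 + 1 ≤ ra := he0
  have b1 : e 1 + 1 ≤ rb := he1
  have b2 : ra * (e 1 + 1) ≤ ra * rb := Nat.mul_le_mul_left _ b1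
  rw [mul_add, mul_one] at b2
  omega

theorem coeff_bound {p : Pm} {ra rb : ℕ} {ro : List ℕ} (ht : Two p ra rb ro) (hB : 0 < p.B) (P : MvPolynomial ℕ ℤ)
    (hd : ∀ i, P.degreeOf i < rF p.rs i) (k : ℕ) :
    |(hψ p P).coeff k| ≤ (nb P : ℤ) * (p.B : ℤ) ^ (p.S - 1) := by
  rw [hψ_eq, Polynomial.finsetSum_coeff]
  refine (Finset.abs_sum_le_sum_abs _ _).trans ?_
  have h1 : (nb P : ℤ) * (p.B : ℤ) ^ (p.S - 1) = ∑ e ∈ P.support, |P.coeff e| * (p.B : ℤ) ^ (p.S - 1) := by
    unfold nb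
    push_cast
    rw [Finset.sum_mul]
  rw [h1]
  refine Finset.sum_le_sum fun e he => ?_
  have hb : ∀ i, e i < rF p.rs i := fun i => lt_of_le_of_lt (MvPolynomial.monomial_le_degreeOf i he) (hd i)
  have hU := Ue_le ht e hb
  rw [Polynomial.coeff_C_mul, Polynomial.coeff_X_pow]
  have hB1 : (1 : ℤ) ≤ p.B := by exact_mod_cast hB
  have hpow : (p.B : ℤ) ^ Ue p e ≤ (p.B : ℤ) ^ (p.S - 1) := pow_le_pow_right₀ hB1 hU
  have hpos : (0 : ℤ) ≤ (p.B : ℤ) ^ Ue p e := by positivity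
  split_ifs with h
  · rw [mul_one, abs_mul, abs_of_nonneg hpos]
    exact mul_le_mul_of_nonneg_left hpow (abs_nonneg _)
  · rw [mul_zero, abs_zero]
    exact mul_nonneg (abs_nonneg _) (hpos.trans hpow)

/-- **Injectivity.** -/
theorem zero_mod {p : Pm} {ra rb : ℕ} {ro : List ℕ} (ht : Two p ra rb ro) (M : ℕ) (P : MvPolynomial ℕ ℤ)
    (hd : ∀ i, P.degreeOf i < rF p.rs i) (hn : nb P < p.B) (hBM : p.B ^ p.S ≤ M) (h0 : hM p M P = 0) : P = 0 := by
  have hB : 0 < p.B := lt_of_le_of_lt (Nat.zero_le _) hn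
  have hS : 0 < p.S := by
    rw [ht.hS]
    exact Nat.mul_pos (by have := ht.ha; omega) (by have := ht.hb; omega)
  have hψ0 : hψ p P = 0 := by
    ext k
    rw [Polynomial.coeff_zero]
    have h1 : (M : ℤ) ∣ (hψ p P).coeff k := by
      rw [← ZMod.intCast_zmod_eq_zero_iff_dvd _ M]
      have h2 := congrArg (fun q => Polynomial.coeff q k) h0
      unfold hM at h2
      simp only [RingHom.comp_apply, Polynomial.coe_mapRingHom, Polynomial.coeff_map, Polynomial.coeff_zero] at h2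
      exact h2
    by_contra hne
    have h3 := Int.le_of_dvd (abs_pos.2 hne) ((dvd_abs _ _).2 h1)
    have h4 := coeff_bound ht hB P hd k
    have h5 : (nb P : ℤ) * (p.B : ℤ) ^ (p.S - 1) < (M : ℤ) := by
      calc (nb P : ℤ) * (p.B : ℤ) ^ (p.S - 1) < (p.B : ℤ) * (p.B : ℤ) ^ (p.S - 1) := by
            refine mul_lt_mul_of_pos_right (by exact_mod_cast hn) ?_
            have : (0 : ℤ) < p.B := by exact_mod_cast hB
            positivity
        _ = (p.B : ℤ) ^ p.S := by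
            rw [← pow_succ', Nat.sub_add_cancel hS]
        _ ≤ (M : ℤ) := by exact_mod_cast hBM
    exact absurd (h3.trans h4) (not_le.2 h5)
  refine zero_of_hat (rF p.rs) p.rs.length p.B (fun i hi => SosM.rF_one p.rs i hi) P hd (by exact_mod_cast hn) ?_
  rw [hat_eq, hψ0, Polynomial.eval_zero]

end VZM

end Pool.Agent.Lib.MP_084b88_gt.SK
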